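import Pool.Agent.Work.MP_abe657_gt.CM.ExUniq

/-!
# MP_abe657_gt, part CM, module AnnMap

Size S-M. Images of solutions under ring homomorphisms.

Proof. `IsBase.map`, `IsVec.map`: apply `m2 f` (or `PowerSeries.map f`, `f`) to every equation; `m2_dZ`, `m2_dW`,
`m2_zs`, `m2_ws`, `m2_cc`, `coeff_m2`, `dmap`, `map_mul`. `Ann.map`: given a solution over `S` for `D.map f` with initial
value `Pi.single c 1`, take a solution over `R` (`base_exists`, `vec_exists`) with initial value `Pi.single c 1`; its image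
is a solution for `D.map f` with initial value `fun i => f (Pi.single c 1 i) = Pi.single c 1`, so by uniqueness it is the
given one, and `m2_PL` gives the claim. `Ann.of_map_injective`: the image of a solution over `R` is a solution over `S`;
`m2_PL` and `m2_injective`.
-/

set_option autoImplicit false

namespace Pool.Agent.Work.MP_abe657_gt.CM

open PowerSeries

variable {R S : Type} [CommRing R] [CommRing S]

theorem IsBase.map {D : Dat R} {F G r : P2 R} (f : R →+* S) (h : IsBase D F G r) :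
    IsBase (D.map f) (m2 f F) (m2 f G) (m2 f r) where
  F_w := by rw [← m2_dW, h.F_w, map_mul]
  G_w := by rw [← m2_dW, h.G_w, map_neg, map_mul]
  r_z := by
    rw [← m2_dZ, h.r_z, map_add, map_neg, map_mul, map_mul, map_mul, m2_cc, m2_zs, m2_ws, map_mul]
    rfl
  F0 := by rw [coeff_m2, h.F0, map_one]
  G0 := by rw [coeff_m2, h.G0, map_one]
  r0 := fun j => by rw [coeff2_m2, h.r0, map_zero]

theorem IsVec.map {D : Dat R} {F G r : P2 R} {a : Fin 3 → R} {e1 e2 n : P2 R} (f : R →+* S)
    (h : IsVec D F G r a e1 e2 n) :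
    IsVec (D.map f) (m2 f F) (m2 f G) (m2 f r) (fun i => f (a i)) (m2 f e1) (m2 f e2) (m2 f n) where
  e1_w := by
    rw [← m2_dW, h.e1_w, map_mul, map_mul, m2_cc]
    rfl
  e2_w := by
    rw [← m2_dW, h.e2_w, map_add, map_mul, map_mul, m2_ws]
    rfl
  n_w := by
    rw [← m2_dW, h.n_w, map_sub, map_neg, map_mul, map_mul, map_mul, m2_ws, m2_cc]
    rfl
  e1_z := by
    rw [coeff_m2, coeff_m2, ← dmap, h.e1_z, map_mul]
    rfl
  e2_z := by
    rw [coeff_m2, coeff_m2, ← dmap, h.e2_z, map_mul, PowerSeries.map_C]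
    rfl
  n_z := by
    rw [coeff_m2, coeff_m2, coeff_m2, ← dmap, h.n_z, map_sub, map_neg, map_mul, map_mul,
      PowerSeries.map_C]
    rfl
  i1 := by rw [coeff2_m2, h.i1]
  i2 := by rw [coeff2_m2, h.i2]
  i3 := by rw [coeff2_m2, h.i3]

private theorem single_map (f : R →+* S) (c : Fin 3) :
    (fun i => f ((Pi.single c 1 : Fin 3 → R) i)) = (Pi.single c 1 : Fin 3 → S) := by
  funext i
  by_cases h : i = c
  · subst h
    simp
  · simp [Pi.single_eq_of_ne h]

theorem Ann.map [IntInv R] [IntInv S] {D : Dat R} {k : ℕ} {μ : ℕ → R} (f : R →+* S) (h : Ann k μ D) :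
    Ann k (fun i => f (μ i)) (D.map f) := by
  intro F' G' r' e1' e2' n' c hB hV
  obtain ⟨F, G, r, hB0⟩ := base_exists D
  obtain ⟨e1, e2, n, hV0⟩ := vec_exists D F G r (Pi.single c 1)
  have h1 := h F G r e1 e2 n c hB0 hV0
  obtain ⟨a1, a2, a3⟩ := base_unique hB (hB0.map f)
  subst a1 a2 a3
  have h2 := hV0.map f
  rw [single_map] at h2
  obtain ⟨_, _, b3⟩ := vec_unique hV h2
  rw [b3, ← m2_PL, h1, map_zero]

theorem Ann.of_map_injective {D : Dat R} {k : ℕ} {μ : ℕ → R} (f : R →+* S)
    (hf : Function.Injective f) (h : Ann k (fun i => f (μ i)) (D.map f)) : Ann k μ D := by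
  intro F G r e1 e2 n c hB hV
  have h2 := hV.map f
  rw [single_map] at h2
  have h1 := h _ _ _ _ _ _ c (hB.map f) h2
  rw [← m2_PL] at h1
  exact m2_injective hf (by rw [h1, map_zero])

end Pool.Agent.Work.MP_abe657_gt.CM
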