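import Pool.Agent.Work.MP_abe657_gt.CM.ExUniq

/-!
# MP_abe657_gt, part CM, module AnnScale

Size M. Scaling of the variables.

Proof. `isBase_scale`, `isVec_scale`: apply `sc2 s t` to the equations of `h` and use `dZ_sc2`, `dW_sc2`, `sc2_zs`,
`sc2_ws`, `sc2_cc`, and `hlm : l * m = 1`. For instance `dZ (cc t * sc2 s t r) = cc t * cc s * sc2 s t (dZ r)
= -(cc (m s h1 * l t h2) * F') + zs (C (l s) * rescale s Q) * ws (C (m t) * rescale t Qt) * G'`;
`dW (cc m * sc2 e2) = cc m * cc t * sc2 (r e2 + ws Qt n) = (cc t * sc2 r) * (cc m * sc2 e2) + ws (C (m t) * rescale t Qt) * sc2 n`.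
On the axis: `coeff 0 (sc2 s t f) = rescale s (coeff 0 f)` and `d (rescale s p) = C s * rescale s (d p)`
(compare coefficients, or use `coeff_dZ` and `dZ_sc2`). `PL_sc2`: `Lop (sc2 G) (sc2 f) = cc (s * t) * sc2 (Lop G f)`, so
`(Lop (sc2 G))^[j] (sc2 f) = cc ((s t)^j) * sc2 ((Lop G)^[j] f)` (`Lop_it_cc`), and `(s t)^i * (s t)^(k-i) = (s t)^k`
for `i ≤ k`. `Ann.scale`: let `(F', G', r')`, `(e1', e2', n')` be a solution for the scaled data with initial value
`Pi.single c 1`; take a solution of `D` with initial value `Pi.single c 1`; by `isBase_scale`, `isVec_scale`,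
`IsVec.cmul` (with `b = m, l, 1` for `c = 0, 1, 2`) and uniqueness, `n' = cc b * sc2 s t n`; use `PL_cc`, `PL_sc2`.
-/

set_option autoImplicit false

namespace Pool.Agent.Work.MP_abe657_gt.CM

open PowerSeries

variable {R : Type} [CommRing R]

private theorem as_rC (s c : R) : rescale s (C c) = (C c : PowerSeries R) := by
  ext i
  rw [coeff_rescale, coeff_C]
  split_ifs with h
  · rw [h, pow_zero, one_mul]
  · rw [mul_zero]

private theorem as_coeff0 (s t : R) (f : P2 R) : coeff 0 (sc2 s t f) = rescale s (coeff 0 f) := by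
  ext i
  rw [coeff2_sc2, coeff_rescale, pow_zero, mul_one]

private theorem as_deriv (s : R) (p : PowerSeries R) :
    d⁄dX R (rescale s p) = C s * rescale s (d⁄dX R p) := by
  ext i
  rw [coeff_derivative, coeff_rescale, coeff_C_mul, coeff_rescale, coeff_derivative]
  ring

theorem isBase_scale {D : Dat R} {F G r : P2 R} (s t l m : R) (hlm : l * m = 1) (h : IsBase D F G r) :
    IsBase (D.scale s t l m) (sc2 s t F) (sc2 s t G) (cc t * sc2 s t r) := by
  have hcc : cc l * cc m = 1 := by rw [← cc_mul, hlm, cc_one]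
  refine ⟨?_, ?_, ?_, ?_, ?_, ?_⟩
  · rw [dW_sc2, h.F_w, map_mul]; ring
  · rw [dW_sc2, h.G_w, map_neg, map_mul]; ring
  · rw [dZ_cc_mul, dZ_sc2, h.r_z]
    simp only [Dat.scale, map_add, map_mul, map_neg, sc2_zs, sc2_ws, sc2_cc, zs_mul, zs_C, ws_mul, ws_C, cc_mul]
    linear_combination (cc s * cc t * cc D.h1 * cc D.h2 * sc2 s t F
      - cc s * cc t * zs (rescale s D.Q) * ws (rescale t D.Qt) * sc2 s t G) * hcc
  · rw [as_coeff0, h.F0, map_one]
  · rw [as_coeff0, h.G0, map_one]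
  · intro j
    rw [coeff2_cc_mul, coeff2_sc2, h.r0, mul_zero, mul_zero]

theorem isVec_scale {D : Dat R} {F G r : P2 R} {a : Fin 3 → R} {e1 e2 n : P2 R} (s t l m : R)
    (hlm : l * m = 1) (h : IsVec D F G r a e1 e2 n) :
    IsVec (D.scale s t l m) (sc2 s t F) (sc2 s t G) (cc t * sc2 s t r) ![l * a 0, m * a 1, a 2]
      (cc l * sc2 s t e1) (cc m * sc2 s t e2) (sc2 s t n) := by
  have hcc : cc l * cc m = 1 := by rw [← cc_mul, hlm, cc_one]
  have hC : C l * C m = (1 : PowerSeries R) := by rw [← map_mul, hlm, map_one]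
  refine ⟨?_, ?_, ?_, ?_, ?_, ?_, ?_, ?_, ?_⟩
  · rw [dW_cc_mul, dW_sc2, h.e1_w]
    simp only [Dat.scale, map_mul, sc2_cc, cc_mul]
    ring
  · rw [dW_cc_mul, dW_sc2, h.e2_w]
    simp only [Dat.scale, map_add, map_mul, sc2_ws, ws_mul, ws_C]
    ring
  · rw [dW_sc2, h.n_w]
    simp only [Dat.scale, map_sub, map_mul, map_neg, sc2_ws, sc2_cc, ws_mul, ws_C, cc_mul]
    linear_combination (cc t * ws (rescale t D.Qt) * sc2 s t G * sc2 s t e1
      + cc t * cc D.h2 * sc2 s t e2) * hcc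
  · rw [coeff_cc_mul, as_coeff0, as_coeff0, leib1, as_deriv, h.e1_z, derivative_C]
    simp only [Dat.scale, map_mul]
    ring
  · rw [coeff_cc_mul, as_coeff0, as_coeff0, leib1, as_deriv, h.e2_z, derivative_C]
    simp only [Dat.scale, map_mul, as_rC]
    ring
  · rw [coeff_cc_mul, coeff_cc_mul, as_coeff0, as_coeff0, as_coeff0, as_deriv, h.n_z]
    simp only [Dat.scale, map_mul, map_sub, map_neg, as_rC]
    linear_combination (C s * C D.h1 * rescale s (coeff 0 e1)
      + C s * rescale s D.Q * rescale s (coeff 0 e2)) * hC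
  · rw [coeff2_cc_mul, coeff2_sc2, h.i1]; simp
  · rw [coeff2_cc_mul, coeff2_sc2, h.i2]; simp
  · rw [coeff2_sc2, h.i3]; simp

private theorem as_Lop (s t : R) (G f : P2 R) :
    Lop (sc2 s t G) (sc2 s t f) = cc (s * t) * sc2 s t (Lop G f) := by
  rw [Lop, dW_sc2, dZ_cc_mul, dZ_sc2, Lop, map_mul, cc_mul]
  ring

private theorem as_Lop_it (s t : R) (G f : P2 R) (j : ℕ) :
    (Lop (sc2 s t G))^[j] (sc2 s t f) = cc ((s * t) ^ j) * sc2 s t ((Lop G)^[j] f) := by
  induction j generalizing f with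
  | zero => simp [cc_one]
  | succ j ih =>
    rw [Function.iterate_succ_apply, as_Lop, Lop_it_cc, ih, Function.iterate_succ_apply,
      ← mul_assoc, ← cc_mul, pow_succ, mul_comm (s * t)]

theorem PL_sc2 (s t : R) (k : ℕ) (μ : ℕ → R) (G f : P2 R) :
    PL k (fun i => (s * t) ^ i * μ i) (sc2 s t G) (sc2 s t f)
      = cc ((s * t) ^ k) * sc2 s t (PL k μ G f) := by
  rw [PL, PL, map_sum, Finset.mul_sum]
  refine Finset.sum_congr rfl fun i hi => ?_
  have hik : i ≤ k := Nat.lt_succ_iff.mp (Finset.mem_range.mp hi)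
  rw [as_Lop_it, map_mul, sc2_cc, ← mul_assoc, ← mul_assoc, ← cc_mul, ← cc_mul]
  congr 2
  calc (s * t) ^ i * μ i * (s * t) ^ (k - i) = (s * t) ^ (i + (k - i)) * μ i := by
        rw [pow_add]; ring
    _ = (s * t) ^ k * μ i := by rw [Nat.add_sub_cancel' hik]

theorem Ann.scale [IntInv R] {D : Dat R} {k : ℕ} {μ : ℕ → R} (s t l m : R) (hlm : l * m = 1)
    (h : Ann k μ D) : Ann k (fun i => (s * t) ^ i * μ i) (D.scale s t l m) := by
  intro F' G' r' e1' e2' n' c hB' hV'
  obtain ⟨F, G, r, hB⟩ := base_exists D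
  obtain ⟨e1, e2, n, hV⟩ := vec_exists D F G r (Pi.single c 1)
  have h0 := h F G r e1 e2 n c hB hV
  have hB2 := isBase_scale s t l m hlm hB
  obtain ⟨hF, hG, hr⟩ := base_unique hB' hB2
  subst hF hG hr
  have hV2 := isVec_scale s t l m hlm hV
  have key : ∃ b : R, (fun i => b * (![l * (Pi.single c (1 : R) : Fin 3 → R) 0,
      m * (Pi.single c (1 : R) : Fin 3 → R) 1, (Pi.single c (1 : R) : Fin 3 → R) 2] : Fin 3 → R) i)
        = Pi.single c 1 := by
    fin_cases c
    · refine ⟨m, ?_⟩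
      funext i
      fin_cases i <;> simp [hlm, mul_comm m l]
    · refine ⟨l, ?_⟩
      funext i
      fin_cases i <;> simp [hlm]
    · refine ⟨1, ?_⟩
      funext i
      fin_cases i <;> simp
  obtain ⟨b, hb⟩ := key
  have hV3 := hV2.cmul b
  rw [hb] at hV3
  obtain ⟨_, _, hn⟩ := vec_unique hV' hV3
  rw [hn, PL_cc, PL_sc2, h0, map_zero, mul_zero, mul_zero]

end Pool.Agent.Work.MP_abe657_gt.CM
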