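import Pool.Agent.Work.MP_abe657_gt.CM.Defs

/-!
# MP_abe657_gt, part CM: elementary facts on `P2 R`

FIXED file (complete proofs). Everything needed to compute with `dZ`, `dW`, `cc`, `zs`, `ws`, `sw`,
`m2` (coefficientwise images) and `sc2` (scaling of the variables).
-/

set_option autoImplicit false

namespace Pool.Agent.Work.MP_abe657_gt.CM

open PowerSeries

section ring

variable {R : Type} [CommRing R]

theorem coeff_dW (f : P2 R) (j : ℕ) : coeff j (dW f) = coeff (j + 1) f * ((j : PowerSeries R) + 1) :=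
  PowerSeries.coeff_derivative f j

theorem coeff_dZ (f : P2 R) (j : ℕ) : coeff j (dZ f) = d⁄dX R (coeff j f) := by
  rw [dZ, coeff_mk]

theorem coeff2_dW (f : P2 R) (i j : ℕ) :
    coeff i (coeff j (dW f)) = coeff i (coeff (j + 1) f) * ((j : R) + 1) := by
  rw [coeff_dW]
  have h : ((j : PowerSeries R) + 1) = C ((j : R) + 1) := by simp
  rw [h, coeff_mul_C]

theorem coeff2_dZ (f : P2 R) (i j : ℕ) :
    coeff i (coeff j (dZ f)) = coeff (i + 1) (coeff j f) * ((i : R) + 1) := by
  rw [coeff_dZ, coeff_derivative]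

theorem ext2 {f g : P2 R} (h : ∀ i j, coeff i (coeff j f) = coeff i (coeff j g)) : f = g :=
  PowerSeries.ext fun j => PowerSeries.ext fun i => h i j

theorem coeff2_mul (f g : P2 R) (i j : ℕ) : coeff i (coeff j (f * g)) =
    ∑ p ∈ Finset.HasAntidiagonal.antidiagonal j, ∑ q ∈ Finset.HasAntidiagonal.antidiagonal i,
      coeff q.1 (coeff p.1 f) * coeff q.2 (coeff p.2 g) := by
  rw [coeff_mul, map_sum]
  exact Finset.sum_congr rfl fun p _ => coeff_mul _ _ _

/-! ### derivations -/

theorem dW_add (f g : P2 R) : dW (f + g) = dW f + dW g := map_add (d⁄dX (PowerSeries R)) f g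
theorem dW_sub (f g : P2 R) : dW (f - g) = dW f - dW g := map_sub (d⁄dX (PowerSeries R)) f g
theorem dW_neg (f : P2 R) : dW (-f) = -dW f := map_neg (d⁄dX (PowerSeries R)) f
theorem dW_zero : dW (0 : P2 R) = 0 := map_zero (d⁄dX (PowerSeries R))
theorem leib1 {A : Type} [CommRing A] (f g : PowerSeries A) :
    d⁄dX A (f * g) = f * d⁄dX A g + g * d⁄dX A f := by
  rw [Derivation.leibniz, smul_eq_mul, smul_eq_mul]

theorem dW_mul (f g : P2 R) : dW (f * g) = f * dW g + g * dW f :=
  leib1 (A := PowerSeries R) f g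
theorem dW_one : dW (1 : P2 R) = 0 := by
  have h := dW_mul (1 : P2 R) 1
  rw [mul_one, one_mul] at h
  exact left_eq_add.mp h
theorem dW_sum {ι : Type} (s : Finset ι) (f : ι → P2 R) : dW (∑ i ∈ s, f i) = ∑ i ∈ s, dW (f i) :=
  map_sum (d⁄dX (PowerSeries R)) f s

theorem dZ_add (f g : P2 R) : dZ (f + g) = dZ f + dZ g := by
  ext j : 1
  rw [coeff_dZ, map_add, map_add, map_add, coeff_dZ, coeff_dZ]

theorem dZ_mul (f g : P2 R) : dZ (f * g) = f * dZ g + g * dZ f := by
  ext j : 1
  rw [coeff_dZ, coeff_mul, map_sum, map_add, coeff_mul, mul_comm g, coeff_mul,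
    ← Finset.sum_add_distrib]
  refine Finset.sum_congr rfl fun p _ => ?_
  rw [Derivation.leibniz, coeff_dZ, coeff_dZ, smul_eq_mul, smul_eq_mul, mul_comm (coeff p.2 g)]

/-- `d/dz` as an additive map -/
noncomputable def dZh : P2 R →+ P2 R := AddMonoidHom.mk' dZ dZ_add

theorem dZ_sub (f g : P2 R) : dZ (f - g) = dZ f - dZ g := map_sub dZh f g
theorem dZ_neg (f : P2 R) : dZ (-f) = -dZ f := map_neg dZh f
theorem dZ_zero : dZ (0 : P2 R) = 0 := map_zero dZh
theorem dZ_one : dZ (1 : P2 R) = 0 := by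
  have h := dZ_mul (1 : P2 R) 1
  rw [mul_one, one_mul] at h
  exact left_eq_add.mp h
theorem dZ_sum {ι : Type} (s : Finset ι) (f : ι → P2 R) : dZ (∑ i ∈ s, f i) = ∑ i ∈ s, dZ (f i) :=
  map_sum dZh f s

theorem dZ_dW (f : P2 R) : dZ (dW f) = dW (dZ f) := by
  apply ext2
  intro i j
  rw [coeff2_dZ, coeff2_dW, coeff2_dW, coeff2_dZ]
  ring

/-! ### `cc`, `zs`, `ws` -/

theorem coeff_zs (q : PowerSeries R) (j : ℕ) : coeff j (zs q) = if j = 0 then q else 0 := coeff_C j q

theorem coeff0_zs (q : PowerSeries R) : coeff 0 (zs q) = q := by rw [coeff_zs, if_pos rfl]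

theorem coeff_ws (q : PowerSeries R) (j : ℕ) : coeff j (ws q) = C (coeff j q) := coeff_map _ j q

theorem coeff2_ws (q : PowerSeries R) (i j : ℕ) :
    coeff i (coeff j (ws q)) = if i = 0 then coeff j q else 0 := by
  rw [coeff_ws, coeff_C]

theorem coeff_zs_mul (q : PowerSeries R) (f : P2 R) (j : ℕ) : coeff j (zs q * f) = q * coeff j f :=
  coeff_C_mul _ _ _

theorem coeff_cc_mul (c : R) (f : P2 R) (j : ℕ) : coeff j (cc c * f) = C c * coeff j f :=
  coeff_C_mul _ _ _

theorem coeff2_cc_mul (c : R) (f : P2 R) (i j : ℕ) :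
    coeff i (coeff j (cc c * f)) = c * coeff i (coeff j f) := by
  rw [coeff_cc_mul, coeff_C_mul]

theorem zs_add (p q : PowerSeries R) : zs (p + q) = zs p + zs q := map_add _ p q
theorem zs_mul (p q : PowerSeries R) : zs (p * q) = zs p * zs q := map_mul _ p q
theorem zs_one : zs (1 : PowerSeries R) = 1 := map_one _
theorem zs_zero : zs (0 : PowerSeries R) = 0 := map_zero _
theorem zs_neg (p : PowerSeries R) : zs (-p) = -zs p := map_neg _ p
theorem zs_C (c : R) : zs (C c) = cc c := rfl
theorem ws_add (p q : PowerSeries R) : ws (p + q) = ws p + ws q := map_add _ p q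
theorem ws_mul (p q : PowerSeries R) : ws (p * q) = ws p * ws q := map_mul _ p q
theorem ws_one : ws (1 : PowerSeries R) = 1 := map_one _
theorem ws_zero : ws (0 : PowerSeries R) = 0 := map_zero _
theorem ws_neg (p : PowerSeries R) : ws (-p) = -ws p := map_neg _ p
theorem ws_C (c : R) : ws (C c) = cc c := map_C _ _
theorem cc_add (a b : R) : cc (a + b) = cc a + cc b := by simp [cc]
theorem cc_sub (a b : R) : cc (a - b) = cc a - cc b := by simp [cc]
theorem cc_neg (a : R) : cc (-a) = -cc a := by simp [cc]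
theorem cc_mul (a b : R) : cc (a * b) = cc a * cc b := by simp [cc]
theorem cc_pow (a : R) (n : ℕ) : cc (a ^ n) = cc a ^ n := by simp [cc]
theorem cc_one : cc (1 : R) = 1 := by simp [cc]
theorem cc_zero : cc (0 : R) = 0 := by simp [cc]

theorem zs_injective : Function.Injective (zs : PowerSeries R → P2 R) := fun p q h => by
  have := congrArg (coeff 0) h
  rwa [coeff0_zs, coeff0_zs] at this

theorem ws_injective : Function.Injective (ws : PowerSeries R → P2 R) := fun p q h => by
  ext j
  have := congrArg (fun f => coeff 0 (coeff j f)) h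
  simpa [coeff2_ws] using this

theorem dW_zs (q : PowerSeries R) : dW (zs q) = 0 := derivative_C
theorem dZ_zs (q : PowerSeries R) : dZ (zs q) = zs (d⁄dX R q) := by
  ext j : 1
  rw [coeff_dZ, coeff_zs, coeff_zs]
  split_ifs <;> simp
theorem dZ_ws (q : PowerSeries R) : dZ (ws q) = 0 := by
  ext j : 1
  rw [coeff_dZ, coeff_ws, map_zero, derivative_C]
theorem dW_ws (q : PowerSeries R) : dW (ws q) = ws (d⁄dX R q) := by
  apply ext2
  intro i j
  rw [coeff2_dW, coeff2_ws, coeff2_ws, coeff_derivative]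
  split_ifs <;> simp
theorem dW_cc (c : R) : dW (cc c) = 0 := dW_zs _
theorem dZ_cc (c : R) : dZ (cc c) = 0 := by rw [← ws_C, dZ_ws]

theorem dW_cc_mul (c : R) (f : P2 R) : dW (cc c * f) = cc c * dW f := by
  rw [dW_mul, dW_cc, mul_zero, add_zero]
theorem dZ_cc_mul (c : R) (f : P2 R) : dZ (cc c * f) = cc c * dZ f := by
  rw [dZ_mul, dZ_cc, mul_zero, add_zero]
theorem dW_zs_mul (q : PowerSeries R) (f : P2 R) : dW (zs q * f) = zs q * dW f := by
  rw [dW_mul, dW_zs, mul_zero, add_zero]
theorem dZ_ws_mul (q : PowerSeries R) (f : P2 R) : dZ (ws q * f) = ws q * dZ f := by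
  rw [dZ_mul, dZ_ws, mul_zero, add_zero]

theorem coeff0_mul (f g : P2 R) : coeff 0 (f * g) = coeff 0 f * coeff 0 g := by
  simp only [coeff_zero_eq_constantCoeff, map_mul]

theorem coeff0_one : coeff 0 (1 : P2 R) = 1 := by simp

/-! ### the operator `L` -/

theorem Lop_add (G f g : P2 R) : Lop G (f + g) = Lop G f + Lop G g := by
  rw [Lop, dW_add, dZ_add, mul_add]; rfl

theorem Lop_sub (G f g : P2 R) : Lop G (f - g) = Lop G f - Lop G g := by
  rw [Lop, dW_sub, dZ_sub, mul_sub]; rfl

theorem Lop_cc (G : P2 R) (c : R) (f : P2 R) : Lop G (cc c * f) = cc c * Lop G f := by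
  rw [Lop, dW_cc_mul, dZ_cc_mul, mul_left_comm]; rfl

theorem Lop_zero (G : P2 R) : Lop G 0 = 0 := by rw [Lop, dW_zero, dZ_zero, mul_zero]

theorem Lop_it_add (G : P2 R) (k : ℕ) (f g : P2 R) :
    (Lop G)^[k] (f + g) = (Lop G)^[k] f + (Lop G)^[k] g := by
  induction k generalizing f g with
  | zero => rfl
  | succ k ih => rw [Function.iterate_succ_apply, Lop_add, ih]; rfl

theorem Lop_it_sub (G : P2 R) (k : ℕ) (f g : P2 R) :
    (Lop G)^[k] (f - g) = (Lop G)^[k] f - (Lop G)^[k] g := by
  induction k generalizing f g with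
  | zero => rfl
  | succ k ih => rw [Function.iterate_succ_apply, Lop_sub, ih]; rfl

theorem Lop_it_cc (G : P2 R) (k : ℕ) (c : R) (f : P2 R) :
    (Lop G)^[k] (cc c * f) = cc c * (Lop G)^[k] f := by
  induction k generalizing f with
  | zero => rfl
  | succ k ih => rw [Function.iterate_succ_apply, Lop_cc, ih]; rfl

theorem Lop_it_zero (G : P2 R) (k : ℕ) : (Lop G)^[k] 0 = 0 := by
  induction k with
  | zero => rfl
  | succ k ih => rw [Function.iterate_succ_apply, Lop_zero, ih]

theorem PL_add (k : ℕ) (μ : ℕ → R) (G f g : P2 R) : PL k μ G (f + g) = PL k μ G f + PL k μ G g := by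
  simp only [PL, Lop_it_add, mul_add, Finset.sum_add_distrib]

theorem PL_sub (k : ℕ) (μ : ℕ → R) (G f g : P2 R) : PL k μ G (f - g) = PL k μ G f - PL k μ G g := by
  simp only [PL, Lop_it_sub, mul_sub, Finset.sum_sub_distrib]

theorem PL_cc (k : ℕ) (μ : ℕ → R) (G : P2 R) (c : R) (f : P2 R) :
    PL k μ G (cc c * f) = cc c * PL k μ G f := by
  simp only [PL, Lop_it_cc, Finset.mul_sum]
  exact Finset.sum_congr rfl fun i _ => mul_left_comm _ _ _

theorem PL_zero (k : ℕ) (μ : ℕ → R) (G : P2 R) : PL k μ G 0 = 0 := by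
  simp only [PL, Lop_it_zero, mul_zero, Finset.sum_const_zero]

theorem PL_sum {ι : Type} (s : Finset ι) (k : ℕ) (μ : ℕ → R) (G : P2 R) (f : ι → P2 R) :
    PL k μ G (∑ i ∈ s, f i) = ∑ i ∈ s, PL k μ G (f i) := by
  classical
  induction s using Finset.induction_on with
  | empty => simp [PL_zero]
  | insert a s ha ih => rw [Finset.sum_insert ha, Finset.sum_insert ha, PL_add, ih]

/-! ### the exchange of the variables -/

theorem coeff2_sw (f : P2 R) (i j : ℕ) : coeff i (coeff j (sw f)) = coeff j (coeff i f) := by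
  rw [sw, coeff_mk, coeff_mk]

theorem sw_sw (f : P2 R) : sw (sw f) = f := ext2 fun i j => by rw [coeff2_sw, coeff2_sw]

theorem sw_add (f g : P2 R) : sw (f + g) = sw f + sw g :=
  ext2 fun i j => by simp only [coeff2_sw, map_add]

theorem sw_neg (f : P2 R) : sw (-f) = -sw f := ext2 fun i j => by simp only [coeff2_sw, map_neg]

theorem sw_sub (f g : P2 R) : sw (f - g) = sw f - sw g :=
  ext2 fun i j => by simp only [coeff2_sw, map_sub]

theorem sw_mul (f g : P2 R) : sw (f * g) = sw f * sw g := by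
  apply ext2
  intro i j
  rw [coeff2_sw, coeff2_mul, coeff2_mul, Finset.sum_comm]
  refine Finset.sum_congr rfl fun p _ => Finset.sum_congr rfl fun q _ => ?_
  rw [coeff2_sw, coeff2_sw]

theorem sw_zs (q : PowerSeries R) : sw (zs q) = ws q := by
  apply ext2
  intro i j
  rw [coeff2_sw, coeff_zs, coeff2_ws]
  split_ifs <;> simp

theorem sw_ws (q : PowerSeries R) : sw (ws q) = zs q := by rw [← sw_zs, sw_sw]

theorem sw_cc (c : R) : sw (cc c) = cc c := by rw [← zs_C, sw_zs, ws_C, zs_C]

theorem sw_one : sw (1 : P2 R) = 1 := by rw [← cc_one, sw_cc]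

theorem sw_zero : sw (0 : P2 R) = 0 := by rw [← cc_zero, sw_cc]

/-- the exchange of the variables as a ring homomorphism -/
noncomputable def swh : P2 R →+* P2 R where
  toFun := sw
  map_one' := sw_one
  map_mul' := sw_mul
  map_zero' := sw_zero
  map_add' := sw_add

theorem sw_sum {ι : Type} (s : Finset ι) (f : ι → P2 R) : sw (∑ i ∈ s, f i) = ∑ i ∈ s, sw (f i) :=
  map_sum swh f s

theorem dZ_sw (f : P2 R) : dZ (sw f) = sw (dW f) := by
  apply ext2
  intro i j
  rw [coeff2_dZ, coeff2_sw, coeff2_sw, coeff2_dW]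

theorem dW_sw (f : P2 R) : dW (sw f) = sw (dZ f) := by
  apply ext2
  intro i j
  rw [coeff2_dW, coeff2_sw, coeff2_sw, coeff2_dZ]

end ring

/-! ### images under ring homomorphisms -/

section map

variable {R S : Type} [CommRing R] [CommRing S]

/-- coefficientwise image -/
noncomputable def m2 (f : R →+* S) : P2 R →+* P2 S := PowerSeries.map (PowerSeries.map f)

theorem coeff_m2 (f : R →+* S) (x : P2 R) (j : ℕ) :
    coeff j (m2 f x) = PowerSeries.map f (coeff j x) := coeff_map _ _ _

theorem coeff2_m2 (f : R →+* S) (x : P2 R) (i j : ℕ) :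
    coeff i (coeff j (m2 f x)) = f (coeff i (coeff j x)) := by rw [coeff_m2, coeff_map]

theorem dmap (f : R →+* S) (x : PowerSeries R) :
    PowerSeries.map f (d⁄dX R x) = d⁄dX S (PowerSeries.map f x) := by
  ext i
  rw [coeff_map, coeff_derivative, coeff_derivative, coeff_map, map_mul, map_add, map_natCast,
    map_one]

theorem m2_dZ (f : R →+* S) (x : P2 R) : m2 f (dZ x) = dZ (m2 f x) := by
  apply ext2
  intro i j
  rw [coeff2_m2, coeff2_dZ, coeff2_dZ, coeff2_m2, map_mul, map_add, map_natCast, map_one]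

theorem m2_dW (f : R →+* S) (x : P2 R) : m2 f (dW x) = dW (m2 f x) := by
  apply ext2
  intro i j
  rw [coeff2_m2, coeff2_dW, coeff2_dW, coeff2_m2, map_mul, map_add, map_natCast, map_one]

theorem m2_zs (f : R →+* S) (q : PowerSeries R) : m2 f (zs q) = zs (PowerSeries.map f q) := by
  apply ext2
  intro i j
  rw [coeff2_m2, coeff_zs, coeff_zs]
  split_ifs <;> simp

theorem m2_ws (f : R →+* S) (q : PowerSeries R) : m2 f (ws q) = ws (PowerSeries.map f q) := by
  apply ext2
  intro i j
  rw [coeff2_m2, coeff2_ws, coeff2_ws, coeff_map]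
  split_ifs <;> simp

theorem m2_cc (f : R →+* S) (c : R) : m2 f (cc c) = cc (f c) := by
  rw [← zs_C, m2_zs, map_C, zs_C]

theorem m2_Lop (f : R →+* S) (G x : P2 R) : m2 f (Lop G x) = Lop (m2 f G) (m2 f x) := by
  rw [Lop, map_mul, m2_dZ, m2_dW]; rfl

theorem m2_Lop_it (f : R →+* S) (G x : P2 R) (k : ℕ) :
    m2 f ((Lop G)^[k] x) = (Lop (m2 f G))^[k] (m2 f x) := by
  induction k generalizing x with
  | zero => rfl
  | succ k ih => rw [Function.iterate_succ_apply, ih, m2_Lop]; rfl

theorem m2_PL (f : R →+* S) (k : ℕ) (μ : ℕ → R) (G x : P2 R) :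
    m2 f (PL k μ G x) = PL k (fun i => f (μ i)) (m2 f G) (m2 f x) := by
  rw [PL, map_sum, PL]
  refine Finset.sum_congr rfl fun i _ => ?_
  rw [map_mul, m2_cc, m2_Lop_it]

theorem m2_injective {f : R →+* S} (hf : Function.Injective f) : Function.Injective (m2 f) := by
  intro x y h
  apply ext2
  intro i j
  have := congrArg (fun g => coeff i (coeff j g)) h
  simp only [coeff2_m2] at this
  exact hf this

end map

/-! ### scaling of the variables -/

section scale

variable {R : Type} [CommRing R]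

/-- `f(z, w) ↦ f(s z, t w)` -/
noncomputable def sc2 (s t : R) : P2 R →+* P2 R :=
  (rescale (C t)).comp (PowerSeries.map (rescale s))

theorem coeff2_sc2 (s t : R) (f : P2 R) (i j : ℕ) :
    coeff i (coeff j (sc2 s t f)) = s ^ i * t ^ j * coeff i (coeff j f) := by
  rw [sc2, RingHom.comp_apply, coeff_rescale, coeff_map, ← map_pow, coeff_C_mul, coeff_rescale]
  ring

theorem dZ_sc2 (s t : R) (f : P2 R) : dZ (sc2 s t f) = cc s * sc2 s t (dZ f) := by
  apply ext2
  intro i j
  rw [coeff2_dZ, coeff2_cc_mul, coeff2_sc2, coeff2_sc2, coeff2_dZ]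
  ring

theorem dW_sc2 (s t : R) (f : P2 R) : dW (sc2 s t f) = cc t * sc2 s t (dW f) := by
  apply ext2
  intro i j
  rw [coeff2_dW, coeff2_cc_mul, coeff2_sc2, coeff2_sc2, coeff2_dW]
  ring

theorem sc2_zs (s t : R) (q : PowerSeries R) : sc2 s t (zs q) = zs (rescale s q) := by
  apply ext2
  intro i j
  rw [coeff2_sc2, coeff_zs, coeff_zs]
  split_ifs with h
  · rw [h, pow_zero, coeff_rescale]; ring
  · simp

theorem sc2_ws (s t : R) (q : PowerSeries R) : sc2 s t (ws q) = ws (rescale t q) := by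
  apply ext2
  intro i j
  rw [coeff2_sc2, coeff2_ws, coeff2_ws, coeff_rescale]
  split_ifs with h
  · rw [h, pow_zero]; ring
  · ring

theorem sc2_cc (s t c : R) : sc2 s t (cc c) = cc c := by
  apply ext2
  intro i j
  rw [coeff2_sc2, cc, coeff_C]
  split_ifs with h
  · rw [h, coeff_C]
    split_ifs with h2
    · rw [h2]; ring
    · ring
  · simp

end scale

/-! ### rings where the positive integers are invertible -/

section intinv

instance instIntInvPS (R : Type) [CommRing R] [h : IntInv R] : IntInv (PowerSeries R) where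
  isUnit_succ n := by
    have h1 : ((n : PowerSeries R) + 1) = C ((n : R) + 1) := by simp
    rw [h1]
    exact (h.isUnit_succ n).map C

instance instIntInvField (k : Type) [Field k] [CharZero k] : IntInv k where
  isUnit_succ n := (Nat.cast_add_one_ne_zero n).isUnit

instance instIntInvPi (ι k : Type) [Field k] [CharZero k] : IntInv (ι → k) where
  isUnit_succ n := by
    rw [Pi.isUnit_iff]
    intro i
    exact (Nat.cast_add_one_ne_zero (R := k) n).isUnit

variable {R : Type} [CommRing R] [IntInv R]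

theorem mul_succ_cancel {x y : R} (n : ℕ) (h : x * ((n : R) + 1) = y * ((n : R) + 1)) : x = y :=
  (IntInv.isUnit_succ (R := R) n).mul_right_cancel h

theorem exists_div_succ (x : R) (n : ℕ) : ∃ y, y * ((n : R) + 1) = x := by
  obtain ⟨u, hu⟩ := IntInv.isUnit_succ (R := R) n
  exact ⟨x * (u⁻¹ : Rˣ), by rw [← hu, mul_assoc, Units.inv_mul, mul_one]⟩

theorem ps_eq_of_derivative {p q : PowerSeries R} (h : d⁄dX R p = d⁄dX R q)
    (h0 : coeff 0 p = coeff 0 q) : p = q := by
  ext i
  rcases i with _ | i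
  · exact h0
  · have := congrArg (coeff i) h
    rw [coeff_derivative, coeff_derivative] at this
    exact mul_succ_cancel i this

theorem exists_integral (p : PowerSeries R) (c : R) : ∃ q : PowerSeries R, d⁄dX R q = p ∧ coeff 0 q = c := by
  choose y hy using fun n : ℕ => exists_div_succ (coeff n p) n
  refine ⟨PowerSeries.mk fun i => if i = 0 then c else y (i - 1), ?_, by rw [coeff_mk, if_pos rfl]⟩
  ext i
  rw [coeff_derivative, coeff_mk]
  simp [hy]

theorem eq_zs_of_dW {f : P2 R} (h : dW f = 0) : f = zs (coeff 0 f) := by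
  refine ps_eq_of_derivative (R := PowerSeries R) (p := f) ?_ ?_
  · change dW f = dW (zs (coeff 0 f))
    rw [h, dW_zs]
  · rw [coeff0_zs]

theorem eq_ws_of_dZ {f : P2 R} (h : dZ f = 0) : f = ws (coeff 0 (sw f)) := by
  have h1 : dW (sw f) = 0 := by rw [dW_sw, h, sw_zero]
  have h2 := eq_zs_of_dW h1
  rw [← sw_zs, ← h2, sw_sw]

theorem eq_of_dZ {f g : P2 R} (h : dZ f = dZ g) (h0 : ∀ j, coeff 0 (coeff j f) = coeff 0 (coeff j g)) :
    f = g := by
  ext j : 1
  refine ps_eq_of_derivative ?_ (h0 j)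
  have := congrArg (coeff j) h
  rwa [coeff_dZ, coeff_dZ] at this

/-- integral with respect to `z`, with value `0` at `z = 0` -/
theorem exists_integralZ (f : P2 R) : ∃ g : P2 R, dZ g = f ∧ ∀ j, coeff 0 (coeff j g) = 0 := by
  choose g hg using fun j : ℕ => exists_integral (coeff j f) (0 : R)
  refine ⟨PowerSeries.mk g, ?_, fun j => by rw [coeff_mk]; exact (hg j).2⟩
  ext j : 1
  rw [coeff_dZ, coeff_mk, (hg j).1]

end intinv

end Pool.Agent.Work.MP_abe657_gt.CM
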