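import Mathlib

/-!
# MP_abe657_gt, part CM, module CasesA

Size M. The case distinction when the infimum of `n i / (i + 2)` is attained.

Proof. Put `x = n i₀ / (i₀ + 2)`, `c = -x`: `x (i+1) - c = x (i+2) ≤ n i` for all `i ∈ I`, with equality for `i₀`. Let
`S = min {(nt l - c)/(l+1) : l ∈ J, l < m}` (the set contains `l = 0` as `m ≥ 1`; `Finset.exists_min_image` on
`(Finset.range m).filter (· ∈ J)`, use classical decidability), attained at `l₀`. As `2 x ≤ n 0` and `n 0 + nt 0 < 0`,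
`nt 0 < -2 x = 2 c`, so `S ≤ nt 0 - c < c`. Case 1: there is `j ∈ J`, `j ≥ m`, with `nt j < S (j+1) + c`. Take the least such
`j` (`Nat.find`) : second alternative with `y = S` (for `l < j`, `l ∈ J`: either `l < m`, minimality of `S`, or `l ≥ m`,
minimality of `j`). Case 2: no such `j`: then `S (j+1) + c ≤ nt j` for all `j ∈ J`: first alternative with `y = S < c`,
`x = -c`, `x + y < 0`.
-/

set_option autoImplicit false

namespace Pool.Agent.Work.MP_abe657_gt.CM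

theorem cases_att (I J : Set ℕ) (n nt : ℕ → ℝ) (hI : 0 ∈ I) (hJ : 0 ∈ J) (hneg : n 0 + nt 0 < 0)
    (m : ℕ) (hm : 1 ≤ m) (i₀ : ℕ) (hi₀ : i₀ ∈ I)
    (hmin : ∀ i ∈ I, n i₀ / ((i₀ : ℝ) + 2) ≤ n i / ((i : ℝ) + 2)) :
    (∃ x y c : ℝ, x ≤ -c ∧ y ≤ c ∧ x + y < 0 ∧ (∀ i ∈ I, x * ((i : ℝ) + 1) - c ≤ n i) ∧
      (∃ i ∈ I, n i = x * ((i : ℝ) + 1) - c) ∧ (∀ j ∈ J, y * ((j : ℝ) + 1) + c ≤ nt j) ∧
      (∃ j ∈ J, nt j = y * ((j : ℝ) + 1) + c)) ∨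
    (∃ x y : ℝ, y ≤ -x ∧ (∀ i ∈ I, x * ((i : ℝ) + 2) ≤ n i) ∧ (∃ i ∈ I, n i = x * ((i : ℝ) + 2)) ∧
      ∃ j ∈ J, m ≤ j ∧ nt j < y * ((j : ℝ) + 1) - x ∧
        ∀ l ∈ J, l < j → y * ((l : ℝ) + 1) - x ≤ nt l) := by
  classical
  obtain ⟨x, hx⟩ : ∃ x : ℝ, x = n i₀ / ((i₀ : ℝ) + 2) := ⟨_, rfl⟩
  have h2 : ∀ i : ℕ, (0 : ℝ) < (i : ℝ) + 2 := fun i => by positivity
  have h1 : ∀ i : ℕ, (0 : ℝ) < (i : ℝ) + 1 := fun i => by positivity
  have hx0 : x * ((i₀ : ℝ) + 2) = n i₀ := by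
    rw [hx]
    exact div_mul_cancel₀ _ (h2 i₀).ne'
  have hxI : ∀ i ∈ I, x * ((i : ℝ) + 2) ≤ n i := by
    intro i hi
    rw [hx]
    exact (le_div_iff₀ (h2 i)).1 (hmin i hi)
  obtain ⟨l₀, hl₀, hl₀min⟩ := Finset.exists_min_image ((Finset.range m).filter (· ∈ J))
    (fun l => (nt l + x) / ((l : ℝ) + 1))
    ⟨0, Finset.mem_filter.2 ⟨Finset.mem_range.2 (by omega), hJ⟩⟩
  rw [Finset.mem_filter, Finset.mem_range] at hl₀
  obtain ⟨S, hS⟩ : ∃ S : ℝ, S = (nt l₀ + x) / ((l₀ : ℝ) + 1) := ⟨_, rfl⟩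
  have hS0 : S * ((l₀ : ℝ) + 1) = nt l₀ + x := by
    rw [hS]
    exact div_mul_cancel₀ _ (h1 l₀).ne'
  have hSl : ∀ l ∈ J, l < m → S * ((l : ℝ) + 1) ≤ nt l + x := by
    intro l hl hlm
    rw [hS]
    exact (le_div_iff₀ (h1 l)).1
      (hl₀min l (Finset.mem_filter.2 ⟨Finset.mem_range.2 hlm, hl⟩))
  have hSx : S < -x := by
    have h3 := hSl 0 hJ (by omega)
    have h4 := hxI 0 hI
    simp only [Nat.cast_zero, zero_add, mul_one] at h3 h4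
    linarith
  by_cases hc : ∃ j, j ∈ J ∧ m ≤ j ∧ nt j < S * ((j : ℝ) + 1) - x
  · right
    obtain ⟨hj1, hj2, hj3⟩ := Nat.find_spec hc
    refine ⟨x, S, hSx.le, hxI, ⟨i₀, hi₀, hx0.symm⟩, Nat.find hc, hj1, hj2, hj3, ?_⟩
    intro l hl hlt
    by_cases hlm : l < m
    · have := hSl l hl hlm
      linarith
    · have h5 := Nat.find_min hc hlt
      by_contra h6
      exact h5 ⟨hl, by omega, not_le.1 h6⟩
  · left
    refine ⟨x, S, -x, by linarith, hSx.le, by linarith, ?_, ⟨i₀, hi₀, by linarith⟩, ?_,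
      ⟨l₀, hl₀.2, by linarith⟩⟩
    · intro i hi
      have := hxI i hi
      linarith
    · intro j hj
      by_cases hjm : j < m
      · have := hSl j hj hjm
        linarith
      · by_contra h6
        exact hc ⟨j, hj, by omega, by linarith [not_le.1 h6]⟩

end Pool.Agent.Work.MP_abe657_gt.CM
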