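import Pool.Agent.Work.MP_abe657_gt.CM.CasesTop

/-!
# MP_abe657_gt, part CM, module CasesB

Size M-L. The case distinction when neither infimum is attained.

Notation: `S c = min {(n l + c)/(l+1) : l ∈ I, l < m}`, `St c = min {(nt l - c)/(l+1) : l ∈ J, l < m}` (finite nonempty sets, `m ≥ 1`).
Put `Up = {c | ∃ i ∈ I, m ≤ i ∧ ∀ l ∈ I, l < m → (n i + c)/(i+1) < (n l + c)/(l+1)}`,
`Dn = {c | ∃ j ∈ J, m ≤ j ∧ ∀ l ∈ J, l < m → (nt j - c)/(j+1) < (nt l - c)/(l+1)}`,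
`Low = {c | ∃ i ∈ I, n i < -c (i+2)}`, `Lw = {c | ∃ j ∈ J, nt j < c (j+2)}`.
`Up`, `Dn` are open (unions of finite intersections of open sets: for `l ≥ m` the condition is void). `Up` is closed
upwards: for `l < m ≤ i` the slope `1/(i+1)` is smaller than `1/(l+1)`. `Dn` is closed downwards, `Low` downwards, `Lw`
upwards. `mid`: any `c` with `nt 0 / 2 < c < -n 0 / 2` (with the index `0` in both). `u`: as the infimum is not attained
there is `i ∈ I` with `n i/(i+2) < n l/(l+2)` for all `l ∈ I`, `l < m` (start with the minimum over `l < m` and use `hI'`), so `i ≥ m`;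
put `c0 = -n i/(i+2)`: `(n i + c0)/(i+1) = -c0 < (n l + c0)/(l+1)` for those `l`, i.e. `c0 ∈ Up`; `Up` is open, so some `u < c0`
is in `Up`, and `n i < -u (i+2)`, so `u ∈ Low`. Similarly `d`. Apply `cases_top`.
First alternative (`c ∈ Up, Dn, Low, Lw`): put `x = min (S c) (-c)`. Claim: some `i ∈ I`, `i ≥ m`, has `(n i + c)/(i+1) < x`: let `i₁` be
given by `Up` and `i₂` by `Low` (`(n i₂ + c)/(i₂+1) < -c`); if `i₂ < m` then `(n i₁ + c)/(i₁+1) < (n i₂ + c)/(i₂+1) < -c` and `i₁` works; if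
`i₂ ≥ m`, the better of `i₁, i₂` works. Take the least `i` with `i ∈ I`, `m ≤ i`, `(n i + c)/(i+1) < x`; the indices `l < i` satisfy
`x ≤ (n l + c)/(l+1)`. Same for `y = min (St c) c`. This is the second alternative of the theorem.
Second alternative (`c ∉ Up, c ∉ Dn, c ∈ Low, c ∈ Lw`): put `x = S c`, `y = St c`, attained at indices `< m`; `c ∉ Up` gives
`x ≤ (n i + c)/(i+1)` for all `i ∈ I`; `Low` gives `x < -c`; similarly `y < c`. So the first alternative of the theorem.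
-/

set_option autoImplicit false

namespace Pool.Agent.Work.MP_abe657_gt.CM

private def UpC (I : Set ℕ) (n : ℕ → ℝ) (m : ℕ) (c : ℝ) : Prop :=
  ∃ i ∈ I, m ≤ i ∧ ∀ l ∈ I, l < m → (n i + c) / ((i : ℝ) + 1) < (n l + c) / ((l : ℝ) + 1)

private def LowC (I : Set ℕ) (n : ℕ → ℝ) (c : ℝ) : Prop :=
  ∃ i ∈ I, n i < -c * ((i : ℝ) + 2)

private theorem upC_open (I : Set ℕ) (n : ℕ → ℝ) (m : ℕ) : IsOpen {c | UpC I n m c} := by
  classical
  have h : {c | UpC I n m c} = ⋃ i ∈ {i | i ∈ I ∧ m ≤ i},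
      ⋂ l ∈ (Finset.range m).filter (fun l => l ∈ I),
        {c : ℝ | (n i + c) / ((i : ℝ) + 1) < (n l + c) / ((l : ℝ) + 1)} := by
    ext c
    simp only [Set.mem_setOf_eq, UpC, Set.mem_iUnion, Set.mem_iInter, Finset.mem_filter,
      Finset.mem_range, exists_prop, and_assoc, and_imp]
    constructor
    · rintro ⟨i, hi, hm, h⟩
      exact ⟨i, hi, hm, fun l hl hlI => h l hlI hl⟩
    · rintro ⟨i, hi, hm, h⟩
      exact ⟨i, hi, hm, fun l hlI hl => h l hl hlI⟩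
  rw [h]
  refine isOpen_biUnion fun i _ => ?_
  refine isOpen_biInter_finset fun l _ => ?_
  exact isOpen_lt (by fun_prop) (by fun_prop)

private theorem upC_mono (I : Set ℕ) (n : ℕ → ℝ) (m : ℕ) {c c' : ℝ} (h : UpC I n m c)
    (hcc : c ≤ c') : UpC I n m c' := by
  obtain ⟨i, hi, hm, h⟩ := h
  refine ⟨i, hi, hm, fun l hl hlm => ?_⟩
  have h1 := h l hl hlm
  have hi0 : (0 : ℝ) < (i : ℝ) + 1 := by positivity
  have hl0 : (0 : ℝ) < (l : ℝ) + 1 := by positivity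
  have hli : (l : ℝ) ≤ i := by exact_mod_cast (hlm.le.trans hm)
  rw [div_lt_div_iff₀ hi0 hl0] at h1 ⊢
  nlinarith

private theorem lowC_mono (I : Set ℕ) (n : ℕ → ℝ) {c c' : ℝ} (h : LowC I n c)
    (hcc : c' ≤ c) : LowC I n c' := by
  obtain ⟨i, hi, h⟩ := h
  refine ⟨i, hi, ?_⟩
  have hi0 : (0 : ℝ) < (i : ℝ) + 2 := by positivity
  nlinarith

private theorem exU (I : Set ℕ) (n : ℕ → ℝ) (hI : 0 ∈ I) (m : ℕ) (hm : 1 ≤ m)
    (hI' : ∀ i ∈ I, ∃ i' ∈ I, n i' / ((i' : ℝ) + 2) < n i / ((i : ℝ) + 2)) :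
    ∃ u, UpC I n m u ∧ LowC I n u := by
  classical
  obtain ⟨l0, hl0, hmin⟩ := Finset.exists_min_image ((Finset.range m).filter (fun l => l ∈ I))
    (fun l => n l / ((l : ℝ) + 2)) ⟨0, Finset.mem_filter.2 ⟨Finset.mem_range.2 hm, hI⟩⟩
  obtain ⟨i, hi, hil⟩ := hI' l0 (Finset.mem_filter.1 hl0).2
  have him : m ≤ i := by
    by_contra hcon
    push Not at hcon
    exact absurd hil (not_lt.2 (hmin i (Finset.mem_filter.2 ⟨Finset.mem_range.2 hcon, hi⟩)))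
  set w := n i / ((i : ℝ) + 2) with hw
  have hi2 : (0 : ℝ) < (i : ℝ) + 2 := by positivity
  have hi1 : (0 : ℝ) < (i : ℝ) + 1 := by positivity
  have hni : n i = w * ((i : ℝ) + 2) := by
    rw [hw]
    field_simp
  have hup : UpC I n m (-w) := by
    refine ⟨i, hi, him, fun l hl hlm => ?_⟩
    have h1 : w < n l / ((l : ℝ) + 2) :=
      lt_of_lt_of_le hil (hmin l (Finset.mem_filter.2 ⟨Finset.mem_range.2 hlm, hl⟩))
    have hl2 : (0 : ℝ) < (l : ℝ) + 2 := by positivity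
    have hl1 : (0 : ℝ) < (l : ℝ) + 1 := by positivity
    rw [lt_div_iff₀ hl2] at h1
    have h2 : (n i + -w) / ((i : ℝ) + 1) = w := by
      rw [hni]
      field_simp
      ring
    rw [h2, lt_div_iff₀ hl1]
    linarith
  obtain ⟨ε, hε, hball⟩ := Metric.isOpen_iff.1 (upC_open I n m) (-w) hup
  refine ⟨-w - ε / 2, hball ?_, i, hi, ?_⟩
  · rw [Metric.mem_ball, Real.dist_eq]
    have : -w - ε / 2 - -w = -(ε / 2) := by ring
    rw [this, abs_neg, abs_of_pos (by positivity)]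
    linarith
  · rw [hni]
    nlinarith

private theorem first (I : Set ℕ) (n : ℕ → ℝ) (hI : 0 ∈ I) (m : ℕ) (hm : 1 ≤ m) (c : ℝ)
    (hU : UpC I n m c) (hL : LowC I n c) :
    ∃ x, x ≤ -c ∧ ∃ i ∈ I, m ≤ i ∧ n i < x * ((i : ℝ) + 1) - c ∧
        ∀ l ∈ I, l < i → x * ((l : ℝ) + 1) - c ≤ n l := by
  classical
  obtain ⟨l0, hl0, hmin⟩ := Finset.exists_min_image ((Finset.range m).filter (fun l => l ∈ I))
    (fun l => (n l + c) / ((l : ℝ) + 1)) ⟨0, Finset.mem_filter.2 ⟨Finset.mem_range.2 hm, hI⟩⟩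
  have hl0' := Finset.mem_filter.1 hl0
  obtain ⟨i1, hi1, him1, h1⟩ := hU
  obtain ⟨i2, hi2, h2⟩ := hL
  have hv1 := h1 l0 hl0'.2 (Finset.mem_range.1 hl0'.1)
  have hv2 : (n i2 + c) / ((i2 : ℝ) + 1) < -c := by
    have : (0 : ℝ) < (i2 : ℝ) + 1 := by positivity
    rw [div_lt_iff₀ this]
    linarith
  set x := min ((n l0 + c) / ((l0 : ℝ) + 1)) (-c) with hx
  have hex : ∃ i, i ∈ I ∧ m ≤ i ∧ (n i + c) / ((i : ℝ) + 1) < x := by
    by_cases h3 : i2 < m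
    · exact ⟨i1, hi1, him1, lt_min hv1 ((h1 i2 hi2 h3).trans hv2)⟩
    · push Not at h3
      rcases le_total ((n i1 + c) / ((i1 : ℝ) + 1)) ((n i2 + c) / ((i2 : ℝ) + 1)) with h4 | h4
      · exact ⟨i1, hi1, him1, lt_min hv1 (h4.trans_lt hv2)⟩
      · exact ⟨i2, hi2, h3, lt_min (h4.trans_lt hv1) hv2⟩
  refine ⟨x, min_le_right _ _, Nat.find hex, (Nat.find_spec hex).1, (Nat.find_spec hex).2.1,
    ?_, ?_⟩
  · have h5 := (Nat.find_spec hex).2.2
    have : (0 : ℝ) < ((Nat.find hex : ℕ) : ℝ) + 1 := by positivity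
    rw [div_lt_iff₀ this] at h5
    linarith
  · intro l hl hlt
    have h6 : x ≤ (n l + c) / ((l : ℝ) + 1) := by
      by_cases h7 : l < m
      · exact (min_le_left _ _).trans
          (hmin l (Finset.mem_filter.2 ⟨Finset.mem_range.2 h7, hl⟩))
      · push Not at h7
        by_contra h8
        push Not at h8
        exact Nat.find_min hex hlt ⟨hl, h7, h8⟩
    have : (0 : ℝ) < (l : ℝ) + 1 := by positivity
    rw [le_div_iff₀ this] at h6
    linarith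

private theorem second (I : Set ℕ) (n : ℕ → ℝ) (hI : 0 ∈ I) (m : ℕ) (hm : 1 ≤ m) (c : ℝ)
    (hU : ¬ UpC I n m c) (hL : LowC I n c) :
    ∃ x, x < -c ∧ (∀ i ∈ I, x * ((i : ℝ) + 1) - c ≤ n i) ∧
      ∃ i ∈ I, n i = x * ((i : ℝ) + 1) - c := by
  classical
  obtain ⟨l0, hl0, hmin⟩ := Finset.exists_min_image ((Finset.range m).filter (fun l => l ∈ I))
    (fun l => (n l + c) / ((l : ℝ) + 1)) ⟨0, Finset.mem_filter.2 ⟨Finset.mem_range.2 hm, hI⟩⟩
  have hl0' := Finset.mem_filter.1 hl0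
  have hall : ∀ i ∈ I, (n l0 + c) / ((l0 : ℝ) + 1) ≤ (n i + c) / ((i : ℝ) + 1) := by
    intro i hi
    by_cases him : i < m
    · exact hmin i (Finset.mem_filter.2 ⟨Finset.mem_range.2 him, hi⟩)
    · push Not at him
      by_contra h
      push Not at h
      exact hU ⟨i, hi, him, fun l hl hlm =>
        h.trans_le (hmin l (Finset.mem_filter.2 ⟨Finset.mem_range.2 hlm, hl⟩))⟩
  obtain ⟨i2, hi2, h2⟩ := hL
  refine ⟨(n l0 + c) / ((l0 : ℝ) + 1), ?_, ?_, l0, hl0'.2, ?_⟩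
  · refine (hall i2 hi2).trans_lt ?_
    have : (0 : ℝ) < (i2 : ℝ) + 1 := by positivity
    rw [div_lt_iff₀ this]
    linarith
  · intro i hi
    have h := hall i hi
    have : (0 : ℝ) < (i : ℝ) + 1 := by positivity
    rw [le_div_iff₀ this] at h
    linarith
  · have : (l0 : ℝ) + 1 ≠ 0 := by positivity
    field_simp
    ring

theorem cases_natt (I J : Set ℕ) (n nt : ℕ → ℝ) (hI : 0 ∈ I) (hJ : 0 ∈ J) (hneg : n 0 + nt 0 < 0)
    (m : ℕ) (hm : 1 ≤ m)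
    (hI' : ∀ i ∈ I, ∃ i' ∈ I, n i' / ((i' : ℝ) + 2) < n i / ((i : ℝ) + 2))
    (hJ' : ∀ j ∈ J, ∃ j' ∈ J, nt j' / ((j' : ℝ) + 2) < nt j / ((j : ℝ) + 2)) :
    (∃ x y c : ℝ, x ≤ -c ∧ y ≤ c ∧ x + y < 0 ∧ (∀ i ∈ I, x * ((i : ℝ) + 1) - c ≤ n i) ∧
      (∃ i ∈ I, n i = x * ((i : ℝ) + 1) - c) ∧ (∀ j ∈ J, y * ((j : ℝ) + 1) + c ≤ nt j) ∧
      (∃ j ∈ J, nt j = y * ((j : ℝ) + 1) + c)) ∨
    (∃ x y c : ℝ, x ≤ -c ∧ y ≤ c ∧
      (∃ i ∈ I, m ≤ i ∧ n i < x * ((i : ℝ) + 1) - c ∧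
        ∀ l ∈ I, l < i → x * ((l : ℝ) + 1) - c ≤ n l) ∧
      ∃ j ∈ J, m ≤ j ∧ nt j < y * ((j : ℝ) + 1) + c ∧
        ∀ l ∈ J, l < j → y * ((l : ℝ) + 1) + c ≤ nt l) := by
  obtain ⟨u, hu⟩ := exU I n hI m hm hI'
  obtain ⟨d, hd⟩ := exU J nt hJ m hm hJ'
  have hmid : LowC I n ((nt 0 - n 0) / 4) ∧ LowC J nt (-((nt 0 - n 0) / 4)) := by
    refine ⟨⟨0, hI, ?_⟩, ⟨0, hJ, ?_⟩⟩
    · push_cast
      linarith
    · push_cast
      linarith
  have hopen : IsOpen {c : ℝ | UpC J nt m (-c)} := (upC_open J nt m).preimage continuous_neg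
  rcases cases_top {c | UpC I n m c} {c | UpC J nt m (-c)} {c | LowC I n c} {c | LowC J nt (-c)}
    (upC_open I n m) hopen (fun c hc c' h => upC_mono I n m hc h)
    (fun c hc c' h => upC_mono J nt m hc (neg_le_neg h))
    (fun c hc c' h => lowC_mono I n hc h)
    (fun c hc c' h => lowC_mono J nt hc (neg_le_neg h))
    ((nt 0 - n 0) / 4) u (-d) hmid hu (by
      show UpC J nt m (- -d) ∧ LowC J nt (- -d)
      rw [neg_neg]
      exact hd) with ⟨c, h1, h2, h3, h4⟩ | ⟨c, h1, h2, h3, h4⟩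
  · right
    obtain ⟨x, hx, hx'⟩ := first I n hI m hm c h1 h3
    obtain ⟨y, hy, j, hj, hjm, hj1, hj2⟩ := first J nt hJ m hm (-c) h2 h4
    refine ⟨x, y, c, hx, by linarith, hx', j, hj, hjm, by linarith, ?_⟩
    intro l hl hlj
    have := hj2 l hl hlj
    linarith
  · left
    obtain ⟨x, hx, hx1, hx2⟩ := second I n hI m hm c h1 h3
    obtain ⟨y, hy, hy1, j, hj, hy2⟩ := second J nt hJ m hm (-c) h2 h4
    refine ⟨x, y, c, hx.le, by linarith, by linarith, hx1, hx2, ?_, j, hj, by linarith⟩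
    intro l hl
    have := hy1 l hl
    linarith

end Pool.Agent.Work.MP_abe657_gt.CM
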