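import Mathlib

/-!
# MP_abe657_gt, part CM, module CasesTop

Size S-M. Elementary topology of the line.

Proof. If `u ≤ d`, take `c = u` if `mid < u`, `c = d` if `d < mid`, `c = mid` otherwise; first alternative. If `d < u`: every
`c ∈ [d, u]` is in `Low` (`c ≤ u`) and in `Lw` (`c ≥ d`). If some `c ∈ [d, u]` is in `Up ∩ Dn`: first alternative. Otherwise, as
`[d, u]` is connected (`isPreconnected_Icc`), `Up` and `Dn` are open, `u ∈ Up`, `d ∈ Dn`, they cannot cover it: second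
alternative.
-/

set_option autoImplicit false

namespace Pool.Agent.Work.MP_abe657_gt.CM

theorem cases_top (Up Dn Low Lw : Set ℝ) (hUo : IsOpen Up) (hDo : IsOpen Dn)
    (hU : ∀ c ∈ Up, ∀ c', c ≤ c' → c' ∈ Up) (hD : ∀ c ∈ Dn, ∀ c', c' ≤ c → c' ∈ Dn)
    (hL : ∀ c ∈ Low, ∀ c', c' ≤ c → c' ∈ Low) (hW : ∀ c ∈ Lw, ∀ c', c ≤ c' → c' ∈ Lw)
    (mid u d : ℝ) (hm : mid ∈ Low ∧ mid ∈ Lw) (hu : u ∈ Up ∧ u ∈ Low) (hd : d ∈ Dn ∧ d ∈ Lw) :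
    (∃ c, c ∈ Up ∧ c ∈ Dn ∧ c ∈ Low ∧ c ∈ Lw) ∨ (∃ c, c ∉ Up ∧ c ∉ Dn ∧ c ∈ Low ∧ c ∈ Lw) := by
  rcases le_or_gt u d with hud | hdu
  · left
    rcases lt_or_ge mid u with h1 | h1
    · exact ⟨u, hu.1, hD d hd.1 u hud, hu.2, hW mid hm.2 u h1.le⟩
    · rcases lt_or_ge d mid with h2 | h2
      · exact ⟨d, hU u hu.1 d hud, hd.1, hL mid hm.1 d h2.le, hd.2⟩
      · exact ⟨mid, hU u hu.1 mid h1, hD d hd.1 mid h2, hm.1, hm.2⟩
  · have hLL : ∀ c ∈ Set.Icc d u, c ∈ Low ∧ c ∈ Lw := fun c hc =>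
      ⟨hL u hu.2 c hc.2, hW d hd.2 c hc.1⟩
    by_cases h : ∃ c ∈ Set.Icc d u, c ∈ Up ∧ c ∈ Dn
    · obtain ⟨c, hc, h1, h2⟩ := h
      exact Or.inl ⟨c, h1, h2, hLL c hc⟩
    · right
      by_contra hcon
      have hcov : Set.Icc d u ⊆ Up ∪ Dn := by
        intro c hc
        by_contra h3
        rw [Set.mem_union] at h3
        push Not at h3
        exact hcon ⟨c, h3.1, h3.2, hLL c hc⟩
      obtain ⟨c, hc, h4⟩ := isPreconnected_Icc Up Dn hUo hDo hcov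
        ⟨u, Set.right_mem_Icc.2 hdu.le, hu.1⟩ ⟨d, Set.left_mem_Icc.2 hdu.le, hd.1⟩
      exact h ⟨c, hc, h4⟩

end Pool.Agent.Work.MP_abe657_gt.CM
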