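import Pool.Agent.Work.MP_abe657_gt.CM.Lin

/-!
# MP_abe657_gt, part CM, module Causal

Size M. Formal ordinary differential equations `Y' = Φ(Y)`, where the coefficient of degree `j` of `Φ(Y)`
depends only on the coefficients of degree `≤ j` of `Y`: existence and uniqueness.

Proof. Existence: choose `dv : A → ℕ → A` with `dv x n * (n + 1) = x` (`exists_div_succ`). Define
`W : ℕ → (ι → PowerSeries A)` by `W 0 i = C (y0 i)` and
`W (n+1) i = mk (fun l => if l ≤ n then coeff l (W n i) else if l = n + 1 then dv (coeff n (Φ (W n) i)) n else 0)`.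
By induction `coeff l (W n i) = coeff l (W l i)` for `l ≤ n`. Put `Y i = mk (fun l => coeff l (W l i))`; then
`coeff l (Y i) = coeff l (W n i)` for all `l ≤ n`, so `coeff n (Φ Y i) = coeff n (Φ (W n) i)` and
`coeff (n+1) (Y i) * (n+1) = coeff n (Φ Y i)`; conclude with `PowerSeries.coeff_derivative`.
Uniqueness: by strong induction on `j`, `coeff l (Y i) = coeff l (Z i)` for all `l ≤ j` and all `i`; the step
compares the coefficients of degree `j` of `Φ Y` and `Φ Z` and uses `mul_succ_cancel`.
-/

set_option autoImplicit false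

namespace Pool.Agent.Work.MP_abe657_gt.CM

open PowerSeries

theorem causal_exists {A : Type} [CommRing A] [IntInv A] {ι : Type}
    (Φ : (ι → PowerSeries A) → ι → PowerSeries A)
    (hΦ : ∀ (Y Z : ι → PowerSeries A) (j : ℕ), (∀ i, ∀ l ≤ j, coeff l (Y i) = coeff l (Z i)) →
      ∀ i, coeff j (Φ Y i) = coeff j (Φ Z i)) (y0 : ι → A) :
    ∃ Y : ι → PowerSeries A, (∀ i, coeff 0 (Y i) = y0 i) ∧ ∀ i, d⁄dX A (Y i) = Φ Y i := by
  choose dv hdv using fun (x : A) (n : ℕ) => exists_div_succ x n
  let W : ℕ → (ι → PowerSeries A) := fun n => Nat.rec (fun i => PowerSeries.C (y0 i))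
    (fun n Wn i => PowerSeries.mk (fun l => if l ≤ n then coeff l (Wn i)
      else if l = n + 1 then dv (coeff n (Φ Wn i)) n else 0)) n
  have hW0 : ∀ i, W 0 i = PowerSeries.C (y0 i) := fun i => rfl
  have hWs : ∀ n i, W (n + 1) i = PowerSeries.mk (fun l => if l ≤ n then coeff l (W n i)
      else if l = n + 1 then dv (coeff n (Φ (W n) i)) n else 0) := fun n i => rfl
  have hst : ∀ l n, l ≤ n → ∀ i, coeff l (W n i) = coeff l (W l i) := by
    intro l n hln
    induction n, hln using Nat.le_induction with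
    | base => intro i; rfl
    | succ n hn ih =>
      intro i
      rw [hWs, coeff_mk, if_pos hn]
      exact ih i
  let Y : ι → PowerSeries A := fun i => PowerSeries.mk (fun l => coeff l (W l i))
  have hY : ∀ i l n, l ≤ n → coeff l (Y i) = coeff l (W n i) := by
    intro i l n hln
    rw [hst l n hln i]
    exact coeff_mk _ _
  refine ⟨Y, ?_, ?_⟩
  · intro i
    rw [hY i 0 0 le_rfl, hW0]
    simp
  · intro i
    ext n
    rw [coeff_derivative, hY i (n + 1) (n + 1) le_rfl, hWs, coeff_mk,
      if_neg (Nat.not_succ_le_self n), if_pos rfl, hdv]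
    exact hΦ (W n) Y n (fun i l hl => (hY i l n hl).symm) i

theorem causal_unique {A : Type} [CommRing A] [IntInv A] {ι : Type}
    (Φ : (ι → PowerSeries A) → ι → PowerSeries A)
    (hΦ : ∀ (Y Z : ι → PowerSeries A) (j : ℕ), (∀ i, ∀ l ≤ j, coeff l (Y i) = coeff l (Z i)) →
      ∀ i, coeff j (Φ Y i) = coeff j (Φ Z i))
    (Y Z : ι → PowerSeries A) (h0 : ∀ i, coeff 0 (Y i) = coeff 0 (Z i))
    (hY : ∀ i, d⁄dX A (Y i) = Φ Y i) (hZ : ∀ i, d⁄dX A (Z i) = Φ Z i) : Y = Z := by
  have key : ∀ j : ℕ, ∀ l ≤ j, ∀ i, coeff l (Y i) = coeff l (Z i) := by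
    intro j
    induction j with
    | zero =>
      intro l hl i
      obtain rfl : l = 0 := Nat.le_zero.mp hl
      exact h0 i
    | succ j ih =>
      intro l hl i
      rcases Nat.lt_or_ge l (j + 1) with h | h
      · exact ih l (Nat.lt_succ_iff.mp h) i
      · obtain rfl : l = j + 1 := le_antisymm hl h
        have h1 := hΦ Y Z j (fun i l hl => ih l hl i) i
        rw [← hY i, ← hZ i, coeff_derivative, coeff_derivative] at h1
        exact mul_succ_cancel j h1
  funext i
  ext l
  exact key l l le_rfl i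

end Pool.Agent.Work.MP_abe657_gt.CM
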