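import Pool.Agent.Work.MP_abe657_gt.CM.PhiD
import Pool.Agent.Work.MP_abe657_gt.T2.NullFrame

/-!
# MP_abe657_gt, part CM, module LapN

Size M. The Laplacian in null coordinates: `lapP X (phi f) = phi (-2 G0 D1 D2 f)`, `D1 = vf a1 b1`, `D2 = vf a2 b2`,
`G0 = 1/⟨D1 X, D2 X⟩`.

Proof. In `LL` put `p1 = phi a1`, `q1 = phi b1`, `p2 = phi (G0 a2)`, `q2 = phi (G0 b2)`, `D = comb dT dS p1 q1`, `E = comb dT dS p2 q2`.
By `phi_dZ`, `phi_dW`: `D (phi f) = phi (D1 f)`, `E (phi f) = phi (G0 * D2 f)`. The metric coefficients are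
`met dT dT (phi ∘ X) = phi (∑ dZ (X a)^2)` etc. The hypotheses of `lapFun_null` (file `T2/NullFrame.lean`, `dT_dS_comm`) are the images of
`z1`, `z2`, `hG` (expand `vf`). It gives `al, be` with, for all `u`,
(1) `D (E u) - E (D u) = be * D u - al * E u`, (2) `lap u = -(D (E u) + E (D u) + al * E u + be * D u)`.
For `u = phi f`: `D (E u) = phi (D1 (G0 * D2 f)) = phi (D1 G0 * D2 f) + phi (G0 * D1 (D2 f))` (Leibniz for `vf`), and
`E (D u) = phi (G0 * D2 (D1 f))`, so by `hc` and (1): `be * phi (D1 f) = c * phi (D2 f)` with `c = phi (D1 G0) + al * phi G0`, for all `f`. With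
`f = zs X` (`dZ f = 1`, `dW f = 0`) and `f = ws X` (`dZ f = 0`, `dW f = 1`): `be * phi a1 = c * phi a2`, `be * phi b1 = c * phi b2`. Since
`phi a1 * phi b2 - phi a2 * phi b1 ≠ 0` (first claim of `null_solve`), `be = 0` and `c = 0`. Hence by (2), for `u = phi f`,
`lap u = -(2 * E (D u) + phi (D1 G0 * D2 f) + al * phi (G0 * D2 f)) = -(2 * E (D u) + c * phi (D2 f)) = -2 * phi (G0 * D2 (D1 f))`, and
`D2 (D1 f) = D1 (D2 f)`. (`lapP X u = lapFun dT dS (met ..) (met ..) (met ..) u` by definition.)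
-/

set_option autoImplicit false

namespace Pool.Agent.Work.MP_abe657_gt.CM

open PowerSeries
open Pool.Agent.Work.MP_abe657_gt Pool.Agent.Work.MP_abe657_gt.TaylorAux
open scoped Topology ContDiff
open Pool.Agent.Work.MP_abe657_gt.T2

private theorem vf_mul' (a b f g : P2 ℂ) : vf a b (f * g) = vf a b f * g + f * vf a b g := by
  simp only [vf, dZ_mul, dW_mul]
  ring

private theorem comb_phi (a b f : P2 ℂ) : comb dT dS (phi a) (phi b) (phi f) = phi (vf a b f) := by
  rw [comb_apply, ← phi_dZ, ← phi_dW, vf, map_add, map_mul, map_mul]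

private theorem met_phi (X : Fin 3 → P2 ℂ) :
    met dT dT (fun a => phi (X a)) = phi (∑ a, dZ (X a) * dZ (X a)) ∧
    met dT dS (fun a => phi (X a)) = phi (∑ a, dZ (X a) * dW (X a)) ∧
    met dS dS (fun a => phi (X a)) = phi (∑ a, dW (X a) * dW (X a)) := by
  refine ⟨?_, ?_, ?_⟩
  · rw [met, map_sum]
    exact Finset.sum_congr rfl fun a _ => by rw [map_mul, phi_dZ]
  · rw [met, map_sum]
    exact Finset.sum_congr rfl fun a _ => by rw [map_mul, phi_dZ, phi_dW]
  · rw [met, map_sum]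
    exact Finset.sum_congr rfl fun a _ => by rw [map_mul, phi_dW]

theorem lapN (X : Fin 3 → P2 ℂ) (a1 b1 a2 b2 G0 : P2 ℂ)
    (hc : ∀ f, vf a1 b1 (vf a2 b2 f) = vf a2 b2 (vf a1 b1 f))
    (z1 : ∑ a, vf a1 b1 (X a) ^ 2 = 0) (z2 : ∑ a, vf a2 b2 (X a) ^ 2 = 0)
    (hG : (∑ a, vf a1 b1 (X a) * vf a2 b2 (X a)) * G0 = 1) (f : P2 ℂ) :
    lapP X (phi f) = phi (-(2 * G0 * vf a1 b1 (vf a2 b2 f))) := by
  obtain ⟨m1, m2', m3⟩ := met_phi X
  have n1 : met dT dT (fun a => phi (X a)) * phi a1 ^ 2 +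
      2 * met dT dS (fun a => phi (X a)) * phi a1 * phi b1 +
      met dS dS (fun a => phi (X a)) * phi b1 ^ 2 = 0 := by
    have h := congrArg phi z1
    simp only [Fin.sum_univ_three, vf, map_add, map_mul, map_pow, map_zero] at h
    rw [m1, m2', m3]
    simp only [Fin.sum_univ_three, map_add, map_mul]
    linear_combination h
  have n2 : met dT dT (fun a => phi (X a)) * phi (G0 * a2) ^ 2 +
      2 * met dT dS (fun a => phi (X a)) * phi (G0 * a2) * phi (G0 * b2) +
      met dS dS (fun a => phi (X a)) * phi (G0 * b2) ^ 2 = 0 := by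
    have h := congrArg phi z2
    simp only [Fin.sum_univ_three, vf, map_add, map_mul, map_pow, map_zero] at h
    rw [m1, m2', m3]
    simp only [Fin.sum_univ_three, map_add, map_mul]
    linear_combination phi G0 ^ 2 * h
  have n3 : met dT dT (fun a => phi (X a)) * phi a1 * phi (G0 * a2) +
      met dT dS (fun a => phi (X a)) * (phi a1 * phi (G0 * b2) + phi (G0 * a2) * phi b1) +
      met dS dS (fun a => phi (X a)) * phi b1 * phi (G0 * b2) = 1 := by
    have h := congrArg phi hG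
    simp only [Fin.sum_univ_three, vf, map_add, map_mul, map_one] at h
    rw [m1, m2', m3]
    simp only [Fin.sum_univ_three, map_add, map_mul]
    linear_combination h
  obtain ⟨hW, -⟩ := null_solve n1 n2 n3
  obtain ⟨al, be, h1, h2⟩ := lapFun_null dT dS dT_dS_comm n1 n2 n3
  have hD : ∀ u, comb dT dS (phi a1) (phi b1) (phi u) = phi (vf a1 b1 u) := comb_phi a1 b1
  have hE : ∀ u, comb dT dS (phi (G0 * a2)) (phi (G0 * b2)) (phi u) = phi (G0 * vf a2 b2 u) := by
    intro u
    rw [comb_phi]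
    congr 1
    simp only [vf]
    ring
  have hDE : ∀ u, comb dT dS (phi a1) (phi b1)
      (comb dT dS (phi (G0 * a2)) (phi (G0 * b2)) (phi u)) =
      phi (vf a1 b1 G0) * phi (vf a2 b2 u) + phi G0 * phi (vf a1 b1 (vf a2 b2 u)) := by
    intro u
    rw [hE, hD, vf_mul', map_add, map_mul, map_mul]
  have hED : ∀ u, comb dT dS (phi (G0 * a2)) (phi (G0 * b2))
      (comb dT dS (phi a1) (phi b1) (phi u)) = phi G0 * phi (vf a1 b1 (vf a2 b2 u)) := by
    intro u
    rw [hD, hE, ← hc, map_mul]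
  have hk : ∀ u, be * phi (vf a1 b1 u) = (phi (vf a1 b1 G0) + al * phi G0) * phi (vf a2 b2 u) := by
    intro u
    have h := h1 (phi u)
    rw [hDE, hED, hD, hE, map_mul] at h
    linear_combination -h
  have hzs : dZ (zs (PowerSeries.X : PowerSeries ℂ)) = 1 := by
    rw [dZ_zs, PowerSeries.derivative_X, zs_one]
  have hws : dW (ws (PowerSeries.X : PowerSeries ℂ)) = 1 := by
    rw [dW_ws, PowerSeries.derivative_X, ws_one]
  have ha := hk (zs PowerSeries.X)
  have hb := hk (ws PowerSeries.X)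
  simp only [vf, hzs, hws, dW_zs, dZ_ws, mul_one, mul_zero, add_zero, zero_add] at ha hb
  have hW' : phi a1 * phi b2 - phi a2 * phi b1 ≠ 0 := by
    intro h
    apply hW
    rw [map_mul, map_mul]
    linear_combination phi G0 * h
  have hbe : be = 0 := by
    have h : be * (phi a1 * phi b2 - phi a2 * phi b1) = 0 := by
      linear_combination phi b2 * ha - phi a2 * hb
    exact (mul_eq_zero.1 h).resolve_right hW'
  rw [hbe, zero_mul] at ha hb
  have hcc : phi (vf a1 b1 G0) + al * phi G0 = 0 := by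
    have h : (phi (vf a1 b1 G0) + al * phi G0) * (phi a1 * phi b2 - phi a2 * phi b1) = 0 := by
      simp only [vf]
      linear_combination phi b1 * ha - phi a1 * hb
    exact (mul_eq_zero.1 h).resolve_right hW'
  have hfin : lapP X (phi f) = lapFun dT dS (met dT dT (fun a => phi (X a)))
      (met dT dS (fun a => phi (X a))) (met dS dS (fun a => phi (X a))) (phi f) := rfl
  rw [hfin, h2, hDE, hED, hE, hbe, map_neg, map_mul, map_mul, map_mul, map_ofNat]
  linear_combination -(phi (vf a2 b2 f)) * hcc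

end Pool.Agent.Work.MP_abe657_gt.CM
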