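import Pool.Agent.Work.MP_abe657_gt.CM.TayH

/-!
# MP_abe657_gt, part CM, module Norm2

Size M. Normalization of the conformal factor on both axes by a change `z ↦ z'(z)`, `w ↦ w'(w)`.

Proof. `F` is a unit. Let `φ = zs (coeff 0 F)⁻¹` (inverse of the unit `coeff 0 F` of `PowerSeries ℂ`), `ψ = cc (v0 F) * ws p`, where `p` is the inverse
of the unit `coeff 0 (sw F)` (the series `F(0, w)`). `dW φ = 0`, `dZ ψ = 0`, so `vf φ 0` and `vf 0 ψ` commute (`dZ_dW`). `tayH` gives `τ`, with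
`dZ (τ f) = τ (φ * dZ f)`, `dW (τ f) = τ (ψ * dW f)`. On the axis `w = 0` the series `g = φ ψ F` is `1`: `coeff 0 g = (coeff 0 F)⁻¹ * C (v0 F * v0 F⁻¹) * coeff 0 F = 1`,
so `g - 1` has `coeff 0 (g - 1) = 0`, which is preserved by `vf φ 0`, so `coeff i (coeff 0 (τ (g - 1))) = v0 ((vf φ 0)^[i] (g - 1)) / i! = 0`.
Similarly `coeff 0 (coeff j (g - 1)) = 0` for all `j` (the series `g(0, w)` is `1`), preserved by `vf 0 ψ`, so
`coeff 0 (coeff j (τ (g - 1))) = 0`. Hence `τ g` is `1` on both axes.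
-/

set_option autoImplicit false

namespace Pool.Agent.Work.MP_abe657_gt.CM

open PowerSeries

theorem norm2 (F : P2 ℂ) (hF : IsUnit F) :
    ∃ (τ : P2 ℂ →+* P2 ℂ) (φ ψ : P2 ℂ), (∀ c, τ (cc c) = cc c) ∧ (∀ f, v0 (τ f) = v0 f) ∧
      (∀ f, dZ (τ f) = τ (φ * dZ f)) ∧ (∀ f, dW (τ f) = τ (ψ * dW f)) ∧ dW φ = 0 ∧ dZ ψ = 0 ∧
      coeff 0 (τ (φ * ψ * F)) = 1 ∧
      ∀ j, coeff 0 (coeff j (τ (φ * ψ * F))) = if j = 0 then 1 else 0 := by
  obtain ⟨F', hF'⟩ := hF.exists_right_inv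
  have hP : coeff 0 F * coeff 0 F' = 1 := by rw [← coeff0_mul, hF', coeff0_one]
  have hQ : coeff 0 (sw F) * coeff 0 (sw F') = 1 := by
    rw [← coeff0_mul, ← sw_mul, hF', sw_one, coeff0_one]
  set u : PowerSeries ℂ := coeff 0 F' with hu
  set p : PowerSeries ℂ := coeff 0 (sw F') with hp
  have hmul : ∀ a b : PowerSeries ℂ, coeff 0 (a * b) = coeff 0 a * coeff 0 b := fun a b => by
    simp only [coeff_zero_eq_constantCoeff, map_mul]
  have h0 : v0 F * coeff 0 u = 1 := by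
    have h := congrArg (coeff 0) hP
    rw [hmul, coeff_zero_one] at h
    exact h
  have h1 : v0 F * coeff 0 p = 1 := by
    have h := congrArg (coeff 0) hQ
    rw [hmul, coeff_zero_one, coeff2_sw] at h
    exact h
  have hφ : dW (zs u) = 0 := dW_zs u
  have hψ : dZ (cc (v0 F) * ws p) = 0 := by rw [dZ_cc_mul, dZ_ws, mul_zero]
  obtain ⟨τ, t1, t2, t3, t4, t5⟩ := tayH (zs u) 0 0 (cc (v0 F) * ws p) (by
    intro f
    simp only [vf, zero_mul, add_zero, zero_add]
    rw [dZ_mul, dW_mul, hφ, hψ, dZ_dW]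
    ring)
  have v1 : ∀ f, vf (zs u) 0 f = zs u * dZ f := fun f => by rw [vf, zero_mul, add_zero]
  have v2 : ∀ f, vf 0 (cc (v0 F) * ws p) f = cc (v0 F) * ws p * dW f := fun f => by
    rw [vf, zero_mul, zero_add]
  -- the first axis
  have s1 : ∀ (i : ℕ) (f : P2 ℂ), coeff 0 f = 0 → coeff 0 ((vf (zs u) 0)^[i] f) = 0 := by
    intro i
    induction i with
    | zero => intro f hf; exact hf
    | succ i ih =>
      intro f hf
      rw [Function.iterate_succ_apply]
      apply ih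
      rw [v1, coeff0_mul, coeff_dZ, hf, map_zero, mul_zero]
  have s2 : ∀ (j : ℕ) (f : P2 ℂ), coeff 0 (sw f) = 0 →
      coeff 0 (sw ((vf 0 (cc (v0 F) * ws p))^[j] f)) = 0 := by
    intro j
    induction j with
    | zero => intro f hf; exact hf
    | succ j ih =>
      intro f hf
      rw [Function.iterate_succ_apply]
      apply ih
      rw [v2, sw_mul, coeff0_mul, ← dZ_sw, coeff_dZ, hf, map_zero, mul_zero]
  have g1 : coeff 0 (zs u * (cc (v0 F) * ws p) * F - 1) = 0 := by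
    rw [map_sub, coeff0_one, coeff0_mul, coeff0_mul, coeff0_mul, coeff0_zs, coeff_ws]
    have h2 : coeff 0 (cc (v0 F)) = C (v0 F) := coeff0_zs _
    rw [h2, ← map_mul, h1, map_one, mul_one, mul_comm, hP, sub_self]
  have g2 : coeff 0 (sw (zs u * (cc (v0 F) * ws p) * F - 1)) = 0 := by
    rw [sw_sub, sw_one, map_sub, coeff0_one, sw_mul, sw_mul, sw_mul, sw_zs, sw_ws, sw_cc,
      coeff0_mul, coeff0_mul, coeff0_mul, coeff0_zs, coeff_ws]
    have h2 : coeff 0 (cc (v0 F)) = C (v0 F) := coeff0_zs _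
    have h3 : (C (coeff 0 u) : PowerSeries ℂ) * C (v0 F) = 1 := by
      rw [← map_mul, mul_comm, h0, map_one]
    rw [h2]
    linear_combination h3 + (C (coeff 0 u) : PowerSeries ℂ) * C (v0 F) * hQ
  have e1 : coeff 0 (τ (zs u * (cc (v0 F) * ws p) * F - 1)) = 0 := by
    ext i
    have h := t5 (zs u * (cc (v0 F) * ws p) * F - 1) i 0
    have h2 : v0 ((vf (zs u) 0)^[i] (zs u * (cc (v0 F) * ws p) * F - 1)) = 0 := by
      rw [v0, s1 i _ g1, map_zero]
    rw [Function.iterate_zero_apply, h2] at h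
    rw [map_zero]
    refine (mul_eq_zero.1 h).resolve_right ?_
    exact mul_ne_zero (Nat.cast_ne_zero.2 (Nat.factorial_ne_zero _))
      (Nat.cast_ne_zero.2 (Nat.factorial_ne_zero _))
  have e2 : ∀ j, coeff 0 (coeff j (τ (zs u * (cc (v0 F) * ws p) * F - 1))) = 0 := by
    intro j
    have h := t5 (zs u * (cc (v0 F) * ws p) * F - 1) 0 j
    have h2 : v0 ((vf 0 (cc (v0 F) * ws p))^[j] (zs u * (cc (v0 F) * ws p) * F - 1)) = 0 := by
      have h3 := congrArg (coeff 0) (s2 j _ g2)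
      rw [coeff2_sw, map_zero] at h3
      exact h3
    rw [Function.iterate_zero_apply, h2] at h
    refine (mul_eq_zero.1 h).resolve_right ?_
    exact mul_ne_zero (Nat.cast_ne_zero.2 (Nat.factorial_ne_zero _))
      (Nat.cast_ne_zero.2 (Nat.factorial_ne_zero _))
  refine ⟨τ, zs u, cc (v0 F) * ws p, t1, t4, fun f => by rw [t2, v1], fun f => by rw [t3, v2],
    hφ, hψ, ?_, ?_⟩
  · rw [map_sub, map_one, map_sub, coeff0_one, sub_eq_zero] at e1
    exact e1
  · intro j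
    have h := e2 j
    rw [map_sub, map_one, map_sub, map_sub, sub_eq_zero] at h
    rw [h]
    by_cases hj : j = 0
    · subst hj
      rw [if_pos rfl, coeff0_one, coeff_zero_one]
    · rw [if_neg hj, coeff_one, if_neg hj, map_zero]

end Pool.Agent.Work.MP_abe657_gt.CM
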