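import Pool.Agent.Work.MP_abe657_gt.CM.NullC
import Pool.Agent.Work.MP_abe657_gt.CM.LapN
import Pool.Agent.Work.MP_abe657_gt.CM.Norm2

/-!
# MP_abe657_gt, part CM, module Chart

Size M (assembly). Normalized null coordinates for a surface with nondegenerate metric.

Proof. `nullC` with `g11 = ∑ dZ (X a)^2`, `g12 = ∑ dZ (X a) * dW (X a)`, `g22 = ∑ dW (X a)^2` gives `D1 = vf a1 b1`, `D2 = vf a2 b2`; expanding,
`∑ (D1 (X a))^2 = 0`, `∑ (D2 (X a))^2 = 0`, `F0 = ∑ D1 (X a) * D2 (X a)` is a unit with inverse `G0`. `tayH` gives `τ`. `norm2` for `F1 = τ F0`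
(a unit) gives `τ', φ, ψ`. Put `Θ = τ' ∘ τ`, `G = τ' (inverse of φ ψ F1)` (`φ ψ F1` is a unit because `τ' (φ ψ F1)` has `v0 = 1`). Since
`dZ (Θ f) = τ' (φ * τ (D1 f))`, `dW (Θ f) = τ' (ψ * τ (D2 f))`: `∑ dZ (Θ X)^2 = τ' (φ^2 τ 0) = 0`, same for `W`,
`∑ dZ (Θ X) dW (Θ X) = τ' (φ ψ F1)`. `G` is `1` on both axes because `τ' (φ ψ F1)` is and `τ'(φ ψ F1) * G = 1` (apply `coeff 0`, resp. the ring
homomorphism `PowerSeries.map constantCoeff`). `Λ f = -(2 * G0 * D1 (D2 f))` (`lapN`). Finally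
`dZ (dW (Θ f)) = dZ (τ' (ψ * τ (D2 f))) = τ' (φ * dZ (ψ * τ (D2 f))) = τ' (φ ψ * τ (D1 (D2 f)))` (`dZ ψ = 0`), so
`Lop G (Θ f) = τ' ((φ ψ F1)⁻¹ φ ψ τ (D1 D2 f)) = τ' (τ G0 * τ (D1 D2 f)) = Θ (G0 D1 D2 f)`.
-/

set_option autoImplicit false

namespace Pool.Agent.Work.MP_abe657_gt.CM

open PowerSeries
open Pool.Agent.Work.MP_abe657_gt Pool.Agent.Work.MP_abe657_gt.TaylorAux
open scoped Topology ContDiff

private theorem chart_sq (X : Fin 3 → P2 ℂ) (a b : P2 ℂ) :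
    ∑ i, vf a b (X i) ^ 2 = (∑ i, dZ (X i) ^ 2) * a ^ 2 +
      2 * (∑ i, dZ (X i) * dW (X i)) * a * b + (∑ i, dW (X i) ^ 2) * b ^ 2 := by
  simp only [vf, Fin.sum_univ_three]
  ring

private theorem chart_prod (X : Fin 3 → P2 ℂ) (a1 b1 a2 b2 : P2 ℂ) :
    ∑ i, vf a1 b1 (X i) * vf a2 b2 (X i) = (∑ i, dZ (X i) ^ 2) * a1 * a2 +
      (∑ i, dZ (X i) * dW (X i)) * (a1 * b2 + a2 * b1) + (∑ i, dW (X i) ^ 2) * b1 * b2 := by
  simp only [vf, Fin.sum_univ_three]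
  ring

private theorem chart_ax {P G : P2 ℂ} (h : P * G = 1) (h0 : coeff 0 P = 1) : coeff 0 G = 1 := by
  have h1 := congrArg (coeff 0) h
  rw [coeff0_mul, h0, one_mul, coeff0_one] at h1
  exact h1

private theorem chart_ax2 {P G : P2 ℂ} (h : P * G = 1)
    (h0 : ∀ j, coeff 0 (coeff j P) = if j = 0 then 1 else 0) (j : ℕ) :
    coeff 0 (coeff j G) = if j = 0 then 1 else 0 := by
  have h1 : PowerSeries.map (constantCoeff (R := ℂ)) P = 1 := by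
    ext i
    rw [coeff_map, ← coeff_zero_eq_constantCoeff_apply, h0, coeff_one]
  have h2 := congrArg (PowerSeries.map (constantCoeff (R := ℂ))) h
  rw [map_mul, h1, one_mul, map_one] at h2
  have h3 := congrArg (coeff j) h2
  rw [coeff_map, ← coeff_zero_eq_constantCoeff_apply, coeff_one] at h3
  exact h3

private theorem chart_unit {P : P2 ℂ} (h0 : coeff 0 P = 1) : ∃ G, P * G = 1 := by
  have h1 : IsUnit P := by
    rw [PowerSeries.isUnit_iff_constantCoeff, ← coeff_zero_eq_constantCoeff_apply, h0]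
    exact isUnit_one
  exact h1.exists_right_inv

theorem chart (X : Fin 3 → P2 ℂ) (h11 : v0 (∑ a, dZ (X a) ^ 2) ≠ 0)
    (hdet : v0 ((∑ a, dZ (X a) ^ 2) * (∑ a, dW (X a) ^ 2) - (∑ a, dZ (X a) * dW (X a)) ^ 2) ≠ 0) :
    ∃ (Θ : P2 ℂ →+* P2 ℂ) (G : P2 ℂ) (Λ : P2 ℂ → P2 ℂ), (∀ c, Θ (cc c) = cc c) ∧
      (∀ f, v0 (Θ f) = v0 f) ∧ IsNor (fun a => Θ (X a)) G ∧
      (∀ f, phi (Λ f) = lapP X (phi f)) ∧ ∀ f, Θ (Λ f) = -(cc 2 * Lop G (Θ f)) := by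
  obtain ⟨a1, b1, a2, b2, hc, n1, n2, hu⟩ := nullC _ _ _ h11 hdet
  rw [← chart_sq] at n1 n2
  rw [← chart_prod] at hu
  obtain ⟨G0, hG0⟩ := hu.exists_right_inv
  obtain ⟨τ, hτc, hτz, hτw, hτ0, -⟩ := tayH a1 b1 a2 b2 hc
  obtain ⟨τ', φ, ψ, hc', h0', hz', hw', hφ, hψ, hax, hax2⟩ := norm2 _ (hu.map τ)
  obtain ⟨G, hG⟩ := chart_unit hax
  have hdz : ∀ f, dZ (τ' (τ f)) = τ' (φ * τ (vf a1 b1 f)) := fun f => by rw [hz', hτz]
  have hdw : ∀ f, dW (τ' (τ f)) = τ' (ψ * τ (vf a2 b2 f)) := fun f => by rw [hw', hτw]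
  have hG2 : G * τ' (φ * ψ) = τ' (τ G0) := by
    have h1 : τ' (τ (∑ a, vf a1 b1 (X a) * vf a2 b2 (X a))) * τ' (τ G0) = 1 := by
      rw [← map_mul, ← map_mul, hG0, map_one, map_one]
    rw [map_mul τ' (φ * ψ)] at hG
    linear_combination (τ' (τ G0)) * hG - (G * τ' (φ * ψ)) * h1
  refine ⟨τ'.comp τ, G, fun f => -(2 * G0 * vf a1 b1 (vf a2 b2 f)), ?_, ?_, ⟨?_, ?_, ?_, ?_, ?_⟩,
    ?_, ?_⟩
  · intro c
    rw [RingHom.comp_apply, hτc, hc']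
  · intro f
    rw [RingHom.comp_apply, h0', hτ0]
  · have h1 : ∀ i, dZ ((τ'.comp τ) (X i)) ^ 2 = τ' (φ ^ 2 * τ (vf a1 b1 (X i) ^ 2)) := by
      intro i
      rw [RingHom.comp_apply, hdz, ← map_pow, mul_pow, map_pow τ]
    rw [Finset.sum_congr rfl fun i _ => h1 i, ← map_sum, ← Finset.mul_sum, ← map_sum, n1,
      map_zero, mul_zero, map_zero]
  · have h1 : ∀ i, dW ((τ'.comp τ) (X i)) ^ 2 = τ' (ψ ^ 2 * τ (vf a2 b2 (X i) ^ 2)) := by
      intro i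
      rw [RingHom.comp_apply, hdw, ← map_pow, mul_pow, map_pow τ]
    rw [Finset.sum_congr rfl fun i _ => h1 i, ← map_sum, ← Finset.mul_sum, ← map_sum, n2,
      map_zero, mul_zero, map_zero]
  · have h1 : ∀ i, dZ ((τ'.comp τ) (X i)) * dW ((τ'.comp τ) (X i)) =
        τ' (φ * ψ * τ (vf a1 b1 (X i) * vf a2 b2 (X i))) := by
      intro i
      rw [RingHom.comp_apply, hdz, hdw, ← map_mul, map_mul τ]
      congr 1
      ring
    rw [Finset.sum_congr rfl fun i _ => h1 i, ← map_sum, ← Finset.mul_sum, ← map_sum]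
    exact hG
  · exact chart_ax hG hax
  · exact chart_ax2 hG hax2
  · intro f
    exact (lapN X a1 b1 a2 b2 G0 hc n1 n2 hG0 f).symm
  · intro f
    have h1 : dZ (dW (τ' (τ f))) = τ' (φ * ψ) * τ' (τ (vf a1 b1 (vf a2 b2 f))) := by
      rw [hdw, hz', dZ_mul, hψ, mul_zero, add_zero, hτz, ← map_mul]
      congr 1
      ring
    have h2 : (cc 2 : P2 ℂ) = 2 := by
      unfold cc
      rw [map_ofNat, map_ofNat]
    rw [RingHom.comp_apply, RingHom.comp_apply, Lop, h1, ← mul_assoc G, hG2, h2, map_neg,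
      map_neg, map_mul, map_mul, map_mul, map_mul, map_ofNat, map_ofNat, mul_assoc]

end Pool.Agent.Work.MP_abe657_gt.CM
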