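import Mathlib

/-!
# MP_abe657_gt, part CM, module PlA

Size M. A maximal subfield over which `M` is transcendental.

Proof. Zorn's lemma (`zorn_le₀` or `zorn_subset`) on the intermediate fields `E0` of `E/ℂ` with `Transcendental E0 M`: the
bottom one has it (`hM`; transport along `IntermediateField.botEquiv`, or work with `Subfield`s/`Subalgebra`s), and the union
of a chain too (a polynomial relation of `M` has finitely many coefficients). Alternatively: extend `{M}` to a
transcendence basis `B` of `E/ℂ` (`exists_isTranscendenceBasis`-type lemmas: `AlgebraicIndependent` of the one element family,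
`exists_isTranscendenceBasis_superset` or similar) and put `E0 = IntermediateField.adjoin ℂ (B \ {M})`: `M` is transcendental over `E0`
and `E` is algebraic over `E0(M) = ℂ(B)`. With Zorn: let `E0` be maximal; if `y ∈ E` were transcendental over `E0(M)`, then `M` would
be transcendental over `E0(y)` (exchange property), contradicting maximality; so `E` is algebraic over `E0(M)`.
-/

set_option autoImplicit false

namespace Pool.Agent.Work.MP_abe657_gt.CM

private theorem plA_tr {R S E : Type*} [CommRing R] [CommRing S] [CommRing E] [Algebra R E]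
    [Algebra S E] (f : R →+* S) (hf : Function.Injective f)
    (hc : (algebraMap S E).comp f = algebraMap R E) {y : E} (h : IsAlgebraic R y) :
    IsAlgebraic S y := by
  obtain ⟨p, hp, hy⟩ := h
  refine ⟨p.map f, (Polynomial.map_ne_zero_iff hf).2 hp, ?_⟩
  rw [Polynomial.aeval_def, Polynomial.eval₂_map, hc]
  exact hy

theorem plA (E : Type) [Field E] [Algebra ℂ E] (M : E) (hM : Transcendental ℂ M) :
    ∃ E0 : IntermediateField ℂ E, Transcendental E0 M ∧
      Algebra.IsAlgebraic (IntermediateField.adjoin E0 {M}) E := by
  have h1 : AlgebraicIndepOn ℂ id ({M} : Set E) := by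
    have h : AlgebraicIndependent ℂ (fun i : ({M} : Set E) => id (i : E)) :=
      (algebraicIndependent_singleton_iff (⟨M, rfl⟩ : ({M} : Set E))).2 hM
    exact h
  obtain ⟨t, hst, ht⟩ := exists_isTranscendenceBasis_superset h1
  have hMt : M ∈ t := hst rfl
  have hrange : Set.range (Subtype.val : t → E) = t := Subtype.range_coe
  refine ⟨IntermediateField.adjoin ℂ (t \ {M}), ?_, ?_⟩
  · have h2 := ht.1.transcendental_adjoin (s := {i : t | (i : E) ≠ M}) (i := ⟨M, hMt⟩)
      (fun h => h rfl)
    have h3 : (Subtype.val : t → E) '' {i : t | (i : E) ≠ M} = t \ {M} := by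
      ext x
      constructor
      · rintro ⟨i, hi, rfl⟩
        exact ⟨i.2, hi⟩
      · rintro ⟨hx, hxM⟩
        exact ⟨⟨x, hx⟩, hxM, rfl⟩
    rw [h3] at h2
    have h4 : AlgebraicIndependent (Algebra.adjoin ℂ (t \ {M})) (fun _ : Unit => M) :=
      (algebraicIndependent_unique_type_iff).2 h2
    have h5 := IntermediateField.algebraicIndependent_adjoin_iff.2 h4
    exact (algebraicIndependent_unique_type_iff).1 h5
  · have h2 := ht.isAlgebraic_field
    rw [hrange] at h2
    refine ⟨fun y => ?_⟩
    have hmem : ∀ x : IntermediateField.adjoin ℂ t,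
        algebraMap (IntermediateField.adjoin ℂ t) E x ∈
          IntermediateField.adjoin (IntermediateField.adjoin ℂ (t \ {M})) ({M} : Set E) := by
      intro x
      have h6 := IntermediateField.adjoin_adjoin_left ℂ (t \ {M}) ({M} : Set E)
      rw [Set.sdiff_union_of_subset (Set.singleton_subset_iff.2 hMt)] at h6
      have h7 : (x : E) ∈ IntermediateField.restrictScalars ℂ (IntermediateField.adjoin
          (IntermediateField.adjoin ℂ (t \ {M})) ({M} : Set E)) := by
        rw [h6]
        exact x.2
      exact h7
    refine plA_tr ((algebraMap (IntermediateField.adjoin ℂ t) E).codRestrict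
      (IntermediateField.adjoin (IntermediateField.adjoin ℂ (t \ {M})) ({M} : Set E)) hmem)
      ?_ ?_ (h2.isAlgebraic y)
    · intro a b hab
      apply Subtype.ext
      have h8 := Subtype.ext_iff.1 hab
      exact h8
    · ext x
      rfl

end Pool.Agent.Work.MP_abe657_gt.CM
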