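import Pool.Agent.Work.MP_abe657_gt.CM.HFacts
import Pool.Agent.Work.MP_abe657_gt.HahnClosed

/-!
# MP_abe657_gt, part CM, module PlB

Size M. Hahn series: change of exponents from `ℚ` to `ℝ`; embedding of an algebraic extension of `E0(M)`.

Proof of `plQR`: `HahnSeries.embDomainRingHom` for the strictly monotone additive map `ℚ → ℝ` (`Rat.castAddHom ℝ`); it maps
`single q a` to `single (q : ℝ) a`.
Proof of `plB`: let `k = AlgebraicClosure E0`, `Ω = HahnSeries ℚ k`, algebraically closed by `hahn_isAlgClosed`. `M` is transcendental over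
`E0`, so `E0(M)` is isomorphic to the field of fractions of `E0[X]` (`IsFractionRing`, `RatFunc`,
`algEquivOfTranscendental` or similar), and `X ↦ single (-1) 1` defines a ring homomorphism to `Ω` over `E0 → k → Ω`
(`HahnSeries.C`), because `single (-1) 1` is transcendental over `E0` (a nonzero polynomial of degree `d` in it has
`-d` as lowest exponent). As `E` is algebraic over `E0(M)` and `Ω` algebraically closed, it extends to `E` (`IsAlgClosed.lift`).
Compose with `plQR`. Constants: `φ (algebraMap ℂ E c) = C (algebraMap ..)`; `φ M = single (-1) 1`.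
-/

set_option autoImplicit false

namespace Pool.Agent.Work.MP_abe657_gt.CM

open Pool.Agent.Work.MP_abe657_gt

theorem plQR (k : Type) [Field k] : ∃ ι : HahnSeries ℚ k →+* HahnSeries ℝ k,
    ∀ (q : ℚ) (a : k), ι (HahnSeries.single q a) = HahnSeries.single (q : ℝ) a := by
  refine ⟨HahnSeries.embDomainRingHom (Rat.castHom ℝ).toAddMonoidHom
    (fun a b h => Rat.cast_injective (α := ℝ) h) (fun a b => Rat.cast_le), ?_⟩
  intro q a
  rw [HahnSeries.embDomainRingHom_apply, HahnSeries.embDomain_single]
  rfl

@[reducible] private noncomputable def algH (E0 k : Type) [Field E0] [Field k] [Algebra E0 k] :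
    Algebra E0 (HahnSeries ℚ k) :=
  ((HahnSeries.C : k →+* HahnSeries ℚ k).comp (algebraMap E0 k)).toAlgebra

private theorem tr_single (E0 k : Type) [Field E0] [Field k] [Algebra E0 k] :
    letI := algH E0 k
    Transcendental E0 (HahnSeries.single (-1 : ℚ) (1 : k)) := by
  letI := algH E0 k
  have hterm : ∀ (a : E0) (i : ℕ), ((HahnSeries.C : k →+* HahnSeries ℚ k).comp (algebraMap E0 k)) a *
      (HahnSeries.single (-1 : ℚ) (1 : k)) ^ i = HahnSeries.single (-(i : ℚ)) (algebraMap E0 k a) := by
    intro a i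
    have e2 : (i • (-1 : ℚ)) = -(i : ℚ) := by simp
    rw [RingHom.comp_apply, HahnSeries.single_pow, e2, HahnSeries.C_apply,
      HahnSeries.single_mul_single, zero_add, one_pow, mul_one]
  rw [transcendental_iff]
  intro p hp
  by_contra hne
  have h0 : Polynomial.eval₂ ((HahnSeries.C : k →+* HahnSeries ℚ k).comp (algebraMap E0 k))
      (HahnSeries.single (-1 : ℚ) (1 : k)) p = 0 := hp
  rw [Polynomial.eval₂_eq_sum_range] at h0
  have h1 := congrArg (fun x : HahnSeries ℚ k => x.coeff (-(p.natDegree : ℚ))) h0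
  simp only [hterm, HahnSeries.coeff_sum, HahnSeries.coeff_zero] at h1
  rw [Finset.sum_eq_single p.natDegree] at h1
  · rw [HahnSeries.coeff_single_same, map_eq_zero] at h1
    exact hne (Polynomial.leadingCoeff_eq_zero.mp h1)
  · intro i _ hi
    rw [HahnSeries.coeff_single_of_ne]
    intro h
    apply hi
    have h' : (p.natDegree : ℚ) = i := neg_injective h
    exact_mod_cast h'.symm
  · intro h
    exact absurd (Finset.mem_range.mpr (Nat.lt_succ_self _)) h

theorem plB (E : Type) [Field E] [Algebra ℂ E] (M : E) (E0 : IntermediateField ℂ E)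
    (hM : Transcendental E0 M) (hE : Algebra.IsAlgebraic (IntermediateField.adjoin E0 {M}) E) :
    ∃ (k : Type) (_ : Field k) (_ : CharZero k) (φ : E →+* HahnSeries ℝ k),
      (∀ c : ℂ, ∃ c' : k, φ (algebraMap ℂ E c) = HahnSeries.C c') ∧
      φ M = HahnSeries.single (-1 : ℝ) 1 := by
  haveI : CharZero E0 := charZero_of_injective_algebraMap (algebraMap ℂ E0).injective
  haveI : IsAlgClosed (HahnSeries ℚ (AlgebraicClosure E0)) := hahn_isAlgClosed _
  obtain ⟨ι, hι⟩ := plQR (AlgebraicClosure E0)
  have hs := tr_single E0 (AlgebraicClosure E0)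
  letI iA : Algebra E0 (HahnSeries ℚ (AlgebraicClosure E0)) := algH E0 (AlgebraicClosure E0)
  obtain ⟨g, hg, hg0⟩ : ∃ g : IntermediateField.adjoin E0 {M} →+* HahnSeries ℚ (AlgebraicClosure E0),
      g (IntermediateField.AdjoinSimple.gen E0 M) = HahnSeries.single (-1 : ℚ) 1 ∧
      ∀ x : E0, g (algebraMap E0 _ x) = HahnSeries.C (algebraMap E0 (AlgebraicClosure E0) x) := by
    let g : IntermediateField.adjoin E0 {M} →ₐ[E0] HahnSeries ℚ (AlgebraicClosure E0) :=
      (IntermediateField.val _).comp
        (((RatFunc.algEquivOfTranscendental M hM).symm.trans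
          (RatFunc.algEquivOfTranscendental _ hs)).toAlgHom)
    refine ⟨g.toRingHom, ?_, ?_⟩
    · change ((RatFunc.algEquivOfTranscendental _ hs)
        ((RatFunc.algEquivOfTranscendental M hM).symm (IntermediateField.AdjoinSimple.gen E0 M)) :
          HahnSeries ℚ (AlgebraicClosure E0)) = _
      rw [RatFunc.algEquivOfTranscendental_symm_gen, RatFunc.algEquivOfTranscendental_X]
    · intro x
      exact g.commutes x
  letI : Algebra (IntermediateField.adjoin E0 {M}) (HahnSeries ℚ (AlgebraicClosure E0)) :=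
    g.toAlgebra
  haveI := hE
  let ψ : E →ₐ[IntermediateField.adjoin E0 {M}] HahnSeries ℚ (AlgebraicClosure E0) := IsAlgClosed.lift
  have hψ : ∀ x : IntermediateField.adjoin E0 {M}, ψ (x : E) = g x := fun x => ψ.commutes x
  refine ⟨AlgebraicClosure E0, inferInstance, inferInstance, ι.comp ψ.toRingHom, ?_, ?_⟩
  · intro c
    refine ⟨algebraMap E0 (AlgebraicClosure E0) (algebraMap ℂ E0 c), ?_⟩
    have e1 : ψ (algebraMap ℂ E c) =
        g (algebraMap E0 (IntermediateField.adjoin E0 {M}) (algebraMap ℂ E0 c)) :=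
      hψ (algebraMap E0 (IntermediateField.adjoin E0 {M}) (algebraMap ℂ E0 c))
    change ι (ψ (algebraMap ℂ E c)) = _
    rw [e1, hg0, HahnSeries.C_apply, hι, Rat.cast_zero, HahnSeries.C_apply]
  · change ι (ψ M) = _
    have e1 : ψ M = g (IntermediateField.AdjoinSimple.gen E0 M) :=
      hψ (IntermediateField.AdjoinSimple.gen E0 M)
    rw [e1, hg, hι]
    simp

end Pool.Agent.Work.MP_abe657_gt.CM
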