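import Pool.Agent.Work.MP_abe657_gt.CM.CoreH
import Pool.Agent.Work.MP_abe657_gt.CM.PlA
import Pool.Agent.Work.MP_abe657_gt.CM.PlB
import Pool.Agent.Work.MP_abe657_gt.CM.AnnMap

/-!
# MP_abe657_gt, part CM, module CoreE

Size S-M (assembly). Over a field `E ⊇ ℂ`: the product of the constant coefficients is algebraic over `ℂ`.

Proof. Suppose `M = coeff 0 Q * coeff 0 Qt` is transcendental over `ℂ`. `plA`, `plB` give `φ : E →+* HahnSeries ℝ k` with constants mapped to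
constants and `φ M = single (-1) 1`, which is nonzero of order `-1`. `φ (algebraMap ℂ E H) = C H'` with `H' ≠ 0`
(`φ` is injective), `φ (algebraMap ℂ E (μ i)) = C (μ' i)`, `μ' 0 = 1`. `Ann.map φ` gives the hypotheses of `coreH` (`Dat.map`,
`PowerSeries.map φ`), contradiction.
-/

set_option autoImplicit false

namespace Pool.Agent.Work.MP_abe657_gt.CM

open PowerSeries

theorem coreE (E : Type) [Field E] [Algebra ℂ E] [CharZero E] (H : ℂ) (hH : H ≠ 0) (m : ℕ)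
    (hm : 1 ≤ m) (μ : ℕ → ℂ) (hμ : μ 0 = 1) (Q Qt : PowerSeries E)
    (h : Ann (m + 1) (fun i => algebraMap ℂ E (μ i)) ⟨algebraMap ℂ E H, algebraMap ℂ E H, Q, Qt⟩)
    (h' : Ann (m + 1) (fun i => algebraMap ℂ E (μ i)) ⟨algebraMap ℂ E H, algebraMap ℂ E H, Qt, Q⟩) :
    IsAlgebraic ℂ (coeff 0 Q * coeff 0 Qt) := by
  by_contra hM
  obtain ⟨E0, h1, h2⟩ := plA E (coeff 0 Q * coeff 0 Qt) hM
  obtain ⟨k, _, _, φ, hφc, hφM⟩ := plB E (coeff 0 Q * coeff 0 Qt) E0 h1 h2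
  obtain ⟨H', hH'⟩ := hφc H
  choose μ' hμ' using fun i => hφc (μ i)
  have hH0 : H' ≠ 0 := by
    intro h0
    rw [h0, map_zero] at hH'
    have h3 : algebraMap ℂ E H = 0 := (map_eq_zero φ).1 hH'
    exact hH ((map_eq_zero (algebraMap ℂ E)).1 h3)
  have hμ0 : μ' 0 = 1 := by
    have h3 := hμ' 0
    rw [hμ, map_one, map_one] at h3
    exact (HahnSeries.C_injective (h3.symm.trans (map_one _).symm))
  have e1 : (fun i => φ (algebraMap ℂ E (μ i))) = fun i => HahnSeries.C (μ' i) :=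
    funext hμ'
  have a1 := h.map φ
  have a2 := h'.map φ
  rw [e1] at a1 a2
  have b1 : (⟨algebraMap ℂ E H, algebraMap ℂ E H, Q, Qt⟩ : Dat E).map φ =
      ⟨HahnSeries.C H', HahnSeries.C H', PowerSeries.map φ Q, PowerSeries.map φ Qt⟩ := by
    rw [Dat.map, hH']
  have b2 : (⟨algebraMap ℂ E H, algebraMap ℂ E H, Qt, Q⟩ : Dat E).map φ =
      ⟨HahnSeries.C H', HahnSeries.C H', PowerSeries.map φ Qt, PowerSeries.map φ Q⟩ := by
    rw [Dat.map, hH']
  rw [b1] at a1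
  rw [b2] at a2
  apply coreH H' hH0 m hm μ' hμ0 _ _ a1 a2
  rw [coeff_map, coeff_map, ← map_mul, hφM]
  refine ⟨HahnSeries.single_ne_zero one_ne_zero, ?_⟩
  rw [HahnSeries.order_single one_ne_zero]
  norm_num

end Pool.Agent.Work.MP_abe657_gt.CM
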