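import Pool.Agent.Work.MP_abe657_gt.CM.PertA

/-!
# MP_abe657_gt, part CM, module PertL

Size M. The same two data: iterates of the operator `L` and the polynomial `PL`.

Notation `δ = coeff j D.Qt - coeff j D'.Qt`, `f_p = (Lop G)^[p] n`, `f'_p = (Lop G')^[p] n'`.
Proof of `pert_it` by induction on `p`. `p = 0`: `pert_vec`. Let `p + 1 ≤ j + 1`. `f_{p+1} = G * dZ (dW f_p)`
(`Function.iterate_succ_apply'`), so `coeff l f_{p+1} = ∑_{u+v=l} coeff u G * dX (coeff (v+1) f_p * (v+1))`
(`coeff_mul`, `coeff_dZ`, `coeff_dW`). For `l < j - p` all the coefficients involved agree (`u ≤ j`, `v + 1 < j + 1 - p`).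
For `l = j - p`: only the term `u = 0`, `v = j - p` differs (`coeff u G = coeff u G'` for all `u ≤ j`, `coeff 0 G = 1`), so
`coeff (j-p) f_{p+1} - coeff (j-p) f'_{p+1} = dX ((coeff (j+1-p) f_p - coeff (j+1-p) f'_p) * (j - p + 1))`. For `p = 0` this is
`dX (-(C δ * coeff 0 e1))` by `pert_vec`; for `p ≥ 1` it is `(j - p + 1)` times `dX` of the induction hypothesis, and
`Nat.descFactorial j p = (j - p + 1) * Nat.descFactorial j (p - 1)`.
`pert_PL`: `PL (m+1) μ G n = f_{m+1} + ∑_{i=1}^{m+1} cc (μ i) * f_{m+1-i}` (`μ 0 = 1`); for `i ≥ 1` the coefficients of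
`w^(j-m)` agree, because `j - m < j + 1 - (m + 1 - i)`.
-/

set_option autoImplicit false

namespace Pool.Agent.Work.MP_abe657_gt.CM

open PowerSeries

variable {R : Type} [CommRing R] [IntInv R]

private theorem lop_diff (G G' x x' : P2 R) (l : ℕ) (hG : ∀ u ≤ l, coeff u G = coeff u G')
    (hG0 : coeff 0 G = 1) (hx : ∀ v ≤ l, coeff v x = coeff v x') :
    coeff l (Lop G x) - coeff l (Lop G' x')
      = d⁄dX R ((coeff (l + 1) x - coeff (l + 1) x') * ((l : PowerSeries R) + 1)) := by
  rw [Lop, Lop, coeff_mul, coeff_mul, ← Finset.sum_sub_distrib,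
    Finset.sum_eq_single ((0 : ℕ), l)]
  · show coeff 0 G * coeff l (dZ (dW x)) - coeff 0 G' * coeff l (dZ (dW x')) = _
    rw [← hG 0 (Nat.zero_le _), hG0, one_mul, one_mul, coeff_dZ, coeff_dZ, coeff_dW, coeff_dW,
      ← map_sub, sub_mul]
  · rintro ⟨u, v⟩ huv hne
    have h : u + v = l := Finset.HasAntidiagonal.mem_antidiagonal.mp huv
    have hu : u ≠ 0 := by
      rintro rfl
      exact hne (Prod.ext rfl (by simpa using h))
    show coeff u G * coeff v (dZ (dW x)) - coeff u G' * coeff v (dZ (dW x')) = 0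
    rw [hG u (by omega), coeff_dZ, coeff_dZ, coeff_dW, coeff_dW, hx (v + 1) (by omega), sub_self]
  · intro h
    exact absurd (Finset.HasAntidiagonal.mem_antidiagonal.mpr (Nat.zero_add l)) h

private theorem d_C_mul (c : R) (q : PowerSeries R) : d⁄dX R (C c * q) = C c * d⁄dX R q := by
  rw [leib1, derivative_C, mul_zero, add_zero]

theorem pert_it {D D' : Dat R} {F G r F' G' r' : P2 R} {a : Fin 3 → R} {e1 e2 n e1' e2' n' : P2 R}
    (j : ℕ) (h1 : D.h1 = D'.h1)
    (h2 : D.h2 = D'.h2) (hQ : D.Q = D'.Q) (hQt : ∀ l < j, coeff l D.Qt = coeff l D'.Qt)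
    (hB : IsBase D F G r) (hB' : IsBase D' F' G' r')
    (hV : IsVec D F G r a e1 e2 n) (hV' : IsVec D' F' G' r' a e1' e2' n') (p : ℕ) (hp : p ≤ j + 1) :
    (∀ l < j + 1 - p, coeff l ((Lop G)^[p] n) = coeff l ((Lop G')^[p] n')) ∧
      (1 ≤ p → coeff (j + 1 - p) ((Lop G)^[p] n) - coeff (j + 1 - p) ((Lop G')^[p] n')
        = -(C ((j.descFactorial (p - 1) : R) * (coeff j D.Qt - coeff j D'.Qt))
            * (fun q => d⁄dX R q)^[p] (coeff 0 e1))) := by
  obtain ⟨hbF, hbG, hbr⟩ := pert_base j h1 h2 hQ hQt hB hB'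
  obtain ⟨hv1, hv2⟩ := pert_vec j h1 h2 hQ hQt hB hB' hV hV'
  induction p with
  | zero =>
    refine ⟨fun l hl => ?_, fun h => absurd h (by omega)⟩
    exact (hv1 l (by omega)).2.2
  | succ p ih =>
    obtain ⟨ihA, ihB⟩ := ih (by omega)
    have hstep : ∀ l, l ≤ j - p → coeff l ((Lop G)^[p + 1] n) - coeff l ((Lop G')^[p + 1] n')
        = d⁄dX R ((coeff (l + 1) ((Lop G)^[p] n) - coeff (l + 1) ((Lop G')^[p] n'))
          * ((l : PowerSeries R) + 1)) := by
      intro l hl
      rw [Function.iterate_succ_apply', Function.iterate_succ_apply']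
      exact lop_diff G G' _ _ l (fun u hu => hbG u (by omega)) hB.G0
        (fun v hv => ihA v (by omega))
    refine ⟨fun l hl => ?_, fun _ => ?_⟩
    · have h := hstep l (by omega)
      rw [ihA (l + 1) (by omega), sub_self, zero_mul, map_zero] at h
      exact sub_eq_zero.mp h
    · have e1' : j + 1 - (p + 1) = j - p := by omega
      rw [e1', hstep (j - p) le_rfl]
      rcases p with _ | q
      · have e2' : j - 0 + 1 = j + 1 := by omega
        have e3' : j - 0 = j := by omega
        rw [e2', e3', Function.iterate_zero, Function.iterate_zero, id_eq, id_eq, hv2, map_neg,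
          d_C_mul]
        simp
      · have e2' : j - (q + 1) + 1 = j + 1 - (q + 1) := by omega
        rw [e2', ihB (by omega)]
        have e4 : q + 1 - 1 = q := by omega
        have e5 : q + 1 + 1 - 1 = q + 1 := by omega
        have e6 : ((j - (q + 1) : ℕ) : PowerSeries R) + 1 = C (((j - q : ℕ) : R)) := by
          rw [map_natCast]
          have : j - q = (j - (q + 1)) + 1 := by omega
          rw [this]
          push_cast
          rfl
        rw [e4, e5, e6, Nat.descFactorial_succ]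
        have e7 : -(C (((j.descFactorial q : ℕ) : R) * (coeff j D.Qt - coeff j D'.Qt))
            * (fun q => d⁄dX R q)^[q + 1] (coeff 0 e1)) * C (((j - q : ℕ) : R))
            = -(C ((((j - q) * j.descFactorial q : ℕ) : R) * (coeff j D.Qt - coeff j D'.Qt))
              * (fun q => d⁄dX R q)^[q + 1] (coeff 0 e1)) := by
          rw [Nat.cast_mul, map_mul, map_mul, map_mul]
          ring
        rw [e7, map_neg, d_C_mul, Function.iterate_succ_apply' (fun q => d⁄dX R q) (q + 1)]

theorem pert_PL {D D' : Dat R} {F G r F' G' r' : P2 R} {a : Fin 3 → R} {e1 e2 n e1' e2' n' : P2 R}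
    (j m : ℕ) (hjm : m ≤ j) (μ : ℕ → R) (hμ : μ 0 = 1) (h1 : D.h1 = D'.h1)
    (h2 : D.h2 = D'.h2) (hQ : D.Q = D'.Q) (hQt : ∀ l < j, coeff l D.Qt = coeff l D'.Qt)
    (hB : IsBase D F G r) (hB' : IsBase D' F' G' r')
    (hV : IsVec D F G r a e1 e2 n) (hV' : IsVec D' F' G' r' a e1' e2' n') :
    coeff (j - m) (PL (m + 1) μ G n) - coeff (j - m) (PL (m + 1) μ G' n')
      = -(C ((j.descFactorial m : R) * (coeff j D.Qt - coeff j D'.Qt))
          * (fun q => d⁄dX R q)^[m + 1] (coeff 0 e1)) := by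
  rw [PL, PL, map_sum, map_sum, ← Finset.sum_sub_distrib, Finset.sum_eq_single 0]
  · rw [coeff_cc_mul, coeff_cc_mul, hμ, map_one, one_mul, one_mul, Nat.sub_zero]
    have h := (pert_it j h1 h2 hQ hQt hB hB' hV hV' (m + 1) (by omega)).2 (by omega)
    have e1' : j + 1 - (m + 1) = j - m := by omega
    have e2' : m + 1 - 1 = m := by omega
    rw [e1', e2'] at h
    exact h
  · intro i hi hi0
    have hi' : i ≤ m + 1 := Nat.lt_succ_iff.mp (Finset.mem_range.mp hi)
    have hi1 : 1 ≤ i := Nat.one_le_iff_ne_zero.mpr hi0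
    rw [coeff_cc_mul, coeff_cc_mul,
      (pert_it j h1 h2 hQ hQt hB hB' hV hV' (m + 1 - i) (by omega)).1 (j - m) (by omega), sub_self]
  · intro h
    exact absurd (Finset.mem_range.mpr (by omega)) h

end Pool.Agent.Work.MP_abe657_gt.CM
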