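import Pool.Agent.Work.MP_abe657_gt.CM.IIa2
import Pool.Agent.Work.MP_abe657_gt.CM.PertL

/-!
# MP_abe657_gt, part CM, module IIa

Size M (assembly). Case II.a: the first coefficients of `Q` and of `Qt` outside `OO k` have degrees `i ≥ m` and `j ≥ m`.

Proof. `x = coeff i D.Q`, `y = coeff j D.Qt`, both of negative order. Let `D'` be `D` with `Qt` truncated below degree `j`
(`mk (fun l => if l < j then coeff l D.Qt else 0)`). Take solutions of `D` and `D'` with initial value `Pi.single 2 1`. By `h`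
and `pert_PL`: `coeff (j-m) (PL (m+1) μ G' n') = C (descFactorial j m * y) * d^(m+1) e`, `e = coeff 0 e1`. Take the coefficient of
`z^(i-m)`: the left side is `x * o`, `o ∈ OO k` (`iia2` for `D'`). On the right, `d e = Q * coeff 0 n` (`e1_z`), so
`coeff (i-m) (d^(m+1) e) = coeff (i-m) (d^m (Q * n0)) = descFactorial i m * coeff i (Q * n0)`
(`PowerSeries.coeff_iterate_derivative`), and `coeff i (Q * n0) = x * coeff 0 n0 + ∑_{l<i} coeff l Q * coeff (i-l) n0 = x + o'`, `o' ∈ OO k`
(`coeff 0 n0 = 1` by `i3`; `axisO`). So `x * o = c * y * (x + o')`, `c` a nonzero integer; divide by `x y`: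
`o / y = c * (1 + o' / x)`. By `div_mem` the left side has residue `0` and the right side has residue `c ≠ 0` (char 0).
Contradiction.
-/

set_option autoImplicit false

namespace Pool.Agent.Work.MP_abe657_gt.CM

open PowerSeries

private theorem single_mem2 {k : Type} [Field k] (c i : Fin 3) :
    (Pi.single c 1 : Fin 3 → HahnSeries ℝ k) i ∈ OO k := by
  by_cases h : i = c
  · subst h
    rw [Pi.single_eq_same]
    exact (OO k).one_mem
  · rw [Pi.single_eq_of_ne h]
    exact (OO k).zero_mem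

private theorem res_congr {k : Type} [Field k] {x y : HahnSeries ℝ k} (hxy : x = y) (hx : x ∈ OO k)
    (hy : y ∈ OO k) : res k ⟨x, hx⟩ = res k ⟨y, hy⟩ := by
  subst hxy
  rfl

/-- the final contradiction -/
private theorem iia_end {k : Type} [Field k] [CharZero k] {x y o o' : HahnSeries ℝ k} (hx : x ∉ OO k)
    (hy : y ∉ OO k) (ho : o ∈ OO k) (ho' : o' ∈ OO k) (c : ℕ) (hc : c ≠ 0)
    (h : x * o = c * y * (x + o')) : False := by
  obtain ⟨hx0, -⟩ := (not_mem_OO_iff x).1 hx
  obtain ⟨hy0, -⟩ := (not_mem_OO_iff y).1 hy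
  obtain ⟨m1, r1⟩ := div_mem hy ho
  obtain ⟨m2, r2⟩ := div_mem hx ho'
  have hcm : (c : HahnSeries ℝ k) ∈ OO k := by
    rw [← map_natCast (HahnSeries.C : k →+* HahnSeries ℝ k)]
    exact C_mem_OO _
  have e : o / y = c * (1 + o' / x) := by
    field_simp
    linear_combination h
  have hm : (c : HahnSeries ℝ k) * (1 + o' / x) ∈ OO k :=
    (OO k).mul_mem hcm ((OO k).add_mem (OO k).one_mem m2)
  have e1 := res_congr e m1 hm
  rw [r1] at e1
  have e2 : (⟨(c : HahnSeries ℝ k) * (1 + o' / x), hm⟩ : OO k)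
      = (c : OO k) * (1 + ⟨o' / x, m2⟩) := by
    apply Subtype.ext
    push_cast
    rfl
  rw [e2, map_mul, map_add, map_one, r2, map_natCast, add_zero, mul_one] at e1
  exact hc (by exact_mod_cast e1.symm)

theorem iia {k : Type} [Field k] [CharZero k] (D : Dat (HahnSeries ℝ k)) (i j m : ℕ) (him : m ≤ i)
    (hjm : m ≤ j) (h1 : D.h1 ∈ OO k) (h2 : D.h2 ∈ OO k)
    (μ : ℕ → HahnSeries ℝ k) (hμ0 : μ 0 = 1) (hμ : ∀ i, μ i ∈ OO k)
    (hQ : ∀ l < i, coeff l D.Q ∈ OO k) (hi : coeff i D.Q ∉ OO k)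
    (hQt : ∀ l < j, coeff l D.Qt ∈ OO k) (hj : coeff j D.Qt ∉ OO k) (h : Ann (m + 1) μ D) :
    False := by
  let D' : Dat (HahnSeries ℝ k) :=
    ⟨D.h1, D.h2, D.Q, PowerSeries.mk fun l => if l < j then coeff l D.Qt else 0⟩
  have hQt' : ∀ l, coeff l D'.Qt ∈ OO k := by
    intro l
    change coeff l (PowerSeries.mk fun l => if l < j then coeff l D.Qt else 0) ∈ OO k
    rw [coeff_mk]
    split_ifs with hl
    · exact hQt l hl
    · exact (OO k).zero_mem
  obtain ⟨F, G, r, hB⟩ := base_exists D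
  obtain ⟨F', G', r', hB'⟩ := base_exists D'
  obtain ⟨e1, e2, n, hV⟩ := vec_exists D F G r (Pi.single 2 1)
  obtain ⟨e1', e2', n', hV'⟩ := vec_exists D' F' G' r' (Pi.single 2 1)
  have p := pert_PL (D := D) (D' := D') j m hjm μ hμ0 rfl rfl rfl (fun l hl => by
    change _ = coeff l (PowerSeries.mk fun l => if l < j then coeff l D.Qt else 0)
    rw [coeff_mk, if_pos hl]) hB hB' hV hV'
  have e0 : coeff j D'.Qt = 0 := by
    change coeff j (PowerSeries.mk fun l => if l < j then coeff l D.Qt else 0) = 0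
    rw [coeff_mk, if_neg (lt_irrefl j)]
  rw [h F G r e1 e2 n 2 hB hV, map_zero, zero_sub, neg_inj, e0, sub_zero] at p
  have p' := congrArg (coeff (i - m)) p
  rw [coeff_C_mul, Function.iterate_succ_apply, hV.e1_z] at p'
  have hit : coeff (i - m) ((fun q => d⁄dX (HahnSeries ℝ k) q)^[m] (D.Q * coeff 0 n))
      = ((i - m + 1).ascFactorial m : HahnSeries ℝ k) * coeff (i - m + m) (D.Q * coeff 0 n) :=
    coeff_iterate_derivative _ _ _
  rw [Nat.sub_add_cancel him] at hit
  obtain ⟨o, ho, ho1⟩ := iia2 (D := D') i m him h1 h2 μ hμ hQ hi hQt' (single_mem2 2) hB' hV' (j - m)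
  have ho2 : coeff i D'.Q = coeff i D.Q := rfl
  rw [ho1, hit, ho2] at p'
  -- the coefficient of `z^i` of `Q * n0`
  obtain ⟨o', ho', ho1'⟩ : ∃ o' ∈ OO k, coeff i (D.Q * coeff 0 n) = coeff i D.Q + o' := by
    refine ⟨coeff i (D.Q * coeff 0 n) - coeff i D.Q, ?_, by ring⟩
    have e3 := hV.i3
    rw [Pi.single_eq_same] at e3
    have e4 : coeff i D.Q = ∑ p ∈ Finset.HasAntidiagonal.antidiagonal i,
        (if p.2 = 0 then coeff p.1 D.Q * coeff p.2 (coeff 0 n) else 0) := by
      rw [Finset.sum_eq_single (i, 0)]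
      · rw [if_pos rfl]
        change _ = coeff i D.Q * coeff 0 (coeff 0 n)
        rw [e3, mul_one]
      · rintro ⟨a, b⟩ hab hne
        rw [if_neg]
        rintro (hb : b = 0)
        apply hne
        have : a + b = i := Finset.HasAntidiagonal.mem_antidiagonal.1 hab
        subst hb
        rw [add_zero] at this
        rw [this]
      · intro hni
        exact absurd (Finset.HasAntidiagonal.mem_antidiagonal.2 (add_zero i)) hni
    rw [coeff_mul]
    rw [e4, ← Finset.sum_sub_distrib]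
    refine (OO k).sum_mem fun q hq => ?_
    have hq' : q.1 + q.2 = i := Finset.HasAntidiagonal.mem_antidiagonal.1 hq
    split_ifs with h0
    · rw [sub_self]
      exact (OO k).zero_mem
    · rw [sub_zero]
      exact (OO k).mul_mem (hQ _ (by omega))
        (axisO i h1 hQ (single_mem2 2) hV _ (by omega)).2.2
  rw [ho1'] at p'
  have hN : (j.descFactorial m * (i - m + 1).ascFactorial m : ℕ) ≠ 0 := by
    apply mul_ne_zero
    · rw [Ne, Nat.descFactorial_eq_zero_iff_lt]
      omega
    · exact (Nat.ascFactorial_pos _ _).ne'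
  refine iia_end hi hj ho ho' _ hN ?_
  rw [p']
  push_cast
  ring

end Pool.Agent.Work.MP_abe657_gt.CM
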