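import Pool.Agent.Work.MP_abe657_gt.CM.Lin

/-!
# MP_abe657_gt, part CM: facts on Hahn series with real exponents

FIXED file (complete proofs).
-/

set_option autoImplicit false

namespace Pool.Agent.Work.MP_abe657_gt.CM

variable {k : Type} [Field k]

theorem mem_OO_iff (x : HahnSeries ℝ k) : x ∈ OO k ↔ x = 0 ∨ 0 ≤ x.order := by
  constructor
  · intro h
    by_cases hx : x = 0
    · exact Or.inl hx
    · right
      by_contra hlt
      push Not at hlt
      exact hx (HahnSeries.coeff_order_eq_zero.1 (h _ hlt))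
  · rintro (rfl | h)
    · exact (OO k).zero_mem
    · intro q hq
      exact HahnSeries.coeff_eq_zero_of_lt_order (lt_of_lt_of_le hq h)

theorem not_mem_OO_iff (x : HahnSeries ℝ k) : x ∉ OO k ↔ x ≠ 0 ∧ x.order < 0 := by
  rw [mem_OO_iff]
  push Not
  rfl

theorem res_eq_zero_iff (x : OO k) :
    res k x = 0 ↔ (x : HahnSeries ℝ k) = 0 ∨ 0 < (x : HahnSeries ℝ k).order := by
  rw [res_apply]
  constructor
  · intro h
    by_cases hx : (x : HahnSeries ℝ k) = 0
    · exact Or.inl hx
    · right
      rcases (mem_OO_iff _).1 x.2 with h1 | h1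
      · exact absurd h1 hx
      · rcases h1.lt_or_eq with h2 | h2
        · exact h2
        · exfalso
          apply hx; apply HahnSeries.coeff_order_eq_zero.1
          rw [← h2]
          exact h
  · rintro (h | h)
    · rw [h]; rfl
    · exact HahnSeries.coeff_eq_zero_of_lt_order h

variable (k) in
/-- the monomial with real exponent `q` -/
noncomputable def tp (q : ℝ) : HahnSeries ℝ k := HahnSeries.single q 1

theorem tp_ne_zero (q : ℝ) : tp k q ≠ 0 := HahnSeries.single_ne_zero one_ne_zero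

theorem tp_mul (p q : ℝ) : tp k p * tp k q = tp k (p + q) := by
  rw [tp, tp, HahnSeries.single_mul_single, one_mul, tp]

theorem tp_zero : tp k 0 = 1 := rfl

theorem tp_pow (q : ℝ) (n : ℕ) : tp k q ^ n = tp k (n * q) := by
  induction n with
  | zero => simp [tp_zero]
  | succ n ih => rw [pow_succ, ih, tp_mul]; push_cast; ring_nf

theorem order_tp (q : ℝ) : (tp k q).order = q := HahnSeries.order_single one_ne_zero

theorem order_tp_mul (q : ℝ) {x : HahnSeries ℝ k} (hx : x ≠ 0) : (tp k q * x).order = q + x.order := by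
  rw [HahnSeries.order_mul (tp_ne_zero q) hx, order_tp]

theorem tp_mul_mem (q : ℝ) (x : HahnSeries ℝ k) : tp k q * x ∈ OO k ↔ x = 0 ∨ 0 ≤ q + x.order := by
  by_cases hx : x = 0
  · simp [hx, (OO k).zero_mem]
  · rw [mem_OO_iff, order_tp_mul q hx, mul_eq_zero, or_iff_right (tp_ne_zero q)]

theorem tp_mem {q : ℝ} (hq : 0 ≤ q) : tp k q ∈ OO k := by
  rw [mem_OO_iff, order_tp]
  exact Or.inr hq

theorem order_inv' {x : HahnSeries ℝ k} (hx : x ≠ 0) : (x⁻¹).order = -x.order := by
  have h := HahnSeries.order_mul hx (inv_ne_zero hx)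
  rw [mul_inv_cancel₀ hx, HahnSeries.order_one] at h
  linarith

theorem order_C' (a : k) : (HahnSeries.C a : HahnSeries ℝ k).order = 0 := HahnSeries.order_C

theorem res_C (a : k) : res k ⟨HahnSeries.C a, C_mem_OO a⟩ = a := by
  rw [res_apply]
  change (HahnSeries.single (0 : ℝ) a).coeff 0 = a
  rw [HahnSeries.coeff_single_same]

/-- an element `x` with `x ∉ OO`, divided by `x`: an element of `OO` becomes an element of `OO` of
residue zero -/
theorem div_mem {x y : HahnSeries ℝ k} (hx : x ∉ OO k) (hy : y ∈ OO k) :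
    ∃ h : y / x ∈ OO k, res k ⟨y / x, h⟩ = 0 := by
  obtain ⟨hx0, hx1⟩ := (not_mem_OO_iff x).1 hx
  by_cases hy0 : y = 0
  · subst hy0
    refine ⟨by rw [zero_div]; exact (OO k).zero_mem, ?_⟩
    rw [res_apply]
    simp
  · have h1 : (y / x).order = y.order - x.order := by
      rw [div_eq_mul_inv, HahnSeries.order_mul hy0 (inv_ne_zero hx0), order_inv' hx0]
      ring
    have h2 : 0 ≤ y.order := ((mem_OO_iff y).1 hy).resolve_left hy0
    have h3 : 0 < (y / x).order := by rw [h1]; linarith
    exact ⟨(mem_OO_iff _).2 (Or.inr h3.le), (res_eq_zero_iff _).2 (Or.inr h3)⟩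

theorem inv_mem {x : HahnSeries ℝ k} (hx : x ∉ OO k) : x⁻¹ ∈ OO k := by
  obtain ⟨hx0, hx1⟩ := (not_mem_OO_iff x).1 hx
  rw [mem_OO_iff, order_inv' hx0]
  right
  linarith

end Pool.Agent.Work.MP_abe657_gt.CM
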