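import Pool.Agent.Work.MP_abe657_gt.CM.AnnMap
import Pool.Agent.Work.MP_abe657_gt.CM.HFacts

/-!
# MP_abe657_gt, part CM, module OOsol

Size S-M. Solutions with data in `OO k` have coefficients in `OO k`.

Proof. Write `D = D0.map (OO k).subtype`, `a = fun i => (a0 i : K)`, `μ = fun i => (μ0 i : K)` with `D0`, `a0`, `μ0` over `OO k`
(`PowerSeries.mk` of the coefficients with their membership proofs). `base_exists`, `vec_exists` over `OO k` give solutions
whose images (`IsBase.map`, `IsVec.map`) are the given ones by `base_unique`, `vec_unique`; so all coefficients of `n`,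
`e1` are in `OO k`, and `PL k μ G n = m2 (OO k).subtype (PL k μ0 G0 n0)` (`m2_PL`). `axisO`: the same statement on the axis
under the weaker hypothesis that only `coeff l D.Q`, `l < i`, are in `OO k`: direct strong induction on `l ≤ i`:
`coeff (l+1) (coeff 0 e1) * (l+1) = coeff l (D.Q * coeff 0 n)` etc. (`coeff_derivative`, `coeff_mul`), and `x * (l+1) ∈ OO k`
implies `x ∈ OO k` (multiply by `HahnSeries.C (1/(l+1))`).
-/

set_option autoImplicit false

namespace Pool.Agent.Work.MP_abe657_gt.CM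

open PowerSeries

variable {k : Type} [Field k] [CharZero k]

omit [CharZero k] in
private theorem oo_m2 (f : P2 (OO k)) (i j : ℕ) :
    coeff i (coeff j (m2 (OO k).subtype f)) ∈ OO k := by
  rw [coeff2_m2]
  exact (coeff i (coeff j f)).2

private theorem oo_div {x : HahnSeries ℝ k} (l : ℕ) (h : x * ((l : HahnSeries ℝ k) + 1) ∈ OO k) :
    x ∈ OO k := by
  have h1 : ((l : HahnSeries ℝ k) + 1) = HahnSeries.C ((l : k) + 1) := by
    rw [map_add, map_natCast, map_one]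
  have h2 := (OO k).mul_mem h (C_mem_OO (((l : k) + 1)⁻¹))
  rw [h1, mul_assoc, ← map_mul, mul_inv_cancel₀ (Nat.cast_add_one_ne_zero l), map_one,
    mul_one] at h2
  exact h2

theorem oo_sol {D : Dat (HahnSeries ℝ k)} {F G r : P2 (HahnSeries ℝ k)}
    {a : Fin 3 → HahnSeries ℝ k} {e1 e2 n : P2 (HahnSeries ℝ k)}
    (h1 : D.h1 ∈ OO k) (h2 : D.h2 ∈ OO k) (hQ : ∀ l, coeff l D.Q ∈ OO k)
    (hQt : ∀ l, coeff l D.Qt ∈ OO k) (ha : ∀ i, a i ∈ OO k) (hB : IsBase D F G r)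
    (hV : IsVec D F G r a e1 e2 n) (K : ℕ) (μ : ℕ → HahnSeries ℝ k) (hμ : ∀ i, μ i ∈ OO k) :
    (∀ i j, coeff i (coeff j (PL K μ G n)) ∈ OO k) ∧ (∀ i j, coeff i (coeff j e1) ∈ OO k) ∧
      (∀ i j, coeff i (coeff j e2) ∈ OO k) ∧ (∀ i j, coeff i (coeff j n) ∈ OO k) := by
  set D0 : Dat (OO k) := ⟨⟨D.h1, h1⟩, ⟨D.h2, h2⟩, PowerSeries.mk fun l => ⟨coeff l D.Q, hQ l⟩,
    PowerSeries.mk fun l => ⟨coeff l D.Qt, hQt l⟩⟩ with hD0
  have hQm : PowerSeries.map (OO k).subtype D0.Q = D.Q := by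
    ext l : 1
    rw [coeff_map, hD0, coeff_mk]
    rfl
  have hQtm : PowerSeries.map (OO k).subtype D0.Qt = D.Qt := by
    ext l : 1
    rw [coeff_map, hD0, coeff_mk]
    rfl
  have hD : D0.map (OO k).subtype = D := by
    show (⟨(OO k).subtype D0.h1, (OO k).subtype D0.h2, PowerSeries.map (OO k).subtype D0.Q,
      PowerSeries.map (OO k).subtype D0.Qt⟩ : Dat (HahnSeries ℝ k)) = D
    rw [hQm, hQtm]
    rfl
  obtain ⟨F0, G0, r0, hB0⟩ := base_exists D0
  obtain ⟨e10, e20, n0, hV0⟩ := vec_exists D0 F0 G0 r0 (fun i => ⟨a i, ha i⟩)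
  have hB1 := hB0.map (OO k).subtype
  rw [hD] at hB1
  have hV1 := hV0.map (OO k).subtype
  rw [hD] at hV1
  obtain ⟨hF, hG, hr⟩ := base_unique hB hB1
  subst hF
  subst hG
  subst hr
  have hV2 : IsVec D (m2 (OO k).subtype F0) (m2 (OO k).subtype G0) (m2 (OO k).subtype r0) a
    (m2 (OO k).subtype e10) (m2 (OO k).subtype e20) (m2 (OO k).subtype n0) := hV1
  obtain ⟨hE1, hE2, hN⟩ := vec_unique hV hV2
  subst hE1
  subst hE2
  subst hN
  refine ⟨fun i j => ?_, oo_m2 e10, oo_m2 e20, oo_m2 n0⟩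
  have h3 := m2_PL (OO k).subtype K (fun i => ⟨μ i, hμ i⟩) G0 n0
  have h4 : PL K μ (m2 (OO k).subtype G0) (m2 (OO k).subtype n0) =
      m2 (OO k).subtype (PL K (fun i => ⟨μ i, hμ i⟩) G0 n0) := h3.symm
  rw [h4]
  exact oo_m2 _ i j

theorem axisO {D : Dat (HahnSeries ℝ k)} {F G r : P2 (HahnSeries ℝ k)}
    {a : Fin 3 → HahnSeries ℝ k} {e1 e2 n : P2 (HahnSeries ℝ k)} (i : ℕ)
    (h1 : D.h1 ∈ OO k) (hQ : ∀ l < i, coeff l D.Q ∈ OO k) (ha : ∀ c, a c ∈ OO k)
    (hV : IsVec D F G r a e1 e2 n) :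
    ∀ l ≤ i, coeff l (coeff 0 e1) ∈ OO k ∧ coeff l (coeff 0 e2) ∈ OO k ∧
      coeff l (coeff 0 n) ∈ OO k := by
  intro l
  induction l using Nat.strong_induction_on with
  | _ l ih =>
    intro hl
    rcases l with _ | l
    · rw [hV.i1, hV.i2, hV.i3]
      exact ⟨ha 0, ha 1, ha 2⟩
    · have hmulQ : ∀ f : PowerSeries (HahnSeries ℝ k), (∀ q ≤ l, coeff q f ∈ OO k) →
          coeff l (D.Q * f) ∈ OO k := by
        intro f hf
        rw [coeff_mul]
        refine (OO k).sum_mem fun pq hpq => ?_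
        have hpq' := Finset.HasAntidiagonal.mem_antidiagonal.1 hpq
        exact (OO k).mul_mem (hQ _ (by omega)) (hf _ (by omega))
      have a1 : ∀ q ≤ l, coeff q (coeff 0 e1) ∈ OO k := fun q hq =>
        (ih q (by omega) (by omega)).1
      have a2 : ∀ q ≤ l, coeff q (coeff 0 e2) ∈ OO k := fun q hq =>
        (ih q (by omega) (by omega)).2.1
      have a3 : ∀ q ≤ l, coeff q (coeff 0 n) ∈ OO k := fun q hq =>
        (ih q (by omega) (by omega)).2.2
      have b1 := congrArg (coeff l) hV.e1_z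
      have b2 := congrArg (coeff l) hV.e2_z
      have b3 := congrArg (coeff l) hV.n_z
      rw [coeff_derivative] at b1 b2 b3
      refine ⟨oo_div l ?_, oo_div l ?_, oo_div l ?_⟩
      · rw [b1]
        exact hmulQ _ a3
      · rw [b2, coeff_C_mul]
        exact (OO k).mul_mem h1 (a3 l le_rfl)
      · rw [b3, map_sub, map_neg, coeff_C_mul]
        exact (OO k).sub_mem ((OO k).neg_mem ((OO k).mul_mem h1 (a1 l le_rfl))) (hmulQ _ a2)

end Pool.Agent.Work.MP_abe657_gt.CM
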