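import Mathlib

/-!
# MP_abe657_gt, part CM, module PolyDeg

Size M. A polynomial identity excluded by degrees.

Proof. Let `D = E.natDegree ≥ 1`, `b = β.natDegree ≤ 2 D - 2`. `U = 4 β E' - β' E` has coefficient
`(4 D - b) * lc β * lc E ≠ 0` at degree `b + D - 1` (char 0, `b < 4 D`), so `U ≠ 0` and `U.natDegree = b + D - 1`
(only `≥` is needed). So the right side of `hid` is not zero and its degree is `≥ 3 b + 2 (b + D - 1) = 5 b + 2 D - 2`.
`A = 2 β E'' - β' E'` has degree `≤ b + D - 2` and `Y = β A' - 2 β' A` has degree `≤ 2 b + D - 3` (with the convention that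
`A = 0`, `Y = 0` when these numbers are negative: if `D = 1` then `E'' = 0`, `b = 0`, `β' = 0`, so `A = 0`; if
`b + D - 2 = 0` then `A` is constant and `A' = 0`, `β' * A` has degree `≤ b - 1`). It may be easier to use the embedding in
Laurent polynomials, or the function `deg x = (x.natDegree : ℤ)` for `x ≠ 0`, with `deg x' ≤ deg x - 1` for `x' ≠ 0`, and a
bound of this function for every nonzero term. Hence `2 (2 b + D - 3) ≥ 5 b + 2 D - 2`, i.e. `-4 ≥ b`:
contradiction.
-/

set_option autoImplicit false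

namespace Pool.Agent.Work.MP_abe657_gt.CM

open Polynomial

private theorem pd_coeff {k : Type} [Field k] (p : k[X]) (n : ℕ) :
    (X * derivative p).coeff n = (n : k) * p.coeff n := by
  cases n with
  | zero => simp
  | succ n =>
    rw [coeff_X_mul, coeff_derivative]
    push_cast
    ring

private theorem pd_deg {k : Type} [Field k] (p : k[X]) :
    (X * derivative p).natDegree ≤ p.natDegree := by
  rw [natDegree_le_iff_coeff_eq_zero]
  intro N hN
  rw [pd_coeff, coeff_eq_zero_of_natDegree_lt hN, mul_zero]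

private theorem pd_sub {k : Type} [Field k] {p q : k[X]} {n : ℕ} (hp : p.natDegree ≤ n)
    (hq : q.natDegree ≤ n) : (p - q).natDegree ≤ n :=
  (natDegree_sub_le p q).trans (max_le hp hq)

private theorem pd_mul {k : Type} [Field k] {p q : k[X]} {m n : ℕ} (hp : p.natDegree ≤ m)
    (hq : q.natDegree ≤ n) : (p * q).natDegree ≤ m + n :=
  natDegree_mul_le.trans (add_le_add hp hq)

private theorem pd_two {k : Type} [Field k] {p : k[X]} {n : ℕ} (hp : p.natDegree ≤ n) :
    (2 * p).natDegree ≤ n := by
  have h1 : (2 * p) = C (2 : k) * p := by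
    rw [map_ofNat]
  rw [h1]
  exact (natDegree_C_mul_le _ _).trans hp

theorem polyDeg {k : Type} [Field k] [CharZero k] (h : k) (hh : h ≠ 0) (β E : k[X]) (hβ : β ≠ 0)
    (hE : 1 ≤ E.natDegree) (hdeg : β.natDegree ≤ 2 * (E.natDegree - 1))
    (hid : (β * derivative (2 * β * derivative (derivative E) - derivative β * derivative E)
        - 2 * derivative β * (2 * β * derivative (derivative E) - derivative β * derivative E)) ^ 2
      = C (h ^ 2) * β ^ 3 * (4 * β * derivative E - derivative β * E) ^ 2) : False := by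
  have hE0 : E ≠ 0 := by
    rintro rfl
    simp at hE
  set b := β.natDegree with hb
  set D := E.natDegree with hD
  set b1 : k[X] := X * derivative β with hb1
  set e1 : k[X] := X * derivative E with he1
  set e2 : k[X] := X * derivative e1 - e1 with he2
  set A2 : k[X] := 2 * (β * e2) - b1 * e1 with hA2
  set A3 : k[X] := X * derivative A2 - 2 * A2 with hA3
  set Y3 : k[X] := β * A3 - 2 * (b1 * A2) with hY3
  have d_b1 : b1.natDegree ≤ b := pd_deg β
  have d_e1 : e1.natDegree ≤ D := pd_deg E
  have d_e2 : e2.natDegree ≤ D := pd_sub ((pd_deg e1).trans d_e1) d_e1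
  have d_A2 : A2.natDegree ≤ b + D := pd_sub (pd_two (pd_mul le_rfl d_e2)) (pd_mul d_b1 d_e1)
  have d_A3 : A3.natDegree ≤ b + D := pd_sub ((pd_deg A2).trans d_A2) (pd_two d_A2)
  have d_Y3 : Y3.natDegree ≤ b + (b + D) :=
    pd_sub (pd_mul le_rfl d_A3) (pd_two (pd_mul d_b1 d_A2))
  have heq : Y3 = X ^ 3 * (β * derivative (2 * β * derivative (derivative E) -
      derivative β * derivative E) - 2 * derivative β * (2 * β * derivative (derivative E) -
      derivative β * derivative E)) := by
    simp only [hY3, hA3, hA2, he2, he1, hb1, derivative_mul, derivative_sub, derivative_add, derivative_X,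
      derivative_ofNat, derivative_one]
    ring
  set W : k[X] := X * (4 * β * derivative E - derivative β * E) with hW
  have hid2 : Y3 ^ 2 = C (h ^ 2) * β ^ 3 * (X ^ 4 * W ^ 2) := by
    rw [heq, mul_pow, hid, hW]
    ring
  have hWeq : W = C (4 : k) * (β * e1) - b1 * E := by
    rw [hW, he1, hb1, map_ofNat]
    ring
  have hWc : W.coeff (b + D) = (4 * (D : k) - (b : k)) * (β.leadingCoeff * E.leadingCoeff) := by
    rw [hWeq, coeff_sub, coeff_C_mul, coeff_mul_add_eq_of_natDegree_le (le_refl β.natDegree) d_e1,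
      coeff_mul_add_eq_of_natDegree_le d_b1 (le_refl E.natDegree), pd_coeff, pd_coeff]
    unfold leadingCoeff
    ring
  have hne : (4 * (D : k) - (b : k)) ≠ 0 := by
    have h1 : (b : ℕ) < 4 * D := by omega
    intro h2
    have h3 : ((4 * D : ℕ) : k) = (b : k) := by
      push_cast
      exact sub_eq_zero.1 h2
    have h4 : 4 * D = b := by exact_mod_cast h3
    omega
  have hWc0 : W.coeff (b + D) ≠ 0 := by
    rw [hWc]
    exact mul_ne_zero hne (mul_ne_zero (leadingCoeff_ne_zero.2 hβ) (leadingCoeff_ne_zero.2 hE0))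
  have hWd : b + D ≤ W.natDegree := le_natDegree_of_ne_zero hWc0
  have hW0 : W ≠ 0 := by
    rintro h0
    rw [h0] at hWc0
    simp at hWc0
  have hdR : (C (h ^ 2) * β ^ 3 * (X ^ 4 * W ^ 2)).natDegree = 3 * b + (4 + 2 * W.natDegree) := by
    have h1 : C (h ^ 2) * β ^ 3 ≠ 0 :=
      mul_ne_zero (C_ne_zero.2 (pow_ne_zero 2 hh)) (pow_ne_zero 3 hβ)
    have h2 : (X ^ 4 * W ^ 2 : k[X]) ≠ 0 :=
      mul_ne_zero (pow_ne_zero 4 X_ne_zero) (pow_ne_zero 2 hW0)
    rw [natDegree_mul h1 h2, natDegree_C_mul (pow_ne_zero 2 hh), natDegree_pow,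
      natDegree_mul (pow_ne_zero 4 X_ne_zero) (pow_ne_zero 2 hW0), natDegree_pow, natDegree_pow,
      natDegree_X]
  have hdL : (Y3 ^ 2).natDegree ≤ 2 * (b + (b + D)) := by
    rw [natDegree_pow]
    exact Nat.mul_le_mul_left 2 d_Y3
  rw [hid2, hdR] at hdL
  omega

end Pool.Agent.Work.MP_abe657_gt.CM
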