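import Pool.Agent.Work.MP_abe657_gt.CM.Gram
import Pool.Agent.Work.MP_abe657_gt.CM.PolyDeg

/-!
# MP_abe657_gt, part CM, module PolyC

Size M. On the axis: if all `e1 c` are polynomials of degree `≤ m` (their derivatives of order `m + 1` vanish), then `h = 0` or `Q = 0`.

Proof. Each `e1 c` is the image of a polynomial `E c` (a power series whose `(m+1)`-th derivative is `0` has no coefficients of degree
`> m`: `coeff_iterate_derivative` or induction; `PowerSeries.trunc`). Let `B = Q^2`. From `gram` and `e1_z`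
(`dX (e1 c) = Q * n c`): `B = Q^2 (2 n0 n1 + n2^2) = 2 e1_0' e1_1' + (e1_2')^2`, the image of the polynomial
`β = 2 E0' E1' + E2'^2`. Let `D = max (natDegree (E c))`, attained at `c`. `D ≥ 1`, otherwise all `dX (e1 c) = 0`, so `β = 0`, but
`Q ≠ 0`. `natDegree β ≤ 2 (D - 1)`. Identity for every `c` (write `e = e1 c`, `e' = Q n`, `n' = -h e - Q e2`, `e2' = h n`,
`B' = 2 Q Q'`): `A := 2 B e'' - B' e' = -2 h Q^3 e - 2 Q^4 e2`,
`B A' - 2 B' A = 2 h Q^4 Q' e - 4 h Q^6 n = -h B Q (4 B e' - B' e)`, so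
`(B A' - 2 B' A)^2 = h^2 B^3 (4 B e' - B' e)^2`. Transfer to polynomials (`Polynomial.coe_inj`,
`PowerSeries.derivative_coe`) and apply `polyDeg`.
-/

set_option autoImplicit false

namespace Pool.Agent.Work.MP_abe657_gt.CM

open PowerSeries

private theorem pc_coeff {k : Type} [Field k] [CharZero k] (N : ℕ) (f : PowerSeries k)
    (h : (fun q => d⁄dX k q)^[N] f = 0) : ∀ j, N ≤ j → coeff j f = 0 := by
  induction N generalizing f with
  | zero =>
    intro j _
    have h1 : f = 0 := h
    rw [h1, map_zero]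
  | succ N ih =>
    intro j hj
    obtain ⟨j', rfl⟩ : ∃ j', j = j' + 1 := ⟨j - 1, by omega⟩
    rw [Function.iterate_succ_apply] at h
    have h1 := ih _ h j' (by omega)
    rw [coeff_derivative] at h1
    exact (mul_eq_zero.1 h1).resolve_right (Nat.cast_add_one_ne_zero j')

private theorem pc_id {k : Type} [Field k] (h : k) (Q e f ν : PowerSeries k)
    (he : d⁄dX k e = Q * ν) (hf : d⁄dX k f = C h * ν)
    (hν : d⁄dX k ν = -(C h * e) - Q * f) :
    (Q * Q * d⁄dX k (2 * (Q * Q) * d⁄dX k (d⁄dX k e) - d⁄dX k (Q * Q) * d⁄dX k e) -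
      2 * d⁄dX k (Q * Q) * (2 * (Q * Q) * d⁄dX k (d⁄dX k e) - d⁄dX k (Q * Q) * d⁄dX k e)) ^ 2 =
      C h ^ 2 * (Q * Q) ^ 3 * (4 * (Q * Q) * d⁄dX k e - d⁄dX k (Q * Q) * e) ^ 2 := by
  set T : PowerSeries k := C h * (Q * Q * Q) * e + Q * Q * Q * Q * f with hT
  have hdT : d⁄dX k T = C h * (3 * (Q * Q) * d⁄dX k Q * e + Q * Q * Q * (Q * ν)) +
      (4 * (Q * Q * Q) * d⁄dX k Q * f + Q * Q * Q * Q * (C h * ν)) := by
    rw [hT]
    simp only [map_add, leib1, derivative_C, he, hf]
    ring
  have hin : 2 * (Q * Q) * d⁄dX k (d⁄dX k e) - d⁄dX k (Q * Q) * d⁄dX k e = -(T + T) := by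
    rw [he, leib1, leib1, hν, hT]
    ring
  rw [hin, map_neg, map_add, hdT, leib1, he, hT]
  ring

theorem polyC {k : Type} [Field k] [CharZero k] (h : k) (hh : h ≠ 0) (Q : PowerSeries k) (hQ : Q ≠ 0)
    (e1 e2 n : Fin 3 → PowerSeries k) (hA : IsAx h Q e1 e2 n) (m : ℕ)
    (hm : ∀ c, (fun q => d⁄dX k q)^[m + 1] (e1 c) = 0) : False := by
  set φ : Polynomial k →+* PowerSeries k := Polynomial.coeToPowerSeries.ringHom with hφ
  have hφi : Function.Injective φ := Polynomial.coe_injective k
  have hφd : ∀ p : Polynomial k, φ (Polynomial.derivative p) = d⁄dX k (φ p) := by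
    intro p
    exact (PowerSeries.derivative_coe p).symm
  have hex : ∀ c, ∃ E : Polynomial k, φ E = e1 c := by
    intro c
    refine ⟨PowerSeries.trunc (m + 1) (e1 c), ?_⟩
    show ((PowerSeries.trunc (m + 1) (e1 c) : Polynomial k) : PowerSeries k) = e1 c
    ext j
    rw [Polynomial.coeff_coe, PowerSeries.coeff_trunc]
    split_ifs with hj
    · rfl
    · exact (pc_coeff (m + 1) (e1 c) (hm c) j (by omega)).symm
  choose E hE using hex
  have hdE : ∀ c, φ (Polynomial.derivative (E c)) = Q * n c := by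
    intro c
    rw [hφd, hE, hA.e1_z]
  set β : Polynomial k := 2 * Polynomial.derivative (E 0) * Polynomial.derivative (E 1) +
    Polynomial.derivative (E 2) ^ 2 with hβ
  have hβQ : φ β = Q * Q := by
    have hg := gram hA
    rw [hβ, map_add, map_mul, map_mul, map_pow, map_ofNat, hdE, hdE, hdE]
    linear_combination (Q * Q) * hg
  have hβ0 : β ≠ 0 := by
    intro h0
    rw [h0, map_zero] at hβQ
    exact hQ (mul_self_eq_zero.1 hβQ.symm)
  obtain ⟨c, hc⟩ := Finite.exists_max fun c => (E c).natDegree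
  have hE1 : 1 ≤ (E c).natDegree := by
    by_contra hlt
    have h0 : ∀ c', Polynomial.derivative (E c') = 0 := by
      intro c'
      exact Polynomial.derivative_of_natDegree_zero (by have := hc c'; omega)
    apply hβ0
    rw [hβ, h0, h0, h0]
    ring
  have hd : ∀ c', (Polynomial.derivative (E c')).natDegree ≤ (E c).natDegree - 1 := by
    intro c'
    have h1 := Polynomial.natDegree_derivative_le (E c')
    have h2 := hc c'
    omega
  have hdeg : β.natDegree ≤ 2 * ((E c).natDegree - 1) := by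
    rw [hβ]
    refine (Polynomial.natDegree_add_le _ _).trans (max_le ?_ ?_)
    · have h1 : (2 : Polynomial k) * Polynomial.derivative (E 0) =
          Polynomial.C (2 : k) * Polynomial.derivative (E 0) := by
        rw [map_ofNat]
      rw [h1]
      refine Polynomial.natDegree_mul_le.trans ?_
      have h2 := (Polynomial.natDegree_C_mul_le (2 : k) (Polynomial.derivative (E 0))).trans (hd 0)
      have h3 := hd 1
      omega
    · refine Polynomial.natDegree_pow_le.trans ?_
      have h3 := hd 2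
      omega
  refine polyDeg h hh β (E c) hβ0 hE1 hdeg ?_
  apply hφi
  have hC : φ (Polynomial.C (h ^ 2)) = C h ^ 2 := by
    show ((Polynomial.C (h ^ 2) : Polynomial k) : PowerSeries k) = C h ^ 2
    rw [Polynomial.coe_C, map_pow]
  simp only [map_pow, map_sub, map_mul, map_ofNat, hφd, hβQ, hE] at hC ⊢
  rw [hC, ← map_sub (d⁄dX k)]
  exact pc_id h Q (e1 c) (e2 c) (n c) (hA.e1_z c) (hA.e2_z c) (hA.n_z c)

end Pool.Agent.Work.MP_abe657_gt.CM
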