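import Pool.Agent.Work.MP_abe657_gt.CM.PertL
import Pool.Agent.Work.MP_abe657_gt.CM.OOsol
import Pool.Agent.Work.MP_abe657_gt.CM.PolyC

/-!
# MP_abe657_gt, part CM, module IIb

Size M (assembly). Case II.b: `Q`, `h1`, `h2`, `μ` in `OO k`, `res h1 ≠ 0`, `res Q ≠ 0`, the first coefficient of `Qt` outside `OO k` is
that of degree `j ≥ m`.

Proof. `D' = ⟨D.h1, D.h2, D.Q, mk (fun l => if l < j then coeff l D.Qt else 0)⟩` has all data in `OO k`. For each `c : Fin 3` take
solutions of `D` and of `D'` with initial value `Pi.single c 1`. By `h`, `PL (m+1) μ G n = 0`, and by `oo_sol`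
`coeff i (coeff (j-m) (PL (m+1) μ G' n')) ∈ OO k`. `pert_PL` (note `coeff j D'.Qt = 0`): with `x = coeff j D.Qt`, `e = coeff 0 e1`,
`coeff i ((d^(m+1)) e) * (descFactorial j m * x) ∈ OO k` for all `i`. As `x ∉ OO k`, `div_mem` gives that
`coeff i (d^(m+1) e) ∈ OO k` has residue `0` (the integer `descFactorial j m` is nonzero, a unit of `OO k`). The coefficients of
`coeff 0 e1, coeff 0 e2, coeff 0 n` are in `OO k` (they only depend on `D.Q`, `D.h1`: use `axisO` for all `i`). Let
`E1 c, E2 c, N c : PowerSeries k` be their residues (`PowerSeries.map (res k)` of the lifted series). They satisfy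
`IsAx (res h1) (res Q) E1 E2 N` (apply `res` to `e1_z, e2_z, n_z, i1, i2, i3`) and `(d^(m+1)) (E1 c) = 0` for all `c`:
contradiction with `polyC`.
-/

set_option autoImplicit false

namespace Pool.Agent.Work.MP_abe657_gt.CM

open PowerSeries

/-- lift to `OO k` -/
private noncomputable def lft {k : Type} [Field k] (f : PowerSeries (HahnSeries ℝ k)) (hf : ∀ i, coeff i f ∈ OO k) :
    PowerSeries (OO k) := PowerSeries.mk fun i => ⟨coeff i f, hf i⟩

private theorem lft_sub {k : Type} [Field k] (f : PowerSeries (HahnSeries ℝ k))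
    (hf : ∀ i, coeff i f ∈ OO k) : PowerSeries.map (OO k).subtype (lft f hf) = f := by
  ext i : 1
  rw [coeff_map, lft, coeff_mk]
  rfl

private theorem lft_res {k : Type} [Field k] (f : PowerSeries (HahnSeries ℝ k))
    (hf : ∀ i, coeff i f ∈ OO k) (i : ℕ) : res k (coeff i (lft f hf)) = (coeff i f).coeff 0 := by
  rw [lft, coeff_mk]
  rfl

private theorem psInj {k : Type} [Field k] :
    Function.Injective (PowerSeries.map (OO k).subtype) := by
  intro f g h
  ext i : 1
  have := congrArg (coeff i) h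
  rw [coeff_map, coeff_map] at this
  exact Subtype.val_injective this

private theorem nat_mul_not_mem {k : Type} [Field k] [CharZero k] {N : ℕ} (hN : N ≠ 0)
    {x : HahnSeries ℝ k} (hx : x ∉ OO k) : (N : HahnSeries ℝ k) * x ∉ OO k := by
  intro h
  apply hx
  have h1 : (HahnSeries.C ((N : k)⁻¹) : HahnSeries ℝ k) * ((N : HahnSeries ℝ k) * x) = x := by
    rw [← mul_assoc, ← map_natCast (HahnSeries.C : k →+* HahnSeries ℝ k), ← map_mul,
      inv_mul_cancel₀ (Nat.cast_ne_zero.2 hN), map_one, one_mul]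
  rw [← h1]
  exact (OO k).mul_mem (C_mem_OO _) h

private theorem dmap_it {R S : Type} [CommRing R] [CommRing S] (f : R →+* S) (n : ℕ)
    (x : PowerSeries R) : PowerSeries.map f ((fun q => d⁄dX R q)^[n] x)
      = (fun q => d⁄dX S q)^[n] (PowerSeries.map f x) := by
  induction n generalizing x with
  | zero => rfl
  | succ n ih => rw [Function.iterate_succ_apply, ih, Function.iterate_succ_apply, dmap]

private theorem single_mem {k : Type} [Field k] (c i : Fin 3) :
    (Pi.single c 1 : Fin 3 → HahnSeries ℝ k) i ∈ OO k := by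
  by_cases h : i = c
  · subst h
    rw [Pi.single_eq_same]
    exact (OO k).one_mem
  · rw [Pi.single_eq_of_ne h]
    exact (OO k).zero_mem

theorem iib {k : Type} [Field k] [CharZero k] (D : Dat (HahnSeries ℝ k)) (j m : ℕ) (hjm : m ≤ j)
    (h1 : D.h1 ∈ OO k) (hr : D.h1.coeff 0 ≠ 0) (h2 : D.h2 ∈ OO k)
    (μ : ℕ → HahnSeries ℝ k) (hμ0 : μ 0 = 1) (hμ : ∀ i, μ i ∈ OO k)
    (hQ : ∀ l, coeff l D.Q ∈ OO k) (hQ0 : ∃ l, (coeff l D.Q).coeff 0 ≠ 0)
    (hQt : ∀ l < j, coeff l D.Qt ∈ OO k) (hj : coeff j D.Qt ∉ OO k) (h : Ann (m + 1) μ D) :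
    False := by
  let D' : Dat (HahnSeries ℝ k) :=
    ⟨D.h1, D.h2, D.Q, PowerSeries.mk fun l => if l < j then coeff l D.Qt else 0⟩
  have hQt' : ∀ l, coeff l D'.Qt ∈ OO k := by
    intro l
    change coeff l (PowerSeries.mk fun l => if l < j then coeff l D.Qt else 0) ∈ OO k
    rw [coeff_mk]
    split_ifs with hl
    · exact hQt l hl
    · exact (OO k).zero_mem
  obtain ⟨F, G, r, hB⟩ := base_exists D
  obtain ⟨F', G', r', hB'⟩ := base_exists D'
  choose e1 e2 n hV using fun c : Fin 3 => vec_exists D F G r (Pi.single c 1)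
  choose e1' e2' n' hV' using fun c : Fin 3 => vec_exists D' F' G' r' (Pi.single c 1)
  have hax : ∀ c i, coeff i (coeff 0 (e1 c)) ∈ OO k ∧ coeff i (coeff 0 (e2 c)) ∈ OO k ∧
      coeff i (coeff 0 (n c)) ∈ OO k := fun c i =>
    axisO i h1 (fun l _ => hQ l) (single_mem c) (hV c) i le_rfl
  have hN : (j.descFactorial m : ℕ) ≠ 0 := by
    rw [Ne, Nat.descFactorial_eq_zero_iff_lt]
    omega
  -- the derivatives of order `m + 1` have residue zero
  have hder : ∀ c i, ∃ hm : coeff i ((fun q => d⁄dX (HahnSeries ℝ k) q)^[m + 1] (coeff 0 (e1 c))) ∈ OO k,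
      res k ⟨_, hm⟩ = 0 := by
    intro c i
    have p := pert_PL (D := D) (D' := D') j m hjm μ hμ0 rfl rfl rfl (fun l hl => by
      change _ = coeff l (PowerSeries.mk fun l => if l < j then coeff l D.Qt else 0)
      rw [coeff_mk, if_pos hl]) hB hB' (hV c) (hV' c)
    have e0 : coeff j D'.Qt = 0 := by
      change coeff j (PowerSeries.mk fun l => if l < j then coeff l D.Qt else 0) = 0
      rw [coeff_mk, if_neg (lt_irrefl j)]
    rw [h F G r (e1 c) (e2 c) (n c) c hB (hV c), map_zero, zero_sub, neg_inj, e0, sub_zero] at p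
    have p' := congrArg (coeff i) p
    rw [coeff_C_mul] at p'
    have ho := (oo_sol (D := D') h1 h2 hQ hQt' (single_mem c) hB' (hV' c) (m + 1) μ hμ).1 i (j - m)
    rw [p'] at ho
    have hx := nat_mul_not_mem hN hj
    obtain ⟨hd, hd'⟩ := div_mem hx ho
    have hx0 : ((j.descFactorial m : ℕ) : HahnSeries ℝ k) * coeff j D.Qt ≠ 0 :=
      ((not_mem_OO_iff _).1 hx).1
    have e : ((j.descFactorial m : ℕ) : HahnSeries ℝ k) * coeff j D.Qt
        * coeff i ((fun q => d⁄dX (HahnSeries ℝ k) q)^[m + 1] (coeff 0 (e1 c)))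
        / (((j.descFactorial m : ℕ) : HahnSeries ℝ k) * coeff j D.Qt)
        = coeff i ((fun q => d⁄dX (HahnSeries ℝ k) q)^[m + 1] (coeff 0 (e1 c))) := by
      rw [mul_div_assoc, mul_comm, div_mul_cancel₀ _ hx0]
    have hm' : coeff i ((fun q => d⁄dX (HahnSeries ℝ k) q)^[m + 1] (coeff 0 (e1 c))) ∈ OO k := by
      rw [← e]; exact hd
    refine ⟨hm', ?_⟩
    rw [← hd']
    congr 1
    exact Subtype.ext e.symm
  -- the residues
  let E1 : Fin 3 → PowerSeries (OO k) := fun c => lft (coeff 0 (e1 c)) fun i => (hax c i).1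
  let E2 : Fin 3 → PowerSeries (OO k) := fun c => lft (coeff 0 (e2 c)) fun i => (hax c i).2.1
  let N : Fin 3 → PowerSeries (OO k) := fun c => lft (coeff 0 (n c)) fun i => (hax c i).2.2
  let Q0 : PowerSeries (OO k) := lft D.Q hQ
  have sE1 : ∀ c, PowerSeries.map (OO k).subtype (E1 c) = coeff 0 (e1 c) := fun c => lft_sub _ _
  have sE2 : ∀ c, PowerSeries.map (OO k).subtype (E2 c) = coeff 0 (e2 c) := fun c => lft_sub _ _
  have sN : ∀ c, PowerSeries.map (OO k).subtype (N c) = coeff 0 (n c) := fun c => lft_sub _ _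
  have sQ : PowerSeries.map (OO k).subtype Q0 = D.Q := lft_sub _ _
  have sC : PowerSeries.map (OO k).subtype (C (⟨D.h1, h1⟩ : OO k)) = C D.h1 := by
    rw [map_C]; rfl
  have q1 : ∀ c, d⁄dX (OO k) (E1 c) = Q0 * N c := by
    intro c
    apply psInj
    rw [dmap, map_mul, sE1, sN, sQ, (hV c).e1_z]
  have q2 : ∀ c, d⁄dX (OO k) (E2 c) = C (⟨D.h1, h1⟩ : OO k) * N c := by
    intro c
    apply psInj
    rw [dmap, map_mul, sE2, sN, sC, (hV c).e2_z]
  have q3 : ∀ c, d⁄dX (OO k) (N c) = -(C (⟨D.h1, h1⟩ : OO k) * E1 c) - Q0 * E2 c := by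
    intro c
    apply psInj
    rw [dmap, map_sub, map_neg, map_mul, map_mul, sE1, sE2, sN, sC, sQ, (hV c).n_z]
  have hA : IsAx (res k ⟨D.h1, h1⟩) (PowerSeries.map (res k) Q0)
      (fun c => PowerSeries.map (res k) (E1 c)) (fun c => PowerSeries.map (res k) (E2 c))
      (fun c => PowerSeries.map (res k) (N c)) := by
    refine ⟨fun c => ?_, fun c => ?_, fun c => ?_, fun c => ?_, fun c => ?_, fun c => ?_⟩
    · rw [← dmap, q1, map_mul]
    · rw [← dmap, q2, map_mul, map_C]
    · rw [← dmap, q3, map_sub, map_neg, map_mul, map_mul, map_C]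
    · rw [coeff_map, lft_res, (hV c).i1]
      by_cases hc : c = 0
      · subst hc
        rw [Pi.single_eq_same, HahnSeries.coeff_one, if_pos rfl, if_pos rfl]
      · rw [Pi.single_eq_of_ne (Ne.symm hc), if_neg hc]; rfl
    · rw [coeff_map, lft_res, (hV c).i2]
      by_cases hc : c = 1
      · subst hc
        rw [Pi.single_eq_same, HahnSeries.coeff_one, if_pos rfl, if_pos rfl]
      · rw [Pi.single_eq_of_ne (Ne.symm hc), if_neg hc]; rfl
    · rw [coeff_map, lft_res, (hV c).i3]
      by_cases hc : c = 2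
      · subst hc
        rw [Pi.single_eq_same, HahnSeries.coeff_one, if_pos rfl, if_pos rfl]
      · rw [Pi.single_eq_of_ne (Ne.symm hc), if_neg hc]; rfl
  refine polyC (res k ⟨D.h1, h1⟩) hr (PowerSeries.map (res k) Q0) ?_ _ _ _ hA m ?_
  · obtain ⟨l, hl⟩ := hQ0
    intro h0
    apply hl
    have := congrArg (coeff l) h0
    rw [coeff_map, map_zero, lft_res] at this
    exact this
  · intro c
    rw [← dmap_it]
    ext i
    rw [coeff_map, map_zero]
    obtain ⟨hm, hm'⟩ := hder c i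
    rw [← hm']
    congr 1
    apply Subtype.ext
    change (OO k).subtype (coeff i ((fun q => d⁄dX (OO k) q)^[m + 1] (E1 c))) = _
    rw [← coeff_map, dmap_it, sE1]

end Pool.Agent.Work.MP_abe657_gt.CM
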