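import Pool.Agent.Work.MP_abe657_gt.CM.NPv
import Pool.Agent.Work.MP_abe657_gt.CM.IIa
import Pool.Agent.Work.MP_abe657_gt.CM.IIb
import Pool.Agent.Work.MP_abe657_gt.CM.CasesA
import Pool.Agent.Work.MP_abe657_gt.CM.CasesB
import Pool.Agent.Work.MP_abe657_gt.CM.AnnScale

/-!
# MP_abe657_gt, part CM, module CoreH

Size M-L (assembly). The main theorem over the valued field `K = HahnSeries ℝ k`.

Proof. Suppose both constant coefficients are nonzero and the sum of their orders is negative. Let `I = {i | coeff i Q ≠ 0}`,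
`J = {j | coeff j Qt ≠ 0}`, `n i = (coeff i Q).order`, `nt j = (coeff j Qt).order`. Either `n i/(i+2)` attains its infimum on `I`
(`cases_att`), or `nt j/(j+2)` attains its infimum on `J` (`cases_att` with the roles of `(I, n)` and `(J, nt)` exchanged, and then
exchange `Q` and `Qt`, `h` and `h'`), or neither (`cases_natt`). Given real `x, y, c` with `x ≤ -c`, `y ≤ c`, scale with `s = tp (-x)`, `t = tp (-y)`,
`l = tp c`, `m = tp (-c)` (`Ann.scale`); the scaled data are `h1' = tp (-c-x) * C H`, `h2' = tp (c-y) * C H` (both in `OO`),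
`coeff i Q' = tp (c - x (i+1)) * coeff i Q` (in `OO` iff `i ∉ I` or `x (i+1) - c ≤ n i`; residue `≠ 0` iff equality),
`coeff j Qt' = tp (-c - y (j+1)) * coeff j Qt` (in `OO` iff `j ∉ J` or `y (j+1) + c ≤ nt j`), `μ' i = tp (-i (x+y)) * C (μ i)`, in `OO`
because `x + y ≤ 0`, of residue `0` for `i ≥ 1` if `x + y < 0`. Scaling commutes with `swap`:
`(D.scale s t l m).swap = D.swap.scale t s m l` (and `(s t)^i = (t s)^i`).
First alternative of either case lemma: `npv` (lift the data to `OO k`; `res h1' * res h2' = 0` as the product has order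
`-(x+y) > 0`). Second alternative of `cases_natt`: `iia`. Second alternative of `cases_att`: `c = -x`, `iib` (`h1' = C H`, residue `H ≠ 0`).
-/

set_option autoImplicit false

namespace Pool.Agent.Work.MP_abe657_gt.CM

open PowerSeries

private theorem npK {k : Type} [Field k] [CharZero k] (D : Dat (HahnSeries ℝ k)) (h1 : D.h1 ∈ OO k)
    (h2 : D.h2 ∈ OO k) (hh : 0 < D.h1.order + D.h2.order) (hQ : ∀ i, coeff i D.Q ∈ OO k)
    (hQt : ∀ i, coeff i D.Qt ∈ OO k) (hQ0 : ∃ i, (coeff i D.Q).coeff 0 ≠ 0)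
    (hQt0 : ∃ i, (coeff i D.Qt).coeff 0 ≠ 0) (K : ℕ) (μ : ℕ → HahnSeries ℝ k) (hμ0 : μ 0 = 1)
    (hμ : ∀ i, μ i ∈ OO k) (hμ' : ∀ i, 1 ≤ i → (μ i).coeff 0 = 0) (h : Ann K μ D)
    (h' : Ann K μ D.swap) : False := by
  let D0 : Dat (OO k) := ⟨⟨D.h1, h1⟩, ⟨D.h2, h2⟩, PowerSeries.mk fun i => ⟨coeff i D.Q, hQ i⟩,
    PowerSeries.mk fun i => ⟨coeff i D.Qt, hQt i⟩⟩
  have hD : D0.map (OO k).subtype = D := by
    rcases D with ⟨a, b, q, qt⟩
    simp only [D0, Dat.map]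
    congr 1
    · ext i : 1
      rw [coeff_map, coeff_mk]; rfl
    · ext i : 1
      rw [coeff_map, coeff_mk]; rfl
  have hD' : D0.swap.map (OO k).subtype = D.swap := by
    rw [← hD]; rfl
  refine npv D0 ?_ ?_ ?_ K (fun i => ⟨μ i, hμ i⟩) (Subtype.ext hμ0) ?_ ?_ ?_
  · have e : 0 < D.h1.order ∨ 0 < D.h2.order := by
      by_contra hcon
      push Not at hcon
      linarith
    rcases e with e | e
    · rw [(res_eq_zero_iff D0.h1).2 (Or.inr e), zero_mul]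
    · rw [(res_eq_zero_iff D0.h2).2 (Or.inr e), mul_zero]
  · obtain ⟨i, hi⟩ := hQ0
    intro h0
    apply hi
    have := congrArg (coeff i) h0
    rw [coeff_map, coeff_mk, map_zero] at this
    exact this
  · obtain ⟨i, hi⟩ := hQt0
    intro h0
    apply hi
    have := congrArg (coeff i) h0
    rw [coeff_map, coeff_mk, map_zero] at this
    exact this
  · intro i hi
    exact hμ' i hi
  · rw [hD]; exact h
  · rw [hD']; exact h'

private theorem coefS {k : Type} [Field k] (c x : ℝ) (q : PowerSeries (HahnSeries ℝ k)) (i : ℕ) :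
    coeff i (C (tp k c * tp k (-x)) * rescale (tp k (-x)) q)
      = tp k (c - x * ((i : ℝ) + 1)) * coeff i q := by
  rw [coeff_C_mul, coeff_rescale, tp_pow, ← mul_assoc, tp_mul, tp_mul]
  congr 2
  ring

private theorem tpC_mem {k : Type} [Field k] {q : ℝ} (hq : 0 ≤ q) (a : k) :
    tp k q * HahnSeries.C a ∈ OO k := (OO k).mul_mem (tp_mem hq) (C_mem_OO a)

private theorem tpC_coeff {k : Type} [Field k] {q : ℝ} (hq : 0 < q) (a : k) :
    (tp k q * HahnSeries.C a).coeff 0 = 0 := by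
  by_cases ha : a = 0
  · subst ha
    simp
  · apply HahnSeries.coeff_eq_zero_of_lt_order
    rw [order_tp_mul q (HahnSeries.C_ne_zero ha), order_C', add_zero]
    exact hq

private theorem coeff0_of_order {k : Type} [Field k] {x : HahnSeries ℝ k} (hx : x ≠ 0)
    (h : x.order = 0) : x.coeff 0 ≠ 0 := by
  intro h0
  apply hx
  apply HahnSeries.coeff_order_eq_zero.1
  rw [h]
  exact h0

section scaled

variable {k : Type} [Field k] [CharZero k]

/-- the scaled data -/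
private noncomputable def sD (H : k) (Q Qt : PowerSeries (HahnSeries ℝ k)) (x y c : ℝ) :
    Dat (HahnSeries ℝ k) :=
  (⟨HahnSeries.C H, HahnSeries.C H, Q, Qt⟩ : Dat (HahnSeries ℝ k)).scale (tp k (-x)) (tp k (-y))
    (tp k c) (tp k (-c))

/-- the scaled coefficients -/
private noncomputable def sM (μ : ℕ → k) (x y : ℝ) (i : ℕ) : HahnSeries ℝ k :=
  (tp k (-x) * tp k (-y)) ^ i * HahnSeries.C (μ i)

private theorem sM_eq (μ : ℕ → k) (x y : ℝ) (i : ℕ) :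
    sM μ x y i = tp k (i * (-x + -y)) * HahnSeries.C (μ i) := by
  rw [sM, tp_mul, tp_pow]

private theorem sM_zero (μ : ℕ → k) (hμ : μ 0 = 1) (x y : ℝ) : sM μ x y 0 = 1 := by
  rw [sM, pow_zero, one_mul, hμ, map_one]

private theorem sM_mem (μ : ℕ → k) {x y : ℝ} (h : x + y ≤ 0) (i : ℕ) : sM μ x y i ∈ OO k := by
  rw [sM_eq]
  exact tpC_mem (mul_nonneg (Nat.cast_nonneg i) (by linarith)) _

private theorem sM_coeff (μ : ℕ → k) {x y : ℝ} (h : x + y < 0) (i : ℕ) (hi : 1 ≤ i) :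
    (sM μ x y i).coeff 0 = 0 := by
  rw [sM_eq]
  have : (0 : ℝ) < i := by exact_mod_cast hi
  exact tpC_coeff (mul_pos this (by linarith)) _

private theorem sD_h1 (H : k) (Q Qt : PowerSeries (HahnSeries ℝ k)) (x y c : ℝ) :
    (sD H Q Qt x y c).h1 = tp k (-c - x) * HahnSeries.C H := by
  change tp k (-c) * tp k (-x) * HahnSeries.C H = _
  rw [tp_mul]
  congr 2

private theorem sD_h2 (H : k) (Q Qt : PowerSeries (HahnSeries ℝ k)) (x y c : ℝ) :
    (sD H Q Qt x y c).h2 = tp k (c - y) * HahnSeries.C H := by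
  change tp k c * tp k (-y) * HahnSeries.C H = _
  rw [tp_mul]
  congr 2

private theorem sD_Q (H : k) (Q Qt : PowerSeries (HahnSeries ℝ k)) (x y c : ℝ) (i : ℕ) :
    coeff i (sD H Q Qt x y c).Q = tp k (c - x * ((i : ℝ) + 1)) * coeff i Q := coefS c x Q i

private theorem sD_Qt (H : k) (Q Qt : PowerSeries (HahnSeries ℝ k)) (x y c : ℝ) (i : ℕ) :
    coeff i (sD H Q Qt x y c).Qt = tp k (-c - y * ((i : ℝ) + 1)) * coeff i Qt := coefS (-c) y Qt i

private theorem sD_ann (H : k) (Q Qt : PowerSeries (HahnSeries ℝ k)) (x y c : ℝ) (m : ℕ) (μ : ℕ → k)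
    (h : Ann (m + 1) (fun i => HahnSeries.C (μ i)) ⟨HahnSeries.C H, HahnSeries.C H, Q, Qt⟩) :
    Ann (m + 1) (sM μ x y) (sD H Q Qt x y c) :=
  h.scale (tp k (-x)) (tp k (-y)) (tp k c) (tp k (-c)) (by rw [tp_mul, add_neg_cancel, tp_zero])

private theorem sD_ann' (H : k) (Q Qt : PowerSeries (HahnSeries ℝ k)) (x y c : ℝ) (m : ℕ) (μ : ℕ → k)
    (h : Ann (m + 1) (fun i => HahnSeries.C (μ i)) ⟨HahnSeries.C H, HahnSeries.C H, Qt, Q⟩) :
    Ann (m + 1) (sM μ x y) (sD H Q Qt x y c).swap := by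
  have h1 := h.scale (tp k (-y)) (tp k (-x)) (tp k (-c)) (tp k c)
    (by rw [tp_mul, neg_add_cancel, tp_zero])
  have h2 : (fun i => (tp k (-y) * tp k (-x)) ^ i * HahnSeries.C (μ i)) = sM μ x y := by
    funext i
    rw [sM, mul_comm (tp k (-y))]
  rw [h2] at h1
  exact h1

end scaled

section fin

variable {k : Type} [Field k] [CharZero k] (H : k) (hH : H ≠ 0) (m : ℕ) (hm : 1 ≤ m)
    (μ : ℕ → k) (hμ : μ 0 = 1) (Q Qt : PowerSeries (HahnSeries ℝ k))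

include hH hμ in
/-- the first alternative -/
private theorem altN
    (h : Ann (m + 1) (fun i => HahnSeries.C (μ i)) ⟨HahnSeries.C H, HahnSeries.C H, Q, Qt⟩)
    (h' : Ann (m + 1) (fun i => HahnSeries.C (μ i)) ⟨HahnSeries.C H, HahnSeries.C H, Qt, Q⟩)
    (x y c : ℝ) (hx : x ≤ -c) (hy : y ≤ c) (hxy : x + y < 0)
    (hn : ∀ i, coeff i Q ≠ 0 → x * ((i : ℝ) + 1) - c ≤ (coeff i Q).order)
    (hn0 : ∃ i, coeff i Q ≠ 0 ∧ (coeff i Q).order = x * ((i : ℝ) + 1) - c)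
    (ht : ∀ i, coeff i Qt ≠ 0 → y * ((i : ℝ) + 1) + c ≤ (coeff i Qt).order)
    (ht0 : ∃ i, coeff i Qt ≠ 0 ∧ (coeff i Qt).order = y * ((i : ℝ) + 1) + c) : False := by
  have hCH : (HahnSeries.C H : HahnSeries ℝ k) ≠ 0 := HahnSeries.C_ne_zero hH
  refine npK (sD H Q Qt x y c) ?_ ?_ ?_ ?_ ?_ ?_ ?_ (m + 1) (sM μ x y) (sM_zero μ hμ x y)
    (sM_mem μ hxy.le) (sM_coeff μ hxy) (sD_ann H Q Qt x y c m μ h) (sD_ann' H Q Qt x y c m μ h')
  · rw [sD_h1]
    exact tpC_mem (by linarith) _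
  · rw [sD_h2]
    exact tpC_mem (by linarith) _
  · rw [sD_h1, sD_h2, order_tp_mul _ hCH, order_tp_mul _ hCH, order_C']
    linarith
  · intro i
    rw [sD_Q, tp_mul_mem]
    by_cases hi : coeff i Q = 0
    · exact Or.inl hi
    · right
      have := hn i hi
      linarith
  · intro i
    rw [sD_Qt, tp_mul_mem]
    by_cases hi : coeff i Qt = 0
    · exact Or.inl hi
    · right
      have := ht i hi
      linarith
  · obtain ⟨i, hi, hi'⟩ := hn0
    refine ⟨i, ?_⟩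
    rw [sD_Q]
    apply coeff0_of_order (mul_ne_zero (tp_ne_zero _) hi)
    rw [order_tp_mul _ hi, hi']
    ring
  · obtain ⟨i, hi, hi'⟩ := ht0
    refine ⟨i, ?_⟩
    rw [sD_Qt]
    apply coeff0_of_order (mul_ne_zero (tp_ne_zero _) hi)
    rw [order_tp_mul _ hi, hi']
    ring

include hH hμ in
/-- the second alternative of `cases_att` -/
private theorem altB
    (h : Ann (m + 1) (fun i => HahnSeries.C (μ i)) ⟨HahnSeries.C H, HahnSeries.C H, Q, Qt⟩)
    (x y : ℝ) (hy : y ≤ -x)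
    (hn : ∀ i, coeff i Q ≠ 0 → x * ((i : ℝ) + 2) ≤ (coeff i Q).order)
    (hn0 : ∃ i, coeff i Q ≠ 0 ∧ (coeff i Q).order = x * ((i : ℝ) + 2))
    (j : ℕ) (hj : coeff j Qt ≠ 0) (hmj : m ≤ j) (hj' : (coeff j Qt).order < y * ((j : ℝ) + 1) - x)
    (hl : ∀ l, coeff l Qt ≠ 0 → l < j → y * ((l : ℝ) + 1) - x ≤ (coeff l Qt).order) : False := by
  have hCH : (HahnSeries.C H : HahnSeries ℝ k) ≠ 0 := HahnSeries.C_ne_zero hH
  refine iib (sD H Q Qt x y (-x)) j m hmj ?_ ?_ ?_ (sM μ x y) (sM_zero μ hμ x y)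
    (sM_mem μ (by linarith)) ?_ ?_ ?_ ?_ (sD_ann H Q Qt x y (-x) m μ h)
  · rw [sD_h1]
    exact tpC_mem (by linarith) _
  · rw [sD_h1]
    apply coeff0_of_order (mul_ne_zero (tp_ne_zero _) hCH)
    rw [order_tp_mul _ hCH, order_C']
    ring
  · rw [sD_h2]
    exact tpC_mem (by linarith) _
  · intro i
    rw [sD_Q, tp_mul_mem]
    by_cases hi : coeff i Q = 0
    · exact Or.inl hi
    · right
      have := hn i hi
      linarith
  · obtain ⟨i, hi, hi'⟩ := hn0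
    refine ⟨i, ?_⟩
    rw [sD_Q]
    apply coeff0_of_order (mul_ne_zero (tp_ne_zero _) hi)
    rw [order_tp_mul _ hi, hi']
    ring
  · intro l hlj
    rw [sD_Qt, tp_mul_mem]
    by_cases hi : coeff l Qt = 0
    · exact Or.inl hi
    · right
      have := hl l hi hlj
      linarith
  · rw [sD_Qt, tp_mul_mem]
    push Not
    exact ⟨hj, by linarith⟩

include hμ in
/-- the second alternative of `cases_natt` -/
private theorem altA
    (h : Ann (m + 1) (fun i => HahnSeries.C (μ i)) ⟨HahnSeries.C H, HahnSeries.C H, Q, Qt⟩)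
    (x y c : ℝ) (hx : x ≤ -c) (hy : y ≤ c)
    (i : ℕ) (hi : coeff i Q ≠ 0) (hmi : m ≤ i) (hi' : (coeff i Q).order < x * ((i : ℝ) + 1) - c)
    (hli : ∀ l, coeff l Q ≠ 0 → l < i → x * ((l : ℝ) + 1) - c ≤ (coeff l Q).order)
    (j : ℕ) (hj : coeff j Qt ≠ 0) (hmj : m ≤ j) (hj' : (coeff j Qt).order < y * ((j : ℝ) + 1) + c)
    (hl : ∀ l, coeff l Qt ≠ 0 → l < j → y * ((l : ℝ) + 1) + c ≤ (coeff l Qt).order) : False := by
  refine iia (sD H Q Qt x y c) i j m hmi hmj ?_ ?_ (sM μ x y) (sM_zero μ hμ x y)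
    (sM_mem μ (by linarith)) ?_ ?_ ?_ ?_ (sD_ann H Q Qt x y c m μ h)
  · rw [sD_h1]
    exact tpC_mem (by linarith) _
  · rw [sD_h2]
    exact tpC_mem (by linarith) _
  · intro l hlj
    rw [sD_Q, tp_mul_mem]
    by_cases hi : coeff l Q = 0
    · exact Or.inl hi
    · right
      have := hli l hi hlj
      linarith
  · rw [sD_Q, tp_mul_mem]
    push Not
    exact ⟨hi, by linarith⟩
  · intro l hlj
    rw [sD_Qt, tp_mul_mem]
    by_cases hi : coeff l Qt = 0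
    · exact Or.inl hi
    · right
      have := hl l hi hlj
      linarith
  · rw [sD_Qt, tp_mul_mem]
    push Not
    exact ⟨hj, by linarith⟩

end fin

theorem coreH {k : Type} [Field k] [CharZero k] (H : k) (hH : H ≠ 0) (m : ℕ) (hm : 1 ≤ m)
    (μ : ℕ → k) (hμ : μ 0 = 1) (Q Qt : PowerSeries (HahnSeries ℝ k))
    (h : Ann (m + 1) (fun i => HahnSeries.C (μ i)) ⟨HahnSeries.C H, HahnSeries.C H, Q, Qt⟩)
    (h' : Ann (m + 1) (fun i => HahnSeries.C (μ i)) ⟨HahnSeries.C H, HahnSeries.C H, Qt, Q⟩) :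
    ¬ (coeff 0 Q * coeff 0 Qt ≠ 0 ∧ (coeff 0 Q * coeff 0 Qt).order < 0) := by
  rintro ⟨hne, hneg⟩
  have hQ0 : coeff 0 Q ≠ 0 := left_ne_zero_of_mul hne
  have hQt0 : coeff 0 Qt ≠ 0 := right_ne_zero_of_mul hne
  rw [HahnSeries.order_mul hQ0 hQt0] at hneg
  let I : Set ℕ := {i | coeff i Q ≠ 0}
  let J : Set ℕ := {i | coeff i Qt ≠ 0}
  let n : ℕ → ℝ := fun i => (coeff i Q).order
  let nt : ℕ → ℝ := fun i => (coeff i Qt).order
  have hI : (0 : ℕ) ∈ I := hQ0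
  have hJ : (0 : ℕ) ∈ J := hQt0
  have hn : n 0 + nt 0 < 0 := hneg
  by_cases hA : ∃ i ∈ I, ∀ i' ∈ I, n i / ((i : ℝ) + 2) ≤ n i' / ((i' : ℝ) + 2)
  · obtain ⟨i, hi, hmin⟩ := hA
    rcases cases_att I J n nt hI hJ hn m hm i hi hmin with
      ⟨x, y, c, hx, hy, hxy, a1, ⟨i1, a2, a3⟩, b1, ⟨j1, b2, b3⟩⟩ |
      ⟨x, y, hy, a1, ⟨i1, a2, a3⟩, j, hj, hmj, hj', hl⟩
    · exact altN H hH m μ hμ Q Qt h h' x y c hx hy hxy a1 ⟨i1, a2, a3⟩ b1 ⟨j1, b2, b3⟩
    · exact altB H hH m μ hμ Q Qt h x y hy a1 ⟨i1, a2, a3⟩ j hj hmj hj' hl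
  · by_cases hB : ∃ i ∈ J, ∀ i' ∈ J, nt i / ((i : ℝ) + 2) ≤ nt i' / ((i' : ℝ) + 2)
    · obtain ⟨i, hi, hmin⟩ := hB
      rcases cases_att J I nt n hJ hI (by linarith) m hm i hi hmin with
        ⟨x, y, c, hx, hy, hxy, a1, ⟨i1, a2, a3⟩, b1, ⟨j1, b2, b3⟩⟩ |
        ⟨x, y, hy, a1, ⟨i1, a2, a3⟩, j, hj, hmj, hj', hl⟩
      · exact altN H hH m μ hμ Qt Q h' h x y c hx hy hxy a1 ⟨i1, a2, a3⟩ b1 ⟨j1, b2, b3⟩
      · exact altB H hH m μ hμ Qt Q h' x y hy a1 ⟨i1, a2, a3⟩ j hj hmj hj' hl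
    · push Not at hA hB
      rcases cases_natt I J n nt hI hJ hn m hm hA hB with
        ⟨x, y, c, hx, hy, hxy, a1, ⟨i1, a2, a3⟩, b1, ⟨j1, b2, b3⟩⟩ |
        ⟨x, y, c, hx, hy, ⟨i, hi, hmi, hi', hli⟩, j, hj, hmj, hj', hl⟩
      · exact altN H hH m μ hμ Q Qt h h' x y c hx hy hxy a1 ⟨i1, a2, a3⟩ b1 ⟨j1, b2, b3⟩
      · exact altA H m μ hμ Q Qt h x y c hx hy i hi hmi hi' hli j hj hmj hj' hl

end Pool.Agent.Work.MP_abe657_gt.CM
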