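import Mathlib

/-!
# MP_abe657_gt, part CM (surfaces of finite type with constant mean curvature): definitions

FIXED file. `P2 R` = power series in two variables `z` (inner) and `w` (outer);
`coeff i (coeff j f)` is the coefficient of `z^i w^j`.
-/

set_option autoImplicit false

namespace Pool.Agent.Work.MP_abe657_gt.CM

open PowerSeries

/-- every positive integer is invertible in `R` -/
class IntInv (R : Type) [CommRing R] : Prop where
  isUnit_succ : ∀ n : ℕ, IsUnit ((n : R) + 1)

/-- power series in two variables over `R`: the outer variable is `w`, the inner one is `z` -/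
abbrev P2 (R : Type) [CommRing R] : Type := PowerSeries (PowerSeries R)

section ring

variable {R : Type} [CommRing R]

/-- a power series in `z`, as a power series in `z, w` -/
noncomputable def zs (q : PowerSeries R) : P2 R := PowerSeries.C q

/-- a power series in `w`, as a power series in `z, w` -/
noncomputable def ws (q : PowerSeries R) : P2 R := PowerSeries.map PowerSeries.C q

/-- a constant -/
noncomputable def cc (c : R) : P2 R := PowerSeries.C (PowerSeries.C c)

/-- `d/dw` -/
noncomputable def dW (f : P2 R) : P2 R := d⁄dX (PowerSeries R) f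

/-- `d/dz` (coefficientwise) -/
noncomputable def dZ (f : P2 R) : P2 R := PowerSeries.mk fun j => d⁄dX R (coeff j f)

/-- exchange of the variables `z` and `w` -/
noncomputable def sw (f : P2 R) : P2 R :=
  PowerSeries.mk fun j => PowerSeries.mk fun i => coeff j (coeff i f)

variable (R) in
/-- the data of a surface of constant mean curvature in null coordinates: the mean curvature
`h1 = h2`, and the two components `Q(z)`, `Qt(w)` of the Hopf differential. (Two independent
constants `h1, h2` are useful for scaling.) -/
structure Dat where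
  /-- the first constant -/
  h1 : R
  /-- the second constant -/
  h2 : R
  /-- a function of `z` -/
  Q : PowerSeries R
  /-- a function of `w` -/
  Qt : PowerSeries R

namespace Dat

variable {S : Type} [CommRing S]

/-- image under a ring homomorphism -/
noncomputable def map (f : R →+* S) (D : Dat R) : Dat S :=
  ⟨f D.h1, f D.h2, PowerSeries.map f D.Q, PowerSeries.map f D.Qt⟩

/-- exchange of `z` and `w` -/
def swap (D : Dat R) : Dat R := ⟨D.h2, D.h1, D.Qt, D.Q⟩

/-- scaled data (`m` stands for `1 / l`) -/
noncomputable def scale (s t l m : R) (D : Dat R) : Dat R :=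
  ⟨m * s * D.h1, l * t * D.h2, C (l * s) * rescale s D.Q, C (m * t) * rescale t D.Qt⟩

end Dat

/-- the conformal factor `F`, its inverse `G` and its logarithmic `w`-derivative `r`, normalized by
`F = 1` on both axes: `(log F)_zw = - h1 h2 F + Q Qt / F` -/
structure IsBase (D : Dat R) (F G r : P2 R) : Prop where
  F_w : dW F = r * F
  G_w : dW G = -(r * G)
  r_z : dZ r = -(cc (D.h1 * D.h2) * F) + zs D.Q * ws D.Qt * G
  F0 : coeff 0 F = 1
  G0 : coeff 0 G = 1
  r0 : ∀ j, coeff 0 (coeff j r) = 0

/-- one component `(e1, e2, n)` of the moving frame `(X_z, X_w, normal)`, with initial values `a` at the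
origin; the `z`-equations are required on the axis `w = 0` only -/
structure IsVec (D : Dat R) (F G r : P2 R) (a : Fin 3 → R) (e1 e2 n : P2 R) : Prop where
  e1_w : dW e1 = cc D.h2 * (F * n)
  e2_w : dW e2 = r * e2 + ws D.Qt * n
  n_w : dW n = -(ws D.Qt * G * e1) - cc D.h2 * e2
  e1_z : d⁄dX R (coeff 0 e1) = D.Q * coeff 0 n
  e2_z : d⁄dX R (coeff 0 e2) = C D.h1 * coeff 0 n
  n_z : d⁄dX R (coeff 0 n) = -(C D.h1 * coeff 0 e1) - D.Q * coeff 0 e2
  i1 : coeff 0 (coeff 0 e1) = a 0
  i2 : coeff 0 (coeff 0 e2) = a 1
  i3 : coeff 0 (coeff 0 n) = a 2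

/-- the operator `L f = (1/F) f_zw` (half the divergence of the gradient) -/
noncomputable def Lop (G f : P2 R) : P2 R := G * dZ (dW f)

/-- the polynomial `∑ μ_i L^(k-i)` of the operator `L`, applied to `f` -/
noncomputable def PL (k : ℕ) (μ : ℕ → R) (G f : P2 R) : P2 R :=
  ∑ i ∈ Finset.range (k + 1), cc (μ i) * (Lop G)^[k - i] f

/-- the polynomial of `L` annihilates the normal: all three components (in the basis given by the
frame at the origin) of the normal of the surface with data `D` satisfy `PL k μ = 0` -/
def Ann (k : ℕ) (μ : ℕ → R) (D : Dat R) : Prop :=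
  ∀ (F G r e1 e2 n : P2 R) (c : Fin 3), IsBase D F G r →
    IsVec D F G r (Pi.single c 1) e1 e2 n → PL k μ G n = 0

end ring

end Pool.Agent.Work.MP_abe657_gt.CM
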