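import Pool.Agent.Work.MP_abe657_gt.CM.ExUniq

/-!
# MP_abe657_gt, part CM, module Dich

Size S-M. If `Q Qt / F^2` is a constant `c` then `c = 0` or `c = H^2`.

Proof. `coeff 0` of the hypothesis (`G0`): `D.Q * C (coeff 0 D.Qt) = C c`, and `coeff 0` (in `z`) of all coefficients of `w^j`, using that
`G = 1` on the axis `z = 0` (from `G_w`, `r0`: `coeff 0 (coeff j G) = 0` for `j ≥ 1`, induction): `coeff 0 D.Q * coeff j D.Qt = 0` for
`j ≥ 1` and `= c` for `j = 0`. If `c ≠ 0`: `Q` and `Qt` are constants with product `c`, so `G^2 = 1` and `G = 1` (`coeff 0 G = 1`,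
`P2 ℂ` is a domain, `G = -1` is excluded), `F = 1` (`base_FG`), `r = 0` (`F_w`: `r * F = dW 1 = 0`), and `r_z` reads
`0 = -cc (H * H) + cc c`.
-/

set_option autoImplicit false

namespace Pool.Agent.Work.MP_abe657_gt.CM

open PowerSeries

/-- restriction to the axis `z = 0` -/
private noncomputable def axW : P2 ℂ →+* PowerSeries ℂ :=
  PowerSeries.map (PowerSeries.constantCoeff (R := ℂ))

private theorem coeff_axW (f : P2 ℂ) (j : ℕ) : coeff j (axW f) = coeff 0 (coeff j f) := by
  rw [axW, coeff_map, coeff_zero_eq_constantCoeff]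

private theorem axW_dW (f : P2 ℂ) : axW (dW f) = d⁄dX ℂ (axW f) := by
  ext j
  rw [coeff_axW, coeff2_dW, coeff_derivative, coeff_axW]

private theorem axW_zs (q : PowerSeries ℂ) : axW (zs q) = C (coeff 0 q) := by
  ext j
  rw [coeff_axW, coeff_zs, coeff_C]
  split_ifs
  · rfl
  · rw [map_zero]

private theorem axW_ws (q : PowerSeries ℂ) : axW (ws q) = q := by
  ext j
  rw [coeff_axW, coeff2_ws, if_pos rfl]

theorem dich {H c : ℂ} {Q Qt : PowerSeries ℂ} {F G r : P2 ℂ} (hB : IsBase ⟨H, H, Q, Qt⟩ F G r)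
    (h : zs Q * ws Qt * G ^ 2 = cc c) : c = 0 ∨ c = H ^ 2 := by
  by_cases hc : c = 0
  · exact Or.inl hc
  right
  have hr : axW r = 0 := by
    ext j
    rw [coeff_axW, hB.r0, map_zero]
  have hG : axW G = 1 := by
    refine ps_eq_of_derivative ?_ ?_
    · rw [← axW_dW, hB.G_w, map_neg, map_mul, hr, zero_mul, neg_zero]
      have h1 : d⁄dX ℂ (1 : PowerSeries ℂ) = 0 := by
        have h2 := leib1 (1 : PowerSeries ℂ) 1
        rw [mul_one, one_mul] at h2
        exact left_eq_add.mp h2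
      rw [h1]
    · rw [coeff_axW, hB.G0]
  have h1 : C (coeff 0 Q) * Qt = C c := by
    have h2 := congrArg axW h
    rw [map_mul, map_mul, map_pow, hG, one_pow, mul_one, axW_zs, axW_ws] at h2
    rw [h2, ← zs_C, axW_zs, coeff_C, if_pos rfl]
  have h2 : Q * C (coeff 0 Qt) = C c := by
    have h3 := congrArg (coeff 0) h
    rw [coeff0_mul, coeff0_mul, coeff0_zs, coeff_ws, pow_two, coeff0_mul, hB.G0, mul_one,
      mul_one, ← zs_C, coeff0_zs] at h3
    exact h3
  have h3 : coeff 0 Q * coeff 0 Qt = c := by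
    have h4 := congrArg (coeff 0) h1
    rw [coeff_C_mul, coeff_C, if_pos rfl] at h4
    exact h4
  have hQ0 : coeff 0 Q ≠ 0 := by
    intro h0
    rw [h0, zero_mul] at h3
    exact hc h3.symm
  have hQt0 : coeff 0 Qt ≠ 0 := by
    intro h0
    rw [h0, mul_zero] at h3
    exact hc h3.symm
  have hQ : Q = C (coeff 0 Q) := by
    have h4 : Q * C (coeff 0 Qt) = C (coeff 0 Q) * C (coeff 0 Qt) := by
      rw [h2, ← map_mul, h3]
    have h5 : (C (coeff 0 Qt) : PowerSeries ℂ) ≠ 0 := by
      intro h0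
      apply hQt0
      have := congrArg (coeff 0) h0
      rwa [coeff_C, if_pos rfl, map_zero] at this
    exact mul_right_cancel₀ h5 h4
  have hQt : Qt = C (coeff 0 Qt) := by
    have h4 : C (coeff 0 Q) * Qt = C (coeff 0 Q) * C (coeff 0 Qt) := by
      rw [h1, ← map_mul, h3]
    have h5 : (C (coeff 0 Q) : PowerSeries ℂ) ≠ 0 := by
      intro h0
      apply hQ0
      have := congrArg (coeff 0) h0
      rwa [coeff_C, if_pos rfl, map_zero] at this
    exact mul_left_cancel₀ h5 h4
  have hQQ : zs Q * ws Qt = cc c := by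
    rw [hQ, hQt, zs_C, ws_C, ← cc_mul, h3]
  rw [hQQ] at h
  have hcc : (cc c : P2 ℂ) ≠ 0 := by
    intro h0
    apply hc
    have h4 := congrArg (coeff 0) h0
    rw [← zs_C, coeff0_zs, map_zero] at h4
    have := congrArg (coeff 0) h4
    rwa [coeff_C, if_pos rfl, map_zero] at this
  have hG2 : G ^ 2 = 1 := by
    have h4 : cc c * G ^ 2 = cc c * 1 := by rw [h, mul_one]
    exact mul_left_cancel₀ hcc h4
  have hG1 : G = 1 := by
    have h4 : (G - 1) * (G + 1) = 0 := by
      linear_combination hG2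
    rcases mul_eq_zero.mp h4 with h5 | h5
    · exact sub_eq_zero.mp h5
    · exfalso
      have h6 := congrArg (coeff 0) h5
      rw [map_add, hB.G0, coeff0_one, map_zero] at h6
      have h7 := congrArg (coeff 0) h6
      rw [map_add, map_zero] at h7
      have h8 : coeff 0 (1 : PowerSeries ℂ) = 1 := by simp
      rw [h8] at h7
      norm_num at h7
  have hF1 : F = 1 := by
    have h4 := base_FG hB
    rwa [hG1, mul_one] at h4
  have hr1 : r = 0 := by
    have h4 := hB.F_w
    rw [hF1, dW_one, mul_one] at h4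
    exact h4.symm
  have h4 := hB.r_z
  rw [hr1, dZ_zero, hF1, hG1, mul_one, mul_one] at h4
  have h5 : zs Q * ws Qt = cc c := hQQ
  have h6 : (0 : P2 ℂ) = -(cc (H * H)) + zs Q * ws Qt := h4
  rw [h5] at h6
  have h7 : (cc (H * H) : P2 ℂ) = cc c := by linear_combination h6
  have h8 := congrArg (fun f => coeff 0 (coeff 0 f)) h7
  simp only [cc, coeff_C, if_true] at h8
  rw [← h8, pow_two]

end Pool.Agent.Work.MP_abe657_gt.CM
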