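import Pool.Agent.Work.MP_abe657_gt.CM.Causal

/-!
# MP_abe657_gt, part CM, module ExUniq

Size M. Existence and uniqueness of the base functions `F, G, r` and of the frame components.

Proof. Choose `I : P2 R → P2 R` with `dZ (I f) = f` and `coeff 0 (coeff j (I f)) = 0` for all `j` (`exists_integralZ`);
`coeff j (I f)` depends only on `coeff j f` (`ps_eq_of_derivative`, `coeff_dZ`). With `A = PowerSeries R`,
`ι = Fin 2`, `T Y = -(cc (h1 h2) * Y 0) + zs Q * ws Qt * Y 1`, apply `causal_exists` and `causal_unique` to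
`Φ Y = ![I (T Y) * Y 0, -(I (T Y) * Y 1)]`, `y0 = 1`: put `F = Y 0`, `G = Y 1`, `r = I (T Y)`. In `causal` form:
`coeff j` of a product only involves coefficients of degree `≤ j` of the factors (`coeff_mul`). For uniqueness:
`r = I (T ![F, G])` for every solution by `eq_of_dZ`.
Frame: first solve on the axis: `A = R`, `ι = Fin 3`, `Φ Y = ![Q * Y 2, C h1 * Y 2, -(C h1 * Y 0) - Q * Y 1]`,
`y0 = a`; then `A = PowerSeries R`, `ι = Fin 3`,
`Φ Y = ![cc h2 * (F * Y 2), r * Y 1 + ws Qt * Y 2, -(ws Qt * G * Y 0) - cc h2 * Y 1]` with initial values the solution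
on the axis. Uniqueness in the same two steps. (`dW f` is by definition `d⁄dX (PowerSeries R) f`.)
`base_FG`: `dW (F * G) = 0` (`dW_mul`), `coeff 0 (F * G) = 1`, so `F * G = zs 1 = 1` (`eq_zs_of_dW`, `coeff0_mul`).
-/

set_option autoImplicit false

namespace Pool.Agent.Work.MP_abe657_gt.CM

open PowerSeries

variable {R : Type} [CommRing R] [IntInv R]

section agr

variable {A : Type} [CommRing A]

/-- equal coefficients up to degree `j` -/
private def Agr (j : ℕ) (f g : PowerSeries A) : Prop := ∀ l ≤ j, coeff l f = coeff l g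

private theorem Agr.rfl' (j : ℕ) (f : PowerSeries A) : Agr j f f := fun _ _ => rfl

private theorem Agr.mul {j : ℕ} {f g f' g' : PowerSeries A} (h : Agr j f f') (h' : Agr j g g') :
    Agr j (f * g) (f' * g') := by
  intro l hl
  rw [coeff_mul, coeff_mul]
  refine Finset.sum_congr rfl fun p hp => ?_
  have hp' := Finset.HasAntidiagonal.mem_antidiagonal.1 hp
  rw [h p.1 (by omega), h' p.2 (by omega)]

private theorem Agr.add {j : ℕ} {f g f' g' : PowerSeries A} (h : Agr j f f') (h' : Agr j g g') :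
    Agr j (f + g) (f' + g') := by
  intro l hl
  rw [map_add, map_add, h l hl, h' l hl]

private theorem Agr.neg {j : ℕ} {f f' : PowerSeries A} (h : Agr j f f') : Agr j (-f) (-f') := by
  intro l hl
  rw [map_neg, map_neg, h l hl]

private theorem Agr.sub {j : ℕ} {f g f' g' : PowerSeries A} (h : Agr j f f') (h' : Agr j g g') :
    Agr j (f - g) (f' - g') := by
  intro l hl
  rw [map_sub, map_sub, h l hl, h' l hl]

end agr

private theorem agr_I {I : P2 R → P2 R} (hI : ∀ f, dZ (I f) = f ∧ ∀ j, coeff 0 (coeff j (I f)) = 0)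
    {j : ℕ} {f g : P2 R} (h : Agr j f g) : Agr j (I f) (I g) := by
  intro l hl
  refine ps_eq_of_derivative ?_ ?_
  · rw [← coeff_dZ, ← coeff_dZ, (hI f).1, (hI g).1, h l hl]
  · rw [(hI f).2, (hI g).2]

/-- the right hand side -/
private noncomputable def TT (D : Dat R) (Y : Fin 2 → P2 R) : P2 R :=
  -(cc (D.h1 * D.h2) * Y 0) + zs D.Q * ws D.Qt * Y 1

private noncomputable def PhB (D : Dat R) (I : P2 R → P2 R) (Y : Fin 2 → P2 R) : Fin 2 → P2 R :=
  ![I (TT D Y) * Y 0, -(I (TT D Y) * Y 1)]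

private theorem phB_causal (D : Dat R) {I : P2 R → P2 R}
    (hI : ∀ f, dZ (I f) = f ∧ ∀ j, coeff 0 (coeff j (I f)) = 0) (Y Z : Fin 2 → P2 R) (j : ℕ)
    (h : ∀ i, ∀ l ≤ j, coeff l (Y i) = coeff l (Z i)) (i : Fin 2) :
    coeff j (PhB D I Y i) = coeff j (PhB D I Z i) := by
  have h' : ∀ i, Agr j (Y i) (Z i) := h
  have hT : Agr j (TT D Y) (TT D Z) :=
    (((Agr.rfl' j _).mul (h' 0)).neg).add ((Agr.rfl' j _).mul (h' 1))
  have hIT := agr_I hI hT
  fin_cases i
  · exact (hIT.mul (h' 0)) j le_rfl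
  · exact (hIT.mul (h' 1)).neg j le_rfl

private theorem base_ode {D : Dat R} {I : P2 R → P2 R}
    (hI : ∀ f, dZ (I f) = f ∧ ∀ j, coeff 0 (coeff j (I f)) = 0) {F G r : P2 R}
    (h : IsBase D F G r) (i : Fin 2) :
    d⁄dX (PowerSeries R) ((![F, G] : Fin 2 → P2 R) i) = PhB D I ![F, G] i := by
  have hr : I (TT D ![F, G]) = r := by
    refine eq_of_dZ ?_ fun j => ?_
    · rw [(hI _).1, h.r_z]
      rfl
    · rw [(hI _).2, h.r0]
  fin_cases i
  · show dW F = I (TT D ![F, G]) * F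
    rw [hr, h.F_w]
  · show dW G = -(I (TT D ![F, G]) * G)
    rw [hr, h.G_w]

/-- the equations on the axis -/
private noncomputable def PhX (D : Dat R) (Y : Fin 3 → PowerSeries R) : Fin 3 → PowerSeries R :=
  ![D.Q * Y 2, C D.h1 * Y 2, -(C D.h1 * Y 0) - D.Q * Y 1]

private theorem phX_causal (D : Dat R) (Y Z : Fin 3 → PowerSeries R) (j : ℕ)
    (h : ∀ i, ∀ l ≤ j, coeff l (Y i) = coeff l (Z i)) (i : Fin 3) :
    coeff j (PhX D Y i) = coeff j (PhX D Z i) := by
  have h' : ∀ i, Agr j (Y i) (Z i) := h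
  fin_cases i
  · exact ((Agr.rfl' j _).mul (h' 2)) j le_rfl
  · exact ((Agr.rfl' j _).mul (h' 2)) j le_rfl
  · exact ((((Agr.rfl' j _).mul (h' 0)).neg).sub ((Agr.rfl' j _).mul (h' 1))) j le_rfl

private noncomputable def PhV (D : Dat R) (F G r : P2 R) (Y : Fin 3 → P2 R) : Fin 3 → P2 R :=
  ![cc D.h2 * (F * Y 2), r * Y 1 + ws D.Qt * Y 2, -(ws D.Qt * G * Y 0) - cc D.h2 * Y 1]

private theorem phV_causal (D : Dat R) (F G r : P2 R) (Y Z : Fin 3 → P2 R) (j : ℕ)
    (h : ∀ i, ∀ l ≤ j, coeff l (Y i) = coeff l (Z i)) (i : Fin 3) :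
    coeff j (PhV D F G r Y i) = coeff j (PhV D F G r Z i) := by
  have h' : ∀ i, Agr j (Y i) (Z i) := h
  fin_cases i
  · exact ((Agr.rfl' j _).mul ((Agr.rfl' j _).mul (h' 2))) j le_rfl
  · exact (((Agr.rfl' j _).mul (h' 1)).add ((Agr.rfl' j _).mul (h' 2))) j le_rfl
  · exact ((((Agr.rfl' j _).mul (h' 0)).neg).sub ((Agr.rfl' j _).mul (h' 1))) j le_rfl

theorem base_exists (D : Dat R) : ∃ F G r : P2 R, IsBase D F G r := by
  choose I hI using exists_integralZ (R := R)
  obtain ⟨Y, h0, hY⟩ := causal_exists (A := PowerSeries R) (ι := Fin 2) (PhB D I)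
    (phB_causal D hI) (fun _ => 1)
  refine ⟨Y 0, Y 1, I (TT D Y), ?_, ?_, ?_, ?_, ?_, ?_⟩
  · exact hY 0
  · exact hY 1
  · exact (hI _).1
  · exact h0 0
  · exact h0 1
  · exact (hI _).2

theorem vec_exists (D : Dat R) (F G r : P2 R) (a : Fin 3 → R) :
    ∃ e1 e2 n : P2 R, IsVec D F G r a e1 e2 n := by
  obtain ⟨Y0, h0, hY0⟩ := causal_exists (A := R) (ι := Fin 3) (PhX D) (phX_causal D) a
  obtain ⟨Y, h1, hY⟩ := causal_exists (A := PowerSeries R) (ι := Fin 3) (PhV D F G r)
    (phV_causal D F G r) Y0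
  refine ⟨Y 0, Y 1, Y 2, ?_, ?_, ?_, ?_, ?_, ?_, ?_, ?_, ?_⟩
  · exact hY 0
  · exact hY 1
  · exact hY 2
  · rw [h1, h1]
    exact hY0 0
  · rw [h1, h1]
    exact hY0 1
  · rw [h1, h1, h1]
    exact hY0 2
  · rw [h1]
    exact h0 0
  · rw [h1]
    exact h0 1
  · rw [h1]
    exact h0 2

theorem base_unique {D : Dat R} {F G r F' G' r' : P2 R} (h : IsBase D F G r) (h' : IsBase D F' G' r') :
    F = F' ∧ G = G' ∧ r = r' := by
  choose I hI using exists_integralZ (R := R)
  have h1 : (![F, G] : Fin 2 → P2 R) = ![F', G'] := by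
    refine causal_unique (A := PowerSeries R) (ι := Fin 2) (PhB D I) (phB_causal D hI) _ _ ?_
      (base_ode hI h) (base_ode hI h')
    intro i
    fin_cases i
    · exact h.F0.trans h'.F0.symm
    · exact h.G0.trans h'.G0.symm
  have hF : F = F' := congrFun h1 0
  have hG : G = G' := congrFun h1 1
  refine ⟨hF, hG, ?_⟩
  refine eq_of_dZ ?_ fun j => ?_
  · rw [h.r_z, h'.r_z, hF, hG]
  · rw [h.r0, h'.r0]

theorem vec_unique {D : Dat R} {F G r : P2 R} {a : Fin 3 → R} {e1 e2 n e1' e2' n' : P2 R}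
    (h : IsVec D F G r a e1 e2 n) (h' : IsVec D F G r a e1' e2' n') : e1 = e1' ∧ e2 = e2' ∧ n = n' := by
  have h1 : (![coeff 0 e1, coeff 0 e2, coeff 0 n] : Fin 3 → PowerSeries R) =
      ![coeff 0 e1', coeff 0 e2', coeff 0 n'] := by
    refine causal_unique (A := R) (ι := Fin 3) (PhX D) (phX_causal D) _ _ ?_ ?_ ?_
    · intro i
      fin_cases i
      · exact h.i1.trans h'.i1.symm
      · exact h.i2.trans h'.i2.symm
      · exact h.i3.trans h'.i3.symm
    · intro i
      fin_cases i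
      · exact h.e1_z
      · exact h.e2_z
      · exact h.n_z
    · intro i
      fin_cases i
      · exact h'.e1_z
      · exact h'.e2_z
      · exact h'.n_z
  have h2 : (![e1, e2, n] : Fin 3 → P2 R) = ![e1', e2', n'] := by
    refine causal_unique (A := PowerSeries R) (ι := Fin 3) (PhV D F G r)
      (phV_causal D F G r) _ _ ?_ ?_ ?_
    · intro i
      fin_cases i
      · exact congrFun h1 0
      · exact congrFun h1 1
      · exact congrFun h1 2
    · intro i
      fin_cases i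
      · exact h.e1_w
      · exact h.e2_w
      · exact h.n_w
    · intro i
      fin_cases i
      · exact h'.e1_w
      · exact h'.e2_w
      · exact h'.n_w
  exact ⟨congrFun h2 0, congrFun h2 1, congrFun h2 2⟩

theorem base_FG {D : Dat R} {F G r : P2 R} (h : IsBase D F G r) : F * G = 1 := by
  have h1 : dW (F * G) = 0 := by
    rw [dW_mul, h.F_w, h.G_w]
    ring
  rw [eq_zs_of_dW h1, coeff0_mul, h.F0, h.G0, one_mul, zs_one]

end Pool.Agent.Work.MP_abe657_gt.CM
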