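import Pool.Agent.Work.MP_abe657_gt.CM.ExUniq

/-!
# MP_abe657_gt, part CM, module Exp0

Size M. The explicit solution when `h2 = 0` (a minimal surface).

Proof. Choose `a, b` by `exists_integral` with `a(0) = b(0) = 0`, `a' = Q`, `b' = -Qt/2`. Put `u = 1 - zs a * ws b`. `u` is a unit
(its coefficient of `w^0` is `1`, since `b(0) = 0`; `PowerSeries.isUnit_iff_constantCoeff`); let `v` be its inverse.
`IsBase D (u^2) (v^2) (-(2 * zs a * dW (ws b) * v))`: `dW u = -(zs a * ws b')`, `dZ u = -(zs a' * ws b)`,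
`dW v = -v^2 * dW u`, `dZ v = -v^2 * dZ u` (differentiate `u v = 1`). `F_w`, `G_w`: direct. `r_z`:
`dZ (zs a * v) = zs a' * v + zs a * v^2 * zs a' * ws b = zs a' * v^2 * (u + zs a * ws b) = zs a' * v^2`, so
`dZ r = -2 * zs a' * ws b' * v^2 = zs Q * ws Qt * G`. `F0, G0, r0`: `b(0) = 0`, `a(0) = 0`. By `base_unique`, `G = v^2`, so
`u^2 * G = 1`. Frame: `e1_w` gives `dW e1 = 0`, `e1 = zs (coeff 0 e1)` (`eq_zs_of_dW`), and
`dW n = -(ws Qt * G * e1) = 2 * ws b' * v^2 * zs (coeff 0 e1)`. As `dW (ws b * v) = ws b' * v^2 * (u + zs a * ws b) = ws b' * v^2`,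
`dW (n - 2 * zs (coeff 0 e1) * ws b * v) = 0`, with value `coeff 0 n` on the axis (`b(0) = 0`). So
`n = zs (coeff 0 n) + 2 * zs (coeff 0 e1) * ws b * v`; multiply by `u`.
-/

set_option autoImplicit false

namespace Pool.Agent.Work.MP_abe657_gt.CM

open PowerSeries

theorem exp0 {k : Type} [Field k] [CharZero k] {D : Dat k} {F G r : P2 k} (h2 : D.h2 = 0)
    (hB : IsBase D F G r) :
    ∃ a b : PowerSeries k, d⁄dX k a = D.Q ∧ C 2 * d⁄dX k b = -D.Qt ∧
      (1 - zs a * ws b) ^ 2 * G = 1 ∧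
      ∀ (α : Fin 3 → k) (e1 e2 n : P2 k), IsVec D F G r α e1 e2 n →
        (1 - zs a * ws b) * (n - zs (coeff 0 n)) = cc 2 * zs (coeff 0 e1) * ws b := by
  obtain ⟨a, ha, ha0⟩ := exists_integral D.Q (0 : k)
  obtain ⟨b, hb, hb0⟩ := exists_integral (C (-(1 / 2 : k)) * D.Qt) (0 : k)
  have h2k : (2 : k) ≠ 0 := two_ne_zero
  have hb2 : C 2 * d⁄dX k b = -D.Qt := by
    rw [hb, ← mul_assoc, ← map_mul]
    have : (2 : k) * -(1 / 2) = -1 := by field_simp
    rw [this, map_neg, map_one]; ring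
  -- the axis values
  have hwb0 : coeff 0 (ws b) = 0 := by
    rw [coeff_ws, hb0, map_zero]
  have hza0 : coeff 0 (zs a) = a := coeff0_zs a
  obtain ⟨u, hu⟩ : ∃ u : P2 k, u = 1 - zs a * ws b := ⟨_, rfl⟩
  have hu0 : coeff 0 u = 1 := by
    rw [hu, map_sub, coeff0_mul, hwb0, mul_zero, sub_zero, coeff0_one]
  have hunit : IsUnit u := by
    rw [PowerSeries.isUnit_iff_constantCoeff, ← coeff_zero_eq_constantCoeff_apply, hu0]
    exact isUnit_one
  obtain ⟨v, huv⟩ := hunit.exists_right_inv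
  have hv0 : coeff 0 v = 1 := by
    have h := congrArg (coeff 0) huv
    rwa [coeff0_mul, hu0, one_mul, coeff0_one] at h
  have hdWu : dW u = -(zs a * ws (d⁄dX k b)) := by
    rw [hu, dW_sub, dW_one, dW_zs_mul, dW_ws]; ring
  have hdZu : dZ u = -(zs (d⁄dX k a) * ws b) := by
    rw [hu, dZ_sub, dZ_one, dZ_mul, dZ_ws, dZ_zs]; ring
  have hdWv : dW v = v ^ 2 * (zs a * ws (d⁄dX k b)) := by
    have h := congrArg dW huv
    rw [dW_mul, dW_one, hdWu] at h
    linear_combination v * h - dW v * huv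
  have hdZv : dZ v = v ^ 2 * (zs (d⁄dX k a) * ws b) := by
    have h := congrArg dZ huv
    rw [dZ_mul, dZ_one, hdZu] at h
    linear_combination v * h - dZ v * huv
  have h2' : (cc (2 : k) : P2 k) = 2 := by
    have : (2 : k) = 1 + 1 := by norm_num
    rw [this, cc_add, cc_one]; norm_num
  have hQt : ws D.Qt = -(2 * ws (d⁄dX k b)) := by
    have h : ws (C 2 * d⁄dX k b) = ws (-D.Qt) := by rw [hb2]
    rw [ws_mul, ws_C, ws_neg, h2'] at h
    linear_combination h
  have hB2 : IsBase D (u ^ 2) (v ^ 2) (-(2 * zs a * ws (d⁄dX k b) * v)) := by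
    refine ⟨?_, ?_, ?_, ?_, ?_, ?_⟩
    · rw [pow_two, dW_mul, hdWu]
      linear_combination (2 * zs a * ws (d⁄dX k b) * u) * huv
    · rw [pow_two, dW_mul, hdWv]
      ring
    · have e : (-(2 * zs a * ws (d⁄dX k b) * v) : P2 k) = cc (-2) * (ws (d⁄dX k b) * (zs a * v)) := by
        rw [cc_neg, h2']; ring
      rw [e, dZ_cc_mul, dZ_ws_mul, dZ_mul, dZ_zs, hdZv, h2, mul_zero, cc_zero, hQt, cc_neg, h2', ← ha]
      have h1 : u * v = 1 := huv
      have e2 : zs (d⁄dX k a) * v = zs (d⁄dX k a) * v * (u * v) := by rw [h1, mul_one]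
      have e3 : zs a * ws b = 1 - u := by rw [hu]; ring
      linear_combination (-2 * ws (d⁄dX k b)) * e2
        - 2 * ws (d⁄dX k b) * v ^ 2 * zs (d⁄dX k a) * e3
    · rw [pow_two, coeff0_mul, hu0, one_mul]
    · rw [pow_two, coeff0_mul, hv0, one_mul]
    · intro j
      have e : (-(2 * zs a * ws (d⁄dX k b) * v) : P2 k)
          = zs (-(C 2) * a) * (ws (d⁄dX k b) * v) := by
        rw [zs_mul, zs_neg, zs_C, h2']; ring
      rw [e, coeff_zs_mul]
      simp only [coeff_zero_eq_constantCoeff, map_mul]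
      rw [coeff_zero_eq_constantCoeff_apply] at ha0
      rw [ha0]; ring
  obtain ⟨_, hG, _⟩ := base_unique hB hB2
  refine ⟨a, b, ha, hb2, ?_, ?_⟩
  · rw [hG, ← hu]
    linear_combination (u * v + 1) * huv
  · intro α e1 e2 n hV
    rw [← hu]
    have he1 : dW e1 = 0 := by rw [hV.e1_w, h2, cc_zero, zero_mul]
    have he1' := eq_zs_of_dW he1
    have hn : dW n = 2 * ws (d⁄dX k b) * v ^ 2 * zs (coeff 0 e1) := by
      rw [hV.n_w, h2, cc_zero, hQt, hG, zero_mul, ← he1']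
      ring
    have hbv : dW (ws b * v) = ws (d⁄dX k b) * v ^ 2 := by
      rw [dW_mul, dW_ws, hdWv]
      have e3 : zs a * ws b = 1 - u := by rw [hu]; ring
      linear_combination (v ^ 2 * ws (d⁄dX k b)) * e3 - (v * ws (d⁄dX k b)) * huv
    have hd : dW (n - zs (coeff 0 e1) * (cc 2 * (ws b * v))) = 0 := by
      rw [dW_sub, dW_zs_mul, dW_cc_mul, hbv, hn, h2']
      ring
    have hd2 := eq_zs_of_dW hd
    have h00 : coeff 0 (n - zs (coeff 0 e1) * (cc 2 * (ws b * v))) = coeff 0 n := by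
      rw [map_sub, coeff0_mul, coeff0_mul, coeff0_mul, hwb0]
      ring
    rw [h00] at hd2
    rw [h2'] at hd2 ⊢
    linear_combination u * hd2 + (2 * zs (coeff 0 e1) * ws b) * huv

end Pool.Agent.Work.MP_abe657_gt.CM
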