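import Pool.Agent.Work.MP_abe657_gt.CM.LapLin
import Pool.Agent.Work.MP_abe657_gt.SurfDefs2

/-!
# MP_abe657_gt, part CM, module FTPoly

Size M. A surface of finite type: its iterated Laplacians, and a polynomial equation.

Proof. `hft`: `x = c + ∑ y_i`, `Δ y_i = l_i y_i`, `i : Fin k`. `V1 p = ∑ l_i y_i p`, `V2 p = ∑ l_i^2 y_i p`. Fix `e`, `X = x ∘ e.symm`, `a`. For all `u ∈ e.target` and
`j ≥ 1`: `(lap X)^[j] (fun w => x (e.symm w) a) u = ∑_i l_i^j * y_i (e.symm u) a`, by induction on `j`: at each `u ∈ e.target` the function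
`(lap X)^[j] (..)` agrees near `u` with `c0 + ∑ l_i^j * (y_i)_a ∘ e.symm` (`c0 = c a` for `j = 0`, `0` otherwise), so `lap_congr_nhds`,
`lap_lincomb` and the eigenvalue equations give the step. (`chart_contDiffOn`, `chart_contDiffOn_comp`, `chart_injective`,
`immersed_mfderiv` give smoothness and injectivity.) Let `P = X^2 ∏ (X - C (l_i))` (degree `K = k + 2`, monic), `ν i = P.coeff (K - i)`.
`∑_{i ≤ K} ν i * (lap X)^[K-i] (lap X x_a) u = ∑_i' P(l_i') l_i' y_i'(..) = 0`.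
-/

set_option autoImplicit false

namespace Pool.Agent.Work.MP_abe657_gt.CM

open Pool.Agent.Work.MP_abe657_gt
open scoped Manifold Topology ContDiff

private theorem ft_smooth {M : Type*} [TopologicalSpace M] [ChartedSpace E2 M]
    {k : ℕ} (w : Fin k → ℝ) {y : Fin k → M → E3} (hy : ∀ i, ContMDiff (𝓡 2) 𝓘(ℝ, E3) ∞ (y i)) :
    SmoothMap (fun p => ∑ i, w i • y i p) := by
  have hg : ContDiff ℝ ∞ (fun z : Fin k → E3 => ∑ i, w i • z i) :=
    ContDiff.sum fun i _ => (contDiff_apply ℝ E3 i).const_smul (w i)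
  exact hg.contMDiff.comp (contMDiff_pi_space.2 hy)

private theorem ft_coord {k : ℕ} (w : Fin k → ℝ) (z : Fin k → E3) (a : Fin 3) :
    (∑ i, w i • z i) a = ∑ i, w i * z i a := by
  have h : ∀ s : Finset (Fin k), (∑ i ∈ s, w i • z i) a = ∑ i ∈ s, w i * z i a := by
    intro s
    classical
    induction s using Finset.induction_on with
    | empty => simp
    | insert b s hb ih => rw [Finset.sum_insert hb, Finset.sum_insert hb, ← ih]; rfl
  exact h _

private theorem ft_step {X : E2 → E3} {U : Set E2} (hU : IsOpen U)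
    (hX : ∀ u ∈ U, ContDiffAt ℝ ∞ X u) (himm : ∀ u ∈ U, Function.Injective (fderiv ℝ X u))
    {k : ℕ} (l : Fin k → ℝ) (f : Fin k → E2 → ℝ) (hf : ∀ i, ∀ u ∈ U, ContDiffAt ℝ ∞ (f i) u)
    (he : ∀ i, ∀ u ∈ U, lap X (f i) u = l i * f i u) (c0 : ℝ) (w : Fin k → ℝ) (g : E2 → ℝ)
    (hg : ∀ u ∈ U, g u = c0 + ∑ i, w i * f i u) :
    ∀ u ∈ U, lap X g u = ∑ i, w i * l i * f i u := by
  intro u hu
  have h1 : g =ᶠ[𝓝 u] fun u => c0 + ∑ i ∈ Finset.univ, w i * f i u := by
    filter_upwards [hU.mem_nhds hu] with v hv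
    exact hg v hv
  rw [(lap_congr_nhds (X := X) h1).eq_of_nhds,
    lap_lincomb (hX u hu) (himm u hu) Finset.univ c0 w f (fun i _ => hf i u hu)]
  refine Finset.sum_congr rfl fun i _ => ?_
  rw [he i u hu, mul_assoc]

private theorem ft_iter {X : E2 → E3} {U : Set E2} (hU : IsOpen U)
    (hX : ∀ u ∈ U, ContDiffAt ℝ ∞ X u) (himm : ∀ u ∈ U, Function.Injective (fderiv ℝ X u))
    {k : ℕ} (l : Fin k → ℝ) (f : Fin k → E2 → ℝ) (hf : ∀ i, ∀ u ∈ U, ContDiffAt ℝ ∞ (f i) u)
    (he : ∀ i, ∀ u ∈ U, lap X (f i) u = l i * f i u) (c0 : ℝ) (g : E2 → ℝ)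
    (hg : ∀ u ∈ U, g u = c0 + ∑ i, f i u) (j : ℕ) :
    ∀ u ∈ U, (lap X)^[j + 1] g u = ∑ i, l i ^ (j + 1) * f i u := by
  induction j with
  | zero =>
    intro u hu
    have h1 := ft_step hU hX himm l f hf he c0 (fun _ => 1) g
      (fun v hv => by simpa using hg v hv) u hu
    simpa using h1
  | succ j ih =>
    intro u hu
    have h1 := ft_step hU hX himm l f hf he 0 (fun i => l i ^ (j + 1)) ((lap X)^[j + 1] g)
      (fun v hv => by simpa using ih v hv) u hu
    rw [Function.iterate_succ_apply', h1]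
    refine Finset.sum_congr rfl fun i _ => ?_
    ring

private theorem ft_pol {k : ℕ} (l : Fin k → ℝ) : ∃ (K : ℕ) (ν : ℕ → ℝ), 2 ≤ K ∧ ν 0 = 1 ∧
    ∀ i, ∑ j ∈ Finset.range (K + 1), ν j * l i ^ (K - j) = 0 := by
  obtain ⟨Q, hQ⟩ : ∃ Q : Polynomial ℝ, Q = ∏ i, (Polynomial.X - Polynomial.C (l i)) := ⟨_, rfl⟩
  have hQm : Q.Monic := by
    rw [hQ]
    exact Polynomial.monic_prod_of_monic _ _ fun i _ => Polynomial.monic_X_sub_C _
  have hPm : (Polynomial.X ^ 2 * Q).Monic := (Polynomial.monic_X_pow 2).mul hQm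
  refine ⟨(Polynomial.X ^ 2 * Q).natDegree,
    fun j => (Polynomial.X ^ 2 * Q).coeff ((Polynomial.X ^ 2 * Q).natDegree - j), ?_, ?_, ?_⟩
  · rw [(Polynomial.monic_X_pow 2).natDegree_mul hQm, Polynomial.natDegree_X_pow]
    omega
  · exact hPm.coeff_natDegree
  · intro i
    have h1 : (Polynomial.X ^ 2 * Q).eval (l i) = 0 := by
      rw [Polynomial.eval_mul, hQ, Polynomial.eval_prod,
        Finset.prod_eq_zero (Finset.mem_univ i) (by simp), mul_zero]
    rw [Polynomial.eval_eq_sum_range, ← Finset.sum_range_reflect] at h1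
    rw [← h1]
    refine Finset.sum_congr rfl fun j _ => ?_
    rw [Nat.add_sub_cancel]

theorem ft_poly {M : Type*} [TopologicalSpace M] [ChartedSpace E2 M] [IsManifold (𝓡 2) ∞ M]
    (x : M → E3) (hx : SmoothMap x) (hi : Immersed x) (hft : FiniteType x) :
    ∃ (V1 V2 : M → E3) (K : ℕ) (ν : ℕ → ℝ), SmoothMap V1 ∧ SmoothMap V2 ∧ 2 ≤ K ∧ ν 0 = 1 ∧
      ∀ e ∈ atlas E2 M, ∀ u ∈ e.target, ∀ a : Fin 3,
        lap (x ∘ e.symm) (fun w => x (e.symm w) a) u = V1 (e.symm u) a ∧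
        lap (x ∘ e.symm) (lap (x ∘ e.symm) (fun w => x (e.symm w) a)) u = V2 (e.symm u) a ∧
        ∑ i ∈ Finset.range (K + 1), ν i *
          (lap (x ∘ e.symm))^[K - i] (lap (x ∘ e.symm) (fun w => x (e.symm w) a)) u = 0 := by
  obtain ⟨k, c, y, l, hy, -, heig, hsum⟩ := hft
  obtain ⟨K, ν, hK, hν, hpol⟩ := ft_pol l
  refine ⟨fun p => ∑ i, l i • y i p, fun p => ∑ i, l i ^ 2 • y i p, K, ν, ft_smooth _ hy,
    ft_smooth _ hy, hK, hν, ?_⟩
  intro e he u hu a
  have himm := immersed_mfderiv x hx hi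
  have hX : ∀ u ∈ e.target, ContDiffAt ℝ ∞ (x ∘ e.symm) u := fun v hv =>
    (chart_contDiffOn x hx e he).contDiffAt (e.open_target.mem_nhds hv)
  have hinj : ∀ u ∈ e.target, Function.Injective (fderiv ℝ (x ∘ e.symm) u) :=
    fun v hv => chart_injective x hx himm e he v hv
  have hf : ∀ i, ∀ u ∈ e.target, ContDiffAt ℝ ∞ (fun w => y i (e.symm w) a) u := fun i v hv =>
    (chart_contDiffOn_comp (y i) (hy i) a e he).contDiffAt (e.open_target.mem_nhds hv)
  have hg : ∀ u ∈ e.target, x (e.symm u) a = c a + ∑ i, y i (e.symm u) a := by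
    intro v _
    rw [hsum]
    have h1 := ft_coord (fun _ : Fin k => (1 : ℝ)) (fun i => y i (e.symm v)) a
    simp only [one_smul, one_mul] at h1
    rw [← h1]
    rfl
  have hit : ∀ j, (lap (x ∘ e.symm))^[j + 1] (fun w => x (e.symm w) a) u =
      ∑ i, l i ^ (j + 1) * y i (e.symm u) a := fun j =>
    ft_iter e.open_target hX hinj l (fun i w => y i (e.symm w) a) hf
      (fun i v hv => heig i a e he v hv) (c a) (fun w => x (e.symm w) a) hg j u hu
  refine ⟨?_, ?_, ?_⟩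
  · have h1 := hit 0
    simp only [zero_add, pow_one, Function.iterate_one] at h1
    rw [h1, ft_coord]
  · have h1 := hit 1
    rw [Function.iterate_succ_apply', Function.iterate_one] at h1
    rw [h1, ft_coord]
  · have h1 : ∀ i ∈ Finset.range (K + 1), ν i *
        (lap (x ∘ e.symm))^[K - i] (lap (x ∘ e.symm) (fun w => x (e.symm w) a)) u =
        ∑ i', l i' * y i' (e.symm u) a * (ν i * l i' ^ (K - i)) := by
      intro i _
      rw [← Function.iterate_succ_apply, hit, Finset.mul_sum]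
      refine Finset.sum_congr rfl fun i' _ => ?_
      ring
    rw [Finset.sum_congr rfl h1, Finset.sum_comm]
    refine Finset.sum_eq_zero fun i' _ => ?_
    rw [← Finset.mul_sum, hpol, mul_zero]

end Pool.Agent.Work.MP_abe657_gt.CM
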