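import Pool.Agent.Work.MP_abe657_gt.CM.Lin
import Pool.Agent.Work.MP_abe657_gt.Defs
import Pool.Agent.Work.MP_abe657_gt.Taylor
import Pool.Agent.Work.MP_abe657_gt.TaylorLap

/-!
# MP_abe657_gt, part CM: definitions for the geometric part

FIXED file. `phi : P2 ℂ →+* LL` (from `Taylor.lean`) embeds power series into the field `LL` of iterated Hahn
series; `dT`, `dS` are the two derivations of `LL`, `lapX dT dS X` is the Laplacian of the surface `X`.
-/

set_option autoImplicit false

namespace Pool.Agent.Work.MP_abe657_gt.CM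

open PowerSeries

/-- `X` is a surface in null coordinates, and `G = 1 / ⟨X_z, X_w⟩` is `1` on both axes -/
structure IsNor (X : Fin 3 → P2 ℂ) (G : P2 ℂ) : Prop where
  zz : ∑ a, dZ (X a) ^ 2 = 0
  ww : ∑ a, dW (X a) ^ 2 = 0
  FG : (∑ a, dZ (X a) * dW (X a)) * G = 1
  Gz : coeff 0 G = 1
  Gw : ∀ j, coeff 0 (coeff j G) = if j = 0 then 1 else 0

/-- the Laplacian (minus the divergence of the gradient) of the surface `X`, in the field `LL` -/
noncomputable def lapP (X : Fin 3 → P2 ℂ) (u : LL) : LL :=
  lapX dT dS (fun a => TaylorAux.phi (X a)) u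

end Pool.Agent.Work.MP_abe657_gt.CM
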