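import Pool.Agent.Work.MP_abe657_gt.T2.TwoMain

/-!
# MP_abe657_gt, part CM, module LapLin

Size M. Locality and linearity of the Laplacian `lap X` of an immersion.

Proof. `lap_congr_nhds`: `pd i f` near `u0` only depends on `f` near `u0` (`TaylorAux.ty_pd_congr`), so the two functions under the outer
`pd` agree near `u0`; conclude with `ty_pd_congr` again. `lap_lincomb`: for `f` smooth at `u0`, `pd i f` is smooth at `u0`
(`TaylorAux.ty_smooth`) and near `u0` `pd i (c0 + ∑ w f) = ∑ w * pd i f` (`ty_pd_add`, `ty_pd_mul` with constants, or `fderiv` of a finite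
sum); `gm`, `gdet` are smooth, `gdet > 0` at `u0` (`TaylorLapAux.gdet_pos`), so the functions under the outer `pd` are smooth at `u0` (see
the proof of `lap_smooth` in `T2/TwoMain.lean`) and linear in `f`. It is convenient to prove `lap X (f + g)`, `lap X (c * f)`,
`lap X const = 0` first and to use induction on the finite set.
-/

set_option autoImplicit false

namespace Pool.Agent.Work.MP_abe657_gt.CM

open Pool.Agent.Work.MP_abe657_gt
open scoped Topology ContDiff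

open Pool.Agent.Work.MP_abe657_gt.TaylorLapAux Pool.Agent.Work.MP_abe657_gt.TaylorAux in
theorem lap_congr_nhds {X : E2 → E3} {f g : E2 → ℝ} {u0 : E2} (h : f =ᶠ[𝓝 u0] g) :
    lap X f =ᶠ[𝓝 u0] lap X g := by
  have p0 := ty_pd_congr 0 h
  have p1 := ty_pd_congr 1 h
  have hA : (fun w => (gm X 1 1 w * pd 0 f w - gm X 0 1 w * pd 1 f w) / Real.sqrt (gdet X w))
      =ᶠ[𝓝 u0] (fun w => (gm X 1 1 w * pd 0 g w - gm X 0 1 w * pd 1 g w) /
        Real.sqrt (gdet X w)) := by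
    filter_upwards [p0, p1] with u h0 h1
    rw [h0, h1]
  have hB : (fun w => (gm X 0 0 w * pd 1 f w - gm X 0 1 w * pd 0 f w) / Real.sqrt (gdet X w))
      =ᶠ[𝓝 u0] (fun w => (gm X 0 0 w * pd 1 g w - gm X 0 1 w * pd 0 g w) /
        Real.sqrt (gdet X w)) := by
    filter_upwards [p0, p1] with u h0 h1
    rw [h0, h1]
  filter_upwards [ty_pd_congr 0 hA, ty_pd_congr 1 hB] with u h0 h1
  unfold lap
  rw [h0, h1]

section

open Pool.Agent.Work.MP_abe657_gt.TaylorLapAux Pool.Agent.Work.MP_abe657_gt.TaylorAux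

private theorem smA {X : E2 → E3} {u0 : E2} (hX : ContDiffAt ℝ ∞ X u0)
    (himm : Function.Injective (fderiv ℝ X u0)) {f : E2 → ℝ} (hf : ContDiffAt ℝ ∞ f u0) :
    ContDiffAt ℝ ∞ (fun w => (gm X 1 1 w * pd 0 f w - gm X 0 1 w * pd 1 f w) /
      Real.sqrt (gdet X w)) u0 := by
  have hpos := gdet_pos himm
  have hs : ContDiffAt ℝ ∞ (fun u => Real.sqrt (gdet X u)) u0 := (gdet_smooth hX).sqrt hpos.ne'
  have hs0 : Real.sqrt (gdet X u0) ≠ 0 := (Real.sqrt_pos.2 hpos).ne'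
  exact (((gm_smooth hX 1 1).mul (ty_smooth 0 hf)).sub
    ((gm_smooth hX 0 1).mul (ty_smooth 1 hf))).div hs hs0

private theorem smB {X : E2 → E3} {u0 : E2} (hX : ContDiffAt ℝ ∞ X u0)
    (himm : Function.Injective (fderiv ℝ X u0)) {f : E2 → ℝ} (hf : ContDiffAt ℝ ∞ f u0) :
    ContDiffAt ℝ ∞ (fun w => (gm X 0 0 w * pd 1 f w - gm X 0 1 w * pd 0 f w) /
      Real.sqrt (gdet X w)) u0 := by
  have hpos := gdet_pos himm
  have hs : ContDiffAt ℝ ∞ (fun u => Real.sqrt (gdet X u)) u0 := (gdet_smooth hX).sqrt hpos.ne'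
  have hs0 : Real.sqrt (gdet X u0) ≠ 0 := (Real.sqrt_pos.2 hpos).ne'
  exact (((gm_smooth hX 0 0).mul (ty_smooth 1 hf)).sub
    ((gm_smooth hX 0 1).mul (ty_smooth 0 hf))).div hs hs0

private theorem lap_add' {X : E2 → E3} {u0 : E2} (hX : ContDiffAt ℝ ∞ X u0)
    (himm : Function.Injective (fderiv ℝ X u0)) {f g : E2 → ℝ} (hf : ContDiffAt ℝ ∞ f u0)
    (hg : ContDiffAt ℝ ∞ g u0) :
    lap X (fun u => f u + g u) u0 = lap X f u0 + lap X g u0 := by
  have p0 := ty_pd_add 0 hf hg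
  have p1 := ty_pd_add 1 hf hg
  have hA : (fun w => (gm X 1 1 w * pd 0 (fun u => f u + g u) w
        - gm X 0 1 w * pd 1 (fun u => f u + g u) w) / Real.sqrt (gdet X w))
      =ᶠ[𝓝 u0] (fun w => (gm X 1 1 w * pd 0 f w - gm X 0 1 w * pd 1 f w) /
        Real.sqrt (gdet X w) + (gm X 1 1 w * pd 0 g w - gm X 0 1 w * pd 1 g w) /
        Real.sqrt (gdet X w)) := by
    filter_upwards [p0, p1] with u h0 h1
    rw [h0, h1]
    ring
  have hB : (fun w => (gm X 0 0 w * pd 1 (fun u => f u + g u) w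
        - gm X 0 1 w * pd 0 (fun u => f u + g u) w) / Real.sqrt (gdet X w))
      =ᶠ[𝓝 u0] (fun w => (gm X 0 0 w * pd 1 f w - gm X 0 1 w * pd 0 f w) /
        Real.sqrt (gdet X w) + (gm X 0 0 w * pd 1 g w - gm X 0 1 w * pd 0 g w) /
        Real.sqrt (gdet X w)) := by
    filter_upwards [p0, p1] with u h0 h1
    rw [h0, h1]
    ring
  have e0 := (ty_pd_congr 0 hA).eq_of_nhds
  have e1 := (ty_pd_congr 1 hB).eq_of_nhds
  have e2 := (ty_pd_add 0 (smA hX himm hf) (smA hX himm hg)).eq_of_nhds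
  have e3 := (ty_pd_add 1 (smB hX himm hf) (smB hX himm hg)).eq_of_nhds
  unfold lap
  rw [e0, e1, e2, e3]
  ring

private theorem pd_const (i : Fin 2) (c : ℝ) (u : E2) : pd i (fun _ => c) u = 0 := by
  unfold pd
  simp

private theorem lap_const' {X : E2 → E3} {u0 : E2} (c : ℝ) :
    lap X (fun _ => c) u0 = 0 := by
  have hA : (fun w => (gm X 1 1 w * pd 0 (fun _ => c) w - gm X 0 1 w * pd 1 (fun _ => c) w) /
      Real.sqrt (gdet X w)) = fun _ => (0 : ℝ) := by
    funext w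
    rw [pd_const, pd_const]
    simp
  have hB : (fun w => (gm X 0 0 w * pd 1 (fun _ => c) w - gm X 0 1 w * pd 0 (fun _ => c) w) /
      Real.sqrt (gdet X w)) = fun _ => (0 : ℝ) := by
    funext w
    rw [pd_const, pd_const]
    simp
  unfold lap
  rw [hA, hB, pd_const, pd_const]
  simp

private theorem pd_cmul (i : Fin 2) (c : ℝ) {f : E2 → ℝ} {u0 : E2} (hf : ContDiffAt ℝ ∞ f u0) :
    pd i (fun u => c * f u) =ᶠ[𝓝 u0] fun u => c * pd i f u := by
  filter_upwards [ty_pd_mul i (contDiffAt_const (c := c)) hf] with u hu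
  rw [hu, pd_const]
  ring

private theorem lap_cmul' {X : E2 → E3} {u0 : E2} (hX : ContDiffAt ℝ ∞ X u0)
    (himm : Function.Injective (fderiv ℝ X u0)) (c : ℝ) {f : E2 → ℝ} (hf : ContDiffAt ℝ ∞ f u0) :
    lap X (fun u => c * f u) u0 = c * lap X f u0 := by
  have p0 := pd_cmul 0 c hf
  have p1 := pd_cmul 1 c hf
  have hA : (fun w => (gm X 1 1 w * pd 0 (fun u => c * f u) w
        - gm X 0 1 w * pd 1 (fun u => c * f u) w) / Real.sqrt (gdet X w))
      =ᶠ[𝓝 u0] (fun w => c * ((gm X 1 1 w * pd 0 f w - gm X 0 1 w * pd 1 f w) /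
        Real.sqrt (gdet X w))) := by
    filter_upwards [p0, p1] with u h0 h1
    rw [h0, h1]
    ring
  have hB : (fun w => (gm X 0 0 w * pd 1 (fun u => c * f u) w
        - gm X 0 1 w * pd 0 (fun u => c * f u) w) / Real.sqrt (gdet X w))
      =ᶠ[𝓝 u0] (fun w => c * ((gm X 0 0 w * pd 1 f w - gm X 0 1 w * pd 0 f w) /
        Real.sqrt (gdet X w))) := by
    filter_upwards [p0, p1] with u h0 h1
    rw [h0, h1]
    ring
  have e0 := (ty_pd_congr 0 hA).eq_of_nhds
  have e1 := (ty_pd_congr 1 hB).eq_of_nhds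
  have e2 := (pd_cmul 0 c (smA hX himm hf)).eq_of_nhds
  have e3 := (pd_cmul 1 c (smB hX himm hf)).eq_of_nhds
  unfold lap
  rw [e0, e1, e2, e3]
  ring

private theorem lap_sum' {X : E2 → E3} {u0 : E2} (hX : ContDiffAt ℝ ∞ X u0)
    (himm : Function.Injective (fderiv ℝ X u0)) {ι : Type} (s : Finset ι) (w : ι → ℝ)
    (f : ι → E2 → ℝ) : (∀ i ∈ s, ContDiffAt ℝ ∞ (f i) u0) →
    ContDiffAt ℝ ∞ (fun u => ∑ i ∈ s, w i * f i u) u0 ∧
    lap X (fun u => ∑ i ∈ s, w i * f i u) u0 = ∑ i ∈ s, w i * lap X (f i) u0 := by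
  classical
  induction s using Finset.induction_on with
  | empty =>
    intro _
    simp only [Finset.sum_empty]
    exact ⟨contDiffAt_const, lap_const' 0⟩
  | insert a s ha ih =>
    intro hf
    obtain ⟨i1, i2⟩ := ih fun i hi => hf i (Finset.mem_insert_of_mem hi)
    have ha1 := hf a (Finset.mem_insert_self _ _)
    have ha2 : ContDiffAt ℝ ∞ (fun u => w a * f a u) u0 := contDiffAt_const.mul ha1
    simp only [Finset.sum_insert ha]
    refine ⟨ha2.add i1, ?_⟩
    rw [lap_add' hX himm ha2 i1, lap_cmul' hX himm (w a) ha1, i2]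

end

theorem lap_lincomb {X : E2 → E3} {u0 : E2} (hX : ContDiffAt ℝ ∞ X u0)
    (himm : Function.Injective (fderiv ℝ X u0)) {ι : Type} (s : Finset ι) (c0 : ℝ) (w : ι → ℝ)
    (f : ι → E2 → ℝ) (hf : ∀ i ∈ s, ContDiffAt ℝ ∞ (f i) u0) :
    lap X (fun u => c0 + ∑ i ∈ s, w i * f i u) u0 = ∑ i ∈ s, w i * lap X (f i) u0 := by
  obtain ⟨h1, h2⟩ := lap_sum' hX himm s w f hf
  rw [lap_add' hX himm (contDiffAt_const (c := c0)) h1, lap_const', h2, zero_add]

end Pool.Agent.Work.MP_abe657_gt.CM
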