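import Pool.Agent.Work.MP_abe657_gt.CM.Germ
import Pool.Agent.Work.MP_abe657_gt.CM.LapLin

/-!
# MP_abe657_gt, part CM, module GeoGerm

The local statement at one point `u0` of a chart (Taylor expansion and `germ`).
-/

set_option autoImplicit false

namespace Pool.Agent.Work.MP_abe657_gt.CM

open PowerSeries
open Pool.Agent.Work.MP_abe657_gt Pool.Agent.Work.MP_abe657_gt.TaylorAux
open Pool.Agent.Work.MP_abe657_gt.TaylorLapAux
open scoped Topology ContDiff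

private theorem gg_it_smooth {X : E2 → E3} {u0 : E2} (hX : ContDiffAt ℝ ∞ X u0)
    (himm : Function.Injective (fderiv ℝ X u0)) {f : E2 → ℝ} (hf : ContDiffAt ℝ ∞ f u0) (n : ℕ) :
    ContDiffAt ℝ ∞ ((lap X)^[n] f) u0 := by
  induction n with
  | zero => exact hf
  | succ n ih =>
    rw [Function.iterate_succ_apply']
    exact T2.lap_smooth hX himm ih

private theorem gg_sum {u0 : E2} {T : (E2 → ℝ) → LL} (hT : IsTaylor u0 T) (s : Finset ℕ)
    (f : ℕ → E2 → ℝ) (hf : ∀ i, ContDiffAt ℝ ∞ (f i) u0) :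
    T (fun u => ∑ i ∈ s, f i u) = ∑ i ∈ s, T (f i) := by
  induction s using Finset.induction_on with
  | empty =>
    simp only [Finset.sum_empty]
    rw [hT.const 0]
    simp
  | insert a s ha ih =>
    simp only [Finset.sum_insert ha]
    rw [hT.add (f a) (fun u => ∑ i ∈ s, f i u) (hf a) (ContDiffAt.sum fun i _ => hf i), ih]

private theorem gg_met (Y : Fin 3 → P2 ℂ) :
    phi (∑ a, dZ (Y a) ^ 2) = met dT dT (fun a => phi (Y a)) := by
  rw [met, map_sum]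
  simp only [map_pow, phi_dZ, ← sq]

private theorem gg_det (Y : Fin 3 → P2 ℂ) :
    phi ((∑ a, dZ (Y a) ^ 2) * (∑ a, dW (Y a) ^ 2) - (∑ a, dZ (Y a) * dW (Y a)) ^ 2)
      = detM dT dS (fun a => phi (Y a)) := by
  rw [detM, met, met, met, map_sub, map_mul, map_pow, map_sum, map_sum, map_sum]
  simp only [map_pow, map_mul, phi_dZ, phi_dW, ← sq]

theorem geo_germ (X : E2 → E3) (u0 : E2) (hX : ContDiffAt ℝ ∞ X u0)
    (himm : Function.Injective (fderiv ℝ X u0)) (H : ℂ) (hH : H ≠ 0)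
    (hc : ∀ᶠ u in 𝓝 u0, ((∑ a, lap X (fun w => X w a) u ^ 2 : ℝ) : ℂ) = 4 * H ^ 2) (K : ℕ)
    (ν : ℕ → ℝ) (hP : ∀ a, ∀ᶠ u in 𝓝 u0, ∑ i ∈ Finset.range (K + 1),
      ν i * (lap X)^[K - i] (lap X (fun w => X w a)) u = 0) :
    ∃ Q Qt : PowerSeries ℂ, Ann K (fun i => (ν i : ℂ) * ((-2) ^ i)⁻¹) ⟨H, H, Q, Qt⟩ ∧
      Ann K (fun i => (ν i : ℂ) * ((-2) ^ i)⁻¹) ⟨H, H, Qt, Q⟩ ∧
      (∀ a, ((lap X (lap X (fun w => X w a)) u0 : ℝ) : ℂ)
        = 2 * (H ^ 2 + coeff 0 Q * coeff 0 Qt) * ((lap X (fun w => X w a) u0 : ℝ) : ℂ)) ∧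
      ∀ κ : ℝ, (∀ a, ∀ᶠ u in 𝓝 u0, lap X (lap X (fun w => X w a)) u
        = κ * lap X (fun w => X w a) u) → (κ : ℂ) = 2 * H ^ 2 ∨ (κ : ℂ) = 4 * H ^ 2 := by
  have hT := isTaylor_tyT u0
  obtain ⟨hdet, hlap⟩ := taylor_lap u0 (tyT u0) hT X hX himm
  have hXa : ∀ a, ContDiffAt ℝ ∞ (fun u => X u a) u0 := fun a => smooth_coord hX a
  have hL : ∀ a, ContDiffAt ℝ ∞ (lap X (fun u => X u a)) u0 := fun a =>
    T2.lap_smooth hX himm (hXa a)
  have hLL : ∀ a, ContDiffAt ℝ ∞ (lap X (lap X (fun u => X u a))) u0 := fun a =>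
    T2.lap_smooth hX himm (hL a)
  set Xf : Fin 3 → P2 ℂ := fun a => tyP u0 (fun u => X u a) with hXf
  have hlapP : ∀ f : E2 → ℝ, ContDiffAt ℝ ∞ f u0 →
      phi (tyP u0 (lap X f)) = lapP Xf (phi (tyP u0 f)) := fun f hf => hlap f hf
  -- iterates
  have hit : ∀ (f : E2 → ℝ), ContDiffAt ℝ ∞ f u0 → ∀ n : ℕ,
      tyT u0 ((lap X)^[n] f) = (lapP Xf)^[n] (tyT u0 f) := by
    intro f hf n
    induction n with
    | zero => rfl
    | succ n ih =>
      rw [Function.iterate_succ_apply', Function.iterate_succ_apply', ← ih]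
      exact hlapP _ (gg_it_smooth hX himm hf n)
  -- first metric coefficient
  have e11 : ∑ a, dZ (Xf a) ^ 2 = tyP u0 (gm X 0 0) :=
    phi_injective ((gg_met Xf).trans (T_gm hT hX 0 0).symm)
  have hv11 : v0 (∑ a, dZ (Xf a) ^ 2) ≠ 0 := by
    rw [e11, v0_tyP]
    have hpos := gdet_pos himm
    intro h0
    have h1 : gm X 0 0 u0 = 0 := by exact_mod_cast h0
    rw [gdet, h1] at hpos
    nlinarith [sq_nonneg (gm X 0 1 u0)]
  have edet : (∑ a, dZ (Xf a) ^ 2) * (∑ a, dW (Xf a) ^ 2) - (∑ a, dZ (Xf a) * dW (Xf a)) ^ 2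
      = tyP u0 (gdet X) := phi_injective ((gg_det Xf).trans (T_gdet hT hX).symm)
  have hvdet : v0 ((∑ a, dZ (Xf a) ^ 2) * (∑ a, dW (Xf a) ^ 2)
      - (∑ a, dZ (Xf a) * dW (Xf a)) ^ 2) ≠ 0 := by
    rw [edet, v0_tyP]
    have hpos := gdet_pos himm
    exact_mod_cast hpos.ne'
  -- the mean curvature
  obtain ⟨r, hr⟩ : ∃ r : ℝ, (r : ℂ) = 4 * H ^ 2 := ⟨_, hc.self_of_nhds⟩
  have hcc : ∑ a, lapP Xf (phi (Xf a)) ^ 2 = algebraMap ℂ LL (4 * H ^ 2) := by
    have h1 : (fun u => ∑ a, lap X (fun w => X w a) u * lap X (fun w => X w a) u)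
        =ᶠ[𝓝 u0] fun _ => r := by
      filter_upwards [hc] with u hu
      rw [← hr] at hu
      have h2 : ∑ a, lap X (fun w => X w a) u ^ 2 = r := by exact_mod_cast hu
      rw [← h2]
      exact Finset.sum_congr rfl fun a _ => (sq _).symm
    have h3 := hT.congr _ _ h1
    rw [hT.const, hr, taylor_sum hT (fun a u => lap X (fun w => X w a) u * lap X (fun w => X w a) u)
      (fun a => (hL a).mul (hL a))] at h3
    rw [← h3]
    refine Finset.sum_congr rfl fun a _ => ?_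
    rw [hT.mul _ _ (hL a) (hL a), ← sq, hlap _ (hXa a)]
    rfl
  have hPP : ∀ a, ∑ i ∈ Finset.range (K + 1),
      algebraMap ℂ LL (ν i : ℂ) * (lapP Xf)^[K - i] (lapP Xf (phi (Xf a))) = 0 := by
    intro a
    have h1 : (fun u => ∑ i ∈ Finset.range (K + 1),
      ν i * (lap X)^[K - i] (lap X (fun w => X w a)) u) =ᶠ[𝓝 u0] fun _ => 0 := hP a
    have h3 := hT.congr _ _ h1
    rw [hT.const, gg_sum hT _ (fun i u => ν i * (lap X)^[K - i] (lap X (fun w => X w a)) u)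
      (fun i => contDiffAt_const.mul (gg_it_smooth hX himm (hL a) _))] at h3
    rw [Complex.ofReal_zero, map_zero] at h3
    rw [← h3]
    refine Finset.sum_congr rfl fun i _ => ?_
    rw [hT.mul (fun _ => ν i) _ contDiffAt_const (gg_it_smooth hX himm (hL a) _), hT.const,
      hit _ (hL a)]
    congr 1
    congr 1
    exact (hlapP _ (hXa a)).symm
  obtain ⟨Q, Qt, A1, A2, A3, A4⟩ := germ Xf hv11 hvdet H hH hcc K (fun i => (ν i : ℂ)) hPP
  refine ⟨Q, Qt, A1, A2, ?_, ?_⟩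
  · intro a
    have h := A3 a (tyP u0 (lap X (fun w => X w a))) (tyP u0 (lap X (lap X (fun w => X w a))))
      (hlapP _ (hXa a)) (hlapP _ (hL a))
    rwa [v0_tyP, v0_tyP] at h
  · intro κ hκ
    apply A4 (κ : ℂ)
    intro a g1 g2 hg1 hg2
    have k1 : g1 = tyP u0 (lap X (fun w => X w a)) :=
      phi_injective (hg1.trans (hlapP _ (hXa a)).symm)
    have k2 : g2 = tyP u0 (lap X (lap X (fun w => X w a))) := by
      apply phi_injective
      rw [hg2, k1]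
      exact (hlapP _ (hL a)).symm
    rw [k1, k2]
    apply phi_injective
    rw [map_mul, phi_cc]
    have h1 : lap X (lap X (fun w => X w a)) =ᶠ[𝓝 u0] fun u => κ * lap X (fun w => X w a) u := hκ a
    have h2 := hT.congr _ _ h1
    rw [hT.mul (fun _ => κ) _ contDiffAt_const (hL a), hT.const] at h2
    exact h2

end Pool.Agent.Work.MP_abe657_gt.CM
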