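import Pool.Agent.Work.MP_abe657_gt.CM.ExUniq

/-!
# MP_abe657_gt, part CM, module StdAnn

Size S-M. From the components in `E3` to the components in the basis given by the frame at the origin.

Proof. Let `α a = v0 (e1 a)`, `β a = v0 (e2 a)`, `γ a = v0 (n a)`. For `w : Fin 3 → R` the sums `∑ a, cc (w a) * e1 a` etc. form a solution with
initial value `(∑ w α, ∑ w β, ∑ w γ)` (`IsVec.cmul`, `IsVec.add`; write the sum over `Fin 3` with `Fin.sum_univ_three`). For `w = β, α, γ` the initial
value is `Pi.single 0 1`, `Pi.single 1 1`, `Pi.single 2 1`. Given a solution with initial value `Pi.single c 1` (and base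
functions `F', G', r'`, equal to `F, G, r` by `base_unique`), `vec_unique` gives `n' = ∑ a, cc (w a) * n a`, and `PL_add`, `PL_cc` conclude.
-/

set_option autoImplicit false

namespace Pool.Agent.Work.MP_abe657_gt.CM

open PowerSeries

theorem std_ann {R : Type} [CommRing R] [IntInv R] {D : Dat R} {F G r : P2 R}
    {e1 e2 n : Fin 3 → P2 R} (hB : IsBase D F G r)
    (hV : ∀ a, IsVec D F G r ![v0 (e1 a), v0 (e2 a), v0 (n a)] (e1 a) (e2 a) (n a))
    (h11 : ∑ a, v0 (e1 a) ^ 2 = 0) (h22 : ∑ a, v0 (e2 a) ^ 2 = 0)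
    (h12 : ∑ a, v0 (e1 a) * v0 (e2 a) = 1) (h1n : ∑ a, v0 (e1 a) * v0 (n a) = 0)
    (h2n : ∑ a, v0 (e2 a) * v0 (n a) = 0) (hnn : ∑ a, v0 (n a) ^ 2 = 1) (K : ℕ) (μ : ℕ → R)
    (hP : ∀ a, PL K μ G (n a) = 0) : Ann K μ D := by
  intro F' G' r' e1' e2' n' c hB' hV'
  obtain ⟨rfl, rfl, rfl⟩ := base_unique hB hB'
  have key : ∀ w : Fin 3 → R,
      (∀ i, w 0 * (![v0 (e1 0), v0 (e2 0), v0 (n 0)] : Fin 3 → R) i +
        w 1 * (![v0 (e1 1), v0 (e2 1), v0 (n 1)] : Fin 3 → R) i +
        w 2 * (![v0 (e1 2), v0 (e2 2), v0 (n 2)] : Fin 3 → R) i =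
          (Pi.single c 1 : Fin 3 → R) i) → PL K μ G n' = 0 := by
    intro w hw
    have h1 := (((hV 0).cmul (w 0)).add ((hV 1).cmul (w 1))).add ((hV 2).cmul (w 2))
    have h2 : (fun i => w 0 * (![v0 (e1 0), v0 (e2 0), v0 (n 0)] : Fin 3 → R) i +
        w 1 * (![v0 (e1 1), v0 (e2 1), v0 (n 1)] : Fin 3 → R) i +
        w 2 * (![v0 (e1 2), v0 (e2 2), v0 (n 2)] : Fin 3 → R) i) =
          (Pi.single c 1 : Fin 3 → R) := funext hw
    rw [h2] at h1
    have h3 := (vec_unique hV' h1).2.2
    rw [h3, PL_add, PL_add, PL_cc, PL_cc, PL_cc, hP, hP, hP, mul_zero, mul_zero, mul_zero,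
      add_zero, add_zero]
  simp only [Fin.sum_univ_three] at h11 h22 h12 h1n h2n hnn
  fin_cases c
  · refine key (fun a => v0 (e2 a)) fun i => ?_
    fin_cases i
    · simp
      linear_combination h12
    · simp
      linear_combination h22
    · simp
      linear_combination h2n
  · refine key (fun a => v0 (e1 a)) fun i => ?_
    fin_cases i
    · simp
      linear_combination h11
    · simp
      linear_combination h12
    · simp
      linear_combination h1n
  · refine key (fun a => v0 (n a)) fun i => ?_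
    fin_cases i
    · simp
      linear_combination h1n
    · simp
      linear_combination h2n
    · simp
      linear_combination hnn

end Pool.Agent.Work.MP_abe657_gt.CM
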