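import Pool.Agent.Work.MP_abe657_gt.CM.StrC
import Pool.Agent.Work.MP_abe657_gt.CM.StdAnn
import Pool.Agent.Work.MP_abe657_gt.CM.Dich

/-!
# MP_abe657_gt, part CM, module NorAnn

Size M (assembly). A normalized surface in null coordinates with `L X = H n`: data `Q, Qt` with all the properties needed.

Proof. `strC` for `(X, G, n)` gives `Q, Qt, F, r`. `std_ann` (frame relations at the origin: apply `v0`, a ring homomorphism, to `hN.zz`,
`hN.ww`, `hN.FG` (`v0 G = 1`), to the orthogonality relations of `strA`, and to `hnn`) gives `Ann K μ ⟨H, H, Q, Qt⟩`. Exchange of the variables: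
`IsNor (sw ∘ X) (sw G)` (`dZ_sw`, `dW_sw`, `sw_mul`, `sw_sum`, `coeff2_sw`), `cc H * sw (n a) = Lop (sw G) (sw (X a))` (`dZ_dW`), and
`PL K μ (sw G) (sw f) = sw (PL K μ G f)`; `strC` gives `Q', Qt'` with `zs Q' = ∑ dZ (dZ (sw X)) sw n = sw (∑ dW (dW X) n) = sw (ws Qt) = zs Qt`, so
`Q' = Qt`, and similarly `Qt' = Q`. So `Ann K μ ⟨H, H, Qt, Q⟩`. Third claim: `v0` of the last formula of `strC`, `v0 G = 1`,
`v0 (zs Q) = coeff 0 Q`. Last claim: the hypothesis and the last formula of `strC` give `(zs Q * ws Qt * G^2 - cc c) * n b = 0`; multiply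
by `n b` and sum: `zs Q * ws Qt * G^2 = cc c`; use `dich`.
-/

set_option autoImplicit false

namespace Pool.Agent.Work.MP_abe657_gt.CM

open PowerSeries

private theorem sw_Lop (G f : P2 ℂ) : Lop (sw G) (sw f) = sw (Lop G f) := by
  rw [Lop, dW_sw, dZ_sw, ← sw_mul, Lop, dZ_dW]

private theorem sw_Lop_it (G : P2 ℂ) (k : ℕ) (f : P2 ℂ) :
    (Lop (sw G))^[k] (sw f) = sw ((Lop G)^[k] f) := by
  induction k generalizing f with
  | zero => rfl
  | succ k ih => rw [Function.iterate_succ_apply, sw_Lop, ih, Function.iterate_succ_apply]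

private theorem sw_PL (k : ℕ) (μ : ℕ → ℂ) (G f : P2 ℂ) :
    PL k μ (sw G) (sw f) = sw (PL k μ G f) := by
  rw [PL, PL, sw_sum]
  refine Finset.sum_congr rfl fun i _ => ?_
  rw [sw_mul, sw_cc, sw_Lop_it]

private theorem v0_mul (f g : P2 ℂ) : v0 (f * g) = v0 f * v0 g := by
  simp only [v0, coeff_zero_eq_constantCoeff, map_mul]

private theorem v0_add (f g : P2 ℂ) : v0 (f + g) = v0 f + v0 g := by
  simp only [v0, map_add]

private theorem v0_neg (f : P2 ℂ) : v0 (-f) = -v0 f := by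
  simp only [v0, map_neg]

private theorem v0_zero : v0 (0 : P2 ℂ) = 0 := by
  simp only [v0, map_zero]

private theorem v0_one : v0 (1 : P2 ℂ) = 1 := by
  simp [v0]

private theorem v0_pow (f : P2 ℂ) : v0 (f ^ 2) = v0 f ^ 2 := by
  rw [pow_two, v0_mul, pow_two]

private theorem v0_sum (f : Fin 3 → P2 ℂ) : v0 (∑ a, f a) = ∑ a, v0 (f a) := by
  simp only [Fin.sum_univ_three, v0_add]

private theorem v0_cc (c : ℂ) : v0 (cc c) = c := by
  simp [v0, cc]

private theorem v0_G {X : Fin 3 → P2 ℂ} {G : P2 ℂ} (hN : IsNor X G) : v0 G = 1 := by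
  rw [v0, hN.Gz]
  simp

private theorem ann_of (X : Fin 3 → P2 ℂ) (G : P2 ℂ) (hN : IsNor X G) (H : ℂ) (hH : H ≠ 0)
    (n : Fin 3 → P2 ℂ) (hn : ∀ a, cc H * n a = Lop G (X a)) (hnn : ∑ a, n a ^ 2 = 1) (K : ℕ)
    (μ : ℕ → ℂ) (hP : ∀ a, PL K μ G (n a) = 0) (Q Qt : PowerSeries ℂ) (F r : P2 ℂ)
    (hB : IsBase ⟨H, H, Q, Qt⟩ F G r)
    (hV : ∀ a, IsVec ⟨H, H, Q, Qt⟩ F G r ![v0 (dZ (X a)), v0 (dW (X a)), v0 (n a)]
        (dZ (X a)) (dW (X a)) (n a)) : Ann K μ ⟨H, H, Q, Qt⟩ := by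
  obtain ⟨hA1, hA2, -⟩ := strA X G hN H hH n hn hnn
  have hG := v0_G hN
  refine std_ann hB hV ?_ ?_ ?_ ?_ ?_ ?_ K μ hP
  · have h := congrArg v0 hN.zz
    rw [v0_sum, v0_zero] at h
    simpa only [v0_pow] using h
  · have h := congrArg v0 hN.ww
    rw [v0_sum, v0_zero] at h
    simpa only [v0_pow] using h
  · have h := congrArg v0 hN.FG
    rw [v0_mul, hG, mul_one, v0_sum, v0_one] at h
    simpa only [v0_mul] using h
  · have h := congrArg v0 hA1
    rw [v0_sum, v0_zero] at h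
    rw [← h]
    exact Finset.sum_congr rfl fun a _ => by rw [v0_mul, mul_comm]
  · have h := congrArg v0 hA2
    rw [v0_sum, v0_zero] at h
    rw [← h]
    exact Finset.sum_congr rfl fun a _ => by rw [v0_mul, mul_comm]
  · have h := congrArg v0 hnn
    rw [v0_sum, v0_one] at h
    simpa only [v0_pow] using h

theorem nor_ann (X : Fin 3 → P2 ℂ) (G : P2 ℂ) (hN : IsNor X G) (H : ℂ) (hH : H ≠ 0)
    (n : Fin 3 → P2 ℂ) (hn : ∀ a, cc H * n a = Lop G (X a)) (hnn : ∑ a, n a ^ 2 = 1) (K : ℕ)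
    (μ : ℕ → ℂ) (hP : ∀ a, PL K μ G (n a) = 0) :
    ∃ Q Qt : PowerSeries ℂ, Ann K μ ⟨H, H, Q, Qt⟩ ∧ Ann K μ ⟨H, H, Qt, Q⟩ ∧
      (∀ b, v0 (Lop G (n b)) = -((H ^ 2 + coeff 0 Q * coeff 0 Qt) * v0 (n b))) ∧
      ∀ c : ℂ, (∀ b, Lop G (n b) = -(cc (H ^ 2 + c) * n b)) → c = 0 ∨ c = H ^ 2 := by
  obtain ⟨Q, Qt, F, r, hB, hV, hQ, hQt, hL⟩ := strC X G hN H hH n hn hnn
  have hann := ann_of X G hN H hH n hn hnn K μ hP Q Qt F r hB hV
  -- exchange of the variables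
  have hN' : IsNor (fun a => sw (X a)) (sw G) := by
    refine ⟨?_, ?_, ?_, ?_, ?_⟩
    · have h : ∑ a, dZ (sw (X a)) ^ 2 = sw (∑ a, dW (X a) ^ 2) := by
        rw [sw_sum]
        exact Finset.sum_congr rfl fun a _ => by rw [dZ_sw, pow_two, pow_two, sw_mul]
      rw [h, hN.ww, sw_zero]
    · have h : ∑ a, dW (sw (X a)) ^ 2 = sw (∑ a, dZ (X a) ^ 2) := by
        rw [sw_sum]
        exact Finset.sum_congr rfl fun a _ => by rw [dW_sw, pow_two, pow_two, sw_mul]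
      rw [h, hN.zz, sw_zero]
    · have h : ∑ a, dZ (sw (X a)) * dW (sw (X a)) = sw (∑ a, dZ (X a) * dW (X a)) := by
        rw [sw_sum]
        exact Finset.sum_congr rfl fun a _ => by rw [dZ_sw, dW_sw, sw_mul, mul_comm]
      rw [h, ← sw_mul, hN.FG, sw_one]
    · ext i
      rw [coeff2_sw, hN.Gw, coeff_one]
    · intro j
      rw [coeff2_sw, hN.Gz, coeff_one]
  have hn' : ∀ a, cc H * sw (n a) = Lop (sw G) (sw (X a)) := by
    intro a
    rw [sw_Lop, ← hn a, sw_mul, sw_cc]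
  have hnn' : ∑ a, (sw (n a)) ^ 2 = 1 := by
    have h : ∑ a, (sw (n a)) ^ 2 = sw (∑ a, n a ^ 2) := by
      rw [sw_sum]
      exact Finset.sum_congr rfl fun a _ => by rw [pow_two, pow_two, sw_mul]
    rw [h, hnn, sw_one]
  have hP' : ∀ a, PL K μ (sw G) (sw (n a)) = 0 := by
    intro a
    rw [sw_PL, hP, sw_zero]
  obtain ⟨Q', Qt', F', r', hB', hV', hQ', hQt', -⟩ :=
    strC (fun a => sw (X a)) (sw G) hN' H hH (fun a => sw (n a)) hn' hnn'
  have hann' := ann_of (fun a => sw (X a)) (sw G) hN' H hH (fun a => sw (n a)) hn' hnn' K μ hP'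
    Q' Qt' F' r' hB' hV'
  have e1 : Q' = Qt := by
    apply zs_injective
    rw [hQ', ← sw_ws, hQt, sw_sum]
    exact Finset.sum_congr rfl fun a _ => by rw [dZ_sw, dZ_sw, sw_mul]
  have e2 : Qt' = Q := by
    apply ws_injective
    rw [hQt', ← sw_zs, hQ, sw_sum]
    exact Finset.sum_congr rfl fun a _ => by rw [dW_sw, dW_sw, sw_mul]
  rw [e1, e2] at hann'
  refine ⟨Q, Qt, hann, hann', ?_, ?_⟩
  · intro b
    rw [hL b, v0_neg, v0_mul, v0_add, v0_mul, v0_mul, v0_cc, v0_pow, v0_G hN]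
    have h1 : v0 (zs Q) = coeff 0 Q := by rw [v0, coeff0_zs]
    have h2 : v0 (ws Qt) = coeff 0 Qt := by rw [v0, coeff2_ws, if_pos rfl]
    rw [h1, h2]
    ring
  · intro c hc
    refine dich hB ?_
    have h1 : ∀ b, (zs Q * ws Qt * G ^ 2) * n b ^ 2 = cc c * n b ^ 2 := by
      intro b
      have h := hc b
      rw [hL b, cc_add] at h
      linear_combination (-(n b)) * h
    calc zs Q * ws Qt * G ^ 2 = (zs Q * ws Qt * G ^ 2) * ∑ a, n a ^ 2 := by rw [hnn, mul_one]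
      _ = cc c * ∑ a, n a ^ 2 := by
        rw [Finset.mul_sum, Finset.mul_sum]
        exact Finset.sum_congr rfl fun b _ => h1 b
      _ = cc c := by rw [hnn, mul_one]

end Pool.Agent.Work.MP_abe657_gt.CM
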