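import Pool.Agent.Work.MP_abe657_gt.CM.Chart
import Pool.Agent.Work.MP_abe657_gt.CM.NorAnn

/-!
# MP_abe657_gt, part CM, module Germ

Size M (assembly). The formal statement at one point of a surface of constant mean curvature whose Laplacian satisfies a polynomial equation.

Proof. `chart` gives `Θ, G, Λ`. `n a := Θ`-image: put `n a = -(cc (1/(2H)) * Θ (Λ (X a)))`; as `Θ (Λ f) = -(cc 2 * Lop G (Θ f))`,
`cc H * n a = Lop G (Θ (X a))`. `phi (∑ (Λ (X a))^2) = algebraMap (4 H^2) = phi (cc (4 H^2))`, so `∑ (Λ (X a))^2 = cc (4 H^2)` (`phi_injective`, `phi_cc`) and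
`∑ n a ^2 = 1`. `phi` of `∑ cc (ν i) * Λ^[K-i] (Λ (X a))` is `0` (`phi (Λ^[j] f) = (lapP X)^[j] (phi f)`), so it vanishes; apply `Θ`:
`Θ (Λ^[j] g) = cc ((-2)^j) * (Lop G)^[j] (Θ g)` (`Lop_it_cc`), so `∑ cc (ν i * (-2)^(K-i)) * (Lop G)^[K-i] (n a) = 0`; dividing by `(-2)^K` this is
`PL K (fun i => ν i * ((-2)^i)⁻¹) G (n a) = 0`. `nor_ann` for `(fun a => Θ (X a), G, n)` gives `Q, Qt`. Values: if `phi g1 = lapP X (phi (X a))` then
`g1 = Λ (X a)`, `g2 = Λ g1` (injectivity), `Θ g1 = -(cc (2H)) * n a`, `Θ g2 = -(cc 2 * Lop G (Θ g1)) = cc (4H) * Lop G (n a)`; take `v0`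
(`v0 (Θ f) = v0 f`): `v0 g2 = 4H * (-(H^2 + Q0 Qt0)) * v0 (n a) = 2 (H^2 + Q0 Qt0) * v0 g1`. Last claim with `c = κ/2 - H^2`: for all `b`,
`cc (4H) * Lop G (n b) = Θ (Λ (Λ (X b))) = cc κ * Θ (Λ (X b)) = -(cc (2 H κ)) * n b`, so `Lop G (n b) = -(cc (κ/2) * n b)`; so `c = 0` or `c = H^2`.
-/

set_option autoImplicit false

namespace Pool.Agent.Work.MP_abe657_gt.CM

open PowerSeries
open Pool.Agent.Work.MP_abe657_gt Pool.Agent.Work.MP_abe657_gt.TaylorAux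
open scoped Topology ContDiff

theorem germ (X : Fin 3 → P2 ℂ) (h11 : v0 (∑ a, dZ (X a) ^ 2) ≠ 0)
    (hdet : v0 ((∑ a, dZ (X a) ^ 2) * (∑ a, dW (X a) ^ 2) - (∑ a, dZ (X a) * dW (X a)) ^ 2) ≠ 0)
    (H : ℂ) (hH : H ≠ 0) (hc : ∑ a, lapP X (phi (X a)) ^ 2 = algebraMap ℂ LL (4 * H ^ 2)) (K : ℕ)
    (ν : ℕ → ℂ) (hP : ∀ a, ∑ i ∈ Finset.range (K + 1),
      algebraMap ℂ LL (ν i) * (lapP X)^[K - i] (lapP X (phi (X a))) = 0) :
    ∃ Q Qt : PowerSeries ℂ, Ann K (fun i => ν i * ((-2) ^ i)⁻¹) ⟨H, H, Q, Qt⟩ ∧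
      Ann K (fun i => ν i * ((-2) ^ i)⁻¹) ⟨H, H, Qt, Q⟩ ∧
      (∀ (a : Fin 3) (g1 g2 : P2 ℂ), phi g1 = lapP X (phi (X a)) → phi g2 = lapP X (phi g1) →
        v0 g2 = 2 * (H ^ 2 + coeff 0 Q * coeff 0 Qt) * v0 g1) ∧
      ∀ κ : ℂ, (∀ (a : Fin 3) (g1 g2 : P2 ℂ), phi g1 = lapP X (phi (X a)) →
        phi g2 = lapP X (phi g1) → g2 = cc κ * g1) → κ = 2 * H ^ 2 ∨ κ = 4 * H ^ 2 := by
  obtain ⟨Θ, G, Λ, hΘc, hv, hN, hL, hLop⟩ := chart X h11 hdet
  obtain ⟨n, hn0⟩ : ∃ n : Fin 3 → P2 ℂ, ∀ a, n a = -(cc (1 / (2 * H)) * Θ (Λ (X a))) :=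
    ⟨fun a => -(cc (1 / (2 * H)) * Θ (Λ (X a))), fun a => rfl⟩
  have h2H : (2 * H : ℂ) ≠ 0 := mul_ne_zero two_ne_zero hH
  have hΘ1 : ∀ a, Θ (Λ (X a)) = -(cc (2 * H) * n a) := by
    intro a
    rw [hn0, mul_neg, neg_neg, ← mul_assoc, ← cc_mul, mul_one_div_cancel h2H, cc_one, one_mul]
  have hn : ∀ a, cc H * n a = Lop G (Θ (X a)) := by
    intro a
    rw [hn0, hLop, mul_neg, mul_neg, mul_neg, neg_neg, ← mul_assoc, ← mul_assoc, ← cc_mul, ← cc_mul]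
    have h1 : H * (1 / (2 * H)) * 2 = 1 := by field_simp
    rw [h1, cc_one, one_mul]
  have hΛ2 : ∑ a, Λ (X a) ^ 2 = cc (4 * H ^ 2) := by
    apply phi_injective
    rw [map_sum, phi_cc, ← hc]
    refine Finset.sum_congr rfl fun a _ => ?_
    rw [map_pow, hL]
  have hnn : ∑ a, n a ^ 2 = 1 := by
    have h1 : ∀ a, n a ^ 2 = cc (1 / (2 * H)) ^ 2 * Θ (Λ (X a) ^ 2) := by
      intro a
      rw [hn0, map_pow]
      ring
    rw [Finset.sum_congr rfl fun a _ => h1 a, ← Finset.mul_sum, ← map_sum, hΛ2, hΘc, ← cc_pow,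
      ← cc_mul]
    have h2 : (1 / (2 * H)) ^ 2 * (4 * H ^ 2) = 1 := by
      field_simp
      norm_num
    rw [h2, cc_one]
  have hit : ∀ (j : ℕ) (f : P2 ℂ), phi (Λ^[j] f) = (lapP X)^[j] (phi f) := by
    intro j
    induction j with
    | zero => intro f; rfl
    | succ j ih => intro f; rw [Function.iterate_succ_apply, ih, hL, Function.iterate_succ_apply]
  have hsum : ∀ a, ∑ i ∈ Finset.range (K + 1), cc (ν i) * Λ^[K - i] (Λ (X a)) = 0 := by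
    intro a
    apply phi_injective
    rw [map_sum, map_zero, ← hP a]
    refine Finset.sum_congr rfl fun i _ => ?_
    rw [map_mul, phi_cc, hit, hL]
  have hΘit : ∀ (j : ℕ) (g : P2 ℂ), Θ (Λ^[j] g) = cc ((-2) ^ j) * (Lop G)^[j] (Θ g) := by
    intro j
    induction j with
    | zero => intro g; rw [pow_zero, cc_one, one_mul]; rfl
    | succ j ih =>
      intro g
      rw [Function.iterate_succ_apply', hLop, ih, Lop_cc, Function.iterate_succ_apply', pow_succ,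
        cc_mul, cc_neg]
      ring
  have hP' : ∀ a, PL K (fun i => ν i * ((-2) ^ i)⁻¹) G (n a) = 0 := by
    intro a
    have h1 : n a = cc (-(1 / (2 * H))) * Θ (Λ (X a)) := by
      rw [hn0, cc_neg, neg_mul]
    have h2 : cc ((-2 : ℂ) ^ K) * PL K (fun i => ν i * ((-2) ^ i)⁻¹) G (Θ (Λ (X a))) = 0 := by
      have h3 := congrArg Θ (hsum a)
      rw [map_sum, map_zero] at h3
      rw [← h3, PL, Finset.mul_sum]
      refine Finset.sum_congr rfl fun i hi => ?_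
      rw [map_mul, hΘc, hΘit, ← mul_assoc, ← mul_assoc, ← cc_mul, ← cc_mul]
      congr 2
      have hiK : i ≤ K := Nat.lt_succ_iff.1 (Finset.mem_range.1 hi)
      have h4 : ((-2 : ℂ)) ^ K = (-2) ^ (K - i) * (-2) ^ i := by
        rw [← pow_add, Nat.sub_add_cancel hiK]
      have h5 : ((-2 : ℂ)) ^ i ≠ 0 := pow_ne_zero _ (by norm_num)
      rw [h4]
      field_simp
    have h6 : PL K (fun i => ν i * ((-2) ^ i)⁻¹) G (Θ (Λ (X a))) = 0 := by
      have h7 := congrArg (fun x => cc (((-2 : ℂ) ^ K)⁻¹) * x) h2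
      simp only [mul_zero] at h7
      rw [← mul_assoc, ← cc_mul, inv_mul_cancel₀ (pow_ne_zero _ (by norm_num)), cc_one, one_mul] at h7
      exact h7
    rw [h1, PL_cc, h6, mul_zero]
  obtain ⟨Q, Qt, hA1, hA2, hv0, hlast⟩ := nor_ann (fun a => Θ (X a)) G hN H hH n hn hnn K
    (fun i => ν i * ((-2) ^ i)⁻¹) hP'
  have hΘ2 : ∀ a, Θ (Λ (Λ (X a))) = cc (4 * H) * Lop G (n a) := by
    intro a
    have h1 : -(cc (2 * H) * n a) = cc (-(2 * H)) * n a := by rw [cc_neg, neg_mul]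
    rw [hLop, hΘ1, h1, Lop_cc, ← mul_assoc, ← cc_mul, ← neg_mul, ← cc_neg]
    congr 2
    ring
  have hvc : ∀ (c : ℂ) (f : P2 ℂ), v0 (cc c * f) = c * v0 f := fun c f => coeff2_cc_mul c f 0 0
  have hvn : ∀ f : P2 ℂ, v0 (-f) = -v0 f := by
    intro f
    unfold v0
    rw [map_neg, map_neg]
  refine ⟨Q, Qt, hA1, hA2, ?_, ?_⟩
  · intro a g1 g2 h1 h2
    have e1 : g1 = Λ (X a) := phi_injective (h1.trans (hL _).symm)
    have e2 : g2 = Λ g1 := phi_injective (h2.trans (hL _).symm)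
    rw [← hv g2, ← hv g1, e2, e1, hΘ2, hΘ1, hvc, hvn, hvc, hv0]
    ring
  · intro κ hκ
    have h1 : ∀ b, Lop G (n b) = -(cc (H ^ 2 + (κ / 2 - H ^ 2)) * n b) := by
      intro b
      have h2 := congrArg Θ (hκ b (Λ (X b)) (Λ (Λ (X b))) (hL _) (hL _))
      rw [map_mul, hΘc, hΘ2, hΘ1] at h2
      have h3 := congrArg (fun x => cc (1 / (4 * H)) * x) h2
      have h4 : (4 * H : ℂ) ≠ 0 := mul_ne_zero (by norm_num) hH
      rw [← mul_assoc, ← cc_mul, one_div_mul_cancel h4, cc_one, one_mul] at h3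
      rw [h3, mul_neg, mul_neg, ← mul_assoc, ← mul_assoc, ← cc_mul, ← cc_mul]
      congr 3
      field_simp
      ring
    rcases hlast _ h1 with h | h
    · left
      linear_combination 2 * h
    · right
      linear_combination 2 * h

end Pool.Agent.Work.MP_abe657_gt.CM
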