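import Pool.Agent.Work.MP_abe657_gt.SurfDefs2

/-!
# MP_abe657_gt, part CM, module GloA

Size S-M. A continuous proportionality factor with finitely many values is constant.

Proof. `κ p = (∑ a, V2 p a * V1 p a) / h` is a continuous real function and `V2 p a = κ p * V1 p a`, `(κ p : ℂ) ∈ S` by `hS` and `hV`. The image of the
connected space `M` under `κ` is a connected subset of the finite set `{t : ℝ | (t : ℂ) ∈ S}`, so it is one point
(`IsPreconnected.subsingleton`-type lemma, `Set.Finite.isTotallyDisconnected`/`Set.Countable.isTotallyDisconnected`, or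
`IsPreconnected.constant` with the discrete topology, or: the fibres of `κ` are closed and their finite complement-unions are
closed, so they are open).
-/

set_option autoImplicit false

namespace Pool.Agent.Work.MP_abe657_gt.CM

open Pool.Agent.Work.MP_abe657_gt

theorem glo_const {M : Type*} [TopologicalSpace M] [ConnectedSpace M] (V1 V2 : M → E3)
    (hV1 : Continuous V1) (hV2 : Continuous V2) (h : ℝ) (hh : h ≠ 0)
    (hV : ∀ p, ∑ a, V1 p a ^ 2 = h) (S : Set ℂ) (hfin : S.Finite)
    (hS : ∀ p, ∃ z ∈ S, ∀ a, ((V2 p a : ℝ) : ℂ) = z * ((V1 p a : ℝ) : ℂ)) :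
    ∃ κ : ℝ, ∀ p a, V2 p a = κ * V1 p a := by
  have hc : Continuous fun p => (∑ a, V2 p a * V1 p a) / h := by
    refine Continuous.div_const (continuous_finset_sum _ fun a _ => ?_) h
    have h1 : Continuous fun p => V1 p a := by fun_prop
    have h2 : Continuous fun p => V2 p a := by fun_prop
    exact h2.mul h1
  have key : ∀ p, (((∑ a, V2 p a * V1 p a) / h : ℝ) : ℂ) ∈ S ∧
      ∀ a, V2 p a = (∑ a, V2 p a * V1 p a) / h * V1 p a := by
    intro p
    obtain ⟨z, hz, hza⟩ := hS p
    have h1 : (((∑ a, V2 p a * V1 p a) / h : ℝ) : ℂ) = z := by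
      have h2 : ((∑ a, V2 p a * V1 p a : ℝ) : ℂ) = z * (h : ℂ) := by
        rw [← hV p]
        push_cast
        rw [Finset.mul_sum]
        refine Finset.sum_congr rfl fun a _ => ?_
        rw [hza a]
        ring
      rw [Complex.ofReal_div, h2, mul_div_assoc, div_self, mul_one]
      exact_mod_cast hh
    refine ⟨by rw [h1]; exact hz, fun a => ?_⟩
    apply Complex.ofReal_injective
    rw [Complex.ofReal_mul, h1]
    exact hza a
  have hfin' : (Complex.ofReal ⁻¹' S).Finite := hfin.preimage Complex.ofReal_injective.injOn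
  have hsub : Set.range (fun p => (∑ a, V2 p a * V1 p a) / h) ⊆ Complex.ofReal ⁻¹' S := by
    rintro _ ⟨p, rfl⟩
    exact (key p).1
  have hss : (Set.range (fun p => (∑ a, V2 p a * V1 p a) / h)).Subsingleton :=
    hfin'.countable.isTotallyDisconnected _ hsub (isPreconnected_range hc)
  obtain ⟨p0⟩ := (inferInstance : Nonempty M)
  refine ⟨(∑ a, V2 p0 a * V1 p0 a) / h, fun p a => ?_⟩
  have h1 := hss ⟨p, rfl⟩ ⟨p0, rfl⟩
  have h2 := (key p).2 a
  have h3 : (∑ a, V2 p a * V1 p a) / h = (∑ a, V2 p0 a * V1 p0 a) / h := h1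
  rw [h3] at h2
  exact h2

end Pool.Agent.Work.MP_abe657_gt.CM
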