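import Pool.Agent.Work.MP_abe657_gt.CM.CoreE

/-!
# MP_abe657_gt, part CM, module Ultra

Size M (assembly). A family of data over `ℂ`: only finitely many values of `Q(0) Qt(0)`.

Proof. Otherwise there is `p : ℕ → ι` such that the values `M j = coeff 0 (Q (p j)) * coeff 0 (Qt (p j))` are distinct
(`Set.Infinite.natEmbedding`). Let `R = ℕ → ℂ` (a ring with `IntInv`), `Qr : PowerSeries R` with
`coeff i Qr = fun j => coeff i (Q (p j))`, similarly `Qtr`, and `D = ⟨fun _ => H, fun _ => H, Qr, Qtr⟩`. `Ann (m+1) (fun i _ => μ i) D`: for a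
solution over `R`, its image under the evaluation `Pi.evalRingHom _ j : R →+* ℂ` is a solution for the data at `p j`
(`IsBase.map`, `IsVec.map`), so every evaluation of every coefficient of `PL ..` vanishes (`m2_PL`). Let `𝒰 = Filter.hyperfilter ℕ`
and `E = Filter.Germ (𝒰 : Filter ℕ) ℂ`, a field (instance for ultrafilters, `Mathlib.Order.Filter.FilterProduct`), an algebra
over `ℂ`, `f : R →+* E` the quotient map. `Ann.map f` and `coreE` give that the class of `M` is algebraic over `ℂ`, hence equal to a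
constant `c` (`ℂ` is algebraically closed: `IsAlgClosed.algebraMap_surjective_of_isAlgebraic`, `IsAlgClosed.algebraMap_bijective..`, or factor the minimal
polynomial), so `M j = c` for `𝒰`-almost all `j`; but `{j | M j = c}` has at most one element and `𝒰` is not principal.
(One may build the algebra structure of `E` over `ℂ` from the ring homomorphism `f ∘ const`.)
-/

set_option autoImplicit false

namespace Pool.Agent.Work.MP_abe657_gt.CM

open PowerSeries

private noncomputable def ulQ (q : ℕ → PowerSeries ℂ) : PowerSeries (ℕ → ℂ) :=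
  PowerSeries.mk fun i j => coeff i (q j)

private theorem ulQ_map (q : ℕ → PowerSeries ℂ) (j : ℕ) :
    PowerSeries.map (Pi.evalRingHom (fun _ : ℕ => ℂ) j) (ulQ q) = q j := by
  ext i
  rw [coeff_map, ulQ, coeff_mk]
  rfl

private theorem ul_single {R S : Type} [CommRing R] [CommRing S] (f : R →+* S) (c : Fin 3) :
    (fun i => f ((Pi.single c 1 : Fin 3 → R) i)) = (Pi.single c 1 : Fin 3 → S) := by
  funext i
  by_cases h : i = c
  · subst h
    simp
  · simp [Pi.single_eq_of_ne h]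

private theorem ul_ann (H : ℂ) (k : ℕ) (μ : ℕ → ℂ) (q qt : ℕ → PowerSeries ℂ)
    (h : ∀ j, Ann k μ ⟨H, H, q j, qt j⟩) :
    Ann k (fun i (_ : ℕ) => μ i) (⟨fun _ => H, fun _ => H, ulQ q, ulQ qt⟩ : Dat (ℕ → ℂ)) := by
  intro F G r e1 e2 n c hB hV
  apply ext2
  intro i i'
  funext j
  have hD : (⟨fun _ => H, fun _ => H, ulQ q, ulQ qt⟩ : Dat (ℕ → ℂ)).map
      (Pi.evalRingHom (fun _ : ℕ => ℂ) j) = ⟨H, H, q j, qt j⟩ := by
    rw [Dat.map, ulQ_map, ulQ_map]
    rfl
  have hB' := hB.map (Pi.evalRingHom (fun _ : ℕ => ℂ) j)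
  have hV' := hV.map (Pi.evalRingHom (fun _ : ℕ => ℂ) j)
  rw [ul_single] at hV'
  rw [hD] at hB' hV'
  have h1 := h j _ _ _ _ _ _ c hB' hV'
  have h2 := m2_PL (Pi.evalRingHom (fun _ : ℕ => ℂ) j) k (fun i (_ : ℕ) => μ i) G n
  have h3 : (fun i => (Pi.evalRingHom (fun _ : ℕ => ℂ) j) ((fun i (_ : ℕ) => μ i) i)) = μ := rfl
  rw [h3, h1] at h2
  have h4 := coeff2_m2 (Pi.evalRingHom (fun _ : ℕ => ℂ) j)
    (PL k (fun i (_ : ℕ) => μ i) G n) i i'
  rw [h2] at h4
  simp only [map_zero] at h4 ⊢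
  exact h4.symm

theorem finite_vals {ι : Type*} (H : ℂ) (hH : H ≠ 0) (m : ℕ) (hm : 1 ≤ m) (μ : ℕ → ℂ)
    (hμ : μ 0 = 1) (Q Qt : ι → PowerSeries ℂ) (h : ∀ p, Ann (m + 1) μ ⟨H, H, Q p, Qt p⟩)
    (h' : ∀ p, Ann (m + 1) μ ⟨H, H, Qt p, Q p⟩) :
    (Set.range fun p => coeff 0 (Q p) * coeff 0 (Qt p)).Finite := by
  by_contra hinf
  have hinf' : (Set.range fun p => coeff 0 (Q p) * coeff 0 (Qt p)).Infinite := hinf
  let e := hinf'.natEmbedding
  choose p hp using fun j => (e j).2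
  have hinj : Function.Injective fun j => coeff 0 (Q (p j)) * coeff 0 (Qt (p j)) := by
    intro i j hij
    simp only at hij hp
    rw [hp i, hp j] at hij
    exact e.injective (Subtype.ext hij)
  let f : (ℕ → ℂ) →+* Filter.Germ (Filter.hyperfilter ℕ : Filter ℕ) ℂ :=
    Filter.Germ.coeRingHom (Filter.hyperfilter ℕ : Filter ℕ)
  let _ : Algebra ℂ (Filter.Germ (Filter.hyperfilter ℕ : Filter ℕ) ℂ) :=
    (f.comp (Pi.constRingHom ℕ ℂ)).toAlgebra
  have hC : CharZero (Filter.Germ (Filter.hyperfilter ℕ : Filter ℕ) ℂ) :=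
    charZero_of_injective_algebraMap
      (algebraMap ℂ (Filter.Germ (Filter.hyperfilter ℕ : Filter ℕ) ℂ)).injective
  have h1 := (ul_ann H (m + 1) μ (fun j => Q (p j)) (fun j => Qt (p j)) fun j => h (p j)).map f
  have h2 := (ul_ann H (m + 1) μ (fun j => Qt (p j)) (fun j => Q (p j)) fun j => h' (p j)).map f
  have h3 := coreE (Filter.Germ (Filter.hyperfilter ℕ : Filter ℕ) ℂ) H hH m hm μ hμ
    (PowerSeries.map f (ulQ fun j => Q (p j))) (PowerSeries.map f (ulQ fun j => Qt (p j))) h1 h2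
  have h4 := h3.isIntegral
  obtain ⟨c, hc⟩ := minpoly.mem_range_of_degree_eq_one ℂ _
    (IsAlgClosed.degree_eq_one_of_irreducible ℂ (minpoly.irreducible h4))
  rw [coeff_map, coeff_map, ← map_mul] at hc
  have hc' : f (fun _ => c) = f (coeff 0 (ulQ fun j => Q (p j)) *
    coeff 0 (ulQ fun j => Qt (p j))) := hc
  have h5 := Filter.Germ.coe_eq.1 hc'
  have h6 : {j : ℕ | c = coeff 0 (Q (p j)) * coeff 0 (Qt (p j))} ∈
      (Filter.hyperfilter ℕ : Filter ℕ) := by
    filter_upwards [h5] with j hj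
    have hj' : c = (coeff 0 (ulQ fun j => Q (p j)) *
      coeff 0 (ulQ fun j => Qt (p j))) j := hj
    rw [Pi.mul_apply, ulQ, ulQ, coeff_mk, coeff_mk] at hj'
    exact hj'
  refine Set.Finite.notMem_hyperfilter ?_ h6
  refine Set.Subsingleton.finite fun i hi j hj => hinj ?_
  have hi' : c = coeff 0 (Q (p i)) * coeff 0 (Qt (p i)) := hi
  have hj' : c = coeff 0 (Q (p j)) * coeff 0 (Qt (p j)) := hj
  show coeff 0 (Q (p i)) * coeff 0 (Qt (p i)) = coeff 0 (Q (p j)) * coeff 0 (Qt (p j))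
  rw [← hi', ← hj']

end Pool.Agent.Work.MP_abe657_gt.CM
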