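import Pool.Agent.Work.MP_abe657_gt.CM.GeoGerm
import Pool.Agent.Work.MP_abe657_gt.CM.FTPoly
import Pool.Agent.Work.MP_abe657_gt.CM.GloA
import Pool.Agent.Work.MP_abe657_gt.CM.Ultra

/-!
# MP_abe657_gt, part CM, module GloB

Size M (assembly). Connected surfaces of finite type with constant nonzero mean curvature.

Proof. `h > 0` (a sum of squares, `M` nonempty). `H = (Real.sqrt h / 2 : ℂ)`, `4 H^2 = h`, `H ≠ 0`. `ft_poly` gives `V1, V2, K = m + 1, ν`. For `p : M` take
`e = chartAt E2 p`, `u0 = e p`, `X = x ∘ e.symm` and apply `geo_germ` (the eventual hypotheses hold on the open set `e.target`;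
`chart_contDiffOn`, `chart_injective`, `immersed_mfderiv`); note `(x ∘ e.symm) w a = x (e.symm w) a`. Choose `Q p, Qt p`. `finite_vals` (with `μ i = ν i / (-2)^i`,
`μ 0 = 1`): finitely many values of `coeff 0 (Q p) * coeff 0 (Qt p)`; let `S` be their image under `z ↦ 2 * (H^2 + z)`. `glo_const` gives `κ` with
`V2 = κ V1`, i.e. `lap (lap x_a) = κ lap x_a` in all charts. The last claim of `geo_germ` at one point: `κ = 2 H^2 = h/2` or `κ = 4 H^2 = h`.
-/

set_option autoImplicit false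

namespace Pool.Agent.Work.MP_abe657_gt.CM

open Pool.Agent.Work.MP_abe657_gt
open scoped Manifold Topology ContDiff

theorem cmc_local {M : Type*} [TopologicalSpace M] [ChartedSpace E2 M] [IsManifold (𝓡 2) ∞ M]
    [ConnectedSpace M] (x : M → E3) (hx : SmoothMap x) (hi : Immersed x) (hft : FiniteType x)
    (h : ℝ) (hh : h ≠ 0) (hc : ∀ e ∈ atlas E2 M, ∀ u ∈ e.target,
      ∑ a : Fin 3, lap (x ∘ e.symm) (fun w => x (e.symm w) a) u ^ 2 = h) :
    ∃ κ : ℝ, (κ = h / 2 ∨ κ = h) ∧ ∀ e ∈ atlas E2 M, ∀ u ∈ e.target, ∀ a : Fin 3,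
      lap (x ∘ e.symm) (lap (x ∘ e.symm) (fun w => x (e.symm w) a)) u
        = κ * lap (x ∘ e.symm) (fun w => x (e.symm w) a) u := by
  obtain ⟨V1, V2, K, ν, hV1, hV2, hK, hν0, hprop⟩ := ft_poly x hx hi hft
  obtain ⟨p0⟩ : Nonempty M := inferInstance
  have hpos : 0 < h := by
    have h1 := hc (chartAt E2 p0) (chart_mem_atlas E2 p0) (chartAt E2 p0 p0)
      (mem_chart_target E2 p0)
    have h2 : 0 ≤ h := by
      rw [← h1]
      exact Finset.sum_nonneg fun a _ => sq_nonneg _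
    exact lt_of_le_of_ne h2 (Ne.symm hh)
  obtain ⟨H, hHdef⟩ : ∃ H : ℂ, H = ((Real.sqrt h / 2 : ℝ) : ℂ) := ⟨_, rfl⟩
  have hH4 : 4 * H ^ 2 = (h : ℂ) := by
    have h1 : (4 : ℝ) * (Real.sqrt h / 2) ^ 2 = h := by
      rw [div_pow, Real.sq_sqrt hpos.le]
      ring
    rw [hHdef, ← Complex.ofReal_pow]
    have h2 : ((4 * (Real.sqrt h / 2) ^ 2 : ℝ) : ℂ) = (h : ℂ) := by rw [h1]
    rw [← h2]
    push_cast
    ring
  have hH : H ≠ 0 := by
    rintro h1
    rw [h1] at hH4
    have h2 : (h : ℂ) = 0 := by rw [← hH4]; ring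
    exact hh (by exact_mod_cast h2)
  have hgeo : ∀ p : M, ∃ Q Qt : PowerSeries ℂ,
      Ann K (fun i => (ν i : ℂ) * ((-2) ^ i)⁻¹) ⟨H, H, Q, Qt⟩ ∧
      Ann K (fun i => (ν i : ℂ) * ((-2) ^ i)⁻¹) ⟨H, H, Qt, Q⟩ ∧
      (∀ a, ((V2 p a : ℝ) : ℂ)
        = 2 * (H ^ 2 + PowerSeries.coeff 0 Q * PowerSeries.coeff 0 Qt) * ((V1 p a : ℝ) : ℂ)) ∧
      ∀ κ : ℝ, (∀ q a, V2 q a = κ * V1 q a) → (κ : ℂ) = 2 * H ^ 2 ∨ (κ : ℂ) = 4 * H ^ 2 := by
    intro p
    have he : chartAt E2 p ∈ atlas E2 M := chart_mem_atlas E2 p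
    have hu : chartAt E2 p p ∈ (chartAt E2 p).target := mem_chart_target E2 p
    have hsymm : (chartAt E2 p).symm (chartAt E2 p p) = p :=
      (chartAt E2 p).left_inv (mem_chart_source E2 p)
    have hnhds : (chartAt E2 p).target ∈ 𝓝 (chartAt E2 p p) :=
      (chartAt E2 p).open_target.mem_nhds hu
    obtain ⟨Q, Qt, h1, h2, h3, h4⟩ := geo_germ (x ∘ (chartAt E2 p).symm) (chartAt E2 p p)
      ((chart_contDiffOn x hx _ he).contDiffAt hnhds) (hi _ he _ hu) H hH (by
        filter_upwards [hnhds] with u hu'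
        have h5 := hc _ he u hu'
        rw [hH4]
        exact congrArg (fun t : ℝ => (t : ℂ)) h5) K ν (by
        intro a
        filter_upwards [hnhds] with u hu'
        exact (hprop _ he u hu' a).2.2)
    refine ⟨Q, Qt, h1, h2, fun a => ?_, fun κ hκ => h4 κ fun a => ?_⟩
    · have h5 := hprop _ he _ hu a
      have h6 := h3 a
      have h7 : lap (x ∘ (chartAt E2 p).symm) (fun w => (x ∘ (chartAt E2 p).symm) w a)
          (chartAt E2 p p) = V1 p a := by
        have := h5.1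
        rw [hsymm] at this
        exact this
      have h8 : lap (x ∘ (chartAt E2 p).symm) (lap (x ∘ (chartAt E2 p).symm)
          (fun w => (x ∘ (chartAt E2 p).symm) w a)) (chartAt E2 p p) = V2 p a := by
        have := h5.2.1
        rw [hsymm] at this
        exact this
      rw [h7, h8] at h6
      exact h6
    · filter_upwards [hnhds] with u hu'
      have h5 := hprop _ he u hu' a
      have h6 : lap (x ∘ (chartAt E2 p).symm) (fun w => (x ∘ (chartAt E2 p).symm) w a) u =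
          V1 ((chartAt E2 p).symm u) a := h5.1
      have h7 : lap (x ∘ (chartAt E2 p).symm) (lap (x ∘ (chartAt E2 p).symm)
          (fun w => (x ∘ (chartAt E2 p).symm) w a)) u = V2 ((chartAt E2 p).symm u) a := h5.2.1
      rw [h6, h7]
      exact hκ _ _
  choose Q Qt hA hA' hval hlast using hgeo
  obtain ⟨m, rfl⟩ : ∃ m, K = m + 1 := ⟨K - 1, by omega⟩
  have hfin := finite_vals H hH m (by omega) (fun i => (ν i : ℂ) * ((-2) ^ i)⁻¹)
    (by simp [hν0]) Q Qt hA hA'
  obtain ⟨κ, hκ⟩ := glo_const V1 V2 hV1.continuous hV2.continuous h hh (by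
      intro p
      have he : chartAt E2 p ∈ atlas E2 M := chart_mem_atlas E2 p
      have hu : chartAt E2 p p ∈ (chartAt E2 p).target := mem_chart_target E2 p
      have hsymm : (chartAt E2 p).symm (chartAt E2 p p) = p :=
        (chartAt E2 p).left_inv (mem_chart_source E2 p)
      rw [← hc _ he _ hu]
      refine Finset.sum_congr rfl fun a _ => ?_
      rw [(hprop _ he _ hu a).1, hsymm])
    ((fun z : ℂ => 2 * (H ^ 2 + z)) '' (Set.range fun p =>
      PowerSeries.coeff 0 (Q p) * PowerSeries.coeff 0 (Qt p))) (hfin.image _) (by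
      intro p
      exact ⟨_, ⟨_, ⟨p, rfl⟩, rfl⟩, hval p⟩)
  refine ⟨κ, ?_, ?_⟩
  · rcases hlast p0 κ hκ with h1 | h1
    · left
      have h2 : (κ : ℂ) = ((h / 2 : ℝ) : ℂ) := by
        rw [h1]
        push_cast
        rw [← hH4]
        ring
      exact_mod_cast h2
    · right
      rw [hH4] at h1
      exact_mod_cast h1
  · intro e he u hu a
    rw [(hprop e he u hu a).2.1, (hprop e he u hu a).1]
    exact hκ _ _

end Pool.Agent.Work.MP_abe657_gt.CM
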