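import Pool.Agent.Work.MP_abe657_gt.CM.GloB
import Pool.Agent.Work.MP_abe657_gt.EigenZero
import Pool.Agent.Work.MP_abe657_gt.SphereEnd

/-!
# MP_abe657_gt, part CM, module GloC

Size M (assembly). Compact surfaces of finite type with constant mean curvature are round spheres.

Proof. If `h = 0`, then `lap x_a = 0` in all charts, `IsEigen x (fun p => x p a) 0`, so `x` is constant (`eigen_zero`), contradiction with
`sphereEnd_not_const`. Otherwise `cmc_local` gives `κ ∈ {h/2, h}`, `κ ≠ 0`, and `ft_poly` gives the smooth map `V1`. The map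
`z p = x p - κ⁻¹ • V1 p` is smooth and `IsEigen x (fun p => z p a) 0`: at `u ∈ e.target`, `z_a ∘ e.symm` is near `u` the combination
`0 + 1 * x_a + (-κ⁻¹) * lap X x_a` (`V1 (e.symm w) a = lap X x_a w` for `w ∈ e.target`), whose Laplacian is (`lap_lincomb`, `lap_congr_nhds`)
`lap X x_a - κ⁻¹ lap X (lap X x_a) = 0`. By `eigen_zero`, `z` is constant, `z = c`; `‖x p - c‖^2 = ‖V1 p‖^2 / κ^2 = h / κ^2` (`EuclideanSpace.norm_sq_eq`).
`sphere_end`.
-/

set_option autoImplicit false

namespace Pool.Agent.Work.MP_abe657_gt.CM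

open Pool.Agent.Work.MP_abe657_gt
open scoped Manifold Topology ContDiff

theorem cmc_compact {M : Type*} [TopologicalSpace M] [ChartedSpace E2 M] [IsManifold (𝓡 2) ∞ M]
    [CompactSpace M] [ConnectedSpace M] (x : M → E3) (hx : SmoothMap x) (hi : Immersed x)
    (hft : FiniteType x) (h : ℝ) (hc : ∀ e ∈ atlas E2 M, ∀ u ∈ e.target,
      ∑ a : Fin 3, lap (x ∘ e.symm) (fun w => x (e.symm w) a) u ^ 2 = h) :
    ∃ (c : E3) (r : ℝ), 0 < r ∧ Set.range x = Metric.sphere c r := by
  have himm := immersed_mfderiv x hx hi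
  by_cases hh : h = 0
  · exfalso
    have hE : ∀ a : Fin 3, IsEigen x (fun p => x p a) 0 := by
      intro a e he u hu
      have h1 := hc e he u hu
      rw [hh] at h1
      have h2 := (Finset.sum_eq_zero_iff_of_nonneg (fun b _ => sq_nonneg _)).mp h1 a
        (Finset.mem_univ a)
      have h3 : lap (x ∘ e.symm) (fun w => x (e.symm w) a) u = 0 := by
        exact pow_eq_zero_iff (two_ne_zero) |>.mp h2
      rw [zero_mul]
      exact h3
    choose v hv using fun a : Fin 3 => eigen_zero x hx himm x hx a (hE a)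
    refine sphereEnd_not_const x hx himm (WithLp.toLp 2 v) fun p => ?_
    ext a
    exact hv a p
  · obtain ⟨κ, hκ, hlap⟩ := cmc_local x hx hi hft h hh hc
    have hκ0 : κ ≠ 0 := by
      rcases hκ with hk | hk
      · rw [hk]
        exact div_ne_zero hh two_ne_zero
      · rw [hk]
        exact hh
    obtain ⟨V1, V2, K, ν, hV1, -, -, -, hV⟩ := ft_poly x hx hi hft
    set z : M → E3 := fun p => x p - κ⁻¹ • V1 p with hz
    have hzs : ContMDiff (𝓡 2) 𝓘(ℝ, E3) ∞ z := by
      have hV1' : ContMDiff (𝓡 2) 𝓘(ℝ, E3) ∞ V1 := hV1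
      have hx' : ContMDiff (𝓡 2) 𝓘(ℝ, E3) ∞ x := hx
      have hc1 : ContMDiff (𝓡 2) 𝓘(ℝ, ℝ) ∞ (fun _ : M => κ⁻¹) := contMDiff_const
      have hc2 : ContMDiff (𝓡 2) 𝓘(ℝ, E3) ∞ (fun p : M => κ⁻¹ • V1 p) := hc1.smul hV1'
      exact hx'.sub hc2
    have hE : ∀ a : Fin 3, IsEigen x (fun p => z p a) 0 := by
      intro a e he u hu
      rw [zero_mul]
      have hX : ContDiffAt ℝ ∞ (x ∘ e.symm) u :=
        (chart_contDiffOn x hx e he).contDiffAt (e.open_target.mem_nhds hu)
      have hXi : Function.Injective (fderiv ℝ (x ∘ e.symm) u) := hi e he u hu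
      have hf0 : ContDiffAt ℝ ∞ (fun w => x (e.symm w) a) u :=
        (chart_contDiffOn_comp x hx a e he).contDiffAt (e.open_target.mem_nhds hu)
      have hev : lap (x ∘ e.symm) (fun w => x (e.symm w) a) =ᶠ[𝓝 u]
          ((fun p => V1 p a) ∘ e.symm) := by
        filter_upwards [e.open_target.mem_nhds hu] with w hw
        exact (hV e he w hw a).1
      have hf1 : ContDiffAt ℝ ∞ (lap (x ∘ e.symm) (fun w => x (e.symm w) a)) u := by
        refine ContDiffAt.congr_of_eventuallyEq ?_ hev
        exact (chart_contDiffOn_comp V1 hV1 a e he).contDiffAt (e.open_target.mem_nhds hu)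
      set f : Fin 2 → E2 → ℝ := ![fun w => x (e.symm w) a,
        lap (x ∘ e.symm) (fun w => x (e.symm w) a)] with hf
      have h1 : ((fun p => z p a) ∘ e.symm) =ᶠ[𝓝 u]
          (fun w => 0 + ∑ i ∈ (Finset.univ : Finset (Fin 2)), (![1, -κ⁻¹] : Fin 2 → ℝ) i * f i w) := by
        filter_upwards [e.open_target.mem_nhds hu] with w hw
        have h2 := (hV e he w hw a).1
        simp only [Fin.sum_univ_two, hf, Matrix.cons_val_zero, Matrix.cons_val_one,
          Function.comp_apply, hz, PiLp.sub_apply, PiLp.smul_apply, smul_eq_mul]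
        rw [h2]
        ring
      have h2 := (lap_congr_nhds (X := x ∘ e.symm) h1).eq_of_nhds
      rw [h2, lap_lincomb hX hXi Finset.univ 0 (![1, -κ⁻¹] : Fin 2 → ℝ) f ?_]
      · simp only [Fin.sum_univ_two, hf, Matrix.cons_val_zero, Matrix.cons_val_one]
        rw [hlap e he u hu a]
        field_simp
        ring
      · intro i _
        fin_cases i
        · exact hf0
        · exact hf1
    choose v hv using fun a : Fin 3 => eigen_zero x hx himm z hzs a (hE a)
    have hzv : ∀ p, x p - (WithLp.toLp 2 v : E3) = κ⁻¹ • V1 p := by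
      intro p
      have h1 : z p = (WithLp.toLp 2 v : E3) := by
        ext a
        exact hv a p
      rw [← h1, hz]
      simp
    have hVn : ∀ p, ‖V1 p‖ ^ 2 = h := by
      intro p
      set e := chartAt E2 p with he
      have heA : e ∈ atlas E2 M := chart_mem_atlas E2 p
      have hps : p ∈ e.source := mem_chart_source E2 p
      have hinv : e.symm (e p) = p := e.left_inv hps
      have h1 := hc e heA (e p) (e.map_source hps)
      rw [EuclideanSpace.norm_sq_eq, ← h1]
      refine Finset.sum_congr rfl fun a _ => ?_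
      rw [(hV e heA (e p) (e.map_source hps) a).1, hinv, Real.norm_eq_abs, sq_abs]
    obtain ⟨r, hr, hrange⟩ := sphere_end x hx himm (WithLp.toLp 2 v) ((κ⁻¹) ^ 2 * h) (by
      intro p
      rw [hzv p, norm_smul, mul_pow, hVn p, Real.norm_eq_abs, sq_abs])
    exact ⟨_, r, hr, hrange⟩

end Pool.Agent.Work.MP_abe657_gt.CM
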