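import Pool.Agent.Work.MP_abe657_gt.CM.Causal

/-!
# MP_abe657_gt, part CM, module Gram

Size M. The normal has length one along the axis.

Proof. With `⟨x, y⟩ = x 0 * y 1 + x 1 * y 0 + x 2 * y 2` put
`g = (⟨n,n⟩ - 1, ⟨e1,e1⟩, ⟨e2,e2⟩, ⟨e1,e2⟩ - 1, ⟨e1,n⟩, ⟨e2,n⟩)`. By `IsAx` (write `h` for `C h`):
`⟨n,n⟩' = -2h ⟨e1,n⟩ - 2Q ⟨e2,n⟩`, `⟨e1,e1⟩' = 2Q ⟨e1,n⟩`, `⟨e2,e2⟩' = 2h ⟨e2,n⟩`, `⟨e1,e2⟩' = Q ⟨e2,n⟩ + h ⟨e1,n⟩`,
`⟨e1,n⟩' = Q (⟨n,n⟩ - 1) - Q (⟨e1,e2⟩ - 1) - h ⟨e1,e1⟩`, `⟨e2,n⟩' = h (⟨n,n⟩ - 1) - h (⟨e1,e2⟩ - 1) - Q ⟨e2,e2⟩`. So `g` solves a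
homogeneous linear system with value `0` at `z = 0`; by `causal_unique` (`ι = Fin 6`) `g = 0`. In particular `⟨n,n⟩ = 1`.
-/

set_option autoImplicit false

namespace Pool.Agent.Work.MP_abe657_gt.CM

open PowerSeries

private noncomputable def gbr {R : Type} [CommRing R] (x y : Fin 3 → PowerSeries R) :
    PowerSeries R :=
  x 0 * y 1 + x 1 * y 0 + x 2 * y 2

private theorem gbr_d {R : Type} [CommRing R] (x y x' y' : Fin 3 → PowerSeries R)
    (hx : ∀ c, d⁄dX R (x c) = x' c) (hy : ∀ c, d⁄dX R (y c) = y' c) :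
    d⁄dX R (gbr x y) = gbr x' y + gbr x y' := by
  unfold gbr
  simp only [map_add, Derivation.leibniz, smul_eq_mul, hx, hy]
  ring

private theorem gram_mulc {R : Type} [CommRing R] (a y z : PowerSeries R) (j : ℕ)
    (h : ∀ l ≤ j, coeff l y = coeff l z) : coeff j (a * y) = coeff j (a * z) := by
  rw [coeff_mul, coeff_mul]
  apply Finset.sum_congr rfl
  intro p hp
  have hp' := Finset.HasAntidiagonal.mem_antidiagonal.1 hp
  rw [h p.2 (by omega)]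

theorem gram {R : Type} [CommRing R] [IntInv R] {h : R} {Q : PowerSeries R}
    {e1 e2 n : Fin 3 → PowerSeries R} (hA : IsAx h Q e1 e2 n) :
    2 * n 0 * n 1 + n 2 ^ 2 = 1 := by
  have d1 := hA.e1_z
  have d2 := hA.e2_z
  have d3 := hA.n_z
  let Φ : (Fin 6 → PowerSeries R) → Fin 6 → PowerSeries R := fun Y =>
    ![-(2 * C h) * Y 4 + (-(2 * Q)) * Y 5, (2 * Q) * Y 4, (2 * C h) * Y 5, Q * Y 5 + C h * Y 4,
      Q * Y 0 + (-Q) * Y 3 + (-(C h)) * Y 1, C h * Y 0 + (-(C h)) * Y 3 + (-Q) * Y 2]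
  have hΦ : ∀ (Y Z : Fin 6 → PowerSeries R) (j : ℕ),
      (∀ i, ∀ l ≤ j, coeff l (Y i) = coeff l (Z i)) → ∀ i, coeff j (Φ Y i) = coeff j (Φ Z i) := by
    intro Y Z j hYZ i
    have hm : ∀ (a : PowerSeries R) (k : Fin 6), coeff j (a * Y k) = coeff j (a * Z k) :=
      fun a k => gram_mulc a (Y k) (Z k) j (hYZ k)
    fin_cases i
    · show coeff j (-(2 * C h) * Y 4 + (-(2 * Q)) * Y 5) =
        coeff j (-(2 * C h) * Z 4 + (-(2 * Q)) * Z 5)
      rw [map_add, map_add, hm, hm]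
    · exact hm (2 * Q) 4
    · exact hm (2 * C h) 5
    · show coeff j (Q * Y 5 + C h * Y 4) = coeff j (Q * Z 5 + C h * Z 4)
      rw [map_add, map_add, hm, hm]
    · show coeff j (Q * Y 0 + (-Q) * Y 3 + (-(C h)) * Y 1) =
        coeff j (Q * Z 0 + (-Q) * Z 3 + (-(C h)) * Z 1)
      rw [map_add, map_add, map_add, map_add, hm, hm, hm]
    · show coeff j (C h * Y 0 + (-(C h)) * Y 3 + (-Q) * Y 2) =
        coeff j (C h * Z 0 + (-(C h)) * Z 3 + (-Q) * Z 2)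
      rw [map_add, map_add, map_add, map_add, hm, hm, hm]
  let G : Fin 6 → PowerSeries R := ![gbr n n - 1, gbr e1 e1, gbr e2 e2, gbr e1 e2 - 1,
    gbr e1 n, gbr e2 n]
  have c1 : ∀ c, coeff 0 (e1 c) = if c = 0 then 1 else 0 := hA.i1
  have c2 : ∀ c, coeff 0 (e2 c) = if c = 1 then 1 else 0 := hA.i2
  have c3 : ∀ c, coeff 0 (n c) = if c = 2 then 1 else 0 := hA.i3
  have cm : ∀ x y : PowerSeries R, coeff 0 (x * y) = coeff 0 x * coeff 0 y := by
    intro x y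
    rw [coeff_zero_eq_constantCoeff, map_mul]
  have cb : ∀ x y : Fin 3 → PowerSeries R, coeff 0 (gbr x y) =
      coeff 0 (x 0) * coeff 0 (y 1) + coeff 0 (x 1) * coeff 0 (y 0) +
        coeff 0 (x 2) * coeff 0 (y 2) := by
    intro x y
    unfold gbr
    rw [map_add, map_add, cm, cm, cm]
  have h10 : (1 : Fin 3) ≠ 0 := by decide
  have h20 : (2 : Fin 3) ≠ 0 := by decide
  have h21 : (2 : Fin 3) ≠ 1 := by decide
  have h01 : (0 : Fin 3) ≠ 1 := by decide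
  have h02 : (0 : Fin 3) ≠ 2 := by decide
  have h12 : (1 : Fin 3) ≠ 2 := by decide
  have hG0 : ∀ i, coeff 0 (G i) = coeff 0 ((fun _ => 0 : Fin 6 → PowerSeries R) i) := by
    intro i
    fin_cases i
    · show coeff 0 (gbr n n - 1) = coeff 0 (0 : PowerSeries R)
      rw [map_sub, cb, c3, c3, c3]
      simp [h02, h12]
    · show coeff 0 (gbr e1 e1) = coeff 0 (0 : PowerSeries R)
      rw [cb, c1, c1, c1]
      simp [h10, h20]
    · show coeff 0 (gbr e2 e2) = coeff 0 (0 : PowerSeries R)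
      rw [cb, c2, c2, c2]
      simp [h01, h21]
    · show coeff 0 (gbr e1 e2 - 1) = coeff 0 (0 : PowerSeries R)
      rw [map_sub, cb, c1, c1, c1, c2, c2, c2]
      simp [h10, h20]
    · show coeff 0 (gbr e1 n) = coeff 0 (0 : PowerSeries R)
      rw [cb, c1, c1, c1, c3, c3, c3]
      simp [h10, h20, h02, h12]
    · show coeff 0 (gbr e2 n) = coeff 0 (0 : PowerSeries R)
      rw [cb, c2, c2, c2, c3, c3, c3]
      simp [h01, h21, h02, h12]
  have hG : ∀ i, d⁄dX R (G i) = Φ G i := by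
    intro i
    fin_cases i
    · show d⁄dX R (gbr n n - 1) = -(2 * C h) * gbr e1 n + (-(2 * Q)) * gbr e2 n
      rw [map_sub, gbr_d n n _ _ d3 d3, Derivation.map_one_eq_zero]
      unfold gbr
      ring
    · show d⁄dX R (gbr e1 e1) = (2 * Q) * gbr e1 n
      rw [gbr_d e1 e1 _ _ d1 d1]
      unfold gbr
      ring
    · show d⁄dX R (gbr e2 e2) = (2 * C h) * gbr e2 n
      rw [gbr_d e2 e2 _ _ d2 d2]
      unfold gbr
      ring
    · show d⁄dX R (gbr e1 e2 - 1) = Q * gbr e2 n + C h * gbr e1 n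
      rw [map_sub, gbr_d e1 e2 _ _ d1 d2, Derivation.map_one_eq_zero]
      unfold gbr
      ring
    · show d⁄dX R (gbr e1 n) =
        Q * (gbr n n - 1) + (-Q) * (gbr e1 e2 - 1) + (-(C h)) * gbr e1 e1
      rw [gbr_d e1 n _ _ d1 d3]
      unfold gbr
      ring
    · show d⁄dX R (gbr e2 n) =
        C h * (gbr n n - 1) + (-(C h)) * (gbr e1 e2 - 1) + (-Q) * gbr e2 e2
      rw [gbr_d e2 n _ _ d2 d3]
      unfold gbr
      ring
  have hZ : ∀ i, d⁄dX R ((fun _ => 0 : Fin 6 → PowerSeries R) i) =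
      Φ (fun _ => 0 : Fin 6 → PowerSeries R) i := by
    intro i
    fin_cases i <;> simp [Φ]
  have key := causal_unique Φ hΦ G (fun _ => 0) hG0 hG hZ
  have h1 : gbr n n - 1 = 0 := congrFun key 0
  have h2 : gbr n n = 1 := sub_eq_zero.1 h1
  rw [← h2]
  unfold gbr
  ring

end Pool.Agent.Work.MP_abe657_gt.CM
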