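import Pool.Agent.Work.MP_abe657_gt.CM.ZTr
import Pool.Agent.Work.MP_abe657_gt.CM.AnnScale
import Pool.Agent.Work.MP_abe657_gt.CM.OOsol

/-!
# MP_abe657_gt, part CM, module IIa2

Size M. If all data are in `OO k` except `coeff l D.Q` for `l ≥ i`, and `x = coeff i D.Q ∉ OO k`, then the coefficients of
`z^(i-m) w^J` of `PL (m+1) μ G n` are of the form `x * o` with `o ∈ OO k`.

Proof. By `ztr` we may replace `D` by `D''` with `D''.Q = mk (fun l => if l ≤ i then coeff l D.Q else 0)`. Let `v = order x < 0` and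
`s = tp k (-v / (i + 1))`, so that `s^(i+1) * x` has order `0` and, for `l ≤ i`, `s^(l+1) * coeff l D.Q ∈ OO k` (for `l < i`:
order `≥ 0`). Scale with `t = l = m = 1`: `D''.scale s 1 1 1 = ⟨s h1, h2, C s * rescale s Q'', C 1 * rescale 1 Qt⟩` has all data in
`OO k` (`coeff l (C s * rescale s Q'') = s * s^l * coeff l Q''`). `isBase_scale`, `isVec_scale` (initial values
`![1 * a 0, 1 * a 1, a 2]`), `oo_sol` with `μ' i = (s * 1)^i * μ i`, and `PL_sc2`:
`coeff (i-m) (coeff J (PL (m+1) μ' G' n')) = s^(m+1) * s^(i-m) * coeff (i-m) (coeff J (PL (m+1) μ G'' n''))` is in `OO k`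
(`coeff2_sc2`, `coeff2_cc_mul`), and `s^(i+1) = unit / x`: `y := s^(i+1) * X ∈ OO k` gives `X = x * (y * (s^(i+1) * x)⁻¹)` and
`(s^(i+1) x)⁻¹` has order `0`.
-/

set_option autoImplicit false

namespace Pool.Agent.Work.MP_abe657_gt.CM

open PowerSeries

theorem iia2 {k : Type} [Field k] [CharZero k] {D : Dat (HahnSeries ℝ k)} {F G r : P2 (HahnSeries ℝ k)}
    {a : Fin 3 → HahnSeries ℝ k} {e1 e2 n : P2 (HahnSeries ℝ k)} (i m : ℕ) (him : m ≤ i)
    (h1 : D.h1 ∈ OO k) (h2 : D.h2 ∈ OO k) (μ : ℕ → HahnSeries ℝ k) (hμ : ∀ i, μ i ∈ OO k)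
    (hQ : ∀ l < i, coeff l D.Q ∈ OO k) (hi : coeff i D.Q ∉ OO k)
    (hQt : ∀ l, coeff l D.Qt ∈ OO k) (ha : ∀ c, a c ∈ OO k) (hB : IsBase D F G r)
    (hV : IsVec D F G r a e1 e2 n) (J : ℕ) :
    ∃ o ∈ OO k, coeff (i - m) (coeff J (PL (m + 1) μ G n)) = coeff i D.Q * o := by
  set D2 : Dat (HahnSeries ℝ k) := ⟨D.h1, D.h2,
    PowerSeries.mk fun l => if l ≤ i then coeff l D.Q else 0, D.Qt⟩ with hD2
  obtain ⟨F2, G2, r2, hB2⟩ := base_exists D2
  obtain ⟨e12, e22, n2, hV2⟩ := vec_exists D2 F2 G2 r2 a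
  have hz := ztr (D := D) (D' := D2) i m him μ rfl rfl rfl (by
    intro l hl
    rw [hD2, coeff_mk, if_pos hl]) hB hB2 hV hV2 J
  obtain ⟨hx0, hx1⟩ := (not_mem_OO_iff _).1 hi
  set x := coeff i D.Q with hx
  set q : ℝ := -x.order / ((i : ℝ) + 1) with hq
  have hi1 : (0 : ℝ) < (i : ℝ) + 1 := by positivity
  have hq0 : 0 ≤ q := div_nonneg (by linarith) hi1.le
  set s := tp k q with hs
  have hsO : s ∈ OO k := tp_mem hq0
  have hsi : s ^ (i + 1) = tp k (-x.order) := by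
    rw [hs, tp_pow]
    congr 1
    rw [hq]
    push_cast
    field_simp
  set u := s ^ (i + 1) * x with hu
  have hu0 : u ≠ 0 := mul_ne_zero (by rw [hsi]; exact tp_ne_zero _) hx0
  have huo : u.order = 0 := by
    rw [hu, hsi, order_tp_mul _ hx0]
    ring
  have huO : u ∈ OO k := (mem_OO_iff _).2 (Or.inr huo.ge)
  have huI : u⁻¹ ∈ OO k := (mem_OO_iff _).2 (Or.inr (by rw [order_inv' hu0, huo, neg_zero]))
  have hB3 := isBase_scale s 1 1 1 (one_mul 1) hB2
  have hV3 := isVec_scale s 1 1 1 (one_mul 1) hV2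
  have hO := (oo_sol (D := D2.scale s 1 1 1) ?_ ?_ ?_ ?_ ?_ hB3 hV3 (m + 1)
    (fun i => (s * 1) ^ i * μ i) ?_).1
  · have h3 := hO (i - m) J
    rw [PL_sc2, coeff2_cc_mul, coeff2_sc2] at h3
    set X := coeff (i - m) (coeff J (PL (m + 1) μ G2 n2)) with hX
    have h4 : (s * 1) ^ (m + 1) * (s ^ (i - m) * 1 ^ J * X) = s ^ (i + 1) * X := by
      have e : i + 1 = (m + 1) + (i - m) := by omega
      rw [mul_one, one_pow, mul_one, ← mul_assoc, ← pow_add, ← e]
    rw [h4] at h3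
    refine ⟨s ^ (i + 1) * X * u⁻¹, (OO k).mul_mem h3 huI, ?_⟩
    rw [hz, hu]
    have hs0 : s ^ (i + 1) ≠ 0 := by
      rw [hsi]
      exact tp_ne_zero _
    field_simp
  · show 1 * s * D2.h1 ∈ OO k
    exact (OO k).mul_mem ((OO k).mul_mem (OO k).one_mem hsO) h1
  · show 1 * 1 * D2.h2 ∈ OO k
    exact (OO k).mul_mem ((OO k).mul_mem (OO k).one_mem (OO k).one_mem) h2
  · intro l
    show coeff l (C (1 * s) * rescale s D2.Q) ∈ OO k
    rw [coeff_C_mul, coeff_rescale, one_mul, hD2, coeff_mk, ← mul_assoc, ← pow_succ']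
    rcases lt_trichotomy l i with hl | hl | hl
    · rw [if_pos hl.le]
      exact (OO k).mul_mem ((OO k).pow_mem hsO _) (hQ l hl)
    · subst hl
      rw [if_pos le_rfl]
      exact huO
    · rw [if_neg (by omega), mul_zero]
      exact (OO k).zero_mem
  · intro l
    show coeff l (C (1 * 1) * rescale 1 D2.Qt) ∈ OO k
    rw [coeff_C_mul, coeff_rescale, one_pow, one_mul, one_mul, one_mul]
    exact hQt l
  · intro c
    fin_cases c
    · show 1 * a 0 ∈ OO k
      rw [one_mul]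
      exact ha 0
    · show 1 * a 1 ∈ OO k
      rw [one_mul]
      exact ha 1
    · exact ha 2
  · intro j
    exact (OO k).mul_mem ((OO k).pow_mem ((OO k).mul_mem hsO (OO k).one_mem) _) (hμ j)

end Pool.Agent.Work.MP_abe657_gt.CM
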