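import Pool.Agent.Work.MP_abe657_gt.CM.Basic

/-!
# MP_abe657_gt, part CM: linearity of the frame equations, the axis system, the ring `OO`

FIXED file (complete proofs): `IsVec.cmul`, `IsVec.add`; definitions `IsAx`, `IsSep`, `vf`, `OO`, `res`.
-/

set_option autoImplicit false

namespace Pool.Agent.Work.MP_abe657_gt.CM

open PowerSeries

section

variable {R : Type} [CommRing R] {D : Dat R} {F G r : P2 R}

theorem IsVec.cmul (b : R) {a : Fin 3 → R} {e1 e2 n : P2 R} (h : IsVec D F G r a e1 e2 n) :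
    IsVec D F G r (fun i => b * a i) (cc b * e1) (cc b * e2) (cc b * n) where
  e1_w := by rw [dW_cc_mul, h.e1_w]; ring
  e2_w := by rw [dW_cc_mul, h.e2_w]; ring
  n_w := by rw [dW_cc_mul, h.n_w]; ring
  e1_z := by rw [coeff_cc_mul, coeff_cc_mul, leib1, h.e1_z, derivative_C]; ring
  e2_z := by rw [coeff_cc_mul, coeff_cc_mul, leib1, h.e2_z, derivative_C]; ring
  n_z := by rw [coeff_cc_mul, coeff_cc_mul, coeff_cc_mul, leib1, h.n_z, derivative_C]; ring
  i1 := by rw [coeff2_cc_mul, h.i1]
  i2 := by rw [coeff2_cc_mul, h.i2]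
  i3 := by rw [coeff2_cc_mul, h.i3]

theorem IsVec.add {a a' : Fin 3 → R} {e1 e2 n e1' e2' n' : P2 R} (h : IsVec D F G r a e1 e2 n)
    (h' : IsVec D F G r a' e1' e2' n') :
    IsVec D F G r (fun i => a i + a' i) (e1 + e1') (e2 + e2') (n + n') where
  e1_w := by rw [dW_add, h.e1_w, h'.e1_w]; ring
  e2_w := by rw [dW_add, h.e2_w, h'.e2_w]; ring
  n_w := by rw [dW_add, h.n_w, h'.n_w]; ring
  e1_z := by rw [map_add, map_add, h.e1_z, h'.e1_z, map_add]; ring
  e2_z := by rw [map_add, map_add, h.e2_z, h'.e2_z, map_add]; ring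
  n_z := by rw [map_add, map_add, map_add, map_add, h.n_z, h'.n_z]; ring
  i1 := by rw [map_add, map_add, h.i1, h'.i1]
  i2 := by rw [map_add, map_add, h.i2, h'.i2]
  i3 := by rw [map_add, map_add, h.i3, h'.i3]

/-- the equations on the axis `w = 0`, for the three components of the frame -/
structure IsAx (h : R) (Q : PowerSeries R) (e1 e2 n : Fin 3 → PowerSeries R) : Prop where
  e1_z : ∀ c, d⁄dX R (e1 c) = Q * n c
  e2_z : ∀ c, d⁄dX R (e2 c) = C h * n c
  n_z : ∀ c, d⁄dX R (n c) = -(C h * e1 c) - Q * e2 c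
  i1 : ∀ c, coeff 0 (e1 c) = if c = 0 then 1 else 0
  i2 : ∀ c, coeff 0 (e2 c) = if c = 1 then 1 else 0
  i3 : ∀ c, coeff 0 (n c) = if c = 2 then 1 else 0

/-- finite sums of products of a function of `z` and a function of `w` -/
def IsSep (T : P2 R) : Prop :=
  ∃ (N : ℕ) (f g : Fin N → PowerSeries R), T = ∑ l, zs (f l) * ws (g l)

/-- the vector field `a d/dz + b d/dw` -/
noncomputable def vf (a b f : P2 R) : P2 R := a * dZ f + b * dW f

/-- the value at the origin -/
noncomputable def v0 (f : P2 R) : R := coeff 0 (coeff 0 f)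

end

section hahn

/-- Hahn series with real exponents and without negative exponents -/
def OO (k : Type) [Field k] : Subring (HahnSeries ℝ k) where
  carrier := {x | ∀ q : ℝ, q < 0 → x.coeff q = 0}
  mul_mem' := by
    intro x y hx hy q hq
    rw [HahnSeries.coeff_mul]
    refine Finset.sum_eq_zero fun ij hij => ?_
    have h : ij.1 + ij.2 = q := (Finset.mem_antidiagonal.mp hij).2.2
    by_cases h1 : ij.1 < 0
    · rw [hx _ h1, zero_mul]
    · rw [hy _ (by linarith), mul_zero]
  one_mem' := by
    intro q hq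
    rw [HahnSeries.coeff_one, if_neg hq.ne]
  add_mem' := by
    intro x y hx hy q hq
    rw [HahnSeries.coeff_add, hx q hq, hy q hq, add_zero]
  zero_mem' := fun q _ => rfl
  neg_mem' := by
    intro x hx q hq
    rw [HahnSeries.coeff_neg, hx q hq, neg_zero]

/-- the coefficient of exponent `0` -/
def res (k : Type) [Field k] : OO k →+* k where
  toFun := fun x => (x : HahnSeries ℝ k).coeff 0
  map_one' := by
    change (1 : HahnSeries ℝ k).coeff 0 = 1
    rw [HahnSeries.coeff_one, if_pos rfl]
  map_zero' := rfl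
  map_add' := fun x y => rfl
  map_mul' := by
    intro x y
    change ((x : HahnSeries ℝ k) * (y : HahnSeries ℝ k)).coeff 0 = _
    rw [HahnSeries.coeff_mul]
    by_cases hab : (x : HahnSeries ℝ k).coeff 0 = 0 ∨ (y : HahnSeries ℝ k).coeff 0 = 0
    · have h0 : (x : HahnSeries ℝ k).coeff 0 * (y : HahnSeries ℝ k).coeff 0 = 0 := by
        rcases hab with h | h <;> simp [h]
      rw [h0]
      refine Finset.sum_eq_zero fun ij hij => ?_
      have h : ij.1 + ij.2 = 0 := (Finset.mem_antidiagonal.mp hij).2.2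
      rcases lt_trichotomy ij.1 0 with h1 | h1 | h1
      · rw [x.2 _ h1, zero_mul]
      · have h2 : ij.2 = 0 := by linarith
        rw [h1, h2, h0]
      · rw [y.2 _ (by linarith), mul_zero]
    · push Not at hab
      rw [Finset.sum_eq_single (0, 0)]
      · intro ij hij hne
        have h : ij.1 + ij.2 = 0 := (Finset.mem_antidiagonal.mp hij).2.2
        rcases lt_trichotomy ij.1 0 with h1 | h1 | h1
        · rw [x.2 _ h1, zero_mul]
        · have h2 : ij.2 = 0 := by linarith
          exact absurd (Prod.ext h1 h2) hne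
        · rw [y.2 _ (by linarith), mul_zero]
      · intro hnot
        exfalso
        apply hnot
        rw [Finset.mem_antidiagonal]
        exact ⟨hab.1, hab.2, by simp⟩

theorem mem_OO {k : Type} [Field k] (x : HahnSeries ℝ k) : x ∈ OO k ↔ ∀ q : ℝ, q < 0 → x.coeff q = 0 :=
  Iff.rfl

theorem res_apply {k : Type} [Field k] (x : OO k) : res k x = (x : HahnSeries ℝ k).coeff 0 := rfl

theorem C_mem_OO {k : Type} [Field k] (a : k) : HahnSeries.C a ∈ OO k := by
  intro q hq
  rw [HahnSeries.C_apply, HahnSeries.coeff_single_of_ne hq.ne]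

instance instIntInvOO (k : Type) [Field k] [CharZero k] : IntInv (OO k) where
  isUnit_succ n := by
    have h0 : ((n : k) + 1) ≠ 0 := Nat.cast_add_one_ne_zero n
    refine IsUnit.of_mul_eq_one ⟨HahnSeries.C (((n : k) + 1)⁻¹), C_mem_OO _⟩ ?_
    apply Subtype.ext
    push_cast
    have h1 : ((n : HahnSeries ℝ k) + 1) = HahnSeries.C ((n : k) + 1) := by
      rw [map_add, map_natCast, map_one]
    rw [h1, ← map_mul, mul_inv_cancel₀ h0, map_one]

instance instCharZeroHahn (k : Type) [Field k] [CharZero k] : CharZero (HahnSeries ℝ k) :=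
  charZero_of_injective_ringHom (f := (HahnSeries.C : k →+* HahnSeries ℝ k)) HahnSeries.C_injective

end hahn

end Pool.Agent.Work.MP_abe657_gt.CM
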