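import Pool.Agent.Work.MP_abe657_gt.CM.SepC

/-!
# MP_abe657_gt, part CM, module Num

Size M. The iterates of `L` on functions with a pole along `u = 1 - a(z) b(w)`.

Notation `u = 1 - zs a * ws b`, `u v = 1`, `κ = zs a * ws b * zs a' * ws b'` (so `dZ u * dW u = κ`,
`dZ u = -(zs a' * ws b)`, `dW u = -(zs a * ws b')`, `dZ v = -v^2 * dZ u`, `dW v = -v^2 * dW u`).
`num_step`: with `q = p + 1`: `dW (N v^q) = (N_w u - q N u_w) v^(q+1)`, and with `A = N_w u - q N u_w` (separated):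
`dZ (A v^(q+1)) = (A_z u - (q+1) A u_z) v^(q+2)`; multiply by `v^2`: `N' = A_z u - (q+1) A u_z`
`= q (q+1) u_z u_w N + u (A_z - (q+1) N_w u_z)`. Take `T = A_z - (q+1) N_w u_z`, separated by module SepC.
(Derivatives of powers: `dW (v^q) = q * v^(q-1) * dW v` by induction on `q`, from `dW_mul`; state a private lemma.)
`num_main`: iterate: by induction on `K` there are a separated `N_K`, a separated `T_K` and a nonzero `c_K ∈ k` with
`(Lop (v^2))^[K] (N * v) = N_K * v^(4K+1)` and `N_K = cc c_K * κ^K * N + u T_K`. (`num_step` with `p = 4K`; replace `N_K` in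
`cc ((4K+1)(4K+2)) * κ * N_K + u T`.) If the left side is `0`, then `N_K = 0` (multiply by `u^(4K+1)`) and
`κ^K * N = u * (-(cc c_K⁻¹) * T_K)`.
-/

set_option autoImplicit false

namespace Pool.Agent.Work.MP_abe657_gt.CM

open PowerSeries

variable {k : Type} [Field k] [CharZero k]

private theorem pw (D : P2 k → P2 k) (hm : ∀ f g, D (f * g) = f * D g + g * D f) (h1 : D 1 = 0)
    (u v : P2 k) (hv : u * v = 1) (p : ℕ) :
    D (v ^ (p + 1)) = -(((p : P2 k) + 1) * v ^ (p + 2) * D u) := by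
  have hb : D v = -(v ^ 2 * D u) := by
    have h := hm u v
    rw [hv, h1] at h
    linear_combination (-v) * h - (D v) * hv
  induction p with
  | zero =>
    rw [zero_add, pow_one, hb]
    push_cast
    ring
  | succ p ih =>
    rw [pow_succ, hm, ih, hb]
    push_cast
    ring

private theorem uZ (a b : PowerSeries k) :
    dZ (1 - zs a * ws b) = -(zs (d⁄dX k a) * ws b) := by
  rw [dZ_sub, dZ_one, dZ_mul, dZ_ws, dZ_zs]
  ring

private theorem uW (a b : PowerSeries k) :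
    dW (1 - zs a * ws b) = -(zs a * ws (d⁄dX k b)) := by
  rw [dW_sub, dW_one, dW_mul, dW_zs, dW_ws]
  ring

private theorem cc_nat1 (p : ℕ) : (cc ((p : k) + 1) : P2 k) = (p : P2 k) + 1 := by
  simp [cc]

private theorem cc_nat2 (p : ℕ) : (cc ((p : k) + 2) : P2 k) = (p : P2 k) + 2 := by
  have : ((p : k) + 2) = ((p + 1 : ℕ) : k) + 1 := by push_cast; ring
  rw [this, cc_nat1]
  push_cast
  ring

theorem num_step (a b : PowerSeries k) (v : P2 k) (hv : (1 - zs a * ws b) * v = 1) (N : P2 k)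
    (hN : IsSep N) (p : ℕ) : ∃ N' T : P2 k, IsSep N' ∧ IsSep T ∧
      Lop (v ^ 2) (N * v ^ (p + 1)) = N' * v ^ (p + 5) ∧
      N' = cc (((p : k) + 1) * ((p : k) + 2)) * (zs a * ws b * zs (d⁄dX k a) * ws (d⁄dX k b)) * N
        + (1 - zs a * ws b) * T := by
  have hu : IsSep (1 - zs a * ws b) := by
    have h1 : IsSep (1 : P2 k) := by
      rw [← zs_one]
      exact isSep_zs 1
    exact h1.sub (isSep_mk a b)
  have hZ := uZ a b
  have hW := uW a b
  set u := 1 - zs a * ws b with hudef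
  set Zu := dZ u with hZu
  set Wu := dW u with hWu
  have hsW : IsSep Wu := hu.dW
  have hsZ : IsSep Zu := hu.dZ
  set A := dW N * u - cc ((p : k) + 1) * N * Wu with hA
  have hsA : IsSep A := (hN.dW.mul hu).sub (((isSep_cc _).mul hN).mul hsW)
  have e1 : dW (N * v ^ (p + 1)) = A * v ^ (p + 2) := by
    rw [dW_mul, pw dW dW_mul dW_one u v hv p, hA, cc_nat1]
    linear_combination (-(v ^ (p + 1)) * dW N) * hv
  have e2 : dZ (A * v ^ (p + 2)) = (dZ A * u - cc ((p : k) + 2) * A * Zu) * v ^ (p + 3) := by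
    have h := pw dZ dZ_mul dZ_one u v hv (p + 1)
    rw [show p + 1 + 1 = p + 2 by ring, show p + 1 + 2 = p + 3 by ring] at h
    rw [dZ_mul, h, cc_nat2]
    push_cast
    linear_combination (-(v ^ (p + 2)) * dZ A) * hv
  refine ⟨dZ A * u - cc ((p : k) + 2) * A * Zu, dZ A - cc ((p : k) + 2) * dW N * Zu,
    (hsA.dZ.mul hu).sub (((isSep_cc _).mul hsA).mul hsZ),
    hsA.dZ.sub (((isSep_cc _).mul hN.dW).mul hsZ), ?_, ?_⟩
  · unfold Lop
    rw [e1, e2]
    ring
  · have hk : zs a * ws b * zs (d⁄dX k a) * ws (d⁄dX k b) = Wu * Zu := by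
      rw [hW, hZ]
      ring
    rw [hk, cc_mul, hA]
    ring

theorem num_main (a b : PowerSeries k) (v : P2 k) (hv : (1 - zs a * ws b) * v = 1) (N : P2 k)
    (hN : IsSep N) (K : ℕ) (h : (Lop (v ^ 2))^[K] (N * v) = 0) :
    ∃ T : P2 k, IsSep T ∧
      (zs a * ws b * zs (d⁄dX k a) * ws (d⁄dX k b)) ^ K * N = (1 - zs a * ws b) * T := by
  have hκ : IsSep (zs a * ws b * zs (d⁄dX k a) * ws (d⁄dX k b)) :=
    ((isSep_mk a b).mul (isSep_zs _)).mul (isSep_ws _)
  set κ := zs a * ws b * zs (d⁄dX k a) * ws (d⁄dX k b) with hκd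
  have key : ∀ K : ℕ, ∃ (c : k) (M T : P2 k), c ≠ 0 ∧ IsSep M ∧ IsSep T ∧
      (Lop (v ^ 2))^[K] (N * v) = M * v ^ (4 * K + 1) ∧
      M = cc c * κ ^ K * N + (1 - zs a * ws b) * T := by
    intro K
    induction K with
    | zero =>
      refine ⟨1, N, 0, one_ne_zero, hN, ?_, ?_, ?_⟩
      · rw [← zs_zero]
        exact isSep_zs 0
      · rw [Function.iterate_zero, id_eq, mul_zero, zero_add, pow_one]
      · rw [cc_one]
        ring
    | succ K ih =>
      obtain ⟨c, M, T, hc, hM, hT, e1, e2⟩ := ih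
      obtain ⟨M', T', hM', hT', e3, e4⟩ := num_step a b v hv M hM (4 * K)
      refine ⟨(((4 * K : ℕ) : k) + 1) * (((4 * K : ℕ) : k) + 2) * c, M',
        cc ((((4 * K : ℕ) : k) + 1) * (((4 * K : ℕ) : k) + 2)) * κ * T + T', ?_, hM', ?_, ?_, ?_⟩
      · refine mul_ne_zero (mul_ne_zero ?_ ?_) hc
        · exact_mod_cast Nat.succ_ne_zero (4 * K)
        · exact_mod_cast Nat.succ_ne_zero (4 * K + 1)
      · exact (((isSep_cc _).mul hκ).mul hT).add hT'
      · rw [Function.iterate_succ_apply', e1, e3]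
        rfl
      · rw [e4, ← hκd, e2, cc_mul _ c]
        ring
  obtain ⟨c, M, T, hc, -, hT, e1, e2⟩ := key K
  rw [h] at e1
  have hM : M = 0 := by
    have h1 : ((1 - zs a * ws b) * v) ^ (4 * K + 1) = 1 := by rw [hv, one_pow]
    have : M = M * ((1 - zs a * ws b) * v) ^ (4 * K + 1) := by rw [h1, mul_one]
    rw [this, mul_pow, mul_comm ((1 - zs a * ws b) ^ (4 * K + 1)), ← mul_assoc, ← e1, zero_mul]
  rw [hM] at e2
  refine ⟨-(cc c⁻¹ * T), ((isSep_cc _).mul hT).neg, ?_⟩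
  have hcc : (cc c⁻¹ : P2 k) * cc c = 1 := by rw [← cc_mul, inv_mul_cancel₀ hc, cc_one]
  linear_combination (-(κ ^ K * N)) * hcc - (cc c⁻¹) * e2

end Pool.Agent.Work.MP_abe657_gt.CM
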