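import Pool.Agent.Work.MP_abe657_gt.CM.Lin

/-!
# MP_abe657_gt, part CM, module Sep

Size M. If `f(z) g(w) = (1 - a(z) b(w)) ∑ f_l(z) g_l(w)` (finite sum) with `a, b` not constant, then `f = 0` or `g = 0`.

Proof. Let `W = FractionRing (PowerSeries k)` (or `LaurentSeries k`), `Z` the same field. As `b' ≠ 0`, `b` is transcendental over `k`:
if `p(b) = 0` with `p ≠ 0` of minimal degree then `p'(b) b' = 0`, so `p'(b) = 0`, contradiction (char 0). So there is a ring
homomorphism `β : RatFunc k →+* W` (or from `FractionRing k[X]`) with `X ↦ b`, and similarly `ψ : RatFunc k →+* Z` with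
`X ↦ a⁻¹` (`a⁻¹` is transcendental too; note `a ≠ 0`). Suppose `g ≠ 0`. `W` is a vector space over `RatFunc k` via `β`; choose a
`RatFunc k`-linear functional `λ : W → RatFunc k` with `λ(g) ≠ 0` (`Module.exists_dual_forall_apply_eq_zero_iff`,
`Module.forall_dual_apply_eq_zero_iff` or similar). Then `λ(b x) = X λ(x)`.
Let `V ⊂ PowerSeries k` be the finite dimensional `k`-span of `g`, all `g_l` and all `b g_l`, with basis `γ_1, .., γ_N`; write
`g = ∑ c_i γ_i`, `g_l = ∑ c_{li} γ_i`, `b g_l = ∑ d_{li} γ_i`. The hypothesis reads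
`∑_i zs (C c_i * f - ∑_l C c_{li} * f_l + a * ∑_l C d_{li} * f_l) * ws γ_i = 0`. If `∑_i zs α_i * ws γ_i = 0` then all `α_i = 0`: the
coefficient of `z^m` gives `∑_i (coeff m α_i) γ_i = 0`, and the `γ_i` are independent. So for every `i`
`c_i f = ∑_l c_{li} f_l - a ∑_l d_{li} f_l` in `PowerSeries k`. Multiply by `ψ(λ(γ_i))` in `Z` and sum over `i`:
`f ψ(λ(g)) = ∑_l f_l ψ(λ(g_l)) - a ∑_l f_l ψ(λ(b g_l)) = ∑_l f_l ψ(λ(g_l)) (1 - a ψ(X)) = 0`, so `f = 0`.
(`λ` and `ψ ∘ λ` are additive and `k`-linear for the obvious structures.)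
-/

set_option autoImplicit false

namespace Pool.Agent.Work.MP_abe657_gt.CM

open PowerSeries

/-- power series with nonzero derivative are transcendental -/
private theorem trans_of_d {k : Type} [Field k] [CharZero k] {b : PowerSeries k}
    (hb : d⁄dX k b ≠ 0) : Transcendental k b := by
  intro halg
  have hint : IsIntegral k b := halg.isIntegral
  have h1 : Polynomial.aeval b (Polynomial.derivative (minpoly k b)) = 0 := by
    have h2 := Derivation.map_aeval (d⁄dX k) (minpoly k b) b
    rw [minpoly.aeval, map_zero, smul_eq_mul] at h2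
    exact (mul_eq_zero.1 h2.symm).resolve_right hb
  have h3 := minpoly.dvd k b h1
  have hne := minpoly.ne_zero hint
  have h4 : Polynomial.derivative (minpoly k b) = 0 := by
    by_contra h5
    have h6 := Polynomial.degree_le_of_dvd h3 h5
    exact absurd (Polynomial.degree_derivative_lt hne) (not_lt.2 h6)
  have h5 := Polynomial.natDegree_eq_zero_of_derivative_eq_zero h4
  have h6 := minpoly.natDegree_pos hint
  omega

/-- a bilinear relation from the vanishing of a sum of products -/
private theorem tens {k K : Type} [Field k] [CommRing K] [Algebra k K]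
    (θ : PowerSeries k →ₐ[k] K) (μ : PowerSeries k →ₗ[k] K) {ι : Type} (s : Finset ι)
    (u v : ι → PowerSeries k)
    (h : ∀ m j, ∑ i ∈ s, coeff m (u i) * coeff j (v i) = 0) :
    ∑ i ∈ s, θ (u i) * μ (v i) = 0 := by
  classical
  induction s using Finset.induction_on generalizing u with
  | empty => rw [Finset.sum_empty]
  | insert a s ha ih =>
    by_cases hu : u a = 0
    · rw [Finset.sum_insert ha, hu, map_zero, zero_mul, zero_add]
      refine ih u fun m j => ?_
      have h1 := h m j
      rw [Finset.sum_insert ha, hu, map_zero, zero_mul, zero_add] at h1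
      exact h1
    · obtain ⟨m0, hm0⟩ : ∃ m0, coeff m0 (u a) ≠ 0 := by
        by_contra hcon
        push Not at hcon
        exact hu (PowerSeries.ext fun m => by rw [hcon m, map_zero])
      let c : ι → k := fun i => coeff m0 (u i) / coeff m0 (u a)
      have hva : v a = -∑ i ∈ s, c i • v i := by
        ext j
        have h1 := h m0 j
        rw [Finset.sum_insert ha] at h1
        rw [map_neg, map_sum]
        have h2 : ∑ i ∈ s, coeff j (c i • v i) = (coeff m0 (u a))⁻¹ *
            ∑ i ∈ s, coeff m0 (u i) * coeff j (v i) := by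
          rw [Finset.mul_sum]
          refine Finset.sum_congr rfl fun i _ => ?_
          rw [PowerSeries.coeff_smul]
          show coeff m0 (u i) / coeff m0 (u a) * coeff j (v i) = _
          ring
        rw [h2, eq_neg_of_add_eq_zero_right h1]
        field_simp
      have h2 := ih (fun i => u i - c i • u a) (by
        intro m j
        have h1 := h m j
        rw [Finset.sum_insert ha, hva, map_neg, map_sum] at h1
        rw [Finset.sum_congr rfl fun i _ => by
          rw [map_sub, PowerSeries.coeff_smul, sub_mul]]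
        rw [Finset.sum_sub_distrib]
        have h3 : ∑ i ∈ s, c i * coeff m (u a) * coeff j (v i) =
            coeff m (u a) * ∑ i ∈ s, coeff j (c i • v i) := by
          rw [Finset.mul_sum]
          refine Finset.sum_congr rfl fun i _ => ?_
          rw [PowerSeries.coeff_smul]
          ring
        have h4 : ∑ i ∈ s, c i • coeff m (u a) * coeff j (v i) =
            coeff m (u a) * ∑ i ∈ s, coeff j (c i • v i) := h3
        rw [h4]
        linear_combination h1)
      rw [Finset.sum_insert ha]
      have h5 : μ (v a) = -∑ i ∈ s, c i • μ (v i) := by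
        rw [hva, map_neg, map_sum]
        congr 1
        exact Finset.sum_congr rfl fun i _ => map_smul μ _ _
      have h6 : ∑ i ∈ s, θ (u i - c i • u a) * μ (v i) =
          ∑ i ∈ s, θ (u i) * μ (v i) - θ (u a) * ∑ i ∈ s, c i • μ (v i) := by
        rw [Finset.mul_sum, ← Finset.sum_sub_distrib]
        refine Finset.sum_congr rfl fun i _ => ?_
        rw [map_sub, map_smul, sub_mul, smul_mul_assoc, mul_smul_comm]
      rw [h6] at h2
      rw [h5]
      linear_combination h2

private theorem exists_F {k R W K : Type} [Field k] [CommRing R] [IsDomain R]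
    [IsPrincipalIdealRing R] [Algebra k R] [AddCommGroup W] [Module R W] [Module k W]
    [IsScalarTower k R W] [Module.IsTorsionFree R W] [Field K] [Algebra k K] (ψ : R →ₐ[k] K)
    (hψ : ∀ r, ψ r = 0 → r = 0) {N : ℕ} (g : W) (hg : g ≠ 0) (gl : Fin N → W) :
    ∃ F : W →ₗ[k] K, F g ≠ 0 ∧ ∀ l (r : R), F (r • gl l) = ψ r * F (gl l) := by
  classical
  let S : Set W := {g} ∪ Set.range gl
  let M : Submodule R W := Submodule.span R S
  have hSfin : S.Finite := (Set.finite_singleton _).union (Set.finite_range _)
  haveI : Module.Finite R M := Module.Finite.span_of_finite _ hSfin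
  have hgM : g ∈ M := Submodule.subset_span (Or.inl rfl)
  have hlM : ∀ l, gl l ∈ M := fun l => Submodule.subset_span (Or.inr ⟨l, rfl⟩)
  have hgne : (⟨g, hgM⟩ : M) ≠ 0 := fun h => hg (congrArg Subtype.val h)
  obtain ⟨lam, hlam⟩ : ∃ lam : Module.Dual R M, lam ⟨g, hgM⟩ ≠ 0 := by
    by_contra hcon
    push Not at hcon
    exact hgne ((Module.forall_dual_apply_eq_zero_iff R _).1 hcon)
  let M' : Submodule k W := M.restrictScalars k
  let f : M' →ₗ[k] K := ψ.toLinearMap.comp (lam.restrictScalars k)
  obtain ⟨F, hF⟩ := LinearMap.exists_extend f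
  have hFM : ∀ (x : W) (hx : x ∈ M), F x = ψ (lam ⟨x, hx⟩) := by
    intro x hx
    exact LinearMap.congr_fun hF (⟨x, hx⟩ : M')
  refine ⟨F, ?_, fun l r => ?_⟩
  · rw [hFM _ hgM]
    exact fun h => hlam (hψ _ h)
  · have h2 : r • gl l ∈ M := M.smul_mem _ (hlM l)
    rw [hFM _ h2, hFM _ (hlM l)]
    have h3 : (⟨r • gl l, h2⟩ : M) = r • ⟨gl l, hlM l⟩ := rfl
    rw [h3, map_smul, smul_eq_mul, map_mul]

/-- the power series as a module over the polynomials in `b` -/
private def WB {k : Type} [Field k] (_b : PowerSeries k) : Type := PowerSeries k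

private noncomputable instance instWB1 {k : Type} [Field k] (b : PowerSeries k) :
    AddCommGroup (WB b) := inferInstanceAs (AddCommGroup (PowerSeries k))

private noncomputable instance instWB2 {k : Type} [Field k] (b : PowerSeries k) :
    Module k (WB b) := inferInstanceAs (Module k (PowerSeries k))

private noncomputable instance instWB3 {k : Type} [Field k] (b : PowerSeries k) :
    Module (Polynomial k) (WB b) :=
  Module.compHom (PowerSeries k) (Polynomial.aeval b : Polynomial k →ₐ[k] PowerSeries k).toRingHom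

/-- a functional on the power series which is linear over the polynomials in `b` on a finitely
generated module -/
private theorem exists_mu {k K : Type} [Field k] [Field K] [Algebra k K] {b : PowerSeries k}
    (hb : Transcendental k b) {α : K} (hα : Transcendental k α) {g : PowerSeries k} (hg : g ≠ 0)
    {N : ℕ} (gl : Fin N → PowerSeries k) :
    ∃ μ : PowerSeries k →ₗ[k] K, μ g ≠ 0 ∧ ∀ l, μ (b * gl l) = α * μ (gl l) := by
  classical
  have hsm : ∀ (p : Polynomial k) (x : PowerSeries k),
      p • (show WB b from x) = (show WB b from (Polynomial.aeval b p * x : PowerSeries k)) :=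
    fun p x => rfl
  haveI : IsScalarTower k (Polynomial k) (WB b) := by
    refine ⟨fun c p x => ?_⟩
    have h1 : ∀ y : PowerSeries k, Polynomial.aeval b (c • p) * y =
        c • (Polynomial.aeval b p * y) := by
      intro y
      rw [map_smul, smul_mul_assoc]
    exact h1 x
  haveI : Module.IsTorsionFree (Polynomial k) (WB b) := by
    refine Module.isTorsionFree_iff_smul_eq_zero.2 ?_
    intro p x hpx
    have key : ∀ y : PowerSeries k, Polynomial.aeval b p * y = 0 → p = 0 ∨ y = 0 := by
      intro y hy
      rcases mul_eq_zero.1 hy with h2 | h2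
      · left
        by_contra hp
        exact hb ⟨p, hp, h2⟩
      · exact Or.inr h2
    exact key x hpx
  obtain ⟨F, hF1, hF2⟩ := exists_F (R := Polynomial k) (W := WB b) (Polynomial.aeval α) (by
    intro p hp
    by_contra h0
    exact hα ⟨p, h0, hp⟩) g hg gl
  let F' : PowerSeries k →ₗ[k] K := F
  refine ⟨F', hF1, fun l => ?_⟩
  have h1 := hF2 l Polynomial.X
  rw [Polynomial.aeval_X] at h1
  have h2 : F (show WB b from (Polynomial.aeval b (Polynomial.X : Polynomial k) * gl l :
      PowerSeries k)) = α * F (gl l) := h1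
  rw [Polynomial.aeval_X] at h2
  exact h2

private theorem coeff2_prod {k : Type} [Field k] (u v : PowerSeries k) (m j : ℕ) :
    coeff m (coeff j (zs u * ws v)) = coeff m u * coeff j v := by
  rw [coeff_zs_mul, coeff_ws, coeff_mul_C]

theorem sep {k : Type} [Field k] [CharZero k] (a b f g : PowerSeries k) (ha : d⁄dX k a ≠ 0)
    (hb : d⁄dX k b ≠ 0) {N : ℕ} (fl gl : Fin N → PowerSeries k)
    (h : zs f * ws g = (1 - zs a * ws b) * ∑ l, zs (fl l) * ws (gl l)) : f = 0 ∨ g = 0 := by
  by_cases hg : g = 0
  · exact Or.inr hg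
  left
  let K := FractionRing (PowerSeries k)
  let θ : PowerSeries k →ₐ[k] K := IsScalarTower.toAlgHom k (PowerSeries k) K
  have hθ : Function.Injective θ := IsFractionRing.injective (PowerSeries k) K
  have ha0 : a ≠ 0 := by
    rintro rfl
    exact ha (map_zero _)
  have hθa : θ a ≠ 0 := fun h0 => ha0 (hθ (by rw [h0, map_zero]))
  have hta : Transcendental k (θ a)⁻¹ := by
    intro h1
    have h2 : IsAlgebraic k (θ a) := IsAlgebraic.inv_iff.1 h1
    have h3 : IsAlgebraic k a := (isAlgebraic_algHom_iff θ hθ).1 h2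
    exact trans_of_d ha h3
  obtain ⟨μ, hμg, hμ⟩ := exists_mu (trans_of_d hb) hta hg gl
  let u : Option (Fin N ⊕ Fin N) → PowerSeries k := fun i =>
    i.elim f (Sum.elim (fun l => -fl l) fun l => a * fl l)
  let v : Option (Fin N ⊕ Fin N) → PowerSeries k := fun i =>
    i.elim g (Sum.elim gl fun l => b * gl l)
  have h1 : ∑ i, zs (u i) * ws (v i) = 0 := by
    rw [Fintype.sum_option, Fintype.sum_sum_type]
    show zs f * ws g + (∑ l, zs (-fl l) * ws (gl l) + ∑ l, zs (a * fl l) * ws (b * gl l)) = 0
    rw [h, sub_mul, one_mul, Finset.mul_sum]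
    have e1 : ∑ l, zs (-fl l) * ws (gl l) = -∑ l, zs (fl l) * ws (gl l) := by
      rw [← Finset.sum_neg_distrib]
      refine Finset.sum_congr rfl fun l _ => ?_
      rw [zs_neg, neg_mul]
    have e2 : ∑ l, zs (a * fl l) * ws (b * gl l) =
        ∑ l, zs a * ws b * (zs (fl l) * ws (gl l)) := by
      refine Finset.sum_congr rfl fun l _ => ?_
      rw [zs_mul, ws_mul]
      ring
    rw [e1, e2]
    ring
  have h2 := tens θ μ Finset.univ u v (by
    intro m j
    have h3 := congrArg (fun x => coeff m (coeff j x)) h1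
    simp only [map_sum, map_zero] at h3
    rw [← h3]
    exact Finset.sum_congr rfl fun i _ => (coeff2_prod _ _ _ _).symm)
  rw [Fintype.sum_option, Fintype.sum_sum_type] at h2
  have h3 : θ f * μ g + (∑ l, θ (-fl l) * μ (gl l) + ∑ l, θ (a * fl l) * μ (b * gl l)) = 0 := h2
  have h4 : ∑ l, θ (a * fl l) * μ (b * gl l) = -∑ l, θ (-fl l) * μ (gl l) := by
    rw [← Finset.sum_neg_distrib]
    refine Finset.sum_congr rfl fun l _ => ?_
    rw [hμ, map_mul, map_neg]
    have h6 := mul_inv_cancel₀ hθa
    linear_combination (θ (fl l) * μ (gl l)) * h6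
  rw [h4, add_neg_cancel, add_zero] at h3
  have h5 := (mul_eq_zero.1 h3).resolve_right hμg
  exact hθ (by rw [h5, map_zero])

end Pool.Agent.Work.MP_abe657_gt.CM
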