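import Pool.Agent.Work.MP_abe657_gt.CM.Exp0
import Pool.Agent.Work.MP_abe657_gt.CM.Sep
import Pool.Agent.Work.MP_abe657_gt.CM.Num
import Pool.Agent.Work.MP_abe657_gt.CM.AnnMap

/-!
# MP_abe657_gt, part CM, module NPf

Size S-M (assembly). There is no datum over a field with `h2 = 0`, `Q ≠ 0`, `Qt ≠ 0` whose normal is annihilated by `L^K`.

Proof. Take `F, G, r` (`base_exists`) and the component `c = 0` (`vec_exists`, initial value `Pi.single 0 1`); `PL K μ G n`
with `μ = (1, 0, 0, ..)` is `(Lop G)^[K] n`, so it vanishes. `exp0` gives `a, b` with `a' = Q ≠ 0`, `2 b' = -Qt ≠ 0`. Let `v` be the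
inverse of `u = 1 - zs a * ws b` (`v = u * G`); `G = v^2`. `n = N v` with
`N = u * zs (coeff 0 n) + cc 2 * zs e * ws b`, `e = coeff 0 e1`, separated. `num_main`: `κ^K N = u T`, hence
`zs (C 2 * a^K * a'^K * e) * ws (b^K * b'^K * b) = u * (T - κ^K * zs (coeff 0 n))`, the last factor being separated. By `sep` one of
the two series is `0`. But `2`, `a` (as `a' ≠ 0`), `a'`, `e` (as `coeff 0 e = 1`), `b`, `b'` are all nonzero and
`PowerSeries k` is a domain.
-/

set_option autoImplicit false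

namespace Pool.Agent.Work.MP_abe657_gt.CM

open PowerSeries

theorem npf {k : Type} [Field k] [CharZero k] (D : Dat k) (h2 : D.h2 = 0) (hQ : D.Q ≠ 0)
    (hQt : D.Qt ≠ 0) (K : ℕ) (h : Ann K (fun i => if i = 0 then 1 else 0) D) : False := by
  obtain ⟨F, G, r, hB⟩ := base_exists D
  obtain ⟨e1, e2, n, hV⟩ := vec_exists D F G r (Pi.single (0 : Fin 3) 1)
  have hPL := h F G r e1 e2 n 0 hB hV
  have hL : (Lop G)^[K] n = 0 := by
    rw [← hPL]
    unfold PL
    rw [Finset.sum_eq_single 0]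
    · show (Lop G)^[K] n = cc (if (0 : ℕ) = 0 then (1 : k) else 0) * (Lop G)^[K - 0] n
      rw [if_pos rfl, cc_one, one_mul, Nat.sub_zero]
    · intro i _ hi
      show cc (if i = 0 then (1 : k) else 0) * (Lop G)^[K - i] n = 0
      rw [if_neg hi, cc_zero, zero_mul]
    · intro h0
      exact absurd (Finset.mem_range.2 (Nat.succ_pos K)) h0
  obtain ⟨a, b, ha, hb, hG, hn'⟩ := exp0 h2 hB
  have hn := hn' _ e1 e2 n hV
  have hv : (1 - zs a * ws b) * ((1 - zs a * ws b) * G) = 1 := by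
    linear_combination hG
  have hG2 : ((1 - zs a * ws b) * G) ^ 2 = G := by
    calc ((1 - zs a * ws b) * G) ^ 2 = ((1 - zs a * ws b) ^ 2 * G) * G := by ring
      _ = G := by rw [hG, one_mul]
  have hu : IsSep (1 - zs a * ws b) := by
    have h1 : IsSep (1 : P2 k) := by
      rw [← zs_one]
      exact isSep_zs 1
    exact h1.sub (isSep_mk a b)
  have hsN : IsSep ((1 - zs a * ws b) * zs (coeff 0 n) + cc 2 * zs (coeff 0 e1) * ws b) :=
    (hu.mul (isSep_zs _)).add (((isSep_cc _).mul (isSep_zs _)).mul (isSep_ws _))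
  have hnN : ((1 - zs a * ws b) * zs (coeff 0 n) + cc 2 * zs (coeff 0 e1) * ws b) *
      ((1 - zs a * ws b) * G) = n := by
    linear_combination (-((1 - zs a * ws b) * G)) * hn + n * hv
  obtain ⟨T, hT, hTe⟩ := num_main a b ((1 - zs a * ws b) * G) hv
    ((1 - zs a * ws b) * zs (coeff 0 n) + cc 2 * zs (coeff 0 e1) * ws b) hsN K
    (by rw [hnN, hG2, hL])
  have hκ : IsSep (zs a * ws b * zs (d⁄dX k a) * ws (d⁄dX k b)) :=
    ((isSep_mk a b).mul (isSep_zs _)).mul (isSep_ws _)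
  obtain ⟨M, fl, gl, hfg⟩ : IsSep (T - (zs a * ws b * zs (d⁄dX k a) * ws (d⁄dX k b)) ^ K *
    zs (coeff 0 n)) := hT.sub ((hκ.pow K).mul (isSep_zs _))
  have ha' : d⁄dX k a ≠ 0 := by rw [ha]; exact hQ
  have hb' : d⁄dX k b ≠ 0 := by
    intro h0
    rw [h0, mul_zero] at hb
    exact hQt (neg_eq_zero.1 hb.symm)
  have hzp : ∀ (p : PowerSeries k) (m : ℕ), (zs (p ^ m) : P2 k) = zs p ^ m := fun p m => map_pow _ p m
  have hwp : ∀ (p : PowerSeries k) (m : ℕ), (ws (p ^ m) : P2 k) = ws p ^ m := fun p m => map_pow _ p m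
  have hkey : zs (C 2 * a ^ K * (d⁄dX k a) ^ K * coeff 0 e1) * ws (b ^ K * (d⁄dX k b) ^ K * b)
      = (1 - zs a * ws b) * ∑ l, zs (fl l) * ws (gl l) := by
    rw [← hfg, zs_mul, zs_mul, zs_mul, ws_mul, ws_mul, hzp, hzp, hwp, hwp, zs_C]
    linear_combination hTe
  have h0a : a ≠ 0 := by
    intro h0
    apply ha'
    rw [h0, map_zero]
  have h0b : b ≠ 0 := by
    intro h0
    apply hb'
    rw [h0, map_zero]
  have h0e : coeff 0 e1 ≠ 0 := by
    intro h0
    have h1 := hV.i1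
    rw [h0, map_zero] at h1
    rw [Pi.single_eq_same] at h1
    exact zero_ne_one h1
  have h02 : (C (2 : k) : PowerSeries k) ≠ 0 := by
    intro h0
    have h1 : (2 : k) = 0 := by
      have := congrArg (coeff 0) h0
      rw [coeff_zero_C, map_zero] at this
      exact this
    exact two_ne_zero h1
  rcases sep a b _ _ ha' hb' fl gl hkey with h1 | h1
  · exact mul_ne_zero (mul_ne_zero (mul_ne_zero h02 (pow_ne_zero _ h0a)) (pow_ne_zero _ ha')) h0e h1
  · exact mul_ne_zero (mul_ne_zero (pow_ne_zero _ h0b) (pow_ne_zero _ hb')) h0b h1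

end Pool.Agent.Work.MP_abe657_gt.CM
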