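import Pool.Agent.Work.MP_abe657_gt.CM.NPf
import Pool.Agent.Work.MP_abe657_gt.CM.HFacts

/-!
# MP_abe657_gt, part CM, module NPv

Size S-M (assembly). Case `N'` over the valued field `K = HahnSeries ℝ k`, `OO k` its valuation ring, `res` the residue map.

Proof. `Ann.of_map_injective` (with `(OO k).subtype`, injective) gives `Ann K μ D` and `Ann K μ D.swap` over `OO k`; `Ann.map` (with
`res k`) gives `Ann K (fun i => res (μ i)) (D.map (res k))` and the same for `D.swap`; `fun i => res (μ i)` is
`fun i => if i = 0 then 1 else 0` by `hμ0`, `hμ`. As `res h1 * res h2 = 0` in the field `k`, either `res h2 = 0`: `npf` for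
`D.map (res k)`; or `res h1 = 0`: `npf` for `D.swap.map (res k)`.
-/

set_option autoImplicit false

namespace Pool.Agent.Work.MP_abe657_gt.CM

open PowerSeries

theorem npv {k : Type} [Field k] [CharZero k] (D : Dat (OO k)) (hh : res k D.h1 * res k D.h2 = 0)
    (hQ : PowerSeries.map (res k) D.Q ≠ 0) (hQt : PowerSeries.map (res k) D.Qt ≠ 0) (K : ℕ)
    (μ : ℕ → OO k) (hμ0 : μ 0 = 1) (hμ : ∀ i, 1 ≤ i → res k (μ i) = 0)
    (h : Ann K (fun i => (μ i : HahnSeries ℝ k)) (D.map (OO k).subtype))
    (h' : Ann K (fun i => (μ i : HahnSeries ℝ k)) (D.swap.map (OO k).subtype)) : False := by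
  have hA : Ann K μ D := Ann.of_map_injective (OO k).subtype Subtype.val_injective h
  have hA' : Ann K μ D.swap := Ann.of_map_injective (OO k).subtype Subtype.val_injective h'
  have hB := hA.map (res k)
  have hB' := hA'.map (res k)
  have e : (fun i => res k (μ i)) = fun i => if i = 0 then 1 else 0 := by
    funext i
    split_ifs with hi
    · rw [hi, hμ0, map_one]
    · exact hμ i (Nat.one_le_iff_ne_zero.2 hi)
  rw [e] at hB hB'
  rcases mul_eq_zero.1 hh with h1 | h2
  · exact npf (D.swap.map (res k)) h1 hQt hQ K hB'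
  · exact npf (D.map (res k)) h2 hQ hQt K hB

end Pool.Agent.Work.MP_abe657_gt.CM
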