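import Pool.Agent.Work.MP_abe657_gt.CM.Tran

/-!
# MP_abe657_gt, part CM, module NullC

Size M. Null coordinates: two commuting null vector fields.

Proof. An element of `P2 ℂ` is a unit iff its `v0` is nonzero (`PowerSeries.isUnit_iff_constantCoeff` twice). Let `s * s = g12^2 - g11 * g22`
(`sqrt2`), `v0 s ≠ 0`, let `p` be the inverse of `g11` and `σ₊ = (-g12 + s) p`, `σ₋ = (-g12 - s) p`: `g11 σ^2 + 2 g12 σ + g22 = 0` for both,
`σ₊ + σ₋ = -2 g12 p`, `σ₊ σ₋ = g22 p`. Let `f₊, f₋` be given by `tran σ₊`, `tran σ₋`: `v0 (dZ f±) = coeff 1 X = 1`, so `dZ f±` are units;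
`J = dZ f₊ * dW f₋ - dW f₊ * dZ f₋ = dZ f₊ * dZ f₋ * (σ₊ - σ₋) = 2 dZ f₊ dZ f₋ s p` is a unit, `j = J⁻¹`. Put
`a1 = -(dW f₊) * j = σ₊ dZ f₊ j`, `b1 = dZ f₊ * j`, `a2 = dW f₋ * j = -σ₋ dZ f₋ j`, `b2 = -(dZ f₋) * j`. Then `D1 f₊ = 0`, `D1 f₋ = 1`,
`D2 f₋ = 0`, `D2 f₊ = 1`, null by the equations of `σ±`, and the product is
`-(dZ f₊ dZ f₋ j^2) (g11 σ₊ σ₋ + g12 (σ₊ + σ₋) + g22) = -(dZ f₊ dZ f₋ j^2) 2 (g11 g22 - g12^2) p`, a unit. Commutator:
`D1 (D2 f) - D2 (D1 f) = A * dZ f + B * dW f` for all `f`, with `A = D1 a2 - D2 a1`, `B = D1 b2 - D2 b1` (Leibniz, `dZ_dW`). For `f = f₊, f₋` the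
left side is `0`, so `A dZ f± + B dW f± = 0`, hence `J A = J B = 0` and `A = B = 0`.
-/

set_option autoImplicit false

namespace Pool.Agent.Work.MP_abe657_gt.CM

open PowerSeries

private theorem v0_mul' (f g : P2 ℂ) : v0 (f * g) = v0 f * v0 g := by
  simp only [v0, coeff_zero_eq_constantCoeff, map_mul]

private theorem isUnit_of_v0' {f : P2 ℂ} (h : v0 f ≠ 0) : IsUnit f := by
  rw [PowerSeries.isUnit_iff_constantCoeff, PowerSeries.isUnit_iff_constantCoeff]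
  rw [v0, coeff_zero_eq_constantCoeff, coeff_zero_eq_constantCoeff] at h
  exact isUnit_iff_ne_zero.2 h

private theorem v0_dZ_of_X {f : P2 ℂ} (h : coeff 0 f = PowerSeries.X) : v0 (dZ f) = 1 := by
  rw [v0, coeff_dZ, h, coeff_derivative, coeff_one_X]
  simp

private theorem vf_comm_aux (a1 b1 a2 b2 f : P2 ℂ) :
    vf a1 b1 (vf a2 b2 f) - vf a2 b2 (vf a1 b1 f) =
      (vf a1 b1 a2 - vf a2 b2 a1) * dZ f + (vf a1 b1 b2 - vf a2 b2 b1) * dW f := by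
  simp only [vf, dZ_add, dW_add, dZ_mul, dW_mul, dZ_dW]
  ring

theorem nullC (g11 g12 g22 : P2 ℂ) (h11 : v0 g11 ≠ 0) (hdet : v0 (g11 * g22 - g12 ^ 2) ≠ 0) :
    ∃ a1 b1 a2 b2 : P2 ℂ, (∀ f, vf a1 b1 (vf a2 b2 f) = vf a2 b2 (vf a1 b1 f)) ∧
      g11 * a1 ^ 2 + 2 * g12 * a1 * b1 + g22 * b1 ^ 2 = 0 ∧
      g11 * a2 ^ 2 + 2 * g12 * a2 * b2 + g22 * b2 ^ 2 = 0 ∧
      IsUnit (g11 * a1 * a2 + g12 * (a1 * b2 + a2 * b1) + g22 * b1 * b2) := by
  have hdu : IsUnit (g11 * g22 - g12 ^ 2) := isUnit_of_v0' hdet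
  have hneg : v0 (g12 ^ 2 - g11 * g22) ≠ 0 := by
    intro h
    apply hdet
    have h1 : g11 * g22 - g12 ^ 2 = -(g12 ^ 2 - g11 * g22) := by ring
    rw [h1]
    simp only [v0, map_neg] at h ⊢
    rw [h, neg_zero]
  obtain ⟨s, hs⟩ := sqrt2 _ hneg
  have hsu : IsUnit s := by
    have h1 : IsUnit (s * s) := by
      rw [hs]
      exact isUnit_of_v0' hneg
    exact isUnit_of_mul_isUnit_left h1
  obtain ⟨p, hp⟩ := (isUnit_of_v0' h11).exists_right_inv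
  have hpu : IsUnit p := IsUnit.of_mul_eq_one _ (by rw [mul_comm]; exact hp)
  obtain ⟨fp, hfp, hfp0⟩ := tran ((-g12 + s) * p)
  obtain ⟨fm, hfm, hfm0⟩ := tran ((-g12 - s) * p)
  have hup : IsUnit (dZ fp) := isUnit_of_v0' (by rw [v0_dZ_of_X hfp0]; exact one_ne_zero)
  have hum : IsUnit (dZ fm) := isUnit_of_v0' (by rw [v0_dZ_of_X hfm0]; exact one_ne_zero)
  have h2u : IsUnit (2 : P2 ℂ) := by
    have h : (2 : P2 ℂ) = ((1 : ℕ) : P2 ℂ) + 1 := by norm_num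
    rw [h]
    exact IntInv.isUnit_succ 1
  have hJ : dZ fp * dW fm - dW fp * dZ fm = 2 * dZ fp * dZ fm * s * p := by
    rw [hfp, hfm]
    ring
  have hJu : IsUnit (dZ fp * dW fm - dW fp * dZ fm) := by
    rw [hJ]
    exact (((h2u.mul hup).mul hum).mul hsu).mul hpu
  obtain ⟨j, hj⟩ := hJu.exists_right_inv
  have hju : IsUnit j := IsUnit.of_mul_eq_one _ (by rw [mul_comm]; exact hj)
  refine ⟨-(dW fp) * j, dZ fp * j, dW fm * j, -(dZ fm) * j, ?_, ?_, ?_, ?_⟩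
  · intro f
    rw [← sub_eq_zero, vf_comm_aux]
    set a1 := -(dW fp) * j with ha1
    set b1 := dZ fp * j with hb1
    set a2 := dW fm * j with ha2
    set b2 := -(dZ fm) * j with hb2
    have e1 : vf a1 b1 fp = 0 := by rw [vf, ha1, hb1]; ring
    have e2 : vf a1 b1 fm = 1 := by
      rw [vf, ha1, hb1, ← hj]; ring
    have e3 : vf a2 b2 fm = 0 := by rw [vf, ha2, hb2]; ring
    have e4 : vf a2 b2 fp = 1 := by
      rw [vf, ha2, hb2, ← hj]; ring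
    have c1 : ∀ a b : P2 ℂ, vf a b 1 = 0 := by
      intro a b
      rw [vf, dZ_one, dW_one]; ring
    have c0 : ∀ a b : P2 ℂ, vf a b 0 = 0 := by
      intro a b
      rw [vf, dZ_zero, dW_zero]; ring
    have k1 := vf_comm_aux a1 b1 a2 b2 fp
    have k2 := vf_comm_aux a1 b1 a2 b2 fm
    rw [e4, e1, c1, c0, sub_zero] at k1
    rw [e3, e2, c1, c0, sub_zero] at k2
    set A := vf a1 b1 a2 - vf a2 b2 a1 with hA
    set B := vf a1 b1 b2 - vf a2 b2 b1 with hB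
    have hA0 : A = 0 := by
      linear_combination (-A) * hj + (-(j * dW fm)) * k1 + (j * dW fp) * k2
    have hB0 : B = 0 := by
      linear_combination (-B) * hj + (j * dZ fm) * k1 + (-(j * dZ fp)) * k2
    rw [hA0, hB0]
    ring
  · rw [hfp]
    linear_combination (j ^ 2 * dZ fp ^ 2 * (p * (-g12 + s) ^ 2 - g22)) * hp
      + (j ^ 2 * dZ fp ^ 2 * p) * hs
  · rw [hfm]
    linear_combination (j ^ 2 * dZ fm ^ 2 * (p * (-g12 - s) ^ 2 - g22)) * hp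
      + (j ^ 2 * dZ fm ^ 2 * p) * hs
  · have h : g11 * (-(dW fp) * j) * (dW fm * j) + g12 * (-(dW fp) * j * (-(dZ fm) * j)
        + dW fm * j * (dZ fp * j)) + g22 * (dZ fp * j) * (-(dZ fm) * j)
        = -(dZ fp * dZ fm * j ^ 2 * 2 * (g11 * g22 - g12 ^ 2) * p) := by
      rw [hfp, hfm]
      linear_combination (-(dZ fp * dZ fm * j ^ 2) * (p * (g12 ^ 2 - s ^ 2) - g22)) * hp
        + (dZ fp * dZ fm * j ^ 2 * p) * hs
    rw [h]
    exact (((((hup.mul hum).mul (hju.pow 2)).mul h2u).mul hdu).mul hpu).neg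

end Pool.Agent.Work.MP_abe657_gt.CM
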