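import Pool.Agent.Work.MP_abe657_gt.CM.Lin

/-!
# MP_abe657_gt, part CM, module PertA

Size M. Two data which agree except for the coefficients of degree `≥ j` of `Qt` (all `R` with `IntInv R`).

Proof (compare coefficients of `w^l`; `coeff_dW`, `coeff_dZ`, `coeff_mul`, `coeff_ws`, `coeff_zs_mul`).
`pert_base`: prove by induction on `l`: if `l ≤ j` then `coeff l' F = coeff l' F'`, `coeff l' G = coeff l' G'` for `l' ≤ l` and
`coeff l' r = coeff l' r'` for `l' < l`. Start: `F0`, `G0`. Step `l → l + 1 ≤ j`: by `r_z`, `dX (coeff l r)` only involves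
`coeff l' F`, `coeff l' G`, `coeff l' Qt` with `l' ≤ l < j`, so `coeff l r = coeff l r'` by `ps_eq_of_derivative` and `r0`;
then `coeff (l+1) F * (l+1) = ∑ coeff p r * coeff q F` over `p + q = l`, and the same for `G`; cancel `l + 1`
(`mul_succ_cancel` in `PowerSeries R`).
`pert_vec`: on the axis (`l = 0`) the three components agree: the system `e1_z, e2_z, n_z, i1, i2, i3` has the same
coefficients (`hQ`, `h1`); agreement by induction on the `z`-degree (or `ps_eq_of_derivative` inductively). Step
`l → l + 1 ≤ j`: `coeff (l+1) e1 * (l+1) = C h2 * ∑ coeff p F * coeff q n` (`p + q = l`), etc., all terms agree. Last claim: the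
coefficient of `w^j` in `n_w`: `coeff (j+1) n * (j+1) = -∑_{p+q+s=j} C (coeff p Qt) * coeff q G * coeff s e1 - C h2 * coeff j e2`,
and in the difference only the term `p = j`, `q = s = 0` survives, with `coeff 0 G = 1`.
-/

set_option autoImplicit false

namespace Pool.Agent.Work.MP_abe657_gt.CM

open PowerSeries

variable {R : Type} [CommRing R] [IntInv R]

private theorem mulc {A : Type} [CommRing A] {f f' g g' : PowerSeries A} {j : ℕ}
    (hf : ∀ l ≤ j, coeff l f = coeff l f') (hg : ∀ l ≤ j, coeff l g = coeff l g') :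
    ∀ l ≤ j, coeff l (f * g) = coeff l (f' * g') := by
  intro l hl
  rw [coeff_mul, coeff_mul]
  refine Finset.sum_congr rfl fun p hp => ?_
  have h := Finset.HasAntidiagonal.mem_antidiagonal.mp hp
  rw [hf p.1 (by omega), hg p.2 (by omega)]

private theorem addc {A : Type} [CommRing A] {f f' g g' : PowerSeries A} {j : ℕ}
    (hf : ∀ l ≤ j, coeff l f = coeff l f') (hg : ∀ l ≤ j, coeff l g = coeff l g') :
    ∀ l ≤ j, coeff l (f + g) = coeff l (f' + g') := by
  intro l hl
  rw [map_add, map_add, hf l hl, hg l hl]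

private theorem subc {A : Type} [CommRing A] {f f' g g' : PowerSeries A} {j : ℕ}
    (hf : ∀ l ≤ j, coeff l f = coeff l f') (hg : ∀ l ≤ j, coeff l g = coeff l g') :
    ∀ l ≤ j, coeff l (f - g) = coeff l (f' - g') := by
  intro l hl
  rw [map_sub, map_sub, hf l hl, hg l hl]

private theorem negc {A : Type} [CommRing A] {f f' : PowerSeries A} {j : ℕ}
    (hf : ∀ l ≤ j, coeff l f = coeff l f') :
    ∀ l ≤ j, coeff l (-f) = coeff l (-f') := by
  intro l hl
  rw [map_neg, map_neg, hf l hl]

private theorem wsc {q q' : PowerSeries R} {j : ℕ} (h : ∀ l ≤ j, coeff l q = coeff l q') :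
    ∀ l ≤ j, coeff l (ws q) = coeff l (ws q') := by
  intro l hl
  rw [coeff_ws, coeff_ws, h l hl]

theorem pert_base {D D' : Dat R} {F G r F' G' r' : P2 R} (j : ℕ) (h1 : D.h1 = D'.h1)
    (h2 : D.h2 = D'.h2) (hQ : D.Q = D'.Q) (hQt : ∀ l < j, coeff l D.Qt = coeff l D'.Qt)
    (hB : IsBase D F G r) (hB' : IsBase D' F' G' r') :
    (∀ l ≤ j, coeff l F = coeff l F') ∧ (∀ l ≤ j, coeff l G = coeff l G') ∧
      (∀ l < j, coeff l r = coeff l r') := by
  have key : ∀ m ≤ j, (∀ l ≤ m, coeff l F = coeff l F') ∧ (∀ l ≤ m, coeff l G = coeff l G') ∧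
      (∀ l < m, coeff l r = coeff l r') := by
    intro m
    induction m with
    | zero =>
      intro _
      refine ⟨?_, ?_, ?_⟩
      · intro l hl
        obtain rfl : l = 0 := Nat.le_zero.mp hl
        rw [hB.F0, hB'.F0]
      · intro l hl
        obtain rfl : l = 0 := Nat.le_zero.mp hl
        rw [hB.G0, hB'.G0]
      · intro l hl
        exact absurd hl (Nat.not_lt_zero l)
    | succ m ih =>
      intro hm
      obtain ⟨hF, hG, hr⟩ := ih (by omega)
      have hq : ∀ l ≤ m, coeff l (ws D.Qt) = coeff l (ws D'.Qt) :=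
        wsc fun l hl => hQt l (by omega)
      have hrm : coeff m r = coeff m r' := by
        refine ps_eq_of_derivative ?_ ?_
        · rw [← coeff_dZ, ← coeff_dZ, hB.r_z, hB'.r_z, h1, h2, hQ]
          exact addc (negc (mulc (fun _ _ => rfl) hF)) (mulc (mulc (fun _ _ => rfl) hq) hG) m le_rfl
        · rw [hB.r0, hB'.r0]
      have hr' : ∀ l ≤ m, coeff l r = coeff l r' := by
        intro l hl
        rcases Nat.lt_or_ge l m with h | h
        · exact hr l h
        · obtain rfl : l = m := le_antisymm hl h
          exact hrm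
      have hFm : coeff (m + 1) F = coeff (m + 1) F' := by
        refine mul_succ_cancel m ?_
        rw [← coeff_dW, ← coeff_dW, hB.F_w, hB'.F_w]
        exact mulc hr' hF m le_rfl
      have hGm : coeff (m + 1) G = coeff (m + 1) G' := by
        refine mul_succ_cancel m ?_
        rw [← coeff_dW, ← coeff_dW, hB.G_w, hB'.G_w]
        exact negc (mulc hr' hG) m le_rfl
      refine ⟨?_, ?_, fun l hl => hr' l (by omega)⟩
      · intro l hl
        rcases Nat.lt_or_ge l (m + 1) with h | h
        · exact hF l (by omega)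
        · obtain rfl : l = m + 1 := le_antisymm hl h
          exact hFm
      · intro l hl
        rcases Nat.lt_or_ge l (m + 1) with h | h
        · exact hG l (by omega)
        · obtain rfl : l = m + 1 := le_antisymm hl h
          exact hGm
  exact key j le_rfl

theorem pert_vec {D D' : Dat R} {F G r F' G' r' : P2 R} {a : Fin 3 → R} {e1 e2 n e1' e2' n' : P2 R}
    (j : ℕ) (h1 : D.h1 = D'.h1)
    (h2 : D.h2 = D'.h2) (hQ : D.Q = D'.Q) (hQt : ∀ l < j, coeff l D.Qt = coeff l D'.Qt)
    (hB : IsBase D F G r) (hB' : IsBase D' F' G' r')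
    (hV : IsVec D F G r a e1 e2 n) (hV' : IsVec D' F' G' r' a e1' e2' n') :
    (∀ l ≤ j, coeff l e1 = coeff l e1' ∧ coeff l e2 = coeff l e2' ∧ coeff l n = coeff l n') ∧
      (coeff (j + 1) n - coeff (j + 1) n') * ((j : PowerSeries R) + 1)
        = -(C (coeff j D.Qt - coeff j D'.Qt) * coeff 0 e1) := by
  obtain ⟨hF, hG, hr⟩ := pert_base j h1 h2 hQ hQt hB hB'
  -- the axis
  have ax : ∀ i, (∀ l ≤ i, coeff l (coeff 0 e1) = coeff l (coeff 0 e1')) ∧
      (∀ l ≤ i, coeff l (coeff 0 e2) = coeff l (coeff 0 e2')) ∧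
      (∀ l ≤ i, coeff l (coeff 0 n) = coeff l (coeff 0 n')) := by
    intro i
    induction i with
    | zero =>
      refine ⟨?_, ?_, ?_⟩
      · intro l hl
        obtain rfl : l = 0 := Nat.le_zero.mp hl
        rw [hV.i1, hV'.i1]
      · intro l hl
        obtain rfl : l = 0 := Nat.le_zero.mp hl
        rw [hV.i2, hV'.i2]
      · intro l hl
        obtain rfl : l = 0 := Nat.le_zero.mp hl
        rw [hV.i3, hV'.i3]
    | succ i ih =>
      obtain ⟨g1, g2, g3⟩ := ih
      have s1 : coeff (i + 1) (coeff 0 e1) = coeff (i + 1) (coeff 0 e1') := by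
        refine mul_succ_cancel i ?_
        rw [← coeff_derivative, ← coeff_derivative, hV.e1_z, hV'.e1_z, hQ]
        exact mulc (fun _ _ => rfl) g3 i le_rfl
      have s2 : coeff (i + 1) (coeff 0 e2) = coeff (i + 1) (coeff 0 e2') := by
        refine mul_succ_cancel i ?_
        rw [← coeff_derivative, ← coeff_derivative, hV.e2_z, hV'.e2_z, h1]
        exact mulc (fun _ _ => rfl) g3 i le_rfl
      have s3 : coeff (i + 1) (coeff 0 n) = coeff (i + 1) (coeff 0 n') := by
        refine mul_succ_cancel i ?_
        rw [← coeff_derivative, ← coeff_derivative, hV.n_z, hV'.n_z, h1, hQ]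
        exact subc (negc (mulc (fun _ _ => rfl) g1)) (mulc (fun _ _ => rfl) g2) i le_rfl
      refine ⟨?_, ?_, ?_⟩
      · intro l hl
        rcases Nat.lt_or_ge l (i + 1) with h | h
        · exact g1 l (by omega)
        · obtain rfl : l = i + 1 := le_antisymm hl h
          exact s1
      · intro l hl
        rcases Nat.lt_or_ge l (i + 1) with h | h
        · exact g2 l (by omega)
        · obtain rfl : l = i + 1 := le_antisymm hl h
          exact s2
      · intro l hl
        rcases Nat.lt_or_ge l (i + 1) with h | h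
        · exact g3 l (by omega)
        · obtain rfl : l = i + 1 := le_antisymm hl h
          exact s3
  have key : ∀ m ≤ j, (∀ l ≤ m, coeff l e1 = coeff l e1') ∧ (∀ l ≤ m, coeff l e2 = coeff l e2') ∧
      (∀ l ≤ m, coeff l n = coeff l n') := by
    intro m
    induction m with
    | zero =>
      intro _
      refine ⟨?_, ?_, ?_⟩
      · intro l hl
        obtain rfl : l = 0 := Nat.le_zero.mp hl
        ext i
        exact (ax i).1 i le_rfl
      · intro l hl
        obtain rfl : l = 0 := Nat.le_zero.mp hl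
        ext i
        exact (ax i).2.1 i le_rfl
      · intro l hl
        obtain rfl : l = 0 := Nat.le_zero.mp hl
        ext i
        exact (ax i).2.2 i le_rfl
    | succ m ih =>
      intro hm
      obtain ⟨g1, g2, g3⟩ := ih (by omega)
      have hq : ∀ l ≤ m, coeff l (ws D.Qt) = coeff l (ws D'.Qt) :=
        wsc fun l hl => hQt l (by omega)
      have hF' : ∀ l ≤ m, coeff l F = coeff l F' := fun l hl => hF l (by omega)
      have hG' : ∀ l ≤ m, coeff l G = coeff l G' := fun l hl => hG l (by omega)
      have hr' : ∀ l ≤ m, coeff l r = coeff l r' := fun l hl => hr l (by omega)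
      have s1 : coeff (m + 1) e1 = coeff (m + 1) e1' := by
        refine mul_succ_cancel m ?_
        rw [← coeff_dW, ← coeff_dW, hV.e1_w, hV'.e1_w, h2]
        exact mulc (fun _ _ => rfl) (mulc hF' g3) m le_rfl
      have s2 : coeff (m + 1) e2 = coeff (m + 1) e2' := by
        refine mul_succ_cancel m ?_
        rw [← coeff_dW, ← coeff_dW, hV.e2_w, hV'.e2_w]
        exact addc (mulc hr' g2) (mulc hq g3) m le_rfl
      have s3 : coeff (m + 1) n = coeff (m + 1) n' := by
        refine mul_succ_cancel m ?_
        rw [← coeff_dW, ← coeff_dW, hV.n_w, hV'.n_w, h2]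
        exact subc (negc (mulc (mulc hq hG') g1)) (mulc (fun _ _ => rfl) g2) m le_rfl
      refine ⟨?_, ?_, ?_⟩
      · intro l hl
        rcases Nat.lt_or_ge l (m + 1) with h | h
        · exact g1 l (by omega)
        · obtain rfl : l = m + 1 := le_antisymm hl h
          exact s1
      · intro l hl
        rcases Nat.lt_or_ge l (m + 1) with h | h
        · exact g2 l (by omega)
        · obtain rfl : l = m + 1 := le_antisymm hl h
          exact s2
      · intro l hl
        rcases Nat.lt_or_ge l (m + 1) with h | h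
        · exact g3 l (by omega)
        · obtain rfl : l = m + 1 := le_antisymm hl h
          exact s3
  obtain ⟨g1, g2, g3⟩ := key j le_rfl
  refine ⟨fun l hl => ⟨g1 l hl, g2 l hl, g3 l hl⟩, ?_⟩
  have hA : ∀ l ≤ j, coeff l (G * e1) = coeff l (G' * e1') := mulc hG g1
  have e1h : coeff j (cc D.h2 * e2) = coeff j (cc D'.h2 * e2') := by
    rw [h2]
    exact mulc (fun _ _ => rfl) g2 j le_rfl
  have e2h : coeff j (ws D'.Qt * (G * e1)) = coeff j (ws D'.Qt * (G' * e1')) :=
    mulc (fun _ _ => rfl) hA j le_rfl
  have e3h : coeff j ((ws D.Qt - ws D'.Qt) * (G * e1)) =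
      C (coeff j D.Qt - coeff j D'.Qt) * coeff 0 e1 := by
    rw [coeff_mul, Finset.sum_eq_single (j, 0)]
    · rw [map_sub, coeff_ws, coeff_ws, coeff0_mul, hB.G0, one_mul, map_sub]
    · intro p hp hne
      have h := Finset.HasAntidiagonal.mem_antidiagonal.mp hp
      have hlt : p.1 < j := by
        rcases Nat.lt_or_ge p.1 j with h' | h'
        · exact h'
        · exfalso
          apply hne
          ext
          · simp only []; omega
          · simp only []; omega
      rw [map_sub, coeff_ws, coeff_ws, hQt p.1 hlt, sub_self, zero_mul]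
    · intro h
      exact absurd (Finset.HasAntidiagonal.mem_antidiagonal.mpr (Nat.add_zero j)) h
  rw [sub_mul, ← coeff_dW, ← coeff_dW, hV.n_w, hV'.n_w, map_sub, map_sub, map_neg, map_neg, e1h,
    mul_assoc, mul_assoc, ← e2h, ← e3h, sub_mul, map_sub]
  ring

end Pool.Agent.Work.MP_abe657_gt.CM
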