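import Pool.Agent.Work.MP_abe657_gt.CM.GDefs

/-!
# MP_abe657_gt, part CM, module PhiD

Size S. The embedding `phi : P2 ℂ →+* LL` and the Taylor map `tyT`.

Proof. `cf_phi : ck (cf (phi p) n) m = coeff m (coeff n p)`, `pow_phi`, `pow_ext` (equality of two elements with exponents in `ℕ`),
`Pow.dt`, `Pow.ds`, and the coefficient formulas `cf_dT`, `ck_dk`, `cf_dS`, `ck_rat_mul`: exactly as in the proofs of `tyT_pd0`, `tyT_pd1`
in `Taylor.lean`, with `coeff2_dZ`, `coeff2_dW`. `phi_cc`: as at the end of the proof of `exists_taylor` (`map_C`, `phiK_C`, `phiL_C`).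
`isTaylor_tyT` is the content of the proof of `exists_taylor` (copy it). `v0_tyP`: `eps_tyT` and `eps_phi`.
-/

set_option autoImplicit false

namespace Pool.Agent.Work.MP_abe657_gt.CM

open PowerSeries
open Pool.Agent.Work.MP_abe657_gt Pool.Agent.Work.MP_abe657_gt.TaylorAux
open scoped Topology ContDiff

theorem phi_dZ (f : P2 ℂ) : phi (dZ f) = dT (phi f) := by
  apply pow_ext (pow_phi _) (pow_phi _).dt
  intro m n
  have h := cf_phi f (m + 1) n
  push_cast at h
  rw [cf_phi, cf_dT, ck_dk, h, coeff2_dZ]
  push_cast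
  ring

theorem phi_dW (f : P2 ℂ) : phi (dW f) = dS (phi f) := by
  apply pow_ext (pow_phi _) (pow_phi _).ds
  intro m n
  have h := cf_phi f m (n + 1)
  push_cast at h
  rw [cf_phi, cf_dS, ck_rat_mul, h, coeff2_dW]
  push_cast
  ring

theorem phi_cc (c : ℂ) : phi (cc c) = algebraMap ℂ LL c := by
  change phiL (PowerSeries.map phiK (PowerSeries.C (PowerSeries.C c))) = _
  rw [PowerSeries.map_C, phiK_C, phiL_C]
  rfl

theorem phi_injective : Function.Injective (phi : P2 ℂ → LL) := by
  intro f g h
  apply ext2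
  intro i j
  rw [← cf_phi, ← cf_phi, h]

theorem isTaylor_tyT (u0 : E2) : IsTaylor u0 (tyT u0) := by
  exact
    { add := fun f g hf hg => tyT_add hf hg
      mul := fun f g hf hg => tyT_mul hf hg
      const := tyT_const u0
      pd0 := fun f hf => tyT_pd0 hf
      pd1 := fun f _ => tyT_pd1
      congr := fun f g h => tyT_congr h
      value := fun f z _ h => by
        have h1 := congrArg eps h
        rw [eps_tyT] at h1
        rw [h1]
        have h2 := congrArg eps (show phi (PowerSeries.C (PowerSeries.C z)) = algebraMap ℂ LL z by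
          change phiL (PowerSeries.map phiK (PowerSeries.C (PowerSeries.C z))) = _
          rw [PowerSeries.map_C, phiK_C, phiL_C]
          rfl)
        rw [← h2, eps_phi]
        simp }

theorem v0_tyP (u0 : E2) (f : E2 → ℝ) : v0 (tyP u0 f) = (f u0 : ℂ) := by
  have h := eps_tyT u0 f
  rw [tyT, eps_phi] at h
  rw [← h]
  simp [v0]

end Pool.Agent.Work.MP_abe657_gt.CM
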