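import Pool.Agent.Work.MP_abe657_gt.CM.Lin

/-!
# MP_abe657_gt, part CM, module SepC

Size S-M. Closure properties of finite sums of products `f(z) g(w)`.

Proof. Sums: concatenate (`Fin (N + N')`, `Fin.sum_univ_add`, `Fin.append`); products: index by `Fin N × Fin N'` (transport along
`finProdFinEquiv`), `zs f * ws g * (zs f' * ws g') = zs (f * f') * ws (g * g')`. It is convenient to prove first that
`∑ i ∈ s, zs (f i) * ws (g i)` is `IsSep` for every finite set (`s.equivFin`, or induction on `s`). Derivatives: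
`dZ (zs f * ws g) = zs (dX f) * ws g`, `dW (zs f * ws g) = zs f * ws (dX g)` (`dZ_sum`, `dW_sum`, `dZ_ws`, `dW_zs`).
-/

set_option autoImplicit false

namespace Pool.Agent.Work.MP_abe657_gt.CM

open PowerSeries

variable {R : Type} [CommRing R]

private theorem isSep_sum {ι : Type} (s : Finset ι) (f g : ι → PowerSeries R) :
    IsSep (∑ i ∈ s, zs (f i) * ws (g i)) := by
  refine ⟨s.card, fun i => f (s.equivFin.symm i), fun i => g (s.equivFin.symm i), ?_⟩
  rw [← Finset.sum_coe_sort]
  exact Fintype.sum_equiv s.equivFin _ _ (fun x => by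
    show _ = zs (f (s.equivFin.symm (s.equivFin x))) * ws (g (s.equivFin.symm (s.equivFin x)))
    rw [Equiv.symm_apply_apply])

theorem isSep_mk (f g : PowerSeries R) : IsSep (zs f * ws g) := by
  have := isSep_sum (Finset.univ : Finset Unit) (fun _ => f) (fun _ => g)
  rwa [Finset.univ_unique, Finset.sum_singleton] at this

theorem isSep_zs (f : PowerSeries R) : IsSep (zs f) := by
  have := isSep_mk f (1 : PowerSeries R)
  rwa [ws_one, mul_one] at this

theorem isSep_ws (g : PowerSeries R) : IsSep (ws g) := by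
  have := isSep_mk (1 : PowerSeries R) g
  rwa [zs_one, one_mul] at this

theorem isSep_cc (c : R) : IsSep (cc c) := by
  rw [← zs_C]
  exact isSep_zs _

theorem IsSep.add {S T : P2 R} (hS : IsSep S) (hT : IsSep T) : IsSep (S + T) := by
  obtain ⟨N, f, g, rfl⟩ := hS
  obtain ⟨N', f', g', rfl⟩ := hT
  have := isSep_sum (Finset.univ : Finset (Fin N ⊕ Fin N')) (Sum.elim f f') (Sum.elim g g')
  rwa [Fintype.sum_sum_type] at this

theorem IsSep.mul {S T : P2 R} (hS : IsSep S) (hT : IsSep T) : IsSep (S * T) := by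
  obtain ⟨N, f, g, rfl⟩ := hS
  obtain ⟨N', f', g', rfl⟩ := hT
  have := isSep_sum (Finset.univ : Finset (Fin N × Fin N')) (fun x => f x.1 * f' x.2)
    (fun x => g x.1 * g' x.2)
  rw [Fintype.sum_prod_type] at this
  rw [Finset.sum_mul_sum]
  have e : ∀ (i : Fin N) (j : Fin N'), zs (f i) * ws (g i) * (zs (f' j) * ws (g' j)) =
      zs (f i * f' j) * ws (g i * g' j) := by
    intro i j
    rw [zs_mul, ws_mul]
    ring
  simp only [e]
  exact this

theorem IsSep.neg {S : P2 R} (hS : IsSep S) : IsSep (-S) := by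
  have := (isSep_cc (-1 : R)).mul hS
  rwa [cc_neg, cc_one, neg_one_mul] at this

theorem IsSep.sub {S T : P2 R} (hS : IsSep S) (hT : IsSep T) : IsSep (S - T) := by
  rw [sub_eq_add_neg]
  exact hS.add hT.neg

theorem IsSep.pow {S : P2 R} (hS : IsSep S) (n : ℕ) : IsSep (S ^ n) := by
  induction n with
  | zero =>
    rw [pow_zero, ← cc_one]
    exact isSep_cc 1
  | succ n ih =>
    rw [pow_succ]
    exact ih.mul hS

theorem IsSep.dZ {S : P2 R} (hS : IsSep S) : IsSep (CM.dZ S) := by
  obtain ⟨N, f, g, rfl⟩ := hS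
  have := isSep_sum (Finset.univ : Finset (Fin N)) (fun i => d⁄dX R (f i)) g
  rw [dZ_sum]
  convert this using 3 with i _
  rw [dZ_mul, dZ_ws, dZ_zs, mul_zero, zero_add, mul_comm]

theorem IsSep.dW {S : P2 R} (hS : IsSep S) : IsSep (CM.dW S) := by
  obtain ⟨N, f, g, rfl⟩ := hS
  have := isSep_sum (Finset.univ : Finset (Fin N)) f (fun i => d⁄dX R (g i))
  rw [dW_sum]
  convert this using 3 with i _
  rw [dW_mul, dW_zs, dW_ws, mul_zero, add_zero]

end Pool.Agent.Work.MP_abe657_gt.CM
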