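import Pool.Agent.Work.MP_abe657_gt.CM.StrExp

/-!
# MP_abe657_gt, part CM, module StrA

Size M. Structure equations of a surface in null coordinates whose Laplacian is `H` times a unit normal.

Proof. Orthogonality: `cc H * ∑ n a * dZ (X a) = G * ∑ dZ (dW (X a)) * dZ (X a) = 0` because twice the sum is `dW (∑ dZ (X a)^2) = 0`
(`dZ_dW`; `2` is invertible), and `cc H` is invertible; same with `dW (X a)`. So `strExp` applies with `e1 = dZ X`, `e2 = dW X`. Let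
`F = ∑ e1 e2`. Products (differentiate the relations): `⟨dZ e1, e1⟩ = 0`, `⟨dZ e1, e2⟩ = dZ F - ⟨e1, dZ e2⟩ = dZ F` (as
`⟨e1, dZ e2⟩ = ⟨e1, dW e1⟩ = 0`), `⟨dZ e1, n⟩ = q`: first formula. Second: symmetric. `dW e1 = dZ (dW X) = F * (G * dZ (dW X)) = cc H * F * n`.
`⟨dZ n, n⟩ = 0`, `⟨dZ n, e1⟩ = -⟨n, dZ e1⟩ = -q`, `⟨dZ n, e2⟩ = -⟨n, dZ e2⟩ = -cc H * F`, so `dZ n = G * (-cc H * F) * e1 + G * (-q) * e2`. Similarly
`⟨dW n, e1⟩ = -cc H * F`, `⟨dW n, e2⟩ = -qt`.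
-/

set_option autoImplicit false

namespace Pool.Agent.Work.MP_abe657_gt.CM

open PowerSeries

private theorem dot_der {δ : P2 ℂ → P2 ℂ} (ha : ∀ f g, δ (f + g) = δ f + δ g)
    (hm : ∀ f g, δ (f * g) = f * δ g + g * δ f) (f g : Fin 3 → P2 ℂ) :
    δ (∑ a, f a * g a) = ∑ a, δ (f a) * g a + ∑ a, f a * δ (g a) := by
  simp only [Fin.sum_univ_three, ha, hm]
  ring

private theorem sq_der {δ : P2 ℂ → P2 ℂ} (ha : ∀ f g, δ (f + g) = δ f + δ g)
    (hm : ∀ f g, δ (f * g) = f * δ g + g * δ f) {f : Fin 3 → P2 ℂ} {c : P2 ℂ}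
    (hs : ∑ a, f a ^ 2 = c) (hc : δ c = 0) : ∑ a, δ (f a) * f a = 0 := by
  have h1 : ∑ a, f a * f a = c := by
    rw [← hs]
    exact Finset.sum_congr rfl fun a _ => (sq _).symm
  have h2 := dot_der ha hm f f
  rw [h1, hc] at h2
  have h3 : ∑ a, f a * δ (f a) = ∑ a, δ (f a) * f a :=
    Finset.sum_congr rfl fun a _ => mul_comm _ _
  rw [h3] at h2
  refine mul_succ_cancel (R := P2 ℂ) 1 ?_
  rw [Nat.cast_one, zero_mul]
  rw [mul_add, mul_one]
  exact h2.symm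

theorem strA (X : Fin 3 → P2 ℂ) (G : P2 ℂ) (hN : IsNor X G) (H : ℂ) (hH : H ≠ 0) (n : Fin 3 → P2 ℂ)
    (hn : ∀ a, cc H * n a = Lop G (X a)) (hnn : ∑ a, n a ^ 2 = 1) :
    (∑ a, n a * dZ (X a) = 0) ∧ (∑ a, n a * dW (X a) = 0) ∧
    (∀ b, dZ (dZ (X b)) = G * dZ (∑ a, dZ (X a) * dW (X a)) * dZ (X b)
      + (∑ a, dZ (dZ (X a)) * n a) * n b) ∧
    (∀ b, dW (dW (X b)) = G * dW (∑ a, dZ (X a) * dW (X a)) * dW (X b)
      + (∑ a, dW (dW (X a)) * n a) * n b) ∧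
    (∀ b, dW (dZ (X b)) = cc H * (∑ a, dZ (X a) * dW (X a)) * n b) ∧
    (∀ b, dZ (n b) = -(cc H * dZ (X b)) - G * (∑ a, dZ (dZ (X a)) * n a) * dW (X b)) ∧
    (∀ b, dW (n b) = -(G * (∑ a, dW (dW (X a)) * n a) * dZ (X b)) - cc H * dW (X b)) := by
  obtain ⟨e1, he1⟩ : ∃ e1 : Fin 3 → P2 ℂ, ∀ a, dZ (X a) = e1 a := ⟨_, fun _ => rfl⟩
  obtain ⟨e2, he2⟩ : ∃ e2 : Fin 3 → P2 ℂ, ∀ a, dW (X a) = e2 a := ⟨_, fun _ => rfl⟩
  have h11 : ∑ a, e1 a ^ 2 = 0 := by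
    rw [← hN.zz]
    exact Finset.sum_congr rfl fun a _ => by rw [he1]
  have h22 : ∑ a, e2 a ^ 2 = 0 := by
    rw [← hN.ww]
    exact Finset.sum_congr rfl fun a _ => by rw [he2]
  have h12 : (∑ a, e1 a * e2 a) * G = 1 := by
    rw [← hN.FG]
    congr 1
    exact Finset.sum_congr rfl fun a _ => by rw [he1, he2]
  have hx : ∀ a, dZ (e2 a) = dW (e1 a) := fun a => by rw [← he2, ← he1, dZ_dW]
  simp only [he1, he2]
  have hZ0 : dZ (0 : P2 ℂ) = 0 := dZ_zero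
  have hZ1 : dZ (1 : P2 ℂ) = 0 := dZ_one
  have hW0 : dW (0 : P2 ℂ) = 0 := dW_zero
  have hW1 : dW (1 : P2 ℂ) = 0 := dW_one
  have z11 : ∑ a, dZ (e1 a) * e1 a = 0 := sq_der dZ_add dZ_mul h11 hZ0
  have w11 : ∑ a, dW (e1 a) * e1 a = 0 := sq_der dW_add dW_mul h11 hW0
  have z22 : ∑ a, dZ (e2 a) * e2 a = 0 := sq_der dZ_add dZ_mul h22 hZ0
  have w22 : ∑ a, dW (e2 a) * e2 a = 0 := sq_der dW_add dW_mul h22 hW0
  have znn : ∑ a, dZ (n a) * n a = 0 := sq_der dZ_add dZ_mul hnn hZ1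
  have wnn : ∑ a, dW (n a) * n a = 0 := sq_der dW_add dW_mul hnn hW1
  have hn' : ∀ a, cc H * n a = G * dW (e1 a) := by
    intro a
    rw [hn, Lop, he2, hx]
  have hHi : cc H⁻¹ * cc H = 1 := by
    rw [← cc_mul, inv_mul_cancel₀ hH, cc_one]
  have hn1 : ∑ a, n a * e1 a = 0 := by
    have h1 : cc H * ∑ a, n a * e1 a = 0 := by
      rw [Finset.mul_sum]
      have h2 : ∑ a, cc H * (n a * e1 a) = G * ∑ a, dW (e1 a) * e1 a := by
        rw [Finset.mul_sum]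
        exact Finset.sum_congr rfl fun a _ => by rw [← mul_assoc, hn', mul_assoc]
      rw [h2, w11, mul_zero]
    calc ∑ a, n a * e1 a = (cc H⁻¹ * cc H) * ∑ a, n a * e1 a := by rw [hHi, one_mul]
      _ = cc H⁻¹ * (cc H * ∑ a, n a * e1 a) := by rw [mul_assoc]
      _ = 0 := by rw [h1, mul_zero]
  have hn2 : ∑ a, n a * e2 a = 0 := by
    have h1 : cc H * ∑ a, n a * e2 a = 0 := by
      rw [Finset.mul_sum]
      have h2 : ∑ a, cc H * (n a * e2 a) = G * ∑ a, dZ (e2 a) * e2 a := by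
        rw [Finset.mul_sum]
        exact Finset.sum_congr rfl fun a _ => by rw [← mul_assoc, hn', hx, mul_assoc]
      rw [h2, z22, mul_zero]
    calc ∑ a, n a * e2 a = (cc H⁻¹ * cc H) * ∑ a, n a * e2 a := by rw [hHi, one_mul]
      _ = cc H⁻¹ * (cc H * ∑ a, n a * e2 a) := by rw [mul_assoc]
      _ = 0 := by rw [h1, mul_zero]
  have h1n : ∑ a, e1 a * n a = 0 := by
    rw [← hn1]
    exact Finset.sum_congr rfl fun a _ => mul_comm _ _
  have h2n : ∑ a, e2 a * n a = 0 := by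
    rw [← hn2]
    exact Finset.sum_congr rfl fun a _ => mul_comm _ _
  -- the derivatives of the products
  have hF : ∀ b, dW (e1 b) = cc H * (∑ a, e1 a * e2 a) * n b := by
    intro b
    calc dW (e1 b) = ((∑ a, e1 a * e2 a) * G) * dW (e1 b) := by rw [h12, one_mul]
      _ = (∑ a, e1 a * e2 a) * (G * dW (e1 b)) := by rw [mul_assoc]
      _ = (∑ a, e1 a * e2 a) * (cc H * n b) := by rw [hn']
      _ = _ := by ring
  have z12 : ∑ a, dZ (e1 a) * e2 a = dZ (∑ a, e1 a * e2 a) := by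
    rw [dot_der dZ_add dZ_mul]
    have h1 : ∑ a, e1 a * dZ (e2 a) = ∑ a, dW (e1 a) * e1 a :=
      Finset.sum_congr rfl fun a _ => by rw [hx, mul_comm]
    rw [h1, w11, add_zero]
  have w12 : ∑ a, dW (e2 a) * e1 a = dW (∑ a, e1 a * e2 a) := by
    rw [dot_der dW_add dW_mul]
    have h1 : ∑ a, dW (e1 a) * e2 a = ∑ a, dZ (e2 a) * e2 a :=
      Finset.sum_congr rfl fun a _ => by rw [hx]
    rw [h1, z22, zero_add]
    exact Finset.sum_congr rfl fun a _ => mul_comm _ _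
  have hFn : ∀ (x : P2 ℂ), ∑ a, n a * (x * n a) = x := by
    intro x
    have h1 : ∑ a, n a * (x * n a) = x * ∑ a, n a ^ 2 := by
      rw [Finset.mul_sum]
      exact Finset.sum_congr rfl fun a _ => by ring
    rw [h1, hnn, mul_one]
  have zn1 : ∑ a, dZ (n a) * e1 a = -∑ a, dZ (e1 a) * n a := by
    have h1 := dot_der dZ_add dZ_mul n e1
    rw [hn1, hZ0] at h1
    have h2 : ∑ a, n a * dZ (e1 a) = ∑ a, dZ (e1 a) * n a :=
      Finset.sum_congr rfl fun a _ => mul_comm _ _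
    rw [h2] at h1
    exact eq_neg_of_add_eq_zero_left h1.symm
  have wn2 : ∑ a, dW (n a) * e2 a = -∑ a, dW (e2 a) * n a := by
    have h1 := dot_der dW_add dW_mul n e2
    rw [hn2, hW0] at h1
    have h2 : ∑ a, n a * dW (e2 a) = ∑ a, dW (e2 a) * n a :=
      Finset.sum_congr rfl fun a _ => mul_comm _ _
    rw [h2] at h1
    exact eq_neg_of_add_eq_zero_left h1.symm
  have zn2 : ∑ a, dZ (n a) * e2 a = -(cc H * ∑ a, e1 a * e2 a) := by
    have h1 := dot_der dZ_add dZ_mul n e2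
    rw [hn2, hZ0] at h1
    have h2 : ∑ a, n a * dZ (e2 a) = cc H * ∑ a, e1 a * e2 a := by
      rw [← hFn (cc H * ∑ a, e1 a * e2 a)]
      exact Finset.sum_congr rfl fun a _ => by rw [hx, hF]
    rw [h2] at h1
    exact eq_neg_of_add_eq_zero_left h1.symm
  have wn1 : ∑ a, dW (n a) * e1 a = -(cc H * ∑ a, e1 a * e2 a) := by
    have h1 := dot_der dW_add dW_mul n e1
    rw [hn1, hW0] at h1
    have h2 : ∑ a, n a * dW (e1 a) = cc H * ∑ a, e1 a * e2 a := by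
      rw [← hFn (cc H * ∑ a, e1 a * e2 a)]
      exact Finset.sum_congr rfl fun a _ => by rw [hF]
    rw [h2] at h1
    exact eq_neg_of_add_eq_zero_left h1.symm
  have exp := strExp e1 e2 n G h11 h22 h12 h1n h2n hnn
  refine ⟨hn1, hn2, fun b => ?_, fun b => ?_, hF, fun b => ?_, fun b => ?_⟩
  · rw [exp (fun a => dZ (e1 a)) b]
    rw [z12, z11, mul_zero, zero_mul, add_zero]
  · rw [exp (fun a => dW (e2 a)) b]
    rw [w12, w22, mul_zero, zero_mul, zero_add]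
  · rw [exp (fun a => dZ (n a)) b]
    rw [zn2, zn1, znn]
    linear_combination (-(cc H * e1 b)) * h12
  · rw [exp (fun a => dW (n a)) b]
    rw [wn2, wn1, wnn]
    linear_combination (-(cc H * e2 b)) * h12

end Pool.Agent.Work.MP_abe657_gt.CM
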