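import Pool.Agent.Work.MP_abe657_gt.CM.StrA

/-!
# MP_abe657_gt, part CM, module StrB

Size M. The Codazzi and Gauss equations and the equation of the normal.

Proof. Write `e1 = dZ X`, `e2 = dW X`, `F = ∑ e1 e2`, `F G = 1`, `q = ∑ dZ (dZ X) n`, `qt = ∑ dW (dW X) n`. Apply `dW` to the formula of
`dZ (dZ (X b))` and `dZ` to that of `dW (dZ (X b))` (`dZ_dW`):
`dW (G dZ F) e1 + G dZ F (cc H F n) + dW q n + q (-G qt e1 - cc H e2) = cc H dZ F n + cc H F (-cc H e1 - G q e2)`.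
Multiply by `n b` and sum (`⟨n,n⟩ = 1`, `⟨n,e1⟩ = ⟨n,e2⟩ = 0`, `F G = 1`): `dW q = 0`. Multiply by `e2` and sum (`⟨e1,e2⟩ = F` a unit):
`dW (G dZ F) = q qt G - cc (H * H) F`. From `F G = 1`: `dZ G = -G^2 dZ F`, `dW G = -G^2 dW F`, so
`dW (G dZ F) = G dW (dZ F) - G^2 dW F dZ F = dZ (G dW F)`. `dZ qt = 0`: the same computation with `dZ (dW (dW X)) = dW (dW (dZ X))`.
Normal: `dZ (dW n) = dZ (-(G qt e1) - cc H e2) = G^2 dZ F qt e1 - G qt (G dZ F e1 + q n) - cc H (cc H F n) = -(G q qt + cc (H^2) F) n`; times `G`.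
-/

set_option autoImplicit false

namespace Pool.Agent.Work.MP_abe657_gt.CM

open PowerSeries

private theorem dot_zero {e n e' : Fin 3 → P2 ℂ} {α β F G : P2 ℂ}
    (h : ∀ b, α * e b + β * n b = 0) (hn : ∑ a, n a ^ 2 = 1) (hne : ∑ a, n a * e a = 0)
    (hne' : ∑ a, n a * e' a = 0) (hF : ∑ a, e a * e' a = F) (hFG : F * G = 1) :
    α = 0 ∧ β = 0 := by
  have h1 : ∑ b, (α * e b + β * n b) * n b = 0 :=
    Finset.sum_eq_zero fun b _ => by rw [h, zero_mul]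
  have h2 : ∑ b, (α * e b + β * n b) * n b = α * (∑ a, n a * e a) + β * ∑ a, n a ^ 2 := by
    rw [Finset.mul_sum, Finset.mul_sum, ← Finset.sum_add_distrib]
    exact Finset.sum_congr rfl fun b _ => by ring
  have h3 : ∑ b, (α * e b + β * n b) * e' b = 0 :=
    Finset.sum_eq_zero fun b _ => by rw [h, zero_mul]
  have h4 : ∑ b, (α * e b + β * n b) * e' b =
      α * (∑ a, e a * e' a) + β * ∑ a, n a * e' a := by
    rw [Finset.mul_sum, Finset.mul_sum, ← Finset.sum_add_distrib]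
    exact Finset.sum_congr rfl fun b _ => by ring
  rw [h1, hne, hn, mul_zero, zero_add, mul_one] at h2
  rw [h3, hne', hF, mul_zero, add_zero] at h4
  refine ⟨?_, h2.symm⟩
  calc α = α * F * G := by rw [mul_assoc, hFG, mul_one]
    _ = 0 := by rw [← h4, zero_mul]

theorem strB (X : Fin 3 → P2 ℂ) (G : P2 ℂ) (hN : IsNor X G) (H : ℂ) (hH : H ≠ 0) (n : Fin 3 → P2 ℂ)
    (hn : ∀ a, cc H * n a = Lop G (X a)) (hnn : ∑ a, n a ^ 2 = 1) :
    dW (∑ a, dZ (dZ (X a)) * n a) = 0 ∧ dZ (∑ a, dW (dW (X a)) * n a) = 0 ∧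
    dZ (G * dW (∑ a, dZ (X a) * dW (X a))) = -(cc (H * H) * ∑ a, dZ (X a) * dW (X a))
      + (∑ a, dZ (dZ (X a)) * n a) * (∑ a, dW (dW (X a)) * n a) * G ∧
    ∀ b, Lop G (n b) = -((cc (H ^ 2)
      + (∑ a, dZ (dZ (X a)) * n a) * (∑ a, dW (dW (X a)) * n a) * G ^ 2) * n b) := by
  obtain ⟨hn1, hn2, A3, A4, A5, A6, A7⟩ := strA X G hN H hH n hn hnn
  have hFG := hN.FG
  generalize hF : (∑ a, dZ (X a) * dW (X a)) = F at *
  generalize hq : (∑ a, dZ (dZ (X a)) * n a) = q at *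
  generalize hqt : (∑ a, dW (dW (X a)) * n a) = qt at *
  have hx : ∀ b, dZ (dW (X b)) = dW (dZ (X b)) := fun b => dZ_dW _
  obtain ⟨e1, he1⟩ : ∃ e1 : Fin 3 → P2 ℂ, ∀ a, dZ (X a) = e1 a := ⟨_, fun _ => rfl⟩
  obtain ⟨e2, he2⟩ : ∃ e2 : Fin 3 → P2 ℂ, ∀ a, dW (X a) = e2 a := ⟨_, fun _ => rfl⟩
  simp only [he1, he2] at hn1 hn2 A3 A4 A5 A6 A7 hx hF
  have hF' : ∑ a, e2 a * e1 a = F := by
    rw [← hF]
    exact Finset.sum_congr rfl fun a _ => mul_comm _ _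
  have hdG : dZ G = -(G * G * dZ F) := by
    have h1 : dZ (F * G) = 0 := by rw [hFG, dZ_one]
    rw [dZ_mul] at h1
    linear_combination G * h1 - dZ G * hFG
  -- the equation with `dW`
  have keyZ : ∀ b, (dW (G * dZ F) - q * qt * G + cc H * cc H * F) * e1 b + dW q * n b = 0 := by
    intro b
    have h1 : dW (dZ (e1 b)) = dZ (dW (e1 b)) := (dZ_dW _).symm
    rw [A3, A5, dW_add, dW_mul, dW_mul q, mul_assoc (cc H), dZ_cc_mul, dZ_mul, A5, A6, A7] at h1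
    linear_combination h1 + (-(cc H * q * e2 b) - cc H * dZ F * n b) * hFG
  have keyW : ∀ b, (dZ (G * dW F) - q * qt * G + cc H * cc H * F) * e2 b + dZ qt * n b = 0 := by
    intro b
    have h1 : dZ (dW (e2 b)) = dW (dZ (e2 b)) := dZ_dW _
    rw [A4, hx, A5, dZ_add, dZ_mul, dZ_mul qt, mul_assoc (cc H), dW_cc_mul, dW_mul, hx, A5, A6,
      A7] at h1
    linear_combination h1 + (-(cc H * qt * e1 b) - cc H * dW F * n b) * hFG
  obtain ⟨_, z2⟩ := dot_zero keyZ hnn hn1 hn2 hF hFG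
  obtain ⟨w1, w2⟩ := dot_zero keyW hnn hn2 hn1 hF' hFG
  refine ⟨z2, w2, ?_, fun b => ?_⟩
  · rw [cc_mul]
    linear_combination w1
  · rw [Lop, A7, dZ_sub, dZ_neg, dZ_mul, dZ_mul G qt, dZ_cc_mul, A3, hx, A5, w2, hdG, cc_pow]
    linear_combination (-(cc H ^ 2 * n b)) * hFG

end Pool.Agent.Work.MP_abe657_gt.CM
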