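import Pool.Agent.Work.MP_abe657_gt.CM.StrB

/-!
# MP_abe657_gt, part CM, module StrC

Size M (assembly). From the structure equations to `IsBase`, `IsVec`.

Proof. `q = ∑ dZ (dZ X) n` has `dW q = 0`, so `q = zs Q`, `Q = coeff 0 q` (`eq_zs_of_dW`); `qt = ws Qt` (`eq_ws_of_dZ`). `F = ∑ dZ X dW X`,
`r = G * dW F`. `IsBase`: `F_w`: `r * F = dW F` (`F G = 1`); `G_w`: `dW G = -G^2 dW F`; `r_z`: `strB`; `F0`: `coeff 0 F * coeff 0 G = 1`;
`r0`: apply the ring homomorphism `P2 ℂ → PowerSeries ℂ`, `f ↦ f(0, w)` (`PowerSeries.map constantCoeff`, coefficients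
`coeff 0 (coeff j f)`): `G(0,w) = 1` by `Gw`, so `F(0,w) = 1` and `(dW F)(0,w) = 0` (`coeff2_dW`). `IsVec`: `e1_w, e2_w, n_w` are `strA`;
on the axis: `coeff 0 F = coeff 0 G = 1`, `coeff 0 (dZ F) = d (coeff 0 F) = 0`, so `coeff 0` of the formulas of `dZ (dZ X)`, `dZ (dW X)`
(`dZ_dW`), `dZ n` are `e1_z, e2_z, n_z` (`coeff_dZ`, `coeff0_mul`, `coeff_cc_mul`, `coeff0_zs`).
-/

set_option autoImplicit false

namespace Pool.Agent.Work.MP_abe657_gt.CM

open PowerSeries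

theorem strC (X : Fin 3 → P2 ℂ) (G : P2 ℂ) (hN : IsNor X G) (H : ℂ) (hH : H ≠ 0) (n : Fin 3 → P2 ℂ)
    (hn : ∀ a, cc H * n a = Lop G (X a)) (hnn : ∑ a, n a ^ 2 = 1) :
    ∃ (Q Qt : PowerSeries ℂ) (F r : P2 ℂ), IsBase ⟨H, H, Q, Qt⟩ F G r ∧
      (∀ a, IsVec ⟨H, H, Q, Qt⟩ F G r ![v0 (dZ (X a)), v0 (dW (X a)), v0 (n a)]
        (dZ (X a)) (dW (X a)) (n a)) ∧
      zs Q = ∑ a, dZ (dZ (X a)) * n a ∧ ws Qt = ∑ a, dW (dW (X a)) * n a ∧
      ∀ b, Lop G (n b) = -((cc (H ^ 2) + zs Q * ws Qt * G ^ 2) * n b) := by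
  obtain ⟨hA1, hA2, hA3, hA4, hA5, hA6, hA7⟩ := strA X G hN H hH n hn hnn
  obtain ⟨hB1, hB2, hB3, hB4⟩ := strB X G hN H hH n hn hnn
  have hFG := hN.FG
  generalize hq : ∑ a, dZ (dZ (X a)) * n a = q at *
  generalize hqt : ∑ a, dW (dW (X a)) * n a = qt at *
  generalize hF : ∑ a, dZ (X a) * dW (X a) = F at *
  have hqz : zs (coeff 0 q) = q := (eq_zs_of_dW hB1).symm
  have hqw : ws (coeff 0 (sw qt)) = qt := (eq_ws_of_dZ hB2).symm
  have hG0 : coeff 0 G = 1 := hN.Gz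
  have hF0 : coeff 0 F = 1 := by
    have h := congrArg (coeff 0) hFG
    rw [coeff0_mul, hG0, mul_one, coeff0_one] at h
    exact h
  have hdZF : coeff 0 (dZ F) = 0 := by
    rw [coeff_dZ, hF0]
    exact Derivation.map_one_eq_zero _
  have hdWG : dW G = -(G * dW F * G) := by
    have h : dW (F * G) = 0 := by rw [hFG, dW_one]
    rw [dW_mul] at h
    have h2 : dW G = (F * G) * dW G := by rw [hFG, one_mul]
    have h3 : (F * G) * dW G = G * (F * dW G + G * dW F) - G * dW F * G := by ring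
    rw [h2, h3, h, mul_zero, zero_sub]
  refine ⟨coeff 0 q, coeff 0 (sw qt), F, G * dW F, ?_, ?_, hqz, hqw, ?_⟩
  · refine ⟨?_, hdWG, ?_, hF0, hG0, ?_⟩
    · calc dW F = (F * G) * dW F := by rw [hFG, one_mul]
        _ = G * dW F * F := by ring
    · change dZ (G * dW F) = -(cc (H * H) * F) + zs (coeff 0 q) * ws (coeff 0 (sw qt)) * G
      rw [hqz, hqw]
      exact hB3
    · -- restriction to the axis `z = 0`
      have hρ : ∀ (f : P2 ℂ) (j : ℕ), coeff j (PowerSeries.map (constantCoeff (R := ℂ)) f)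
          = coeff 0 (coeff j f) := by
        intro f j
        rw [coeff_map, coeff_zero_eq_constantCoeff_apply]
      have hρG : PowerSeries.map (constantCoeff (R := ℂ)) G = 1 := by
        ext j
        rw [hρ, hN.Gw, coeff_one]
      have hρF : PowerSeries.map (constantCoeff (R := ℂ)) F = 1 := by
        have h := congrArg (PowerSeries.map (constantCoeff (R := ℂ))) hFG
        rw [map_mul, hρG, mul_one, map_one] at h
        exact h
      have hρd : PowerSeries.map (constantCoeff (R := ℂ)) (dW F) = 0 := by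
        ext j
        rw [hρ, coeff2_dW, ← hρ, hρF, coeff_one, if_neg (Nat.succ_ne_zero j), zero_mul, map_zero]
      intro j
      rw [← hρ, map_mul, hρd, mul_zero, map_zero]
  · intro a
    refine ⟨?_, ?_, ?_, ?_, ?_, ?_, rfl, rfl, rfl⟩
    · change dW (dZ (X a)) = cc H * (F * n a)
      rw [hA5, mul_assoc]
    · change dW (dW (X a)) = G * dW F * dW (X a) + ws (coeff 0 (sw qt)) * n a
      rw [hqw, hA4]
    · change dW (n a) = -(ws (coeff 0 (sw qt)) * G * dZ (X a)) - cc H * dW (X a)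
      rw [hqw, hA7, mul_comm G qt]
    · change d⁄dX ℂ (coeff 0 (dZ (X a))) = coeff 0 q * coeff 0 (n a)
      rw [← coeff_dZ, hA3, map_add, coeff0_mul, coeff0_mul, coeff0_mul, hdZF, mul_zero, zero_mul,
        zero_add]
    · change d⁄dX ℂ (coeff 0 (dW (X a))) = C H * coeff 0 (n a)
      rw [← coeff_dZ, dZ_dW, hA5, mul_assoc, coeff_cc_mul, coeff0_mul, hF0, one_mul]
    · change d⁄dX ℂ (coeff 0 (n a)) = -(C H * coeff 0 (dZ (X a))) - coeff 0 q * coeff 0 (dW (X a))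
      rw [← coeff_dZ, hA6, map_sub, map_neg, coeff_cc_mul, coeff0_mul, coeff0_mul, hG0, one_mul]
  · intro b
    rw [hqz, hqw]
    exact hB4 b

end Pool.Agent.Work.MP_abe657_gt.CM
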