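import Pool.Agent.Work.MP_abe657_gt.CM.GDefs

/-!
# MP_abe657_gt, part CM, module StrExp

Size S-M. Expansion of a vector in a frame `e1, e2, n` with `⟨e1,e1⟩ = ⟨e2,e2⟩ = 0`, `⟨e1,e2⟩ G = 1`, `⟨n,n⟩ = 1`.

Proof. The matrix `A` with rows `e1, e2, n` and the matrix `B` with rows `G e2, G e1, n` satisfy `A Bᵀ = 1`, so `Bᵀ A = 1`
(`Matrix.mul_eq_one_comm`), i.e. `G e2_a e1_b + G e1_a e2_b + n_a n_b = δ_ab`; multiply by `V a` and sum over `a`.
-/

set_option autoImplicit false

namespace Pool.Agent.Work.MP_abe657_gt.CM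

open PowerSeries

theorem strExp {R : Type} [CommRing R] (e1 e2 n : Fin 3 → R) (G : R) (h11 : ∑ a, e1 a ^ 2 = 0)
    (h22 : ∑ a, e2 a ^ 2 = 0) (h12 : (∑ a, e1 a * e2 a) * G = 1) (h1n : ∑ a, e1 a * n a = 0)
    (h2n : ∑ a, e2 a * n a = 0) (hnn : ∑ a, n a ^ 2 = 1) (V : Fin 3 → R) (b : Fin 3) :
    V b = G * (∑ a, V a * e2 a) * e1 b + G * (∑ a, V a * e1 a) * e2 b + (∑ a, V a * n a) * n b := by
  simp only [Fin.sum_univ_three] at h11 h22 h12 h1n h2n hnn
  have hAB : (Matrix.of ![e1, e2, n] : Matrix (Fin 3) (Fin 3) R)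
      * (Matrix.of ![fun a => G * e2 a, fun a => G * e1 a, n] : Matrix (Fin 3) (Fin 3) R).transpose
      = 1 := by
    ext i j
    rw [Matrix.mul_apply, Fin.sum_univ_three, Matrix.one_apply]
    fin_cases i <;> fin_cases j <;> simp
    · linear_combination h12
    · linear_combination G * h11
    · linear_combination h1n
    · linear_combination G * h22
    · linear_combination h12
    · linear_combination h2n
    · linear_combination G * h2n
    · linear_combination G * h1n
    · linear_combination hnn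
  have hBA := mul_eq_one_comm.mp hAB
  have key : ∀ a, G * e2 a * e1 b + G * e1 a * e2 b + n a * n b = if a = b then 1 else 0 := by
    intro a
    have h := congrFun (congrFun hBA a) b
    rw [Matrix.mul_apply, Fin.sum_univ_three, Matrix.one_apply] at h
    simpa using h
  calc V b = ∑ a, V a * (if a = b then (1 : R) else 0) := by simp
    _ = ∑ a, V a * (G * e2 a * e1 b + G * e1 a * e2 b + n a * n b) :=
        Finset.sum_congr rfl fun a _ => by rw [key a]
    _ = _ := by
        simp only [Fin.sum_univ_three]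
        ring

end Pool.Agent.Work.MP_abe657_gt.CM
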