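import Pool.Agent.Work.MP_abe657_gt.CM.Lin

/-!
# MP_abe657_gt, part CM, module TayH

Size M. Two commuting vector fields `D1 = a1 d/dz + b1 d/dw`, `D2 = a2 d/dz + b2 d/dw` on `P2 ℂ` give a ring homomorphism
`τ` (Taylor expansion at the origin in the coordinates in which `D1 = d/dz`, `D2 = d/dw`).

Proof. `τ f = mk (fun j => mk (fun i => v0 (D1^[i] (D2^[j] f)) / (i! * j!)))`. `vf a b` is additive, satisfies the Leibniz rule and kills
`cc c` (`dZ_mul`, `dW_mul`, `dZ_cc`, `dW_cc`). `dZ (τ f) = τ (D1 f)`: `coeff2_dZ`, `D1^[i+1] (D2^[j] f) = D1^[i] (D2^[j] (D1 f))` by commutativity.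
`dW (τ f) = τ (D2 f)`: `coeff2_dW`. Additivity: clear. `τ (cc c) = cc c`. Multiplicativity: for `h = τ (f g) - τ f * τ g` we have
`v0 h = 0`, and `dZ h = (τ (D1 f * g) - τ (D1 f) * τ g) + (τ (f * D1 g) - τ f * τ (D1 g))`, similarly `dW h`. So by induction on `i + j`,
for all `f, g`: `coeff i (coeff j (τ (f g) - τ f * τ g)) = 0` (the coefficient of `z^(i+1) w^j` of `h` is `1/(i+1)` times the coefficient of
`z^i w^j` of `dZ h`, `coeff2_dZ`). Alternatively use the Leibniz formula for iterated derivations.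
-/

set_option autoImplicit false

namespace Pool.Agent.Work.MP_abe657_gt.CM

open PowerSeries

private theorem tayh_add (a b f g : P2 ℂ) : vf a b (f + g) = vf a b f + vf a b g := by
  simp only [vf, dZ_add, dW_add]
  ring

private theorem tayh_mul (a b f g : P2 ℂ) : vf a b (f * g) = f * vf a b g + g * vf a b f := by
  simp only [vf, dZ_mul, dW_mul]
  ring

private theorem tayh_cc (a b : P2 ℂ) (c : ℂ) : vf a b (cc c) = 0 := by
  simp only [vf, dZ_cc, dW_cc]
  ring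

private theorem tayh_zero (a b : P2 ℂ) : vf a b 0 = 0 := by
  simp only [vf, dZ_zero, dW_zero]
  ring

private theorem tayh_it_add (a b : P2 ℂ) (k : ℕ) (f g : P2 ℂ) :
    (vf a b)^[k] (f + g) = (vf a b)^[k] f + (vf a b)^[k] g := by
  induction k generalizing f g with
  | zero => rfl
  | succ k ih => rw [Function.iterate_succ_apply, tayh_add, ih]; rfl

private theorem tayh_it_zero (a b : P2 ℂ) (k : ℕ) : (vf a b)^[k] 0 = 0 := by
  induction k with
  | zero => rfl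
  | succ k ih => rw [Function.iterate_succ_apply, tayh_zero, ih]

private theorem tayh_v0_add (f g : P2 ℂ) : v0 (f + g) = v0 f + v0 g := by
  simp only [v0, map_add]

private theorem tayh_v0_mul (f g : P2 ℂ) : v0 (f * g) = v0 f * v0 g := by
  simp only [v0, coeff_zero_eq_constantCoeff, map_mul]

/-- the Taylor expansion -/
private noncomputable def tayhT (a1 b1 a2 b2 f : P2 ℂ) : P2 ℂ :=
  PowerSeries.mk fun j => PowerSeries.mk fun i =>
    v0 ((vf a1 b1)^[i] ((vf a2 b2)^[j] f)) / ((i.factorial : ℂ) * (j.factorial : ℂ))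

private theorem tayh_coeff (a1 b1 a2 b2 f : P2 ℂ) (i j : ℕ) :
    coeff i (coeff j (tayhT a1 b1 a2 b2 f))
      = v0 ((vf a1 b1)^[i] ((vf a2 b2)^[j] f)) / ((i.factorial : ℂ) * (j.factorial : ℂ)) := by
  rw [tayhT, coeff_mk, coeff_mk]

private theorem tayhT_add (a1 b1 a2 b2 f g : P2 ℂ) :
    tayhT a1 b1 a2 b2 (f + g) = tayhT a1 b1 a2 b2 f + tayhT a1 b1 a2 b2 g := by
  apply ext2
  intro i j
  rw [map_add, map_add, tayh_coeff, tayh_coeff, tayh_coeff, tayh_it_add, tayh_it_add,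
    tayh_v0_add, add_div]

private theorem tayhT_v0 (a1 b1 a2 b2 f : P2 ℂ) : v0 (tayhT a1 b1 a2 b2 f) = v0 f := by
  rw [v0, tayh_coeff]
  simp

private theorem tayhT_cc (a1 b1 a2 b2 : P2 ℂ) (c : ℂ) : tayhT a1 b1 a2 b2 (cc c) = cc c := by
  apply ext2
  intro i j
  rw [tayh_coeff]
  rcases j with _ | j
  · rcases i with _ | i
    · simp [v0]
    · rw [Function.iterate_zero_apply, Function.iterate_succ_apply, tayh_cc, tayh_it_zero]
      simp [v0, cc, coeff_C]
  · rw [Function.iterate_succ_apply, tayh_cc, tayh_it_zero, tayh_it_zero]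
    simp [v0, cc]

private theorem tayhT_dZ (a1 b1 a2 b2 : P2 ℂ)
    (hc : ∀ f, vf a1 b1 (vf a2 b2 f) = vf a2 b2 (vf a1 b1 f)) (f : P2 ℂ) :
    dZ (tayhT a1 b1 a2 b2 f) = tayhT a1 b1 a2 b2 (vf a1 b1 f) := by
  have hcom : ∀ (j : ℕ) (x : P2 ℂ),
      (vf a2 b2)^[j] (vf a1 b1 x) = vf a1 b1 ((vf a2 b2)^[j] x) := by
    intro j
    induction j with
    | zero => intro x; rfl
    | succ j ih =>
      intro x
      rw [Function.iterate_succ_apply, ← hc, ih, ← Function.iterate_succ_apply]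
  apply ext2
  intro i j
  rw [coeff2_dZ, tayh_coeff, tayh_coeff, hcom, ← Function.iterate_succ_apply,
    Nat.factorial_succ]
  have h1 : (i.factorial : ℂ) ≠ 0 := Nat.cast_ne_zero.2 (Nat.factorial_ne_zero i)
  have h2 : (j.factorial : ℂ) ≠ 0 := Nat.cast_ne_zero.2 (Nat.factorial_ne_zero j)
  have h3 : ((i : ℂ) + 1) ≠ 0 := Nat.cast_add_one_ne_zero i
  push_cast
  field_simp

private theorem tayhT_dW (a1 b1 a2 b2 : P2 ℂ) (f : P2 ℂ) :
    dW (tayhT a1 b1 a2 b2 f) = tayhT a1 b1 a2 b2 (vf a2 b2 f) := by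
  apply ext2
  intro i j
  rw [coeff2_dW, tayh_coeff, tayh_coeff, ← Function.iterate_succ_apply (vf a2 b2),
    Nat.factorial_succ]
  have h1 : (i.factorial : ℂ) ≠ 0 := Nat.cast_ne_zero.2 (Nat.factorial_ne_zero i)
  have h2 : (j.factorial : ℂ) ≠ 0 := Nat.cast_ne_zero.2 (Nat.factorial_ne_zero j)
  have h3 : ((j : ℂ) + 1) ≠ 0 := Nat.cast_add_one_ne_zero j
  push_cast
  field_simp

private theorem tayhT_mul (a1 b1 a2 b2 : P2 ℂ)
    (hc : ∀ f, vf a1 b1 (vf a2 b2 f) = vf a2 b2 (vf a1 b1 f)) (f g : P2 ℂ) :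
    tayhT a1 b1 a2 b2 (f * g) = tayhT a1 b1 a2 b2 f * tayhT a1 b1 a2 b2 g := by
  have key : ∀ N i j : ℕ, i + j = N → ∀ f g : P2 ℂ,
      coeff i (coeff j (tayhT a1 b1 a2 b2 (f * g) - tayhT a1 b1 a2 b2 f * tayhT a1 b1 a2 b2 g))
        = 0 := by
    intro N
    induction N with
    | zero =>
      intro i j hij f g
      obtain rfl : i = 0 := by omega
      obtain rfl : j = 0 := by omega
      have h := tayhT_v0 a1 b1 a2 b2 (f * g)
      rw [tayh_v0_mul, ← tayhT_v0 a1 b1 a2 b2 f, ← tayhT_v0 a1 b1 a2 b2 g, ← tayh_v0_mul] at h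
      rw [map_sub, map_sub, sub_eq_zero]
      exact h
    | succ N ih =>
      intro i j hij f g
      rcases i with _ | i
      · obtain ⟨j, rfl⟩ : ∃ k, j = k + 1 := ⟨j - 1, by omega⟩
        have h1 := ih 0 j (by omega) f (vf a2 b2 g)
        have h2 := ih 0 j (by omega) g (vf a2 b2 f)
        have h3 : dW (tayhT a1 b1 a2 b2 (f * g)
            - tayhT a1 b1 a2 b2 f * tayhT a1 b1 a2 b2 g)
            = (tayhT a1 b1 a2 b2 (f * vf a2 b2 g)
                - tayhT a1 b1 a2 b2 f * tayhT a1 b1 a2 b2 (vf a2 b2 g))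
              + (tayhT a1 b1 a2 b2 (g * vf a2 b2 f)
                - tayhT a1 b1 a2 b2 g * tayhT a1 b1 a2 b2 (vf a2 b2 f)) := by
          rw [dW_sub, dW_mul, tayhT_dW, tayhT_dW, tayhT_dW, tayh_mul, tayhT_add]
          ring
        have h4 := congrArg (fun x => coeff 0 (coeff j x)) h3
        rw [coeff2_dW, map_add, map_add, h1, h2, add_zero] at h4
        exact (mul_eq_zero.1 h4).resolve_right (Nat.cast_add_one_ne_zero j)
      · have h1 := ih i j (by omega) f (vf a1 b1 g)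
        have h2 := ih i j (by omega) g (vf a1 b1 f)
        have h3 : dZ (tayhT a1 b1 a2 b2 (f * g)
            - tayhT a1 b1 a2 b2 f * tayhT a1 b1 a2 b2 g)
            = (tayhT a1 b1 a2 b2 (f * vf a1 b1 g)
                - tayhT a1 b1 a2 b2 f * tayhT a1 b1 a2 b2 (vf a1 b1 g))
              + (tayhT a1 b1 a2 b2 (g * vf a1 b1 f)
                - tayhT a1 b1 a2 b2 g * tayhT a1 b1 a2 b2 (vf a1 b1 f)) := by
          rw [dZ_sub, dZ_mul, tayhT_dZ _ _ _ _ hc, tayhT_dZ _ _ _ _ hc, tayhT_dZ _ _ _ _ hc,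
            tayh_mul, tayhT_add]
          ring
        have h4 := congrArg (fun x => coeff i (coeff j x)) h3
        rw [coeff2_dZ, map_add, map_add, h1, h2, add_zero] at h4
        exact (mul_eq_zero.1 h4).resolve_right (Nat.cast_add_one_ne_zero i)
  apply ext2
  intro i j
  have h := key (i + j) i j rfl f g
  rw [map_sub, map_sub, sub_eq_zero] at h
  exact h

theorem tayH (a1 b1 a2 b2 : P2 ℂ) (hc : ∀ f, vf a1 b1 (vf a2 b2 f) = vf a2 b2 (vf a1 b1 f)) :
    ∃ τ : P2 ℂ →+* P2 ℂ, (∀ c, τ (cc c) = cc c) ∧ (∀ f, dZ (τ f) = τ (vf a1 b1 f)) ∧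
      (∀ f, dW (τ f) = τ (vf a2 b2 f)) ∧ (∀ f, v0 (τ f) = v0 f) ∧
      ∀ f i j, coeff i (coeff j (τ f)) * ((i.factorial : ℂ) * (j.factorial : ℂ))
        = v0 ((vf a1 b1)^[i] ((vf a2 b2)^[j] f)) := by
  have h1 : tayhT a1 b1 a2 b2 1 = 1 := by
    rw [← cc_one, tayhT_cc]
  have h0 : tayhT a1 b1 a2 b2 0 = 0 := by
    rw [← cc_zero, tayhT_cc]
  refine ⟨{ toFun := tayhT a1 b1 a2 b2
            map_one' := h1
            map_zero' := h0
            map_mul' := tayhT_mul a1 b1 a2 b2 hc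
            map_add' := tayhT_add a1 b1 a2 b2 }, fun c => tayhT_cc a1 b1 a2 b2 c,
    fun f => tayhT_dZ a1 b1 a2 b2 hc f, fun f => tayhT_dW a1 b1 a2 b2 f,
    fun f => tayhT_v0 a1 b1 a2 b2 f, fun f i j => ?_⟩
  change coeff i (coeff j (tayhT a1 b1 a2 b2 f)) * _ = _
  have h2 : ((i.factorial : ℂ) * (j.factorial : ℂ)) ≠ 0 :=
    mul_ne_zero (Nat.cast_ne_zero.2 (Nat.factorial_ne_zero i))
      (Nat.cast_ne_zero.2 (Nat.factorial_ne_zero j))
  rw [tayh_coeff, div_mul_cancel₀ _ h2]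

end Pool.Agent.Work.MP_abe657_gt.CM
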