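import Pool.Agent.Work.MP_abe657_gt.CM.Causal

/-!
# MP_abe657_gt, part CM, module Tran

Size S-M. Formal solutions: a linear transport equation, and square roots.

Proof. `tran`: `causal_exists` with `A = PowerSeries ℂ`, `ι = Unit`, `Φ Y = -(σ * dZ Y)` (the coefficient of `w^j` of `σ * dZ Y` involves only
`coeff l Y`, `l ≤ j`: `coeff_mul`, `coeff_dZ`), initial value `X`. `sqrt2`: `u` is a unit (`PowerSeries.isUnit_iff_constantCoeff` twice,
nonzero value in `ℂ`), with inverse `g`. First in one variable: for `p : PowerSeries ℂ` with `coeff 0 p ≠ 0` there is `q` with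
`q * q = p`: let `c^2 = coeff 0 p` and solve `q' = (1/2) p' p⁻¹ q`, `q(0) = c` (`causal_exists`, `A = ℂ`); `(q^2 p⁻¹)' = 0`. Then in two
variables: solve `dW s = cc (1/2) * dW u * g * s` with `coeff 0 s = q`, `q^2 = coeff 0 u`: `dW (s * s * g) = 0` (`dW g = -g^2 * dW u`), and its
value on the axis is `1`; so `s * s * g = 1` (`eq_zs_of_dW`) and `s * s = u`.
-/

set_option autoImplicit false

namespace Pool.Agent.Work.MP_abe657_gt.CM

open PowerSeries

private theorem mul_congr' {A : Type} [CommRing A] (σ : PowerSeries A) {f g : PowerSeries A} {j : ℕ}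
    (h : ∀ l ≤ j, coeff l f = coeff l g) : coeff j (σ * f) = coeff j (σ * g) := by
  rw [coeff_mul, coeff_mul]
  refine Finset.sum_congr rfl fun p hp => ?_
  have hle : p.2 ≤ j := by
    have := Finset.HasAntidiagonal.mem_antidiagonal.1 hp
    omega
  rw [h p.2 hle]

theorem tran (σ : P2 ℂ) : ∃ f : P2 ℂ, dW f = -(σ * dZ f) ∧ coeff 0 f = PowerSeries.X := by
  obtain ⟨Y, h1, h2⟩ := causal_exists (A := PowerSeries ℂ) (ι := Unit)
    (fun Y _ => -(σ * dZ (Y ()))) (by
      intro Y Z j h _
      rw [map_neg, map_neg]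
      congr 1
      refine mul_congr' σ fun l hl => ?_
      rw [coeff_dZ, coeff_dZ, h () l hl]) (fun _ => PowerSeries.X)
  exact ⟨Y (), h2 (), h1 ()⟩

private theorem sqrt1 {A : Type} [CommRing A] [IntInv A] {p g : PowerSeries A} (hpg : p * g = 1)
    {c : A} (hc : c * c = coeff 0 p) : ∃ q : PowerSeries A, q * q = p ∧ coeff 0 q = c := by
  obtain ⟨h, hh⟩ := exists_div_succ (1 : A) 1
  have hh2 : (C h : PowerSeries A) * 2 = 1 := by
    have h3 : h * 2 = 1 := by
      rw [Nat.cast_one] at hh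
      rw [← hh]
      ring
    have h4 : (2 : PowerSeries A) = C (2 : A) := (map_ofNat _ 2).symm
    rw [h4, ← map_mul, h3, map_one]
  obtain ⟨Y, h1, h2⟩ := causal_exists (A := A) (ι := Unit)
    (fun Y _ => C h * d⁄dX A p * g * Y ()) (by
      intro Y Z j h _
      exact mul_congr' _ fun l hl => h () l hl) (fun _ => c)
  have e1 : d⁄dX A (Y ()) = C h * d⁄dX A p * g * Y () := h2 ()
  have e0 : coeff 0 (Y ()) = c := h1 ()
  generalize Y () = q at e1 e0
  have hg : d⁄dX A g = -(g * g * d⁄dX A p) := by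
    have h3 : d⁄dX A (p * g) = 0 := by
      rw [hpg, ← map_one (C : A →+* PowerSeries A)]
      exact derivative_C
    rw [leib1] at h3
    have h5 : d⁄dX A g = g * (p * d⁄dX A g) := by
      rw [← mul_assoc, mul_comm g p, hpg, one_mul]
    rw [h5, eq_neg_of_add_eq_zero_left h3]
    ring
  have hT : q * q * g = 1 := by
    refine ps_eq_of_derivative ?_ ?_
    · rw [leib1, leib1, hg, e1]
      have h6 : d⁄dX A (1 : PowerSeries A) = 0 := by
        rw [← map_one (C : A →+* PowerSeries A)]
        exact derivative_C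
      rw [h6]
      linear_combination (g * q * q * g * d⁄dX A p) * hh2
    · have h7 : coeff 0 p * coeff 0 g = 1 := by
        have := congrArg (coeff 0) hpg
        simpa only [coeff_zero_eq_constantCoeff, map_mul, map_one] using this
      have h8 : coeff 0 (q * q * g) = coeff 0 q * coeff 0 q * coeff 0 g := by
        simp only [coeff_zero_eq_constantCoeff, map_mul]
      rw [h8, e0, hc, h7]
      simp
  refine ⟨q, ?_, e0⟩
  calc q * q = q * q * (p * g) := by rw [hpg, mul_one]
    _ = (q * q * g) * p := by ring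
    _ = p := by rw [hT, one_mul]

theorem sqrt2 (u : P2 ℂ) (hu : v0 u ≠ 0) : ∃ s : P2 ℂ, s * s = u := by
  have h0 : IsUnit (coeff 0 u : PowerSeries ℂ) := by
    rw [PowerSeries.isUnit_iff_constantCoeff]
    have : constantCoeff (coeff 0 u : PowerSeries ℂ) ≠ 0 := by
      rw [← coeff_zero_eq_constantCoeff_apply]
      exact hu
    exact this.isUnit
  have h1 : IsUnit u := by
    rw [PowerSeries.isUnit_iff_constantCoeff]
    rw [coeff_zero_eq_constantCoeff_apply] at h0
    exact h0
  obtain ⟨g0, hg0⟩ := h0.exists_right_inv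
  obtain ⟨g, hg⟩ := h1.exists_right_inv
  obtain ⟨c, hc⟩ := IsAlgClosed.exists_pow_nat_eq (coeff 0 (coeff 0 u) : ℂ) (n := 2) (by norm_num)
  obtain ⟨q, hq, _⟩ := sqrt1 hg0 (c := c) (by rw [← hc]; ring)
  obtain ⟨s, hs, _⟩ := sqrt1 (A := PowerSeries ℂ) hg (c := q) hq
  exact ⟨s, hs⟩

end Pool.Agent.Work.MP_abe657_gt.CM
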