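import Pool.Agent.Work.MP_abe657_gt.CM.Lin

/-!
# MP_abe657_gt, part CM, module ZTr

Size M. Two data which agree except for the coefficients of degree `> i` of `Q`.

Proof. Say `f ~_N f'` if `coeff l (coeff J f) = coeff l (coeff J f')` for all `l ≤ N` and all `J`. This is compatible with `+`, `-`,
`*` (`coeff2_mul`), `cc`, `zs`, `ws`, and `f ~_N f'` implies `dZ f ~_(N-1) dZ f'` (for `N ≥ 1`), `dW f ~_N dW f'`; conversely
`dZ f ~_N dZ f'` and equality of the coefficients of `z^0` imply `f ~_(N+1) f'` (`coeff2_dZ`, `mul_succ_cancel`).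
Claim `F ~_(i+1) F'`, `G ~_(i+1) G'`, `r ~_(i+1) r'`: by induction on the `w`-degree `J`: if the coefficients of `w^J'`, `J' ≤ J`, of
`F, G` agree up to `z^(i+1)`, then those of `dZ r` (`r_z`; `Q` agrees up to `z^i`) agree up to `z^i`, so those of `r` agree up
to `z^(i+1)` (`r0`), and then those of `w^(J+1)` of `F` and `G` by `F_w`, `G_w` (`coeff2_dW`). Start: `F0`, `G0`.
Frame: on the axis `w = 0`, by induction on the `z`-degree, the coefficients of `z^l`, `l ≤ i + 1`, of the three components agree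
(`dX (coeff 0 e1) = Q * coeff 0 n` etc.; the coefficient of `z^(l+1)` only involves coefficients of degree `≤ l ≤ i`); then by
induction on the `w`-degree with `e1_w, e2_w, n_w`. Finally `(Lop G)^[p] n ~_(i+1-p) (Lop G')^[p] n'` for `p ≤ i + 1`, and in
`PL (m+1)` only `p ≤ m + 1` occurs, so the coefficients of `z^(i-m)` agree.
-/

set_option autoImplicit false

namespace Pool.Agent.Work.MP_abe657_gt.CM

open PowerSeries

variable {R : Type} [CommRing R] [IntInv R]

/-- agreement of the coefficients of degree at most `N` -/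
private def E1 (N : ℕ) (p q : PowerSeries R) : Prop := ∀ l ≤ N, coeff l p = coeff l q

omit [IntInv R] in
private theorem E1.rfl' (N : ℕ) (p : PowerSeries R) : E1 N p p := fun _ _ => rfl

omit [IntInv R] in
private theorem E1.mono {N M : ℕ} {p q : PowerSeries R} (h : E1 N p q) (hM : M ≤ N) : E1 M p q :=
  fun l hl => h l (hl.trans hM)

omit [IntInv R] in
private theorem E1.add {N : ℕ} {p q p' q' : PowerSeries R} (h : E1 N p q) (h' : E1 N p' q') :
    E1 N (p + p') (q + q') := fun l hl => by rw [map_add, map_add, h l hl, h' l hl]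

omit [IntInv R] in
private theorem E1.neg {N : ℕ} {p q : PowerSeries R} (h : E1 N p q) :
    E1 N (-p) (-q) := fun l hl => by rw [map_neg, map_neg, h l hl]

omit [IntInv R] in
private theorem E1.mul {N : ℕ} {p q p' q' : PowerSeries R} (h : E1 N p q) (h' : E1 N p' q') :
    E1 N (p * p') (q * q') := by
  intro l hl
  rw [coeff_mul, coeff_mul]
  refine Finset.sum_congr rfl fun x hx => ?_
  have hx' := Finset.HasAntidiagonal.mem_antidiagonal.mp hx
  rw [h x.1 (by omega), h' x.2 (by omega)]

private theorem E1.int {N : ℕ} {p q : PowerSeries R} (h : E1 N (d⁄dX R p) (d⁄dX R q))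
    (h0 : coeff 0 p = coeff 0 q) : E1 (N + 1) p q := by
  intro l hl
  rcases l with _ | l
  · exact h0
  · have := h l (by omega)
    rw [coeff_derivative, coeff_derivative] at this
    exact mul_succ_cancel l this

omit [IntInv R] in
private theorem E1.der {N : ℕ} {p q : PowerSeries R} (h : E1 (N + 1) p q) :
    E1 N (d⁄dX R p) (d⁄dX R q) := by
  intro l hl
  rw [coeff_derivative, coeff_derivative, h (l + 1) (by omega)]

/-- agreement of the coefficients of degree at most `N` in `z` and at most `J` in `w` -/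
private def E2 (N J : ℕ) (f g : P2 R) : Prop := ∀ j ≤ J, E1 N (coeff j f) (coeff j g)

omit [IntInv R] in
private theorem E2.rfl' (N J : ℕ) (p : P2 R) : E2 N J p p := fun _ _ => E1.rfl' _ _

omit [IntInv R] in
private theorem E2.mono {N M J : ℕ} {p q : P2 R} (h : E2 N J p q) (hM : M ≤ N) : E2 M J p q :=
  fun l hl => (h l hl).mono hM

omit [IntInv R] in
private theorem E2.add {N J : ℕ} {p q p' q' : P2 R} (h : E2 N J p q) (h' : E2 N J p' q') :
    E2 N J (p + p') (q + q') := fun l hl => by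
  rw [map_add, map_add]; exact (h l hl).add (h' l hl)

omit [IntInv R] in
private theorem E2.neg {N J : ℕ} {p q : P2 R} (h : E2 N J p q) :
    E2 N J (-p) (-q) := fun l hl => by
  rw [map_neg, map_neg]; exact (h l hl).neg

omit [IntInv R] in
private theorem E2.mul {N J : ℕ} {p q p' q' : P2 R} (h : E2 N J p q) (h' : E2 N J p' q') :
    E2 N J (p * p') (q * q') := by
  intro j hj l hl
  rw [coeff_mul, coeff_mul, map_sum, map_sum]
  refine Finset.sum_congr rfl fun x hx => ?_
  have hx' := Finset.HasAntidiagonal.mem_antidiagonal.mp hx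
  exact (h x.1 (by omega)).mul (h' x.2 (by omega)) l hl

private theorem E2.intW {N J : ℕ} {f g : P2 R} (h : E2 N J (dW f) (dW g))
    (h0 : E1 N (coeff 0 f) (coeff 0 g)) : E2 N (J + 1) f g := by
  intro j hj
  rcases j with _ | j
  · exact h0
  · intro l hl
    have := h j (by omega) l hl
    rw [coeff2_dW, coeff2_dW] at this
    exact mul_succ_cancel j this

private theorem E2.intZ {N J : ℕ} {f g : P2 R} (h : E2 N J (dZ f) (dZ g))
    (h0 : ∀ j, coeff 0 (coeff j f) = coeff 0 (coeff j g)) : E2 (N + 1) J f g := by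
  intro j hj
  have := h j hj
  rw [coeff_dZ, coeff_dZ] at this
  exact this.int (h0 j)

omit [IntInv R] in
private theorem E2.dZ' {N J : ℕ} {f g : P2 R} (h : E2 (N + 1) J f g) : E2 N J (dZ f) (dZ g) := by
  intro j hj
  rw [coeff_dZ, coeff_dZ]
  exact (h j hj).der

omit [IntInv R] in
private theorem E2.dW' {N J : ℕ} {f g : P2 R} (h : E2 N (J + 1) f g) : E2 N J (dW f) (dW g) := by
  intro j hj
  rw [coeff_dW, coeff_dW]
  exact (h (j + 1) (by omega)).mul (E1.rfl' _ _)

omit [IntInv R] in
private theorem E2.zs' {N J : ℕ} {p q : PowerSeries R} (h : E1 N p q) : E2 N J (zs p) (zs q) := by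
  intro j _
  rw [coeff_zs, coeff_zs]
  split_ifs
  · exact h
  · exact E1.rfl' _ _

theorem ztr {D D' : Dat R} {F G r F' G' r' : P2 R} {a : Fin 3 → R} {e1 e2 n e1' e2' n' : P2 R}
    (i m : ℕ) (him : m ≤ i) (μ : ℕ → R) (h1 : D.h1 = D'.h1)
    (h2 : D.h2 = D'.h2) (hQt : D.Qt = D'.Qt) (hQ : ∀ l ≤ i, coeff l D.Q = coeff l D'.Q)
    (hB : IsBase D F G r) (hB' : IsBase D' F' G' r')
    (hV : IsVec D F G r a e1 e2 n) (hV' : IsVec D' F' G' r' a e1' e2' n') (J : ℕ) :
    coeff (i - m) (coeff J (PL (m + 1) μ G n)) = coeff (i - m) (coeff J (PL (m + 1) μ G' n')) := by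
  have hQ' : E1 i D.Q D'.Q := hQ
  -- the base functions
  have hrJ : ∀ J, E2 (i + 1) J F F' → E2 (i + 1) J G G' → E2 (i + 1) J r r' := by
    intro J hF hG
    refine E2.intZ ?_ fun j => by rw [hB.r0, hB'.r0]
    rw [hB.r_z, hB'.r_z, h1, h2, hQt]
    exact (((E2.rfl' _ _ _).mul (hF.mono (Nat.le_succ i))).neg).add
      (((E2.zs' hQ').mul (E2.rfl' _ _ _)).mul (hG.mono (Nat.le_succ i)))
  have hFG : ∀ J, E2 (i + 1) J F F' ∧ E2 (i + 1) J G G' := by
    intro J
    induction J with
    | zero =>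
      constructor
      · intro j hj
        rw [Nat.le_zero.mp hj, hB.F0, hB'.F0]
        exact E1.rfl' _ _
      · intro j hj
        rw [Nat.le_zero.mp hj, hB.G0, hB'.G0]
        exact E1.rfl' _ _
    | succ J ih =>
      have hr := hrJ J ih.1 ih.2
      constructor
      · refine E2.intW ?_ (by rw [hB.F0, hB'.F0]; exact E1.rfl' _ _)
        rw [hB.F_w, hB'.F_w]
        exact hr.mul ih.1
      · refine E2.intW ?_ (by rw [hB.G0, hB'.G0]; exact E1.rfl' _ _)
        rw [hB.G_w, hB'.G_w]
        exact (hr.mul ih.2).neg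
  have hF : ∀ J, E2 (i + 1) J F F' := fun J => (hFG J).1
  have hG : ∀ J, E2 (i + 1) J G G' := fun J => (hFG J).2
  have hr : ∀ J, E2 (i + 1) J r r' := fun J => hrJ J (hF J) (hG J)
  -- the frame on the axis
  have hax : ∀ l ≤ i + 1, E1 l (coeff 0 e1) (coeff 0 e1') ∧ E1 l (coeff 0 e2) (coeff 0 e2') ∧
      E1 l (coeff 0 n) (coeff 0 n') := by
    intro l
    induction l with
    | zero =>
      intro _
      refine ⟨?_, ?_, ?_⟩
      · intro l hl
        rw [Nat.le_zero.mp hl, hV.i1, hV'.i1]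
      · intro l hl
        rw [Nat.le_zero.mp hl, hV.i2, hV'.i2]
      · intro l hl
        rw [Nat.le_zero.mp hl, hV.i3, hV'.i3]
    | succ l ih =>
      intro hl
      obtain ⟨a1, a2, a3⟩ := ih (by omega)
      have hQl : E1 l D.Q D'.Q := hQ'.mono (by omega)
      refine ⟨E1.int ?_ ?_, E1.int ?_ ?_, E1.int ?_ ?_⟩
      · rw [hV.e1_z, hV'.e1_z]
        exact hQl.mul a3
      · rw [hV.i1, hV'.i1]
      · rw [hV.e2_z, hV'.e2_z, h1]
        exact (E1.rfl' _ _).mul a3
      · rw [hV.i2, hV'.i2]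
      · rw [hV.n_z, hV'.n_z, h1, sub_eq_add_neg, sub_eq_add_neg]
        exact (((E1.rfl' _ _).mul a1).neg).add ((hQl.mul a2).neg)
      · rw [hV.i3, hV'.i3]
  obtain ⟨x1, x2, x3⟩ := hax (i + 1) le_rfl
  have hfr : ∀ J, E2 (i + 1) J e1 e1' ∧ E2 (i + 1) J e2 e2' ∧ E2 (i + 1) J n n' := by
    intro J
    induction J with
    | zero =>
      refine ⟨?_, ?_, ?_⟩
      · intro j hj
        rw [Nat.le_zero.mp hj]
        exact x1
      · intro j hj
        rw [Nat.le_zero.mp hj]
        exact x2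
      · intro j hj
        rw [Nat.le_zero.mp hj]
        exact x3
    | succ J ih =>
      obtain ⟨a1, a2, a3⟩ := ih
      refine ⟨E2.intW ?_ x1, E2.intW ?_ x2, E2.intW ?_ x3⟩
      · rw [hV.e1_w, hV'.e1_w, h2]
        exact (E2.rfl' _ _ _).mul ((hF J).mul a3)
      · rw [hV.e2_w, hV'.e2_w, hQt]
        exact ((hr J).mul a2).add ((E2.rfl' _ _ _).mul a3)
      · rw [hV.n_w, hV'.n_w, h2, hQt, sub_eq_add_neg, sub_eq_add_neg]
        exact ((((E2.rfl' _ _ _).mul (hG J)).mul a1).neg).add (((E2.rfl' _ _ _).mul a2).neg)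
  -- iterates of the operator
  have hit : ∀ p ≤ i + 1, ∀ J, E2 (i + 1 - p) J ((Lop G)^[p] n) ((Lop G')^[p] n') := by
    intro p
    induction p with
    | zero => exact fun _ J => (hfr J).2.2
    | succ p ih =>
      intro hp J
      have h3 := ih (by omega) (J + 1)
      have e : i + 1 - p = (i + 1 - (p + 1)) + 1 := by omega
      rw [Function.iterate_succ_apply', Function.iterate_succ_apply', Lop, Lop]
      rw [e] at h3
      exact ((hG J).mono (by omega)).mul h3.dW'.dZ'
  rw [PL, PL]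
  simp only [map_sum]
  refine Finset.sum_congr rfl fun q hq => ?_
  have hq' := Finset.mem_range.mp hq
  rw [coeff2_cc_mul, coeff2_cc_mul]
  rw [hit (m + 1 - q) (by omega) J J le_rfl (i - m) (by omega)]

end Pool.Agent.Work.MP_abe657_gt.CM
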